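import Pool.Agent.Lib.MP_a460e0_co.GK.St

/-! The boundary lower bound for the Hilbert function of a lifted ideal. -/

namespace Pool.Agent.Lib.MP_a460e0_co.GK

open MvPolynomial

namespace Bdy

section fil

variable {K : Type} [Field K] {σ : Type} [Fintype σ] [DecidableEq σ] {G : Finset σ}

theorem mem_fil {d e : ℕ} {f : MvPolynomial σ K} :
    f ∈ Fil K G d e ↔ ∀ u ∈ f.support, ∑ i ∈ G, u i ≤ d ∧ ∑ i ∈ Gᶜ, u i ≤ e := Iff.rfl

theorem fil_mono {d e d' e' : ℕ} {f : MvPolynomial σ K} (h : f ∈ Fil K G d e) (hd : d ≤ d')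
    (he : e ≤ e') : f ∈ Fil K G d' e' :=
  mem_fil.2 fun u hu => ⟨(mem_fil.1 h u hu).1.trans hd, (mem_fil.1 h u hu).2.trans he⟩

theorem fil_mul {d e d' e' : ℕ} {f g : MvPolynomial σ K} (hf : f ∈ Fil K G d e)
    (hg : g ∈ Fil K G d' e') : f * g ∈ Fil K G (d + d') (e + e') := by
  refine mem_fil.2 fun u hu => ?_
  obtain ⟨a, ha, b, hb, rfl⟩ := Finset.mem_add.1 (support_mul f g hu)
  have h1 := mem_fil.1 hf a ha
  have h2 := mem_fil.1 hg b hb
  simp only [Finsupp.add_apply, Finset.sum_add_distrib]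
  omega

theorem fil_C (c : K) : (C c : MvPolynomial σ K) ∈ Fil K G 0 0 := by
  refine mem_fil.2 fun u hu => ?_
  have h := support_monomial_subset (show u ∈ (monomial (0 : σ →₀ ℕ) c).support from hu)
  rw [Finset.mem_singleton] at h
  simp [h]

theorem fil_pow {d e : ℕ} {f : MvPolynomial σ K} (hf : f ∈ Fil K G d e) (n : ℕ) :
    f ^ n ∈ Fil K G (n * d) (n * e) := by
  induction n with
  | zero => simpa using fil_C (G := G) (1 : K)
  | succ n ih =>
    rw [pow_succ, Nat.succ_mul, Nat.succ_mul]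
    exact fil_mul ih hf

theorem fil_X (i : σ) :
    (X i : MvPolynomial σ K) ∈ Fil K G (if i ∈ G then 1 else 0) (if i ∈ G then 0 else 1) := by
  refine mem_fil.2 fun u hu => ?_
  rw [support_X, Finset.mem_singleton] at hu
  subst hu
  by_cases h : i ∈ G <;> simp [Finsupp.single_apply, h]

theorem fil_finite (d e : ℕ) : Module.Finite K (Fil K G d e) := by
  have h : Fil K G d e ≤ restrictTotalDegree σ K (d + e) := by
    intro f hf
    rw [mem_restrictTotalDegree, totalDegree]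
    refine Finset.sup_le fun u hu => ?_
    have h1 := mem_fil.1 hf u hu
    rw [Finsupp.sum_fintype _ _ fun _ => rfl, ← Finset.sum_add_sum_compl G]
    omega
  exact Module.Finite.of_injective (Submodule.inclusion h) (Submodule.inclusion_injective h)

theorem card_le {ι : Type} [Fintype ι] {d e : ℕ} (I : Ideal (MvPolynomial σ K))
    (f : ι → MvPolynomial σ K) (hf : ∀ k, f k ∈ Fil K G d e)
    (h : LinearIndependent K fun k => Ideal.Quotient.mk I (f k)) :
    Fintype.card ι ≤ HF G I d e := by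
  haveI := fil_finite (K := K) (G := G) d e
  let W := (Fil K G d e).map (Ideal.Quotient.mkₐ K I).toLinearMap
  let v : ι → W := fun k => ⟨Ideal.Quotient.mk I (f k), Submodule.mem_map_of_mem (hf k)⟩
  have hv : LinearIndependent K v := LinearIndependent.of_comp W.subtype h
  exact hv.fintype_card_le_finrank

end fil

variable {K : Type} [Field K]

/-- Independence by the lowest power of the variable. -/
theorem li_low {B : Type} [CommRing B] [Algebra K B] {J : Type} [Fintype J] (r q : ℕ)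
    (b : Fin q → J → B) (f : Fin q × J → Polynomial B)
    (hb : ∀ i, LinearIndependent K (b i))
    (hf : ∀ i j, ∃ h : Polynomial B, h.coeff 0 = b i j ∧ f (i, j) = Polynomial.X ^ (r + i) * h) :
    LinearIndependent K f := by
  choose h h0 hh using hf
  rw [Fintype.linearIndependent_iff]
  intro c hc
  have key : ∀ n : ℕ, ∀ i : Fin q, (i : ℕ) = n → ∀ j, c (i, j) = 0 := by
    intro n
    induction n using Nat.strong_induction_on with
    | _ n ih =>
      intro i hi
      have h1 := congrArg (fun p => Polynomial.coeff p (r + i)) hc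
      simp only [Polynomial.finsetSum_coeff, Polynomial.coeff_smul, Polynomial.coeff_zero,
        Fintype.sum_prod_type, hh] at h1
      rw [Finset.sum_eq_single i] at h1
      · refine Fintype.linearIndependent_iff.1 (hb i) (fun j => c (i, j)) ?_
        rw [← h1]
        refine Finset.sum_congr rfl fun j _ => ?_
        rw [Polynomial.coeff_X_pow_mul', if_pos le_rfl, Nat.sub_self, h0]
      · intro i' _ hne
        refine Finset.sum_eq_zero fun j _ => ?_
        rcases lt_or_gt_of_ne (fun e => hne (Fin.ext e) : (i' : ℕ) ≠ i) with hl | hl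
        · rw [ih i' (hi ▸ hl) i' rfl j, zero_smul]
        · rw [Polynomial.coeff_X_pow_mul', if_neg (by omega), smul_zero]
      · intro hn
        exact absurd (Finset.mem_univ i) hn
  rintro ⟨i, j⟩
  exact key i i rfl j

/-- The abstract form: a map to a polynomial ring in two variables over the quotient. -/
theorem core {A : Type} [CommRing A] [Algebra K A] (π : S K →ₐ[K] A)
    (ψ : R K →ₐ[K] Polynomial (Polynomial A)) (J : Ideal (R K)) (hJ : ∀ f ∈ J, ψ f = 0)
    (i0 i1 i2 i3 : Fin 4)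
    (hi : ∀ (u : Fin 4 →₀ ℕ) (c : K), (monomial u c : S K) =
      C c * (X i0 ^ u i0 * X i1 ^ u i1 * X i2 ^ u i2 * X i3 ^ u i3))
    (κ ω : A) (hκ : ∀ a, κ * a = 0 → a = 0) (hω : ∀ a, ω * a = 0 → a = 0)
    (px py pz pu p0 p1 pe : R K) (y' z' : A)
    (fx : px ∈ Fil K G4 0 1) (fy : py ∈ Fil K G4 1 0) (fz : pz ∈ Fil K G4 1 0)
    (fu : pu ∈ Fil K G4 1 0) (f0 : p0 ∈ Fil K G4 1 1) (f1 : p1 ∈ Fil K G4 1 1)
    (fe : pe ∈ Fil K G4 2 0)
    (ex : ψ px = Polynomial.C (Polynomial.C (π (X i0))))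
    (ey : ψ py = Polynomial.C Polynomial.X * Polynomial.C (Polynomial.C (π (X i1))) +
      Polynomial.X * Polynomial.C (Polynomial.C y'))
    (ez : ψ pz = Polynomial.C Polynomial.X * Polynomial.C (Polynomial.C (π (X i2))) +
      Polynomial.X * Polynomial.C (Polynomial.C z'))
    (eu : ψ pu = Polynomial.C Polynomial.X + Polynomial.X)
    (e0 : ψ p0 = Polynomial.X * Polynomial.C (Polynomial.C (ω * π (X i3))))
    (e1 : ψ p1 = Polynomial.X * Polynomial.C (Polynomial.C ω))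
    (ee : ψ pe = Polynomial.X * Polynomial.C (Polynomial.X * Polynomial.C κ))
    {ι : Type} [Fintype ι] (χ : ι → S K) (r1 m0 r q : ℕ)
    (hχ : LinearIndependent K fun k => π (χ k))
    (hd : ∀ k, (χ k).degreeOf i0 ≤ r1 ∧ (χ k).degreeOf i1 ≤ m0 ∧ (χ k).degreeOf i2 ≤ m0 ∧
      (χ k).degreeOf i3 ≤ r) :
    (q + 1) ^ 2 * Fintype.card ι ≤ HF G4 J (2 * m0 + r + 3 * q) (r + r1) := by
  have hl : ∀ k, ∃ L ∈ Fil K G4 (2 * m0 + r) (r + r1), ∃ h : Polynomial (Polynomial A),
      h.coeff 0 = Polynomial.X ^ (2 * m0) * Polynomial.C (ω ^ r * π (χ k)) ∧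
      ψ L = Polynomial.X ^ r * h := by
    intro k
    have hu : ∀ u ∈ (χ k).support, u i0 ≤ r1 ∧ u i1 ≤ m0 ∧ u i2 ≤ m0 ∧ u i3 ≤ r := fun u hu =>
      ⟨(monomial_le_degreeOf i0 hu).trans (hd k).1, (monomial_le_degreeOf i1 hu).trans (hd k).2.1,
        (monomial_le_degreeOf i2 hu).trans (hd k).2.2.1,
        (monomial_le_degreeOf i3 hu).trans (hd k).2.2.2⟩
    refine ⟨∑ u ∈ (χ k).support, C (coeff u (χ k)) * (px ^ u i0 * py ^ u i1 * pz ^ u i2 *
      pu ^ (2 * m0 - u i1 - u i2) * p0 ^ u i3 * p1 ^ (r - u i3)), ?_,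
      ∑ u ∈ (χ k).support, ψ (C (coeff u (χ k)) * (px ^ u i0 * py ^ u i1 * pz ^ u i2 *
      pu ^ (2 * m0 - u i1 - u i2))) * (Polynomial.C (Polynomial.C (ω * π (X i3))) ^ u i3 *
      Polynomial.C (Polynomial.C ω) ^ (r - u i3)), ?_, ?_⟩
    · refine Submodule.sum_mem _ fun u h => ?_
      have h1 := hu u h
      refine fil_mono (fil_mul (fil_C _) (fil_mul (fil_mul (fil_mul (fil_mul (fil_mul
        (fil_pow fx _) (fil_pow fy _)) (fil_pow fz _)) (fil_pow fu _)) (fil_pow f0 _))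
        (fil_pow f1 _))) ?_ ?_ <;> omega
    · have h2 : π (χ k) = ∑ u ∈ (χ k).support, π (monomial u (coeff u (χ k))) := by
        rw [← map_sum, ← as_sum]
      rw [h2, Finset.mul_sum, map_sum, Finset.mul_sum, Polynomial.finsetSum_coeff]
      refine Finset.sum_congr rfl fun u h => ?_
      have h1 := hu u h
      obtain ⟨a, ha⟩ : ∃ a, 2 * m0 = a + u i1 + u i2 := ⟨2 * m0 - u i1 - u i2, by omega⟩
      obtain ⟨b, hb⟩ : ∃ b, r = b + u i3 := ⟨r - u i3, by omega⟩
      have h3 : 2 * m0 - u i1 - u i2 = a := by omega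
      have h4 : r - u i3 = b := by omega
      rw [h3, h4, ha, hb, hi, Polynomial.coeff_zero_eq_eval_zero]
      simp only [map_mul, map_pow, ex, ey, ez, eu, algHom_C, Polynomial.algebraMap_apply,
        Polynomial.eval_mul, Polynomial.eval_pow, Polynomial.eval_add, Polynomial.eval_C,
        Polynomial.eval_X, zero_mul, add_zero]
      ring
    · rw [map_sum, Finset.mul_sum]
      refine Finset.sum_congr rfl fun u h => ?_
      have h1 := hu u h
      obtain ⟨b, hb⟩ : ∃ b, r = b + u i3 := ⟨r - u i3, by omega⟩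
      have h4 : r - u i3 = b := by omega
      rw [h4, hb]
      simp only [map_mul, map_pow, e0, e1]
      ring
  choose L hL h h0 hh using hl
  have hreg : ∀ (n : ℕ) (x : A), (∀ a, x * a = 0 → a = 0) → ∀ a, x ^ n * a = 0 → a = 0 := by
    intro n x hx
    induction n with
    | zero => intro a ha; simpa using ha
    | succ n ih => intro a ha; rw [pow_succ, mul_assoc] at ha; exact hx a (ih _ ha)
  let f : Fin (q + 1) × (Fin (q + 1) × ι) → R K := fun x =>
    pe ^ (x.1 : ℕ) * pu ^ (x.2.1 : ℕ) * L x.2.2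
  have hf : LinearIndependent K fun x => ψ (f x) := by
    refine li_low r (q + 1) (fun i j => Polynomial.X ^ (2 * m0 + i + j.1) *
      Polynomial.C (κ ^ (i : ℕ) * (ω ^ r * π (χ j.2)))) _ (fun i => ?_) fun i j => ?_
    · refine li_low (2 * m0 + i) (q + 1) (fun _ k => κ ^ (i : ℕ) * (ω ^ r * π (χ k))) _
        (fun _ => ?_) fun m k => ⟨_, Polynomial.coeff_C_zero, rfl⟩
      rw [Fintype.linearIndependent_iff]
      intro c hc
      refine Fintype.linearIndependent_iff.1 hχ c (hreg r ω hω _ (hreg i κ hκ _ ?_))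
      rw [← hc, Finset.mul_sum, Finset.mul_sum]
      refine Finset.sum_congr rfl fun k _ => ?_
      rw [mul_smul_comm, mul_smul_comm]
    · refine ⟨Polynomial.C (Polynomial.X * Polynomial.C κ) ^ (i : ℕ) *
        (Polynomial.C Polynomial.X + Polynomial.X) ^ (j.1 : ℕ) * h j.2, ?_, ?_⟩
      · rw [Polynomial.mul_coeff_zero, h0, Polynomial.coeff_zero_eq_eval_zero]
        simp only [map_mul, map_pow, Polynomial.eval_mul, Polynomial.eval_pow,
          Polynomial.eval_add, Polynomial.eval_C, Polynomial.eval_X, add_zero]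
        ring
      · simp only [f, map_mul ψ, map_pow ψ, ee, eu, hh]
        ring
  have hq : LinearIndependent K fun x => Ideal.Quotient.mk J (f x) :=
    LinearIndependent.of_comp (Ideal.Quotient.liftₐ J ψ hJ).toLinearMap hf
  have hc := card_le (G := G4) (d := 2 * m0 + r + 3 * q) (e := r + r1) J f (fun x => ?_) hq
  · simp only [Fintype.card_prod, Fintype.card_fin] at hc
    rw [pow_two, mul_assoc]
    exact hc
  · have h1 := x.1.2
    have h2 := x.2.1.2
    refine fil_mono (fil_mul (fil_mul (fil_pow fe _) (fil_pow fu _)) (hL _)) ?_ ?_ <;> omega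

/-- Substitution of the two line parameters. -/
noncomputable def sub {A : Type} [CommRing A] [Algebra K A] (π : S K →ₐ[K] A)
    (v : Fin 2 → Polynomial (Polynomial A)) : R K →ₐ[K] Polynomial (Polynomial A) :=
  (aevalTower (Polynomial.CAlgHom.comp (Polynomial.CAlgHom.comp π)) v).comp (Phi K)

theorem sub_zero' {A : Type} [CommRing A] [Algebra K A] (π : S K →ₐ[K] A) (I : Ideal (S K))
    (hI : ∀ a ∈ I, π a = 0) (v : Fin 2 → Polynomial (Polynomial A)) :
    ∀ f ∈ tilde I, sub π v f = 0 := by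
  intro f hf
  have h : Ideal.map (C : S K →+* MvPolynomial (Fin 2) (S K)) I ≤ RingHom.ker
      (aevalTower (Polynomial.CAlgHom.comp (Polynomial.CAlgHom.comp π)) v) := by
    rw [Ideal.map_le_iff_le_comap]
    intro a ha
    rw [Ideal.mem_comap, RingHom.mem_ker, aevalTower_C, AlgHom.comp_apply, AlgHom.comp_apply,
      hI a ha, map_zero, map_zero]
  exact h hf

theorem gen {A : Type} [CommRing A] [Algebra K A] (π : S K →ₐ[K] A) (I : Ideal (S K))
    (hI : ∀ a ∈ I, π a = 0) (hκ : ∀ a, π (kap K) * a = 0 → a = 0)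
    {ι : Type} [Fintype ι] (χ : ι → S K) (r1 m0 r q : ℕ)
    (hχ : LinearIndependent K fun k => π (χ k))
    (hd : (∀ k, (χ k).degreeOf 0 ≤ r1 ∧ (χ k).degreeOf 1 ≤ m0 ∧ (χ k).degreeOf 2 ≤ m0 ∧
        (χ k).degreeOf 3 ≤ r) ∨
      ∀ k, (χ k).degreeOf 0 ≤ m0 ∧ (χ k).degreeOf 1 ≤ r1 ∧ (χ k).degreeOf 2 ≤ r ∧
        (χ k).degreeOf 3 ≤ m0) :
    (q + 1) ^ 2 * Fintype.card ι ≤ HF G4 (tilde I) (2 * m0 + r + 3 * q) (r + r1) := by
  have hκ' : ∀ a, -π (kap K) * a = 0 → a = 0 := fun a ha =>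
    hκ a (by rw [neg_mul, neg_eq_zero] at ha; exact ha)
  have hω : ∀ a, π (X 0 - X 1) * a = 0 → a = 0 := fun a ha => hκ a (by
    rw [kap, map_mul, mul_right_comm, ha, zero_mul])
  have hω' : ∀ a, -π (X 0 - X 1) * a = 0 → a = 0 := fun a ha =>
    hω a (by rw [neg_mul, neg_eq_zero] at ha; exact ha)
  have g0 : (X 0 : R K) ∈ Fil K G4 1 0 := fil_X 0
  have g1 : (X 1 : R K) ∈ Fil K G4 1 0 := fil_X 1
  have g2 : (X 2 : R K) ∈ Fil K G4 1 0 := fil_X 2
  have g3 : (X 3 : R K) ∈ Fil K G4 1 0 := fil_X 3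
  have g4 : (X 4 : R K) ∈ Fil K G4 0 1 := fil_X 4
  have g5 : (X 5 : R K) ∈ Fil K G4 0 1 := fil_X 5
  have ge : (X 0 * X 3 - X 1 * X 2 : R K) ∈ Fil K G4 2 0 :=
    Submodule.sub_mem _ (fil_mul g0 g3) (fil_mul g1 g2)
  have gv : ∀ a b c : R K, a ∈ Fil K G4 1 0 → b ∈ Fil K G4 0 1 → c ∈ Fil K G4 1 0 →
      a * b + c ∈ Fil K G4 1 1 := fun a b c ha hb hc =>
    Submodule.add_mem _ (fil_mul ha hb) (fil_mono hc le_rfl zero_le_one)
  have hm : ∀ (u : Fin 4 →₀ ℕ) (c : K), (monomial u c : S K) =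
      C c * (X 0 ^ u 0 * X 1 ^ u 1 * X 2 ^ u 2 * X 3 ^ u 3) := by
    intro u c
    rw [monomial_eq, Finsupp.prod_fintype _ _ fun _ => pow_zero _, Fin.prod_univ_four]
  rcases hd with hd | hd
  · refine core π (sub π ![Polynomial.C Polynomial.X, Polynomial.X]) _ (sub_zero' π I hI _) 0 1 2 3 hm
      _ _ hκ' hω' (X 4) (-X 3) (X 0) (X 2) (X 0 * X 5 + X 1) (X 2 * X 5 + X 3)
      (X 0 * X 3 - X 1 * X 2) (π (X 0)) (π (X 3)) g4 (Submodule.neg_mem _ g3) g0 g2
      (gv _ _ _ g0 g5 g1) (gv _ _ _ g2 g5 g3) ge ?_ ?_ ?_ ?_ ?_ ?_ ?_ χ r1 m0 r q hχ hd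
    all_goals
      simp [sub, Phi, kap, Polynomial.CAlgHom]
      try ring
  · refine core π (sub π ![Polynomial.X, Polynomial.C Polynomial.X]) _ (sub_zero' π I hI _) 1 0 3 2
      (fun u c => by rw [hm]; ring)
      _ _ hκ' hω (X 5) (-X 3) (X 0) (X 2) (X 0 * X 4 + X 1) (X 2 * X 4 + X 3)
      (X 0 * X 3 - X 1 * X 2) (π (X 1)) (π (X 2)) g5 (Submodule.neg_mem _ g3) g0 g2
      (gv _ _ _ g0 g4 g1) (gv _ _ _ g2 g4 g3) ge ?_ ?_ ?_ ?_ ?_ ?_ ?_ χ r1 m0 r q hχ
      fun k => ⟨(hd k).2.1, (hd k).1, (hd k).2.2.2, (hd k).2.2.1⟩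
    all_goals
      simp [sub, Phi, kap, Polynomial.CAlgHom]
      try ring

end Bdy

theorem bdySt : BdySt := by
  intro K _ I ι _ χ r1 m0 r q hk hχ hd
  refine Bdy.gen (A := S K ⧸ I) (Ideal.Quotient.mkₐ K I) I
    (fun a ha => Ideal.Quotient.eq_zero_iff_mem.2 ha) (fun a ha => ?_) χ r1 m0 r q hχ hd
  obtain ⟨b, rfl⟩ := Ideal.Quotient.mk_surjective a
  have h : Ideal.Quotient.mk I (kap K * b) = 0 := ha
  exact Ideal.Quotient.eq_zero_iff_mem.2 (hk b (Ideal.Quotient.eq_zero_iff_mem.1 h))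

end Pool.Agent.Lib.MP_a460e0_co.GK
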