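import Pool.Agent.Lib.MP_a460e0_co.GK.Basic

/-! The Bezout inequality in the plane. -/

namespace Pool.Agent.Lib.MP_a460e0_co.GK

open MvPolynomial

theorem bezSt (h : H11St) : BezSt := by
  intro K _ f0 f1 hc Z hZ
  have h1 : Z.card ≤ f0.degreeOf 0 * f1.degreeOf 1 + f1.degreeOf 0 * f0.degreeOf 1 := by
    refine le_trans (card_le_HF_points (G := {0}) Z (fun x => ![x.1, x.2]) (fun a _ b _ hab => ?_)
      (I := Ideal.span {f0, f1}) (fun a ha => ?_) le_rfl (Or.inl le_rfl))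
      (h K f0 f1 _ _ _ _ _ _ hc (mem_Fil_zero.2 ⟨le_rfl, le_rfl⟩) (mem_Fil_zero.2 ⟨le_rfl, le_rfl⟩))
    · exact Prod.ext (congrFun hab 0) (congrFun hab 1)
    · rw [Ideal.span_le, Set.insert_subset_iff, Set.singleton_subset_iff]
      exact hZ a ha
  refine ⟨h1, h1.trans ?_⟩
  have a0 := degreeOf_le_totalDegree f0 0
  have a1 := degreeOf_le_totalDegree f0 1
  have b0 := degreeOf_le_totalDegree f1 0
  have b1 := degreeOf_le_totalDegree f1 1
  nlinarith [Nat.mul_le_mul a0 b1, Nat.mul_le_mul b0 a1]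

end Pool.Agent.Lib.MP_a460e0_co.GK
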