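import Pool.Agent.Lib.MP_a460e0_co.GK.St

/-! At most two matrices map a smooth branch to a given smooth branch. -/

set_option autoImplicit false

namespace Pool.Agent.Lib.MP_a460e0_co.GK

namespace Comp

open MvPolynomial

variable {K : Type} [Field K]

theorem as_sum2 (c : P2 K) : c = ∑ u ∈ c.support, C (coeff u c) * (X 0 ^ u 0 * X 1 ^ u 1) := by
  conv_lhs => rw [c.as_sum]
  refine Finset.sum_congr rfl fun u _ => ?_
  rw [monomial_eq, Finsupp.prod_fintype _ _ (by simp), Fin.prod_univ_two]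

theorem ev_eq (y : K × K) (c : P2 K) :
    ev2 y c = ∑ u ∈ c.support, coeff u c * (y.1 ^ u 0 * y.2 ^ u 1) := by
  conv_lhs => rw [as_sum2 c]
  simp [ev2]

theorem ev_d0 (y : K × K) (c : P2 K) : ev2 y (pderiv 0 c) =
    ∑ u ∈ c.support, coeff u c * ((u 0 : K) * y.1 ^ (u 0 - 1) * y.2 ^ u 1) := by
  conv_lhs => rw [as_sum2 c]
  rw [map_sum, ev2, map_sum]
  refine Finset.sum_congr rfl fun u _ => ?_
  simp [Derivation.leibniz_pow, pderiv_X]
  left
  ring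

theorem ev_d1 (y : K × K) (c : P2 K) : ev2 y (pderiv 1 c) =
    ∑ u ∈ c.support, coeff u c * (y.1 ^ u 0 * ((u 1 : K) * y.2 ^ (u 1 - 1))) := by
  conv_lhs => rw [as_sum2 c]
  rw [map_sum, ev2, map_sum]
  refine Finset.sum_congr rfl fun u _ => ?_
  simp [Derivation.leibniz_pow, pderiv_X]

theorem pw0 (t u : K) {a m : ℕ} (h : a ≤ m) : (t * u) ^ a * u ^ (m - a) = u ^ m * t ^ a := by
  obtain ⟨d, rfl⟩ := Nat.exists_eq_add_of_le h
  rw [Nat.add_sub_cancel_left]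
  ring

theorem pw1 (t u g0 g2 : K) {a m : ℕ} (h : a ≤ m) :
    u * ((t * u) ^ a * (((m - a : ℕ) : K) * (u ^ (m - a - 1) * g2)) +
      u ^ (m - a) * ((a : K) * ((t * u) ^ (a - 1) * g0))) =
      u ^ m * ((g0 - g2 * t) * ((a : K) * t ^ (a - 1)) + (m : K) * g2 * t ^ a) := by
  obtain ⟨d, rfl⟩ := Nat.exists_eq_add_of_le h
  rw [Nat.add_sub_cancel_left]
  rcases a with _ | a <;> rcases d with _ | d <;> simp <;> ring

theorem pull_d0 (g : Fin 4 → K) (c : P2 K) (x y : K × K) (h : Inc g (x, y)) :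
    (g 2 * x.1 + g 3) * ev2 x (pderiv 0 (pull g c)) =
      (g 2 * x.1 + g 3) ^ c.degreeOf 0 * (g 2 * x.2 + g 3) ^ c.degreeOf 1 *
        ((g 0 - g 2 * y.1) * ev2 y (pderiv 0 c) + (c.degreeOf 0 : K) * g 2 * ev2 y c) := by
  obtain ⟨h0, h1⟩ := h
  simp only at h0 h1
  rw [ev_d0 y c, ev_eq y c, pull, map_sum, ev2, map_sum, Finset.mul_sum, Finset.mul_sum, Finset.mul_sum,
    ← Finset.sum_add_distrib, Finset.mul_sum]
  refine Finset.sum_congr rfl fun u hu => ?_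
  have e0 := pw1 y.1 (g 2 * x.1 + g 3) (g 0) (g 2) (monomial_le_degreeOf 0 hu)
  have e1 := pw0 y.2 (g 2 * x.2 + g 3) (monomial_le_degreeOf 1 hu)
  simp [Derivation.leibniz_pow, pderiv_X, h0, h1]
  linear_combination (coeff u c * ((y.2 * (g 2 * x.2 + g 3)) ^ u 1 *
    (g 2 * x.2 + g 3) ^ (degreeOf 1 c - u 1))) * e0 + (coeff u c * ((g 2 * x.1 + g 3) ^ degreeOf 0 c *
      ((g 0 - g 2 * y.1) * ((u 0 : K) * y.1 ^ (u 0 - 1)) + (degreeOf 0 c : K) * g 2 * y.1 ^ u 0))) * e1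

theorem pull_d1 (g : Fin 4 → K) (c : P2 K) (x y : K × K) (h : Inc g (x, y)) :
    (g 2 * x.2 + g 3) * ev2 x (pderiv 1 (pull g c)) =
      (g 2 * x.1 + g 3) ^ c.degreeOf 0 * (g 2 * x.2 + g 3) ^ c.degreeOf 1 *
        ((g 0 - g 2 * y.2) * ev2 y (pderiv 1 c) + (c.degreeOf 1 : K) * g 2 * ev2 y c) := by
  obtain ⟨h0, h1⟩ := h
  simp only at h0 h1
  rw [ev_d1 y c, ev_eq y c, pull, map_sum, ev2, map_sum, Finset.mul_sum, Finset.mul_sum, Finset.mul_sum,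
    ← Finset.sum_add_distrib, Finset.mul_sum]
  refine Finset.sum_congr rfl fun u hu => ?_
  have e0 := pw0 y.1 (g 2 * x.1 + g 3) (monomial_le_degreeOf 0 hu)
  have e1 := pw1 y.2 (g 2 * x.2 + g 3) (g 0) (g 2) (monomial_le_degreeOf 1 hu)
  simp [Derivation.leibniz_pow, pderiv_X, h0, h1]
  linear_combination (coeff u c * ((y.1 * (g 2 * x.1 + g 3)) ^ u 0 *
    (g 2 * x.1 + g 3) ^ (degreeOf 0 c - u 0))) * e1 + (coeff u c * ((g 2 * x.2 + g 3) ^ degreeOf 1 c *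
      ((g 0 - g 2 * y.2) * ((u 1 : K) * y.2 ^ (u 1 - 1)) + (degreeOf 1 c : K) * g 2 * y.2 ^ u 1))) * e0

theorem den_ne {g : Fin 4 → K} (hd : g 0 * g 3 - g 1 * g 2 ≠ 0) {a a' : K}
    (h : g 0 * a + g 1 = a' * (g 2 * a + g 3)) : g 2 * a + g 3 ≠ 0 := fun e => hd (by
  rw [e, mul_zero] at h
  linear_combination g 0 * e - g 2 * h)

/-- The squared ratio of the two denominators is fixed by the four gradients. -/
theorem ratio {g : Fin 4 → K} {c c' : P2 K} {x y : K × K} (hc : ev2 x c = 0) (hc' : ev2 y c' = 0)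
    (hd : g 0 * g 3 - g 1 * g 2 ≠ 0) (h : Inc g (x, y)) (hdv : c ∣ pull g c') :
    ev2 x (pderiv 1 c) * ev2 y (pderiv 0 c') * (g 2 * x.2 + g 3) ^ 2 =
      ev2 x (pderiv 0 c) * ev2 y (pderiv 1 c') * (g 2 * x.1 + g 3) ^ 2 := by
  have d0 := pull_d0 g c' x y h
  have d1 := pull_d1 g c' x y h
  obtain ⟨h0, h1⟩ := h
  simp only at h0 h1
  obtain ⟨w, hw⟩ := hdv
  have hp : ∀ i, ev2 x (pderiv i (pull g c')) = ev2 x w * ev2 x (pderiv i c) := by
    intro i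
    have hc0 : eval ![x.1, x.2] c = 0 := hc
    rw [hw, Derivation.leibniz]
    simp [ev2, hc0]
  rw [hp, hc', mul_zero, add_zero] at d0 d1
  have hN : (g 2 * x.1 + g 3) ^ c'.degreeOf 0 * (g 2 * x.2 + g 3) ^ c'.degreeOf 1 ≠ 0 :=
    mul_ne_zero (pow_ne_zero _ (den_ne hd h0)) (pow_ne_zero _ (den_ne hd h1))
  have k0 : (g 0 - g 2 * y.1) * (g 2 * x.1 + g 3) = g 0 * g 3 - g 1 * g 2 := by
    linear_combination g 2 * h0
  have k1 : (g 0 - g 2 * y.2) * (g 2 * x.2 + g 3) = g 0 * g 3 - g 1 * g 2 := by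
    linear_combination g 2 * h1
  refine mul_left_cancel₀ (mul_ne_zero hN hd) ?_
  generalize (g 2 * x.1 + g 3) ^ c'.degreeOf 0 * (g 2 * x.2 + g 3) ^ c'.degreeOf 1 = N at d0 d1 ⊢
  generalize g 2 * x.1 + g 3 = u at d0 k0 ⊢
  generalize g 2 * x.2 + g 3 = v at d1 k1 ⊢
  linear_combination (-(u * v ^ 2 * ev2 x (pderiv 1 c))) * d0 +
    (v * u ^ 2 * ev2 x (pderiv 0 c)) * d1 -
    (N * ev2 x (pderiv 1 c) * ev2 y (pderiv 0 c') * v ^ 2) * k0 +
    (N * ev2 x (pderiv 0 c) * ev2 y (pderiv 1 c') * u ^ 2) * k1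

/-- Two incident matrices with the same ratio of denominators are proportional. -/
theorem prop_of_ratio {g h : Fin 4 → K} {x y : K × K} (hx : x.1 ≠ x.2) (hg : Inc g (x, y))
    (hh : Inc h (x, y)) {t : K} (e1 : h 2 * x.1 + h 3 = t * (g 2 * x.1 + g 3))
    (e2 : h 2 * x.2 + h 3 = t * (g 2 * x.2 + g 3)) : h = t • g := by
  obtain ⟨g0, g1⟩ := hg
  obtain ⟨h0, h1⟩ := hh
  simp only at g0 g1 h0 h1
  have hw := sub_ne_zero.2 hx
  have a2 : h 2 = t * g 2 := mul_left_cancel₀ hw (by linear_combination e1 - e2)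
  have a0 : h 0 = t * g 0 := mul_left_cancel₀ hw (by
    linear_combination h0 - h1 - t * g0 + t * g1 + y.1 * e1 - y.2 * e2)
  funext i
  fin_cases i
  · exact a0
  · show h 1 = t * g 1
    linear_combination h0 - t * g0 + y.1 * e1 - x.1 * a0
  · exact a2
  · show h 3 = t * g 3
    linear_combination e1 - x.1 * a2

end Comp

open MvPolynomial in
theorem compSt : CompSt := by
  intro K _ c c' x y Z hoff hc hc' hx hy hZ hg
  classical
  have hu : ∀ g ∈ Z, g 2 * x.1 + g 3 ≠ 0 := fun g hgZ =>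
    Comp.den_ne (hZ.1 g hgZ) (hg g hgZ).1.1
  have hA : ev2 x (pderiv 1 c) * ev2 y (pderiv 0 c') ≠ 0 := mul_ne_zero (hx 1) (hy 0)
  have hcard : (Polynomial.nthRoots 2 (ev2 x (pderiv 0 c) * ev2 y (pderiv 1 c') /
      (ev2 x (pderiv 1 c) * ev2 y (pderiv 0 c')))).toFinset.card ≤ 2 :=
    (Multiset.toFinset_card_le _).trans (Polynomial.card_nthRoots _ _)
  refine le_trans (Finset.card_le_card_of_injOn
    (fun g => (g 2 * x.2 + g 3) / (g 2 * x.1 + g 3)) (fun g hgZ => ?_) fun g hgZ h hhZ e => ?_) hcard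
  · have hr := Comp.ratio hc hc' (hZ.1 g hgZ) (hg g hgZ).1 (hg g hgZ).2
    rw [Finset.mem_coe, Multiset.mem_toFinset, Polynomial.mem_nthRoots (by norm_num), div_pow,
      div_eq_div_iff (pow_ne_zero _ (hu g hgZ)) hA]
    linear_combination hr
  · have e' : (g 2 * x.2 + g 3) / (g 2 * x.1 + g 3) = (h 2 * x.2 + h 3) / (h 2 * x.1 + h 3) := e
    rw [div_eq_div_iff (hu g hgZ) (hu h hhZ)] at e'
    refine (hZ.2 g hgZ h hhZ ((h 2 * x.1 + h 3) / (g 2 * x.1 + g 3))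
      (Comp.prop_of_ratio hoff.1 (hg g hgZ).1 (hg h hhZ).1 ?_ ?_)).symm
    · rw [div_mul_cancel₀ _ (hu g hgZ)]
    · rw [div_mul_eq_mul_div, eq_div_iff (hu g hgZ)]
      linear_combination -e'

end Pool.Agent.Lib.MP_a460e0_co.GK
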