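import Pool.Agent.Lib.MP_a460e0_co.GK.Cut

/-! Counting points by proper cuts. -/

namespace Pool.Agent.Lib.MP_a460e0_co.GK

open MvPolynomial

namespace Count

section points

variable {K : Type} [Field K] {σ : Type}

theorem sep (z : σ → K) (Y : Finset (σ → K)) (hz : z ∉ Y) :
    ∃ f : MvPolynomial σ K, f.totalDegree ≤ Y.card ∧ eval z f ≠ 0 ∧ ∀ y ∈ Y, eval y f = 0 := by
  classical
  induction Y using Finset.induction_on with
  | empty => exact ⟨1, by simp, by simp, by simp⟩
  | insert y Y hy ih =>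
    rw [Finset.mem_insert, not_or] at hz
    obtain ⟨f, h1, h2, h3⟩ := ih hz.2
    obtain ⟨i, hi⟩ := Function.ne_iff.mp hz.1
    refine ⟨(X i - C (y i)) * f, ?_, ?_, ?_⟩
    · rw [Finset.card_insert_of_notMem hy]
      have h4 : (X i - C (y i) : MvPolynomial σ K).totalDegree ≤ 1 :=
        (totalDegree_sub _ _).trans (by simp)
      have h5 := totalDegree_mul (X i - C (y i) : MvPolynomial σ K) f
      omega
    · simp [h2, sub_eq_zero, hi]
    · intro x hx
      rcases Finset.mem_insert.mp hx with rfl | hx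
      · simp
      · simp [h3 x hx]

theorem ptI_prime (z : σ → K) : (ptI z).IsPrime := RingHom.ker_isPrime _

variable [Fintype σ] [DecidableEq σ]

theorem mem_Fil_univ {f : MvPolynomial σ K} {d : ℕ} (h : f.totalDegree ≤ d) :
    f ∈ Fil K Finset.univ d 0 := by
  rw [Cut.mem_Fil]
  intro u hu
  have h1 := le_totalDegree hu
  rw [Finsupp.sum_fintype _ _ (fun _ => rfl)] at h1
  exact ⟨h1.trans h, by simp⟩

theorem card_le {ι : Type} (Z : Finset ι) (x : ι → σ → K) (hx : Function.Injective x)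
    (I : Ideal (MvPolynomial σ K)) (hI : ∀ l ∈ Z, I ≤ ptI (x l)) (d : ℕ) (hd : Z.card ≤ d) :
    Z.card ≤ HF Finset.univ I d 0 := by
  classical
  have hex : ∀ l : Z, ∃ f : MvPolynomial σ K, f.totalDegree ≤ d ∧ eval (x l) f ≠ 0 ∧
      ∀ l' ∈ Z, l' ≠ l → eval (x l') f = 0 := by
    intro l
    obtain ⟨f, h1, h2, h3⟩ := sep (x l) ((Z.erase l).image x) (by
      intro h
      obtain ⟨l', hl', he⟩ := Finset.mem_image.mp h
      exact (Finset.mem_erase.mp hl').1 (hx he))
    refine ⟨f, h1.trans (Finset.card_image_le.trans ((Finset.card_erase_le).trans hd)), h2, ?_⟩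
    intro l' hl' hne
    exact h3 _ (Finset.mem_image_of_mem x (Finset.mem_erase.mpr ⟨hne, hl'⟩))
  choose f hf1 hf2 hf3 using hex
  let w : Z → (Fil K Finset.univ d 0).map (Ideal.Quotient.mkₐ K I).toLinearMap := fun l =>
    ⟨Ideal.Quotient.mk I (f l), f l, mem_Fil_univ (hf1 l), rfl⟩
  have hw : LinearIndependent K w := by
    rw [Fintype.linearIndependent_iff]
    intro g hg l
    have h1 : ∑ i, g i • f i ∈ I := by
      rw [← Ideal.Quotient.eq_zero_iff_mem]
      have h2 := congrArg Subtype.val hg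
      rw [Submodule.coe_sum] at h2
      change (Ideal.Quotient.mkₐ K I) _ = 0
      rw [map_sum]
      simpa [w] using h2
    have h3 : eval (x l) (∑ i, g i • f i) = 0 := hI l l.2 h1
    rw [map_sum, Finset.sum_eq_single l] at h3
    · simpa [hf2 l] using h3
    · intro i _ hi
      rw [smul_eval, hf3 i l l.2 (fun h => hi (Subtype.ext h).symm), mul_zero]
    · simp
  simpa [HF] using hw.fintype_card_le_finrank

end points

theorem pt_inj {K : Type} [Field K] : Function.Injective (pt : Ln K → Fin 4 → K) := by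
  rintro ⟨⟨a, b⟩, c, d⟩ ⟨⟨a', b'⟩, c', d'⟩ h
  have h0 := congrFun h 0
  have h1 := congrFun h 1
  have h2 := congrFun h 2
  have h3 := congrFun h 3
  simp only [pt, Matrix.cons_val] at h0 h1 h2 h3
  simp [h0, h1, h2, h3]

theorem pow_le (a b s : ℕ) : (a + b) ^ (s + 1) ≤ a ^ (s + 1) + (s + 1) * b * (a + b) ^ s := by
  induction s with
  | zero => simp
  | succ s ih =>
    have h1 : a * ((s + 1) * b * (a + b) ^ s) ≤ (a + b) * ((s + 1) * b * (a + b) ^ s) :=
      Nat.mul_le_mul_right _ (Nat.le_add_right a b)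
    have h2 := Nat.mul_le_mul_left a ih
    calc (a + b) ^ (s + 1 + 1) = a * (a + b) ^ (s + 1) + b * (a + b) ^ (s + 1) := by ring
      _ ≤ a * a ^ (s + 1) + (a + b) * ((s + 1) * b * (a + b) ^ s) + b * (a + b) ^ (s + 1) := by
        rw [mul_add] at h2
        omega
      _ = _ := by ring

theorem limit (z W m c A s : ℕ) (hW : 1 ≤ W)
    (h : ∀ M, (A + 1 + (s + 1) * (M * W)) * ((M * W) ^ (s + 1) * z) ≤
      W * (m * (A + 1 + (s + 1) * (M * W)) ^ (s + 1 + 1) +
        c * (A + 1 + (s + 1) * (M * W)) ^ (s + 1))) :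
    z ≤ (s + 1) ^ (s + 1) * m * W := by
  set B := A + 1 + (s + 1) with hB
  set C' := W * (m * ((s + 1) * (A + 1)) + c) * B ^ s with hC
  have h1 := h (C' + 1)
  set x := (C' + 1) * W with hx
  have hx1 : C' + 1 ≤ x := Nat.le_mul_of_pos_right _ hW
  set y := A + 1 + (s + 1) * x with hy
  have hy0 : 0 < y := by omega
  have h2 : x ^ (s + 1) * z ≤ W * (m * y ^ (s + 1) + c * y ^ s) := by
    apply Nat.le_of_mul_le_mul_left _ hy0
    refine h1.trans (le_of_eq ?_)
    ring
  have h3 : y ^ (s + 1) ≤ ((s + 1) * x) ^ (s + 1) + (s + 1) * (A + 1) * y ^ s := by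
    have := pow_le ((s + 1) * x) (A + 1) s
    rwa [add_comm ((s + 1) * x) (A + 1)] at this
  have h4 : y ≤ B * x := by
    rw [hy, hB, add_mul (A + 1)]
    exact Nat.add_le_add_right (Nat.le_mul_of_pos_right _ (by omega)) _
  have h5 : y ^ s ≤ B ^ s * x ^ s := by
    rw [← mul_pow]
    exact Nat.pow_le_pow_left h4 s
  have h6 : x ^ s * (x * z) ≤ x ^ s * (x * ((s + 1) ^ (s + 1) * m * W) + C') := by
    calc x ^ s * (x * z) = x ^ (s + 1) * z := by ring
      _ ≤ W * (m * y ^ (s + 1) + c * y ^ s) := h2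
      _ ≤ W * (m * (((s + 1) * x) ^ (s + 1) + (s + 1) * (A + 1) * y ^ s) + c * y ^ s) := by gcongr
      _ = W * m * ((s + 1) * x) ^ (s + 1) + W * (m * ((s + 1) * (A + 1)) + c) * y ^ s := by ring
      _ ≤ W * m * ((s + 1) * x) ^ (s + 1) +
          W * (m * ((s + 1) * (A + 1)) + c) * (B ^ s * x ^ s) := by gcongr
      _ = _ := by
        rw [hC, mul_pow]
        ring
  have h7 := Nat.le_of_mul_le_mul_left h6 (Nat.pow_pos (by omega))
  by_contra hlt
  have h8 : x * ((s + 1) ^ (s + 1) * m * W + 1) ≤ x * z := Nat.mul_le_mul_left _ (by omega)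
  rw [mul_add] at h8
  omega

end Count

theorem countSt : CountSt := by
  intro K _ _ r m Z P V v hr hP hG hV
  have key : ∀ k ≤ r, ∃ Q : Ln K → Ideal (S K),
      (∀ l ∈ Z, (Q l).IsPrime ∧ P l ≤ Q l ∧ Q l ≤ mx l ∧ DimGE (Q l) (r - k)) ∧
      ∀ (d : ℕ) (M : ℕ → ℕ), (∏ i ∈ Finset.range k, M i) * HF Finset.univ (Z.inf Q) d 0 ≤
        HF Finset.univ (Z.inf P) (d + ∑ i ∈ Finset.range k, M i * v i) 0 := by
    intro k
    induction k with
    | zero =>
      exact fun _ => ⟨P, fun l hl => ⟨(hP l hl).1, le_rfl, (hP l hl).2.1, (hP l hl).2.2⟩,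
        fun d M => by simp⟩
    | succ k ih =>
      intro hk
      obtain ⟨Q, hQ, hH⟩ := ih (by omega)
      obtain ⟨-, hd, hcut⟩ := hV k (by omega)
      have e : r - k = r - (k + 1) + 1 := by omega
      obtain ⟨Q', hQ', hH'⟩ := cutSt K 4 Finset.univ (Ln K) Z Q mx (V k) (v k) 0 (r - (k + 1))
        (fun l hl => ⟨(hQ l hl).1, Count.ptI_prime _, (hQ l hl).2.2.1, e ▸ (hQ l hl).2.2.2,
          fun φ hφ => (hd φ hφ).2 l hl,
          hcut l hl _ (hQ l hl).1 (hQ l hl).2.1 (hQ l hl).2.2.1 (hQ l hl).2.2.2⟩)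
        (fun φ hφ => Count.mem_Fil_univ (hd φ hφ).1)
      refine ⟨Q', fun l hl => ⟨(hQ' l hl).1, (hQ l hl).2.1.trans (hQ' l hl).2.1,
        (hQ' l hl).2.2.1, (hQ' l hl).2.2.2⟩, fun d M => ?_⟩
      have h1 := hH' d 0 (M k)
      have h2 := hH (d + M k * v k) M
      rw [mul_zero, add_zero] at h1
      rw [Finset.prod_range_succ, Finset.sum_range_succ, mul_assoc, add_comm _ (M k * v k),
        ← add_assoc]
      exact (Nat.mul_le_mul_left _ h1).trans h2
  obtain ⟨Q, hQ, hH⟩ := key r le_rfl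
  obtain ⟨c, hc⟩ := hG
  have hZ : ∀ d, Z.card ≤ d → Z.card ≤ HF Finset.univ (Z.inf Q) d 0 := fun d hd =>
    Count.card_le Z pt Count.pt_inj _
      (fun l hl => (Finset.inf_le hl).trans (hQ l hl).2.2.1) d hd
  rcases r with _ | s
  · have h1 := hH (Z.card + c) fun _ => 1
    have h2 := hZ (Z.card + c) (by omega)
    have h3 := hc (Z.card + c)
    simp only [Finset.range_zero, Finset.prod_empty, Finset.sum_empty, one_mul, add_zero, mul_one,
      zero_add, pow_one, pow_zero] at h1 h3 ⊢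
    by_contra hlt
    have h4 : (Z.card + c + 1) * (m + 1) ≤
        (Z.card + c + 1) * HF Finset.univ (Z.inf P) (Z.card + c) 0 :=
      Nat.mul_le_mul_left _ (by omega)
    nlinarith
  · set W := ∏ i ∈ Finset.range (s + 1), v i with hW
    have hW1 : 1 ≤ W := Finset.one_le_prod' fun i hi => (hV i (Finset.mem_range.mp hi)).1
    have hdiv : ∀ i ∈ Finset.range (s + 1), W / v i * v i = W := fun i hi =>
      Nat.div_mul_cancel (Finset.dvd_prod_of_mem v hi)
    have h1 := Count.limit Z.card W m c Z.card s hW1 (by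
      intro M
      have h2 := hH Z.card fun i => M * (W / v i)
      have h3 : ∑ i ∈ Finset.range (s + 1), M * (W / v i) * v i = (s + 1) * (M * W) := by
        rw [Finset.sum_congr rfl fun i hi => by rw [mul_assoc, hdiv i hi]]
        simp
      have h4 : W * ∏ i ∈ Finset.range (s + 1), M * (W / v i) = (M * W) ^ (s + 1) := by
        rw [hW, ← Finset.prod_mul_distrib, ← hW,
          Finset.prod_congr rfl fun i hi => by rw [mul_comm, mul_assoc, hdiv i hi]]
        simp
      rw [h3] at h2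
      have h5 := hc (Z.card + (s + 1) * (M * W))
      have e : Z.card + (s + 1) * (M * W) + 1 = Z.card + 1 + (s + 1) * (M * W) := by ring
      rw [e] at h5
      refine le_trans ?_ (Nat.mul_le_mul_left W h5)
      rw [mul_left_comm W, ← h4, mul_assoc]
      exact Nat.mul_le_mul_left _ (Nat.mul_le_mul_left _
        ((Nat.mul_le_mul_left _ (hZ _ le_rfl)).trans h2)))
    refine h1.trans (Nat.mul_le_mul_right _ (Nat.mul_le_mul_right _ ?_))
    have : s ≤ 2 := by omega
    interval_cases s <;> norm_num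

end Pool.Agent.Lib.MP_a460e0_co.GK
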