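import Pool.Agent.Lib.MP_a460e0_co.GK.Pit

/-! One cut of a family of primes. -/

namespace Pool.Agent.Lib.MP_a460e0_co.GK

open MvPolynomial

namespace Cut

theorem step {K A : Type*} [Field K] [CommRing A] [Algebra K A] (I I' : Ideal A) (φ : A)
    (hle : I ≤ I') (hφ : φ ∈ I') (hreg : ∀ ψ, φ * ψ ∈ I → ψ ∈ I) (U W : Submodule K A)
    [FiniteDimensional K W] (hUW : ∀ x ∈ U, φ * x ∈ W) :
    Module.finrank K (W.map (Ideal.Quotient.mkₐ K I').toLinearMap) +
      Module.finrank K (U.map (Ideal.Quotient.mkₐ K I).toLinearMap) ≤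
      Module.finrank K (W.map (Ideal.Quotient.mkₐ K I).toLinearMap) := by
  let π : (A ⧸ I) →ₗ[K] (A ⧸ I') := (Ideal.Quotient.factorₐ K hle).toLinearMap
  let W' := W.map (Ideal.Quotient.mkₐ K I).toLinearMap
  let U' := U.map (Ideal.Quotient.mkₐ K I).toLinearMap
  have h1 := LinearMap.finrank_range_add_finrank_ker (π.domRestrict W')
  have h2 : LinearMap.range (π.domRestrict W') =
      W.map (Ideal.Quotient.mkₐ K I').toLinearMap := by
    rw [LinearMap.range_domRestrict, ← Submodule.map_comp]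
    congr 1
  let m : (A ⧸ I) →ₗ[K] (A ⧸ I) := LinearMap.mulLeft K (Ideal.Quotient.mk I φ)
  have hm : Function.Injective m := by
    rw [← LinearMap.ker_eq_bot, LinearMap.ker_eq_bot']
    intro x hx
    obtain ⟨y, rfl⟩ := Ideal.Quotient.mk_surjective x
    rw [Ideal.Quotient.eq_zero_iff_mem]
    apply hreg
    rw [← Ideal.Quotient.eq_zero_iff_mem, map_mul]
    exact hx
  have hW : ∀ x : U', (m.domRestrict U') x ∈ W' := by
    rintro ⟨x, y, hy, rfl⟩
    exact ⟨φ * y, hUW y hy, by simp [m]⟩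
  let g : U' →ₗ[K] W' := LinearMap.codRestrict W' (m.domRestrict U') hW
  have hK : ∀ x : U', g x ∈ LinearMap.ker (π.domRestrict W') := by
    rintro ⟨x, y, hy, rfl⟩
    rw [LinearMap.mem_ker]
    change Ideal.Quotient.mk I' (φ * y) = 0
    rw [Ideal.Quotient.eq_zero_iff_mem]
    exact I'.mul_mem_right _ hφ
  have h3 : Module.finrank K U' ≤ Module.finrank K (LinearMap.ker (π.domRestrict W')) := by
    apply LinearMap.finrank_le_finrank_of_injective (f := LinearMap.codRestrict _ g hK)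
    intro x y hxy
    apply Subtype.ext
    apply hm
    exact congrArg (fun z : LinearMap.ker (π.domRestrict W') => ((z : W') : A ⧸ I)) hxy
  rw [h2] at h1
  change _ + Module.finrank K U' ≤ Module.finrank K W'
  omega

section fil

variable {K : Type} [Field K] {σ : Type} [Fintype σ] [DecidableEq σ]

theorem mem_Fil {G : Finset σ} {d e : ℕ} {f : MvPolynomial σ K} :
    f ∈ Fil K G d e ↔ ∀ u ∈ f.support, ∑ i ∈ G, u i ≤ d ∧ ∑ i ∈ Gᶜ, u i ≤ e := Iff.rfl

theorem Fil_mono (G : Finset σ) {d e d' e' : ℕ} (hd : d ≤ d') (he : e ≤ e') :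
    Fil K G d e ≤ Fil K G d' e' := fun _ hf =>
  mem_Fil.mpr fun u hu => ⟨(mem_Fil.mp hf u hu).1.trans hd, (mem_Fil.mp hf u hu).2.trans he⟩

theorem Fil_mul {G : Finset σ} {d e d' e' : ℕ} {f g : MvPolynomial σ K} (hf : f ∈ Fil K G d e)
    (hg : g ∈ Fil K G d' e') : f * g ∈ Fil K G (d + d') (e + e') := by
  rw [mem_Fil]
  intro u hu
  obtain ⟨a, ha, b, hb, rfl⟩ := Finset.mem_add.mp (support_mul f g hu)
  have h1 := mem_Fil.mp hf a ha
  have h2 := mem_Fil.mp hg b hb
  simp only [Finsupp.coe_add, Pi.add_apply, Finset.sum_add_distrib]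
  omega

instance Fil_fin (G : Finset σ) (d e : ℕ) : FiniteDimensional K (Fil K G d e) := by
  apply Submodule.finiteDimensional_of_le (S₂ := restrictTotalDegree σ K (d + e))
  intro f hf
  rw [mem_restrictTotalDegree, totalDegree]
  apply Finset.sup_le
  intro u hu
  have h1 := mem_Fil.mp hf u hu
  rw [Finsupp.sum_fintype _ _ (fun _ => rfl), ← Finset.sum_add_sum_compl G]
  omega

theorem HF_mono (G : Finset σ) (I : Ideal (MvPolynomial σ K)) {d e d' e' : ℕ} (hd : d ≤ d')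
    (he : e ≤ e') : HF G I d e ≤ HF G I d' e' :=
  Submodule.finrank_mono (Submodule.map_mono (Fil_mono G hd he))

theorem HF_step (G : Finset σ) (I I' : Ideal (MvPolynomial σ K)) (φ : MvPolynomial σ K)
    (hle : I ≤ I') (hφ : φ ∈ I') (hreg : ∀ ψ, φ * ψ ∈ I → ψ ∈ I) {w1 w2 : ℕ}
    (hw : φ ∈ Fil K G w1 w2) (d e : ℕ) :
    HF G I' (d + w1) (e + w2) + HF G I d e ≤ HF G I (d + w1) (e + w2) :=
  step I I' φ hle hφ hreg _ _ fun x hx => by
    rw [add_comm d, add_comm e]
    exact Fil_mul hw hx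

theorem HF_iter (G : Finset σ) (I I' : Ideal (MvPolynomial σ K)) (φ : MvPolynomial σ K)
    (hle : I ≤ I') (hφ : φ ∈ I') (hreg : ∀ ψ, φ * ψ ∈ I → ψ ∈ I) {w1 w2 : ℕ}
    (hw : φ ∈ Fil K G w1 w2) (d e M : ℕ) :
    M * HF G I' d e ≤ HF G I (d + M * w1) (e + M * w2) := by
  induction M with
  | zero => simp
  | succ M ih =>
    have h1 := HF_step G I I' φ hle hφ hreg hw (d + M * w1) (e + M * w2)
    have h2 : HF G I' d e ≤ HF G I' (d + M * w1 + w1) (e + M * w2 + w2) :=
      HF_mono G I' (by omega) (by omega)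
    rw [Nat.succ_mul, Nat.succ_mul, Nat.succ_mul, ← add_assoc, ← add_assoc]
    omega

end fil

/-- An element of the span outside finitely many ideals. -/
theorem avoid {K A : Type*} [Field K] [Infinite K] [CommRing A] [Algebra K A] {ι : Type*}
    (Z : Finset ι) (P : ι → Ideal A) (V : Set A) (h : ∀ z ∈ Z, ∃ φ ∈ V, φ ∉ P z) :
    ∃ φ ∈ Submodule.span K V, ∀ z ∈ Z, φ ∉ P z := by
  obtain ⟨x, hx⟩ := Submodule.exists_forall_notMem_of_forall_ne_top
    (fun z : Z => ((P z).restrictScalars K).comap (Submodule.span K V).subtype) (by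
      intro z htop
      obtain ⟨φ, hφ, hn⟩ := h z z.2
      have : (⟨φ, Submodule.subset_span hφ⟩ : Submodule.span K V) ∈
          ((P z).restrictScalars K).comap (Submodule.span K V).subtype := by
        rw [htop]
        trivial
      exact hn this)
  exact ⟨x, x.2, fun z hz => hx ⟨z, hz⟩⟩

end Cut

theorem cutSt : CutSt := by
  intro K _ _ n G ι Z P N V w1 w2 r h hV
  obtain ⟨φ, hφV, hφ⟩ := Cut.avoid (K := K) Z P (V : Set _) fun z hz => (h z hz).2.2.2.2.2
  have hφF : φ ∈ Fil K G w1 w2 := Submodule.span_le.mpr (fun x hx => hV x hx) hφV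
  have hex : ∀ z, ∃ Q : Ideal (MvPolynomial (Fin n) K), z ∈ Z →
      Q ∈ (P z ⊔ Ideal.span {φ}).minimalPrimes ∧ Q ≤ N z := by
    intro z
    by_cases hz : z ∈ Z
    · obtain ⟨-, hN, hPN, -, hVN, -⟩ := h z hz
      have hφN : φ ∈ N z :=
        (Submodule.span_le (p := (N z).restrictScalars K)).mpr (fun x hx => hVN x hx) hφV
      obtain ⟨Q, hQ, hQN⟩ := Ideal.exists_minimalPrimes_le (I := P z ⊔ Ideal.span {φ}) (J := N z)
        (sup_le hPN ((Ideal.span_singleton_le_iff_mem _).mpr hφN))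
      exact ⟨Q, fun _ => ⟨hQ, hQN⟩⟩
    · exact ⟨⊤, fun h => absurd h hz⟩
  choose P' hP' using hex
  have hle : ∀ z ∈ Z, P z ≤ P' z := fun z hz => le_sup_left.trans (hP' z hz).1.le
  refine ⟨P', fun z hz => ⟨(hP' z hz).1.isPrime, hle z hz, (hP' z hz).2,
    pitSt K n r _ _ φ (h z hz).1 (hP' z hz).1 (h z hz).2.2.2.1⟩, fun d e M => ?_⟩
  apply Cut.HF_iter G _ _ φ (Finset.inf_mono_fun hle) _ _ hφF
  · rw [Submodule.mem_finsetInf]
    intro z hz
    exact (hP' z hz).1.le (Ideal.mem_sup_right (Ideal.mem_span_singleton_self φ))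
  · intro ψ hψ
    rw [Submodule.mem_finsetInf] at hψ ⊢
    intro z hz
    exact ((h z hz).1.mem_or_mem (hψ z hz)).resolve_left (hφ z hz)

end Pool.Agent.Lib.MP_a460e0_co.GK
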