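import Pool.Agent.Lib.MP_a460e0_co.GK.St

/-! The decomposition of a plane point set into a poor part and rich curves. -/

namespace Pool.Agent.Lib.MP_a460e0_co.GK.Dec

open MvPolynomial

theorem exists_rr {α β : Type} (cnt : α → β → Prop) (L : Finset β) (g : α) :
    ∃ Z : Finset β, Z.card = rr cnt L g ∧ ∀ l, l ∈ Z ↔ l ∈ L ∧ cnt g l := by
  classical
  exact ⟨_, rfl, fun l => by simp only [Finset.mem_filter]⟩

theorem le_rr {α β : Type} {cnt : α → β → Prop} {L : Finset β} {g : α} {Z : Finset β}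
    (h : ∀ l ∈ Z, l ∈ L ∧ cnt g l) : Z.card ≤ rr cnt L g := by
  obtain ⟨W, hW, hm⟩ := exists_rr cnt L g
  rw [← hW]
  exact Finset.card_le_card fun l hl => (hm l).2 (h l hl)

theorem rr_le {α β : Type} {cnt : α → β → Prop} {L : Finset β} {g : α} {Z : Finset β}
    (h : ∀ l ∈ L, cnt g l → l ∈ Z) : rr cnt L g ≤ Z.card := by
  obtain ⟨W, hW, hm⟩ := exists_rr cnt L g
  rw [← hW]
  exact Finset.card_le_card fun l hl => h l ((hm l).1 hl).1 ((hm l).1 hl).2

theorem rr_mono {α β γ : Type} {cnt : α → β → Prop} {cnt' : γ → β → Prop} {L L' : Finset β}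
    {g : α} {g' : γ} (h : ∀ l ∈ L, cnt g l → l ∈ L' ∧ cnt' g' l) :
    rr cnt L g ≤ rr cnt' L' g' := by
  obtain ⟨W, hW, hm⟩ := exists_rr cnt L g
  rw [← hW]
  exact le_rr fun l hl => h l ((hm l).1 hl).1 ((hm l).1 hl).2

variable {K : Type} [Field K]

theorem ev2_dvd {x : K × K} {c f : P2 K} (h : c ∣ f) (hc : ev2 x c = 0) : ev2 x f = 0 := by
  obtain ⟨g, rfl⟩ := h
  unfold ev2 at *
  rw [map_mul, hc, zero_mul]

/-- Greedy removal of rich curves. -/
theorem greedy (ρ : ℕ) (n : ℕ) : ∀ E : Finset (K × K), E.card ≤ n →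
    ∃ (A B : Finset (K × K)) (CC : Finset (P2 K)) (cf : K × K → P2 K), A ⊆ E ∧ B ⊆ E ∧
      E.card ≤ A.card + B.card ∧ Poor B ρ ∧ Curves CC ∧
      (∀ x ∈ A, cf x ∈ CC ∧ ev2 x (cf x) = 0) ∧
      ∀ c ∈ CC, ρ * c.totalDegree < rr (fun c x => cf x = c) A c := by
  classical
  induction n with
  | zero =>
    intro E hE
    have h0 : E = ∅ := Finset.card_eq_zero.1 (Nat.le_zero.1 hE)
    subst h0
    refine ⟨∅, ∅, ∅, fun _ => 0, by simp, by simp, by simp, ?_, ⟨by simp, by simp⟩, by simp,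
      by simp⟩
    intro f _ Z hZ _
    rw [Finset.subset_empty.1 hZ]
    simp
  | succ n ih =>
    intro E hE
    by_cases hP : Poor E ρ
    · exact ⟨∅, E, ∅, fun _ => 0, by simp, by simp, by simp, hP, ⟨by simp, by simp⟩, by simp,
        by simp⟩
    unfold Poor at hP
    push Not at hP
    obtain ⟨c0, hc0, Z, hZ, hZ0, hlt⟩ := hP
    set Z0 := E.filter fun x => ev2 x c0 = 0 with hZ0d
    set E1 := E.filter fun x => ¬ev2 x c0 = 0 with hE1d
    have hZZ : Z.card ≤ Z0.card :=
      Finset.card_le_card fun x hx => Finset.mem_filter.2 ⟨hZ hx, hZ0 x hx⟩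
    have hsum : Z0.card + E1.card = E.card := Finset.card_filter_add_card_filter_not _
    obtain ⟨A, B, CC, cf, hA, hB, hc, hPB, hCC, hcf, hr⟩ := ih E1 (by omega)
    have hA0 : ∀ x ∈ A, x ∈ E ∧ ¬ev2 x c0 = 0 := fun x hx => Finset.mem_filter.1 (hA hx)
    have hnd : ∀ c ∈ CC, ¬c ∣ c0 := by
      intro c hcm hd
      obtain ⟨W, hW, hm⟩ := exists_rr (fun c x => cf x = c) A c
      have hpos : 0 < W.card := by have := hr c hcm; omega
      obtain ⟨x, hx⟩ := Finset.card_pos.1 hpos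
      have h1 := (hm x).1 hx
      have h2 := (hcf x h1.1).2
      rw [h1.2] at h2
      exact (hA0 x h1.1).2 (ev2_dvd hd h2)
    have hdis : Disjoint Z0 A := by
      rw [Finset.disjoint_left]
      intro x hx hx'
      exact (hA0 x hx').2 (Finset.mem_filter.1 hx).2
    refine ⟨Z0 ∪ A, B, insert c0 CC, fun x => if ev2 x c0 = 0 then c0 else cf x, ?_, ?_, ?_, hPB,
      ⟨?_, ?_⟩, ?_, ?_⟩
    · exact Finset.union_subset (Finset.filter_subset _ _) fun x hx => (hA0 x hx).1
    · exact hB.trans (Finset.filter_subset _ _)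
    · rw [Finset.card_union_of_disjoint hdis]
      omega
    · intro c hcm
      rcases Finset.mem_insert.1 hcm with rfl | hcm
      · exact hc0
      · exact hCC.1 c hcm
    · intro c hcm c' hcm' hd
      rcases Finset.mem_insert.1 hcm with h1 | h1 <;> rcases Finset.mem_insert.1 hcm' with h2 | h2
      · rw [h1, h2]
      · subst h1
        exact absurd (hc0.dvd_symm (hCC.1 c' h2) hd) (hnd c' h2)
      · subst h2
        exact absurd hd (hnd c h1)
      · exact hCC.2 c h1 c' h2 hd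
    · intro x hx
      by_cases h : ev2 x c0 = 0
      · simp only [h, if_true]
        exact ⟨Finset.mem_insert_self _ _, trivial⟩
      · simp only [h, if_false]
        rcases Finset.mem_union.1 hx with h1 | h1
        · exact absurd (Finset.mem_filter.1 h1).2 h
        · exact ⟨Finset.mem_insert_of_mem (hcf x h1).1, (hcf x h1).2⟩
    · intro c hcm
      rcases Finset.mem_insert.1 hcm with h1 | h1
      · subst h1
        refine lt_of_lt_of_le (lt_of_lt_of_le hlt hZZ) (le_rr fun x hx => ?_)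
        exact ⟨Finset.mem_union_left _ hx, if_pos (Finset.mem_filter.1 hx).2⟩
      · refine lt_of_lt_of_le (hr c h1) (rr_mono fun x hx h2 => ?_)
        exact ⟨Finset.mem_union_right _ hx, (if_neg (hA0 x hx).2).trans h2⟩

theorem dyadic {m w : ℕ} (hw : 0 < w) (h : w ≤ m) :
    2 ^ Nat.log 2 (m / w) * w ≤ m ∧ m ≤ 2 * 2 ^ Nat.log 2 (m / w) * w := by
  have h1 : 0 < m / w := Nat.div_pos h hw
  have h2 := Nat.pow_log_le_self 2 h1.ne'
  have h3 := Nat.lt_pow_succ_log_self (b := 2) (by norm_num) (m / w)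
  have h4 := Nat.div_mul_le_self m w
  have h5 : m < (m / w + 1) * w := by
    have := Nat.lt_div_mul_add (a := m) hw
    nlinarith
  refine ⟨(Nat.mul_le_mul_right w h2).trans h4, h5.le.trans (Nat.mul_le_mul_right w ?_)⟩
  rw [Nat.succ_eq_add_one, pow_succ] at h3
  omega

theorem decSt : DecSt := by
  classical
  intro K _ p ρ E hρ hE
  obtain ⟨A, B, CC, cf, hA, hB, hc, hPB, hCC, hcf, hr⟩ := greedy ρ E.card E le_rfl
  by_cases hAB : A.card ≤ B.card
  · exact Or.inl ⟨B, hB, by omega, hPB⟩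
  right
  set m : P2 K → ℕ := fun c => rr (fun c x => cf x = c) A c with hm
  set lv : P2 K → ℕ := fun c => Nat.log 2 (m c / (ρ * c.totalDegree)) with hlv
  set ty : P2 K → ℕ := fun c => if c.degreeOf 1 = 0 then 1 else if c.degreeOf 0 = 0 then 2 else 0
    with hty
  have hup : ∀ c ∈ CC, m c ≤ 2 * p * c.totalDegree := by
    intro c hcm
    obtain ⟨W, hW, hw⟩ := exists_rr (fun c x => cf x = c) A c
    simp only [hm]
    rw [← hW]
    refine hE c (hCC.1 c hcm) W (fun x hx => hA ((hw x).1 hx).1) fun x hx => ?_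
    have h1 := (hw x).1 hx
    have h2 := (hcf x h1.1).2
    rwa [h1.2] at h2
  have hdeg : ∀ c ∈ CC, 0 < c.totalDegree := by
    intro c hcm
    have h1 := hup c hcm
    have h2 : ρ * c.totalDegree < m c := hr c hcm
    rcases Nat.eq_zero_or_pos c.totalDegree with h | h
    · rw [h] at h1 h2
      omega
    · exact h
  have hdy : ∀ c ∈ CC, ρ * 2 ^ lv c * c.totalDegree ≤ m c ∧
      m c ≤ 2 * (ρ * 2 ^ lv c) * c.totalDegree := by
    intro c hcm
    have h := dyadic (Nat.mul_pos hρ (hdeg c hcm)) (le_of_lt (hr c hcm) : _ ≤ m c)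
    constructor
    · calc _ = 2 ^ lv c * (ρ * c.totalDegree) := by ring
        _ ≤ _ := h.1
    · calc _ ≤ 2 * 2 ^ lv c * (ρ * c.totalDegree) := h.2
        _ = _ := by ring
  have hle : ∀ c ∈ CC, ρ * 2 ^ lv c ≤ 2 * p := fun c hcm =>
    Nat.le_of_mul_le_mul_right ((hdy c hcm).1.trans (hup c hcm)) (hdeg c hcm)
  have hlJ : ∀ c ∈ CC, lv c < JJ p := by
    intro c hcm
    have h1 := hle c hcm
    have h2 := Nat.lt_pow_succ_log_self (b := 2) (by norm_num) p
    have h3 : 2 ^ lv c ≤ ρ * 2 ^ lv c := Nat.le_mul_of_pos_left _ hρ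
    have h4 : 2 ^ lv c < 2 ^ JJ p := by
      unfold JJ
      rw [Nat.succ_eq_add_one] at h2
      rw [pow_succ]
      omega
    exact (Nat.pow_lt_pow_iff_right (by norm_num)).1 h4
  set T : Finset (ℕ × ℕ) := Finset.range (JJ p) ×ˢ Finset.range 3 with hT
  have hmap : ∀ x ∈ A, (lv (cf x), ty (cf x)) ∈ T := by
    intro x hx
    refine Finset.mem_product.2 ⟨Finset.mem_range.2 (hlJ _ (hcf x hx).1), Finset.mem_range.2 ?_⟩
    simp only [hty]
    split_ifs <;> norm_num
  have hTne : T.Nonempty := ⟨(0, 0), by simp [hT, JJ]⟩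
  obtain ⟨k, -, hk⟩ := T.exists_max_image
    (fun k => (A.filter fun x => (lv (cf x), ty (cf x)) = k).card) hTne
  set E' := A.filter fun x => (lv (cf x), ty (cf x)) = k with hE'
  have hcard : A.card ≤ JJ p * 3 * E'.card := by
    rw [Finset.card_eq_sum_card_fiberwise (f := fun x => (lv (cf x), ty (cf x))) (t := T)
      fun x hx => hmap x hx]
    refine (Finset.sum_le_card_nsmul _ _ _ hk).trans ?_
    simp [hT]
  have hpos : 0 < E'.card := by
    rcases Nat.eq_zero_or_pos E'.card with h | h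
    · rw [h] at hcard
      omega
    · exact h
  obtain ⟨x0, hx0⟩ := Finset.card_pos.1 hpos
  have hx1 := Finset.mem_filter.1 hx0
  refine ⟨E', (Finset.filter_subset _ _).trans hA, CC.filter fun c => (lv c, ty c) = k, cf,
    ρ * 2 ^ k.1, ?_, Nat.le_mul_of_pos_right _ (by positivity), ?_, ⟨⟨?_, ?_⟩, ?_, ?_⟩, ?_⟩
  · calc E.card ≤ 2 * A.card := by omega
      _ ≤ 2 * (JJ p * 3 * E'.card) := Nat.mul_le_mul_left _ hcard
      _ = _ := by ring
  · have := hle _ (hcf x0 hx1.1).1
    rw [← hx1.2]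
    exact this
  · exact fun c hcm => hCC.1 c (Finset.mem_filter.1 hcm).1
  · exact fun c hcm c' hcm' => hCC.2 c (Finset.mem_filter.1 hcm).1 c' (Finset.mem_filter.1 hcm').1
  · intro x hx
    have h1 := Finset.mem_filter.1 hx
    exact ⟨Finset.mem_filter.2 ⟨(hcf x h1.1).1, h1.2⟩, (hcf x h1.1).2⟩
  · intro c hcm
    have h1 := Finset.mem_filter.1 hcm
    have h2 := hdy c h1.1
    have h3 : lv c = k.1 := by rw [← h1.2]
    rw [h3] at h2
    refine ⟨h2.1.trans (rr_mono fun x hx h4 => ⟨Finset.mem_filter.2 ⟨hx, ?_⟩, h4⟩),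
      le_trans (rr_mono fun x hx h4 => ⟨(Finset.mem_filter.1 hx).1, h4⟩) h2.2⟩
    rw [h4]
    exact h1.2
  · have hk2 : ∀ c ∈ CC.filter fun c => (lv c, ty c) = k, ty c = k.2 := fun c hcm => by
      rw [← (Finset.mem_filter.1 hcm).2]
    by_cases h1 : k.2 = 1
    · refine Or.inr (Or.inl fun c hcm => ?_)
      have h := hk2 c hcm
      simp only [hty, h1] at h
      split_ifs at h with h3 h4
      · exact h3
      · omega
    by_cases h2 : k.2 = 2
    · refine Or.inr (Or.inr fun c hcm => ?_)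
      have h := hk2 c hcm
      simp only [hty, h2] at h
      split_ifs at h with h3 h4
      · omega
      · exact h4
    · refine Or.inl fun c hcm => ?_
      have h := hk2 c hcm
      simp only [hty] at h
      split_ifs at h with h3 h4 <;> omega

end Pool.Agent.Lib.MP_a460e0_co.GK.Dec

namespace Pool.Agent.Lib.MP_a460e0_co.GK

theorem decSt : DecSt := Dec.decSt

end Pool.Agent.Lib.MP_a460e0_co.GK
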