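import Pool.Agent.Lib.MP_a460e0_co.GK.Basic

/-! Both block degrees are additive. -/

namespace Pool.Agent.Lib.MP_a460e0_co.GK

open MvPolynomial

namespace Deg

variable {K : Type} [Field K] {σ : Type} [DecidableEq σ]

/-- Scale the variables of a block by a new variable. -/
noncomputable def sc (G : Finset σ) : MvPolynomial σ K →ₐ[K] Polynomial (MvPolynomial σ K) :=
  aeval fun i => Polynomial.monomial (if i ∈ G then 1 else 0) (X i)

theorem sc_monomial (G : Finset σ) (u : σ →₀ ℕ) (c : K) :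
    sc G (monomial u c) = Polynomial.monomial (∑ i ∈ G, u i) (monomial u c) := by
  induction u using Finsupp.induction_linear generalizing c with
  | zero => simp [sc, ← C_apply, algebraMap_eq]
  | add u v hu hv =>
    rw [← mul_one c, ← monomial_mul, map_mul, hu, hv, Polynomial.monomial_mul_monomial]
    simp [Finset.sum_add_distrib]
  | single i k =>
    rw [← C_mul_X_pow_eq_monomial, map_mul, map_pow, sc, aeval_X, aeval_C, Polynomial.monomial_pow,
      Polynomial.algebraMap_apply, Polynomial.C_mul_monomial, algebraMap_eq]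
    congr 2
    simp [Finsupp.single_apply]

theorem coeff_sc (G : Finset σ) (f : MvPolynomial σ K) (k : ℕ) (u : σ →₀ ℕ) :
    coeff u ((sc G f).coeff k) = if ∑ i ∈ G, u i = k then coeff u f else 0 := by
  induction f using MvPolynomial.induction_on' with
  | monomial v c =>
    rw [sc_monomial, Polynomial.coeff_monomial]
    by_cases h : v = u
    · subst h
      split_ifs <;> simp
    · split_ifs <;> simp [coeff_monomial, h]
  | add f g hf hg =>
    rw [map_add, Polynomial.coeff_add, coeff_add, hf, hg, coeff_add]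
    split_ifs <;> simp

theorem coeff_ne {G : Finset σ} {f : MvPolynomial σ K} {k : ℕ} :
    (sc G f).coeff k ≠ 0 ↔ ∃ u ∈ f.support, ∑ i ∈ G, u i = k := by
  rw [ne_zero_iff]
  refine exists_congr fun u => ?_
  rw [coeff_sc, mem_support_iff]
  split_ifs with h <;> simp [h]

theorem sc_ne {G : Finset σ} {f : MvPolynomial σ K} (h : f ≠ 0) : sc G f ≠ 0 := by
  obtain ⟨u, hu⟩ := support_nonempty.2 h
  intro h0
  exact coeff_ne.2 ⟨u, hu, rfl⟩ (by rw [h0, Polynomial.coeff_zero])

theorem deg_le {G : Finset σ} {f : MvPolynomial σ K} {d : ℕ} :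
    (sc G f).natDegree ≤ d ↔ ∀ u ∈ f.support, ∑ i ∈ G, u i ≤ d := by
  rw [Polynomial.natDegree_le_iff_coeff_eq_zero]
  refine ⟨fun h u hu => le_of_not_gt fun hd => coeff_ne.2 ⟨u, hu, rfl⟩ (h _ hd), fun h k hk => ?_⟩
  by_contra h0
  obtain ⟨u, hu, rfl⟩ := coeff_ne.1 h0
  exact absurd (h u hu) (not_le.2 hk)

theorem mem_iff [Fintype σ] {G : Finset σ} {f : MvPolynomial σ K} {d e : ℕ} :
    f ∈ Fil K G d e ↔ (sc G f).natDegree ≤ d ∧ (sc Gᶜ f).natDegree ≤ e := by
  rw [mem_Fil, deg_le, deg_le]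
  exact ⟨fun h => ⟨fun u hu => (h u hu).1, fun u hu => (h u hu).2⟩,
    fun h u hu => ⟨h.1 u hu, h.2 u hu⟩⟩

end Deg

open Deg in
theorem degSt : DegSt := by
  intro K _ σ _ _ G
  refine ⟨fun f hf => ⟨(sc G f).natDegree, (sc Gᶜ f).natDegree, mem_iff.2 ⟨le_rfl, le_rfl⟩,
    fun ψ d e hψ h => ?_⟩, ?_⟩
  · rw [mem_iff, map_mul, map_mul, Polynomial.natDegree_mul (sc_ne hf) (sc_ne hψ),
      Polynomial.natDegree_mul (sc_ne hf) (sc_ne hψ)] at h
    rw [mem_iff]
    omega
  · rintro f F a h0 ⟨ψ, rfl⟩ h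
    have hf := sc_ne (G := G) (left_ne_zero_of_mul h0)
    have hψ := sc_ne (G := G) (right_ne_zero_of_mul h0)
    have h1 : (sc G (f * ψ)).natDegree ≤ a := deg_le.2 fun u hu => (h u hu).le
    have h2 : a ≤ (sc G (f * ψ)).natTrailingDegree := by
      obtain ⟨u, hu, h3⟩ := coeff_ne.1 (mt Polynomial.trailingCoeff_eq_zero.1 (sc_ne (G := G) h0))
      exact ((h u hu).symm.trans h3).le
    rw [map_mul, Polynomial.natDegree_mul hf hψ] at h1
    rw [map_mul, Polynomial.natTrailingDegree_mul hf hψ] at h2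
    have h3 := (sc G f).natTrailingDegree_le_natDegree
    have h4 := (sc G ψ).natTrailingDegree_le_natDegree
    refine ⟨(sc G f).natDegree, by omega, fun u hu => ?_⟩
    have h5 := Polynomial.natTrailingDegree_le_of_ne_zero (coeff_ne.2 ⟨u, hu, rfl⟩ :
      (sc G f).coeff _ ≠ 0)
    have h6 := Polynomial.le_natDegree_of_ne_zero (coeff_ne.2 ⟨u, hu, rfl⟩ : (sc G f).coeff _ ≠ 0)
    omega

end Pool.Agent.Lib.MP_a460e0_co.GK
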