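import Pool.Agent.Lib.MP_a460e0_co.GK.BasicM1

/-! Incidences between matrices and pairs of points; pull backs of curves. -/

namespace Pool.Agent.Lib.MP_a460e0_co.GK

open MvPolynomial

noncomputable section

variable {K : Type} [Field K]

theorem inc_gl (l : Ln K) (s t : K) : Inc (gl l s t) l := by
  constructor <;> simp [gl] <;> ring

theorem gl_u1 (l : Ln K) (s t : K) :
    gl l s t 2 * l.1.1 + gl l s t 3 = s * (l.1.1 - l.1.2) := by
  simp [gl]; ring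

theorem gl_v1 (l : Ln K) (s t : K) :
    gl l s t 2 * l.1.2 + gl l s t 3 = -(t * (l.1.1 - l.1.2)) := by
  simp [gl]; ring

theorem det_gl (l : Ln K) (s t : K) :
    gl l s t 0 * gl l s t 3 - gl l s t 1 * gl l s t 2 =
      -(s * t * ((l.1.1 - l.1.2) * (l.2.1 - l.2.2))) := by
  simp [gl]; ring

theorem gl_smul (l : Ln K) (c s t : K) : gl l (c * s) (c * t) = c • gl l s t := by
  ext i
  fin_cases i <;> simp [gl] <;> ring

theorem gl_eq (l : Ln K) (s t : K) : gl l s t = s • gl l 1 0 + t • gl l 0 1 := by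
  ext i
  fin_cases i <;> simp [gl] <;> ring

theorem Inc.eq_gl {g : Fin 4 → K} {l : Ln K} (h : Inc g l) (hl : l.1.1 ≠ l.1.2) :
    g = gl l ((g 2 * l.1.1 + g 3) / (l.1.1 - l.1.2))
      (-(g 2 * l.1.2 + g 3) / (l.1.1 - l.1.2)) := by
  have hw : l.1.1 - l.1.2 ≠ 0 := sub_ne_zero.2 hl
  obtain ⟨h1, h2⟩ := h
  ext i
  fin_cases i
  · simp only [gl, Fin.zero_eta, Matrix.cons_val_zero]
    field_simp
    linear_combination h1 - h2
  · simp only [gl, Fin.mk_one, Matrix.cons_val_one, Matrix.cons_val_zero]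
    field_simp
    linear_combination l.1.1 * h2 - l.1.2 * h1
  · simp only [gl, Fin.reduceFinMk, Matrix.cons_val]
    field_simp
    ring
  · simp only [gl, Fin.reduceFinMk, Matrix.cons_val]
    field_simp
    ring

theorem inc_iff_gl {g : Fin 4 → K} {l : Ln K} (hl : l.1.1 ≠ l.1.2) :
    Inc g l ↔ ∃ s t : K, g = gl l s t :=
  ⟨fun h => ⟨_, _, h.eq_gl hl⟩, fun ⟨s, t, h⟩ => h ▸ inc_gl l s t⟩

theorem gl_inj {l : Ln K} (hl : l.1.1 ≠ l.1.2) {s t s' t' : K} (h : gl l s t = gl l s' t') :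
    s = s' ∧ t = t' := by
  have hw : l.1.1 - l.1.2 ≠ 0 := sub_ne_zero.2 hl
  have h1 := gl_u1 l s t
  have h2 := gl_v1 l s t
  rw [h, gl_u1] at h1
  rw [h, gl_v1] at h2
  exact ⟨(mul_right_cancel₀ hw h1).symm, (mul_right_cancel₀ hw (neg_injective h2)).symm⟩

/-- An invertible incident matrix has both parameters nonzero. -/
theorem Inc.exists_gl {g : Fin 4 → K} {l : Ln K} (h : Inc g l) (hl : l.1.1 ≠ l.1.2)
    (hg : g 0 * g 3 - g 1 * g 2 ≠ 0) : ∃ s t : K, s ≠ 0 ∧ t ≠ 0 ∧ g = gl l s t := by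
  obtain ⟨s, t, rfl⟩ := (inc_iff_gl hl).1 h
  rw [det_gl] at hg
  refine ⟨s, t, ?_, ?_, rfl⟩
  · rintro rfl; simp at hg
  · rintro rfl; simp at hg

theorem den_ne_zero {g : Fin 4 → K} (hg : g 0 * g 3 - g 1 * g 2 ≠ 0) {a a' : K}
    (h : g 0 * a + g 1 = a' * (g 2 * a + g 3)) : g 2 * a + g 3 ≠ 0 := by
  intro h0
  apply hg
  rw [h0, mul_zero] at h
  linear_combination g 0 * h0 - g 2 * h

theorem img_unique {g : Fin 4 → K} (hg : g 0 * g 3 - g 1 * g 2 ≠ 0) {a a' a'' : K}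
    (h : g 0 * a + g 1 = a' * (g 2 * a + g 3)) (h' : g 0 * a + g 1 = a'' * (g 2 * a + g 3)) :
    a' = a'' :=
  mul_right_cancel₀ (den_ne_zero hg h) (h.symm.trans h')

theorem pre_unique {g : Fin 4 → K} (hg : g 0 * g 3 - g 1 * g 2 ≠ 0) {a b a' : K}
    (h : g 0 * a + g 1 = a' * (g 2 * a + g 3)) (h' : g 0 * b + g 1 = a' * (g 2 * b + g 3)) :
    a = b := by
  by_contra hab
  have h1 : (a - b) * (g 0 - a' * g 2) = 0 := by linear_combination h - h'
  have h2 : g 0 - a' * g 2 = 0 := (mul_eq_zero.1 h1).resolve_left (sub_ne_zero.2 hab)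
  apply hg
  have h3 : g 1 = a' * g 3 := by linear_combination h - a * h2
  linear_combination g 3 * h2 - g 2 * h3

theorem Inc.u1_ne_zero {g : Fin 4 → K} {l : Ln K} (h : Inc g l)
    (hg : g 0 * g 3 - g 1 * g 2 ≠ 0) : g 2 * l.1.1 + g 3 ≠ 0 := den_ne_zero hg h.1

theorem Inc.v1_ne_zero {g : Fin 4 → K} {l : Ln K} (h : Inc g l)
    (hg : g 0 * g 3 - g 1 * g 2 ≠ 0) : g 2 * l.1.2 + g 3 ≠ 0 := den_ne_zero hg h.2

theorem Inc.snd_eq {g : Fin 4 → K} {x y y' : K × K} (hg : g 0 * g 3 - g 1 * g 2 ≠ 0)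
    (h : Inc g (x, y)) (h' : Inc g (x, y')) : y = y' :=
  Prod.ext (img_unique hg h.1 h'.1) (img_unique hg h.2 h'.2)

theorem Inc.fst_eq {g : Fin 4 → K} {x x' y : K × K} (hg : g 0 * g 3 - g 1 * g 2 ≠ 0)
    (h : Inc g (x, y)) (h' : Inc g (x', y)) : x = x' :=
  Prod.ext (pre_unique hg h.1 h'.1) (pre_unique hg h.2 h'.2)

theorem rr_mono {α β : Type} {cnt cnt' : α → β → Prop} {L L' : Finset β} {g : α}
    (hL : L ⊆ L') (h : ∀ l ∈ L, cnt g l → cnt' g l) : rr cnt L g ≤ rr cnt' L' g := by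
  classical
  unfold rr
  refine Finset.card_le_card fun l hl => ?_
  rw [Finset.mem_filter] at hl ⊢
  exact ⟨hL hl.1, h l hl.1 hl.2⟩

/-- A set of pairs incident with an invertible matrix injects into the first points. -/
theorem card_le_of_inc {g : Fin 4 → K} (hg : g 0 * g 3 - g 1 * g 2 ≠ 0) {Z : Finset (Ln K)}
    {A : Finset (K × K)} (h : ∀ l ∈ Z, Inc g l ∧ l.1 ∈ A) : Z.card ≤ A.card := by
  refine Finset.card_le_card_of_injOn Prod.fst (fun l hl => (h l hl).2) ?_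
  rintro ⟨x, y⟩ hl ⟨x', y'⟩ hl' hx
  obtain rfl : x = x' := hx
  rw [Inc.snd_eq hg (h _ hl).1 (h _ hl').1]

theorem card_le_of_inc' {g : Fin 4 → K} (hg : g 0 * g 3 - g 1 * g 2 ≠ 0) {Z : Finset (Ln K)}
    {A : Finset (K × K)} (h : ∀ l ∈ Z, Inc g l ∧ l.2 ∈ A) : Z.card ≤ A.card := by
  refine Finset.card_le_card_of_injOn Prod.snd (fun l hl => (h l hl).2) ?_
  rintro ⟨x, y⟩ hl ⟨x', y'⟩ hl' hx
  obtain rfl : y = y' := hx
  rw [Inc.fst_eq hg (h _ hl).1 (h _ hl').1]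

theorem rr_le_card_of_inc {g : Fin 4 → K} (hg : g 0 * g 3 - g 1 * g 2 ≠ 0)
    {cnt : (Fin 4 → K) → Ln K → Prop} (hc : ∀ l, cnt g l → Inc g l) {E : Finset (K × K)}
    {L : Finset (Ln K)} (hL : L ⊆ E ×ˢ E) : rr cnt L g ≤ E.card := by
  classical
  unfold rr
  refine card_le_of_inc hg fun l hl => ?_
  rw [Finset.mem_filter] at hl
  exact ⟨hc l hl.2, (Finset.mem_product.1 (hL hl.1)).1⟩

theorem rr_inc_le {g : Fin 4 → K} (hg : g 0 * g 3 - g 1 * g 2 ≠ 0) (E : Finset (K × K)) :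
    rr Inc (E ×ˢ E) g ≤ E.card :=
  rr_le_card_of_inc hg (fun _ h => h) Finset.Subset.rfl

/-! ### Pull backs -/

theorem degreeOf_lin (a b : K) (i j : Fin 2) :
    (C a * X j + C b : P2 K).degreeOf i ≤ if i = j then 1 else 0 := by
  refine (degreeOf_add_le _ _ _).trans (max_le ?_ ?_)
  · exact (degreeOf_C_mul_le _ _ _).trans (degreeOf_X i j).le
  · rw [degreeOf_C]; exact Nat.zero_le _

theorem degreeOf_lin_pow (a b : K) (i j : Fin 2) (n : ℕ) :
    ((C a * X j + C b : P2 K) ^ n).degreeOf i ≤ if i = j then n else 0 := by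
  refine (degreeOf_pow_le _ _ _).trans ?_
  have := degreeOf_lin a b i j
  split_ifs at this ⊢ with h
  · simpa using Nat.mul_le_mul_left n this
  · simp [Nat.le_zero.1 this]

theorem degreeOf_pull (g : Fin 4 → K) (c : P2 K) (i : Fin 2) :
    (pull g c).degreeOf i ≤ c.degreeOf i := by
  unfold pull
  refine (degreeOf_sum_le _ _ _).trans (Finset.sup_le fun u hu => ?_)
  refine (degreeOf_C_mul_le _ _ _).trans ?_
  refine (degreeOf_mul_le _ _ _).trans ?_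
  have h1 := degreeOf_mul_le i ((C (g 0) * X 0 + C (g 1) : P2 K) ^ u 0)
    ((C (g 2) * X 0 + C (g 3)) ^ (c.degreeOf 0 - u 0))
  have h2 := degreeOf_mul_le i ((C (g 0) * X 1 + C (g 1) : P2 K) ^ u 1)
    ((C (g 2) * X 1 + C (g 3)) ^ (c.degreeOf 1 - u 1))
  have a1 := degreeOf_lin_pow (g 0) (g 1) i 0 (u 0)
  have a2 := degreeOf_lin_pow (g 2) (g 3) i 0 (c.degreeOf 0 - u 0)
  have a3 := degreeOf_lin_pow (g 0) (g 1) i 1 (u 1)
  have a4 := degreeOf_lin_pow (g 2) (g 3) i 1 (c.degreeOf 1 - u 1)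
  have b0 := monomial_le_degreeOf 0 hu
  have b1 := monomial_le_degreeOf 1 hu
  obtain rfl | rfl : i = 0 ∨ i = 1 := by omega
  · rw [if_pos rfl] at a1 a2
    rw [if_neg (by decide)] at a3 a4
    omega
  · rw [if_pos rfl] at a3 a4
    rw [if_neg (by decide)] at a1 a2
    omega

theorem ev2_eq_sum (y : K × K) (c : P2 K) :
    ev2 y c = ∑ u ∈ c.support, coeff u c * (y.1 ^ u 0 * y.2 ^ u 1) := by
  rw [ev2, eval_eq']
  simp [Fin.prod_univ_two]

/-- The value of the pull back at an incidence. -/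
theorem ev2_pull {g : Fin 4 → K} {x y : K × K} (h : Inc g (x, y)) (c : P2 K) :
    ev2 x (pull g c) = (g 2 * x.1 + g 3) ^ c.degreeOf 0 * (g 2 * x.2 + g 3) ^ c.degreeOf 1 *
      ev2 y c := by
  obtain ⟨h1, h2⟩ := h
  rw [ev2_eq_sum y c, Finset.mul_sum, ev2, pull, map_sum]
  refine Finset.sum_congr rfl fun u hu => ?_
  obtain ⟨k0, e0⟩ := Nat.exists_eq_add_of_le (monomial_le_degreeOf 0 hu)
  obtain ⟨k1, e1⟩ := Nat.exists_eq_add_of_le (monomial_le_degreeOf 1 hu)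
  simp only [map_mul, map_pow, map_add, eval_C, eval_X, Matrix.cons_val_zero, Matrix.cons_val_one]
  simp only at h1 h2
  rw [h1, h2, e0, e1, Nat.add_sub_cancel_left, Nat.add_sub_cancel_left, mul_pow, mul_pow,
    pow_add, pow_add]
  generalize (g 2 * x.1 + g 3) = w1
  generalize (g 2 * x.2 + g 3) = w2
  ring

theorem ev2_pull_eq_zero_iff {g : Fin 4 → K} {x y : K × K} (h : Inc g (x, y))
    (hg : g 0 * g 3 - g 1 * g 2 ≠ 0) (c : P2 K) : ev2 x (pull g c) = 0 ↔ ev2 y c = 0 := by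
  rw [ev2_pull h, mul_eq_zero, mul_eq_zero]
  have h1 := h.u1_ne_zero hg
  have h2 := h.v1_ne_zero hg
  simp only at h1 h2
  simp [h1, h2]

end

end Pool.Agent.Lib.MP_a460e0_co.GK
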