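import Pool.Agent.Lib.MP_a460e0_co.GK.St
import Pool.Agent.Lib.MP_a460e0_co.GK.BasicM

/-! The weak incidence bound for the lines of the model. -/

namespace Pool.Agent.Lib.MP_a460e0_co.GK

open MvPolynomial

namespace EndAux

variable {K : Type} [Field K]

theorem six_choose (a : ℕ) : 6 * (a + 3).choose 3 = (a + 3) * (a + 2) * (a + 1) := by
  induction a with
  | zero => rfl
  | succ a ih =>
    have h1 : (a + 1 + 3).choose 3 = (a + 3).choose 2 + (a + 3).choose 3 := Nat.choose_succ_succ' _ _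
    have h2 : 2 * (a + 3).choose 2 = (a + 3) * (a + 2) := by
      rw [Nat.choose_two_right]
      exact Nat.mul_div_cancel' (Nat.even_mul_pred_self (a + 3)).two_dvd
    rw [h1, mul_add, ih]
    nlinarith

theorem exists_form (P : Finset (Fin 4 → K)) (a : ℕ) (h : 6 * P.card ≤ a ^ 3) :
    ∃ F : S K, F ≠ 0 ∧ F.IsHomogeneous a ∧ ∀ g ∈ P, eval g F = 0 := by
  classical
  set A : Finset (Fin 4 →₀ ℕ) := (Finset.univ : Finset (Fin 4)).finsuppAntidiag a with hA
  have hc : A.card = (a + 3).choose 3 := by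
    rw [hA, Finset.card_finsuppAntidiag_nat_eq_choose, Finset.card_univ, Fintype.card_fin]
    rw [show 4 + a - 1 = a + 3 by omega]
    exact Nat.choose_symm_add
  have hlt : P.card < A.card := by
    have := six_choose a
    rw [hc]
    nlinarith [Nat.zero_le a, Nat.zero_le (a ^ 2)]
  let T : (A → K) →ₗ[K] (P → K) :=
    { toFun := fun c g => ∑ u : A, c u * ∏ i, g.1 i ^ u.1 i
      map_add' := fun c d => by ext g; simp [add_mul, Finset.sum_add_distrib]
      map_smul' := fun r c => by ext g; simp [Finset.mul_sum, mul_assoc] }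
  have hk : LinearMap.ker T ≠ ⊥ := LinearMap.ker_ne_bot_of_finrank_lt (by simpa using hlt)
  obtain ⟨c, hc0, hne⟩ := (Submodule.ne_bot_iff _).1 hk
  refine ⟨∑ u : A, monomial u.1 (c u), ?_, ?_, ?_⟩
  · intro h0
    apply hne
    ext v
    have := congrArg (coeff v.1) h0
    rw [coeff_sum, Finset.sum_eq_single v] at this
    · simpa using this
    · intro u _ hu
      rw [coeff_monomial, if_neg fun e => hu (Subtype.ext e)]
    · simp
  · refine IsHomogeneous.sum _ _ _ fun u _ => isHomogeneous_monomial _ ?_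
    have := (Finset.mem_finsuppAntidiag.1 u.2).1
    rw [Finsupp.degree_eq_sum]
    exact this
  · intro g hg
    have := congrFun (LinearMap.mem_ker.1 hc0) ⟨g, hg⟩
    rw [map_sum]
    simp only [eval_monomial]
    rw [← show (0 : P → K) ⟨g, hg⟩ = 0 from rfl, ← this]
    refine Finset.sum_congr rfl fun u _ => ?_
    rw [Finsupp.prod_fintype _ _ (by simp)]

/-- The plane of matrices incident with a pair. -/
def sub (l : Ln K) : Submodule K (Fin 4 → K) := Submodule.span K {gl l 1 0, gl l 0 1}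

theorem mem_sub {l : Ln K} (hl : l.1.1 ≠ l.1.2) {g : Fin 4 → K} : g ∈ sub l ↔ Inc g l := by
  rw [sub, Submodule.mem_span_pair, inc_iff_gl hl]
  refine exists_congr fun s => exists_congr fun t => ?_
  rw [← gl_eq]
  exact eq_comm

theorem finrank_sub {l : Ln K} (hl : l.1.1 ≠ l.1.2) : Module.finrank K (sub l) = 2 := by
  have hi : LinearIndependent K ![gl l 1 0, gl l 0 1] := by
    rw [LinearIndependent.pair_iff]
    intro s t h
    rw [← gl_eq] at h
    have h0 : gl l 0 0 = 0 := by rw [gl_eq]; simp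
    exact gl_inj hl (h.trans h0.symm)
  have := finrank_span_eq_card hi
  rw [Matrix.range_cons, Matrix.range_cons, Matrix.range_empty, Set.union_empty] at this
  exact this

theorem sub_inj {E : Finset (K × K)} (hE : ∀ x ∈ E, x.1 ≠ x.2) (hN : NoAnti E) {l l' : Ln K}
    (hl : l ∈ E ×ˢ E) (hl' : l' ∈ E ×ˢ E) (h : sub l = sub l') : l = l' := by
  obtain ⟨hx, hy⟩ := Finset.mem_product.1 hl
  obtain ⟨hx', hy'⟩ := Finset.mem_product.1 hl'
  have hA : Inc (gl l 1 0) l' := (mem_sub (hE _ hx')).1 (h ▸ (mem_sub (hE _ hx)).2 (inc_gl l 1 0))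
  have hB : Inc (gl l 0 1) l' := (mem_sub (hE _ hx')).1 (h ▸ (mem_sub (hE _ hx)).2 (inc_gl l 0 1))
  obtain ⟨⟨al, be⟩, al', be'⟩ := l
  obtain ⟨⟨a, b⟩, a', b'⟩ := l'
  have n1 : al ≠ be := hE _ hx
  have n2 : al' ≠ be' := hE _ hy
  have n3 : a ≠ b := hE _ hx'
  have n4 : a' ≠ b' := hE _ hy'
  obtain ⟨A1, A2⟩ := hA
  obtain ⟨B1, B2⟩ := hB
  simp only [gl, Matrix.cons_val_zero, Matrix.cons_val_one, Matrix.cons_val] at A1 A2 B1 B2
  have e1 : (a - be) * (al' - a') = 0 := by linear_combination A1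
  have e2 : (b - be) * (al' - b') = 0 := by linear_combination A2
  have e3 : (a - al) * (be' - a') = 0 := by linear_combination B1
  have e4 : (b - al) * (be' - b') = 0 := by linear_combination B2
  simp only [mul_eq_zero, sub_eq_zero] at e1 e2 e3 e4
  by_cases hab : a = be
  · exfalso
    have h5 : b = al := by grind
    apply hN _ hx
    rw [Prod.swap_prod_mk, ← hab, ← h5]
    exact hx'
  · have : al = a ∧ be = b ∧ al' = a' ∧ be' = b' := by grind
    obtain ⟨rfl, rfl, rfl, rfl⟩ := this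
    rfl

theorem apply_eq (ν : (Fin 4 → K) →ₗ[K] K) (g : Fin 4 → K) :
    ν g = g 0 * ν (Pi.single 0 1) + g 1 * ν (Pi.single 1 1) + g 2 * ν (Pi.single 2 1) +
      g 3 * ν (Pi.single 3 1) := by
  have : g = g 0 • Pi.single 0 1 + g 1 • Pi.single 1 1 + g 2 • Pi.single 2 1 +
      g 3 • Pi.single 3 1 := by
    ext i
    fin_cases i <;> simp
  conv_lhs => rw [this]
  simp only [map_add, map_smul, smul_eq_mul]

theorem key {n0 n1 n2 n3 : K} (hn : ¬(n0 = 0 ∧ n1 = 0 ∧ n2 = 0 ∧ n3 = 0)) {a b a' b' c d c' d' : K}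
    (hab : a ≠ b) (hcd : c ≠ d) (h1 : n0 - n1 * b = 0) (h2 : n0 - n1 * d = 0)
    (A1 : a' * (n0 - n1 * b) + (n2 - n3 * b) = 0) (B1 : b' * (n0 - n1 * a) + (n2 - n3 * a) = 0)
    (A2 : c' * (n0 - n1 * d) + (n2 - n3 * d) = 0) (B2 : d' * (n0 - n1 * c) + (n2 - n3 * c) = 0) :
    b = d ∧ b' = d' := by
  rw [h1] at A1
  rw [h2] at A2
  have f1 : (b - a) * (b' * n1 + n3) = 0 := by linear_combination B1 - b' * h1 - A1
  have f2 : (d - c) * (d' * n1 + n3) = 0 := by linear_combination B2 - d' * h2 - A2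
  have g1 := (mul_eq_zero.1 f1).resolve_left (sub_ne_zero.2 hab.symm)
  have g2 := (mul_eq_zero.1 f2).resolve_left (sub_ne_zero.2 hcd.symm)
  have hn1 : n1 ≠ 0 := by
    rintro rfl
    have h3 : n3 = 0 := by linear_combination g1
    subst h3
    exact hn ⟨by linear_combination h1, rfl, by linear_combination A1, rfl⟩
  exact ⟨mul_left_cancel₀ hn1 (by linear_combination h2 - h1),
    mul_right_cancel₀ hn1 (by linear_combination g1 - g2)⟩

omit [Field K] in
theorem card_le_sq {E : Finset (K × K)} {ρ : ℕ} (hR : Rul E ρ) {Z : Finset (Ln K)}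
    (hZ : Z ⊆ E ×ˢ E)
    (h : (∀ l ∈ Z, ∀ l' ∈ Z, l.1.1 = l'.1.1 ∧ l.2.1 = l'.2.1) ∨
      ∀ l ∈ Z, ∀ l' ∈ Z, l.1.2 = l'.1.2 ∧ l.2.2 = l'.2.2) : Z.card ≤ ρ ^ 2 := by
  classical
  rcases Z.eq_empty_or_nonempty with rfl | ⟨l0, h0⟩
  · simp
  have hs : Z ⊆ Z.image Prod.fst ×ˢ Z.image Prod.snd := Finset.subset_product
  have s1 : Z.image Prod.fst ⊆ E := fun x hx => by
    obtain ⟨l, hl, rfl⟩ := Finset.mem_image.1 hx
    exact (Finset.mem_product.1 (hZ hl)).1
  have s2 : Z.image Prod.snd ⊆ E := fun x hx => by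
    obtain ⟨l, hl, rfl⟩ := Finset.mem_image.1 hx
    exact (Finset.mem_product.1 (hZ hl)).2
  have : (Z.image Prod.fst).card ≤ ρ ∧ (Z.image Prod.snd).card ≤ ρ := by
    rcases h with h | h
    · refine ⟨hR l0.1.1 _ s1 (Or.inl fun x hx => ?_), hR l0.2.1 _ s2 (Or.inl fun x hx => ?_)⟩
      · obtain ⟨l, hl, rfl⟩ := Finset.mem_image.1 hx
        exact (h l hl l0 h0).1
      · obtain ⟨l, hl, rfl⟩ := Finset.mem_image.1 hx
        exact (h l hl l0 h0).2
    · refine ⟨hR l0.1.2 _ s1 (Or.inr fun x hx => ?_), hR l0.2.2 _ s2 (Or.inr fun x hx => ?_)⟩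
      · obtain ⟨l, hl, rfl⟩ := Finset.mem_image.1 hx
        exact (h l hl l0 h0).1
      · obtain ⟨l, hl, rfl⟩ := Finset.mem_image.1 hx
        exact (h l hl l0 h0).2
  calc Z.card ≤ _ := Finset.card_le_card hs
    _ = _ := Finset.card_product _ _
    _ ≤ ρ * ρ := Nat.mul_le_mul this.1 this.2
    _ = ρ ^ 2 := (sq ρ).symm

theorem card_hyper {E : Finset (K × K)} {ρ : ℕ} (hE : ∀ x ∈ E, x.1 ≠ x.2) (hR : Rul E ρ)
    (ν : (Fin 4 → K) →ₗ[K] K) (hν : ν ≠ 0) {Z : Finset (Ln K)} (hZ : Z ⊆ E ×ˢ E)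
    (h : ∀ l ∈ Z, sub l ≤ LinearMap.ker ν) : Z.card ≤ E.card + 2 * ρ ^ 2 := by
  classical
  set n0 := ν (Pi.single 0 1)
  set n1 := ν (Pi.single 1 1)
  set n2 := ν (Pi.single 2 1)
  set n3 := ν (Pi.single 3 1)
  have hap : ∀ g, ν g = g 0 * n0 + g 1 * n1 + g 2 * n2 + g 3 * n3 := apply_eq ν
  have hn : ¬(n0 = 0 ∧ n1 = 0 ∧ n2 = 0 ∧ n3 = 0) := by
    rintro ⟨h0, h1, h2, h3⟩
    apply hν
    refine LinearMap.ext fun g => ?_
    rw [hap, h0, h1, h2, h3]
    simp
  have hoff : ∀ l ∈ Z, l.1.1 ≠ l.1.2 := fun l hl => hE _ (Finset.mem_product.1 (hZ hl)).1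
  have hA : ∀ l ∈ Z, l.2.1 * (n0 - n1 * l.1.2) + (n2 - n3 * l.1.2) = 0 := fun l hl => by
    have := LinearMap.mem_ker.1 (h l hl ((mem_sub (hoff l hl)).2 (inc_gl l 1 0)))
    rw [hap] at this
    simp only [gl, Matrix.cons_val_zero, Matrix.cons_val_one, Matrix.cons_val] at this
    linear_combination this
  have hB : ∀ l ∈ Z, l.2.2 * (n0 - n1 * l.1.1) + (n2 - n3 * l.1.1) = 0 := fun l hl => by
    have := LinearMap.mem_ker.1 (h l hl ((mem_sub (hoff l hl)).2 (inc_gl l 0 1)))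
    rw [hap] at this
    simp only [gl, Matrix.cons_val_zero, Matrix.cons_val_one, Matrix.cons_val] at this
    linear_combination this
  have c1 : (Z.filter fun l => n0 - n1 * l.1.2 = 0).card ≤ ρ ^ 2 := by
    refine card_le_sq hR ((Finset.filter_subset _ _).trans hZ) (Or.inr fun l hl l' hl' => ?_)
    obtain ⟨a1, a2⟩ := Finset.mem_filter.1 hl
    obtain ⟨b1, b2⟩ := Finset.mem_filter.1 hl'
    exact key hn (hoff l a1) (hoff l' b1) a2 b2 (hA l a1) (hB l a1) (hA l' b1) (hB l' b1)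
  have c2 : (Z.filter fun l => n0 - n1 * l.1.1 = 0).card ≤ ρ ^ 2 := by
    refine card_le_sq hR ((Finset.filter_subset _ _).trans hZ) (Or.inl fun l hl l' hl' => ?_)
    obtain ⟨a1, a2⟩ := Finset.mem_filter.1 hl
    obtain ⟨b1, b2⟩ := Finset.mem_filter.1 hl'
    exact key hn (hoff l a1).symm (hoff l' b1).symm a2 b2 (hB l a1) (hA l a1) (hB l' b1) (hA l' b1)
  have c3 : (Z.filter fun l => n0 - n1 * l.1.2 ≠ 0 ∧ n0 - n1 * l.1.1 ≠ 0).card ≤ E.card := by
    refine Finset.card_le_card_of_injOn Prod.fst (fun l hl => ?_) ?_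
    · exact (Finset.mem_product.1 (hZ (Finset.mem_filter.1 hl).1)).1
    · rintro ⟨x, y⟩ hl ⟨x', y'⟩ hl' hx
      obtain rfl : x = x' := hx
      obtain ⟨a1, a2, a3⟩ := Finset.mem_filter.1 hl
      obtain ⟨b1, -⟩ := Finset.mem_filter.1 hl'
      have e1 : y.1 = y'.1 :=
        mul_right_cancel₀ a2 (add_right_cancel ((hA _ a1).trans (hA _ b1).symm))
      have e2 : y.2 = y'.2 :=
        mul_right_cancel₀ a3 (add_right_cancel ((hB _ a1).trans (hB _ b1).symm))
      rw [Prod.ext e1 e2]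
  have hs : Z ⊆ (Z.filter fun l => n0 - n1 * l.1.2 ≠ 0 ∧ n0 - n1 * l.1.1 ≠ 0) ∪
      ((Z.filter fun l => n0 - n1 * l.1.2 = 0) ∪ Z.filter fun l => n0 - n1 * l.1.1 = 0) := by
    intro l hl
    simp only [Finset.mem_union, Finset.mem_filter]
    tauto
  have := (Finset.card_le_card hs).trans ((Finset.card_union_le _ _).trans
    (Nat.add_le_add_left (Finset.card_union_le _ _) _))
  omega

end EndAux

open EndAux in
theorem endSt (hF : FlatSt) : EndSt := by
  classical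
  intro K _ p _ E ρ a lam P L hp ha hlam hE hN hR hP hL hc
  obtain ⟨F, hF0, hFh, hFv⟩ := exists_form P a hc
  have hinj : Set.InjOn (sub (K := K)) L := fun l hl l' hl' h => sub_inj hE hN (hL hl) (hL hl') h
  have hoff : ∀ l ∈ L, l.1.1 ≠ l.1.2 := fun l hl => hE _ (Finset.mem_product.1 (hL hl)).1
  have h := hF K p a (E.card + 2 * ρ ^ 2) lam hp ha hlam a F P (L.image sub) le_rfl hF0 hFh
    (fun g hg => ⟨fun h0 => hP.1 g hg (by simp [h0]), hFv g hg⟩) hP.2
    (fun l hl => by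
      obtain ⟨l', hl', rfl⟩ := Finset.mem_image.1 hl
      exact finrank_sub (hoff l' hl'))
    (fun ν hν Z hZ hker => by
      obtain ⟨Z', hZ', rfl⟩ := Finset.subset_image_iff.1 hZ
      exact Finset.card_image_le.trans (card_hyper hE hR ν hν (hZ'.trans hL)
        fun l hl => hker _ (Finset.mem_image_of_mem _ hl)))
  rw [Finset.card_image_of_injOn hinj] at h
  refine le_trans (Nat.mul_le_mul_left _ (Finset.sum_le_sum fun g _ => ?_)) h
  unfold rr
  refine Finset.card_le_card_of_injOn sub (fun l hl => ?_) (hinj.mono fun l hl => ?_)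
  · have hl' := Finset.mem_filter.1 (Finset.mem_coe.1 hl)
    exact Finset.mem_coe.2 (Finset.mem_filter.2
      ⟨Finset.mem_image_of_mem _ hl'.1, (mem_sub (hoff l hl'.1)).2 hl'.2⟩)
  · exact (Finset.mem_filter.1 (Finset.mem_coe.1 hl)).1

end Pool.Agent.Lib.MP_a460e0_co.GK
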