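import Pool.Agent.Lib.MP_a460e0_co.GK.St

/-! The energy theorem from the three regimes. -/

namespace Pool.Agent.Lib.MP_a460e0_co.GK

open MvPolynomial

namespace EnAux

variable {K : Type} [Field K]

theorem lin_dvd (i j : Fin 2) (hij : ∀ k : Fin 2, k = i ∨ k = j) (hne : i ≠ j) (c : P2 K)
    (hc : c.degreeOf j = 0) (z : Fin 2 → K) (hz : eval z c = 0) : X i - C (z i) ∣ c := by
  have h1 : X i - C (z i) ∣ c - C (eval z c) := by
    conv_rhs => rw [c.as_sum, map_sum, map_sum, ← Finset.sum_sub_distrib]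
    refine Finset.dvd_sum fun u hu => ?_
    have h0 : u j = 0 := by
      have := monomial_le_degreeOf j hu
      omega
    have hu1 : u = Finsupp.single i (u i) := by
      ext k
      rcases hij k with rfl | rfl
      · simp
      · rw [h0, Finsupp.single_eq_of_ne hne.symm]
    rw [hu1, ← C_mul_X_pow_eq_monomial]
    simp only [map_mul, eval_C, map_pow, eval_X]
    rw [← mul_sub]
    exact Dvd.dvd.mul_left (sub_dvd_pow_sub_pow _ _ _) _
  rwa [hz, C_0, sub_zero] at h1

theorem totalDegree_lin (i : Fin 2) (α : K) : (X i - C α : P2 K).totalDegree = 1 := by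
  rw [sub_eq_add_neg, totalDegree_add_eq_left_of_totalDegree_lt, totalDegree_X]
  rw [totalDegree_neg, totalDegree_C, totalDegree_X]
  exact Nat.one_pos

theorem lin_assoc {i : Fin 2} {α : K} {c : P2 K} (hc : Irreducible c) (h : X i - C α ∣ c) :
    c ∣ X i - C α ∧ c.totalDegree = 1 := by
  obtain ⟨v, rfl⟩ := h
  have hn : ¬IsUnit (X i - C α : P2 K) := fun h => by
    have h1 := (isUnit_iff_totalDegree_of_isReduced.1 h).2
    rw [totalDegree_lin] at h1
    exact one_ne_zero h1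
  have hv : IsUnit v := (hc.isUnit_or_isUnit rfl).resolve_left hn
  refine ⟨hv.mul_right_dvd.2 dvd_rfl, ?_⟩
  have h0 : (X i - C α : P2 K) ≠ 0 := fun h => by
    have h1 := totalDegree_lin i α
    rw [h] at h1
    simp at h1
  rw [totalDegree_mul_of_isDomain h0 hv.ne_zero, totalDegree_lin,
    (isUnit_iff_totalDegree_of_isReduced.1 hv).2]

/-- A family of parallel lines cuts the set into fibres of comparable size. -/
theorem fibres (i j : Fin 2) (hij : ∀ k : Fin 2, k = i ∨ k = j) (hne : i ≠ j) (π : K × K → K)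
    (hπ : ∀ x : K × K, ![x.1, x.2] i = π x) {E : Finset (K × K)} {CC : Finset (P2 K)}
    {cf : K × K → P2 K} {ρ : ℕ} (hF : Fam E CC cf ρ) (hd : ∀ c ∈ CC, c.degreeOf j = 0)
    (hρ : 1 ≤ ρ) (hE : E.card ≤ ρ ^ 2) :
    ∃ A : Finset K, (∀ x ∈ E, π x ∈ A) ∧ A.card ≤ ρ ∧ ∀ α ∈ A,
      ρ ≤ rr (fun α (x : K × K) => π x = α) E α ∧
      rr (fun α (x : K × K) => π x = α) E α ≤ 2 * ρ := by
  classical
  obtain ⟨hC, hx, hr⟩ := hF
  have hdv : ∀ x ∈ E, X i - C (π x) ∣ cf x := fun x h => by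
    rw [← hπ]
    exact lin_dvd i j hij hne _ (hd _ (hx x h).1) _ (hx x h).2
  have key : ∀ α ∈ E.image π, ρ ≤ rr (fun α (x : K × K) => π x = α) E α ∧
      rr (fun α (x : K × K) => π x = α) E α ≤ 2 * ρ := fun α hα => by
    obtain ⟨x0, h0, rfl⟩ := Finset.mem_image.1 hα
    have hc0 := lin_assoc (hC.1 _ (hx x0 h0).1) (hdv x0 h0)
    have he : rr (fun α (x : K × K) => π x = α) E (π x0) =
        rr (fun c x => cf x = c) E (cf x0) := by
      unfold rr
      congr 1
      ext x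
      simp only [Finset.mem_filter, and_congr_right_iff]
      intro h
      constructor
      · intro h1
        refine (hC.2 _ (hx x0 h0).1 _ (hx x h).1 (hc0.1.trans ?_)).symm
        rw [← h1]
        exact hdv x h
      · intro h1
        obtain ⟨v, hv⟩ := hdv x0 h0
        obtain ⟨w, hw⟩ := hc0.1
        have h2 := (hx x h).2
        rw [h1] at h2
        have h3 := congrArg (ev2 x) hw
        simp only [ev2, map_mul, map_sub, eval_X, eval_C] at h2 h3
        rw [h2, zero_mul, hπ] at h3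
        exact sub_eq_zero.1 h3
    have h2 := hr _ (hx x0 h0).1
    rw [hc0.2, mul_one, mul_one] at h2
    rw [he]
    exact h2
  refine ⟨E.image π, fun x h => Finset.mem_image_of_mem _ h, ?_, key⟩
  have h1 : (E.image π).card * ρ ≤ E.card := by
    rw [Finset.card_eq_sum_card_image π E, ← smul_eq_mul, ← Finset.sum_const]
    refine Finset.sum_le_sum fun α hα => (key α hα).1.trans (le_of_eq ?_)
    unfold rr
    congr
  exact Nat.le_of_mul_le_mul_right (h1.trans (hE.trans (by rw [sq]))) hρ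

theorem en_swap [DecidableEq K] (GG : Finset (Fin 4 → K)) (E : Finset (K × K)) :
    En GG E ≤ En GG (E.image Prod.swap) := by
  unfold En
  refine Finset.sum_le_sum fun g _ => ?_
  refine Finset.card_le_card_of_injOn
    (fun q => ((q.1.1.swap, q.1.2.swap), (q.2.1.swap, q.2.2.swap))) (fun q hq => ?_)
    fun q _ r _ h => ?_
  · simp only [Finset.coe_filter, Finset.mem_product, Set.mem_ofPred_eq] at hq ⊢
    obtain ⟨⟨⟨a1, a2⟩, a3, a4⟩, h1, h2, h3⟩ := hq
    exact ⟨⟨⟨Finset.mem_image_of_mem _ a1, Finset.mem_image_of_mem _ a2⟩,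
      Finset.mem_image_of_mem _ a3, Finset.mem_image_of_mem _ a4⟩, ⟨h1.2, h1.1⟩, ⟨h2.2, h2.1⟩,
      h3.2.1, h3.1, h3.2.2.2, h3.2.2.1⟩
  · simp only [Prod.mk.injEq, Prod.swap_inj] at h
    exact Prod.ext (Prod.ext h.1.1 h.1.2) (Prod.ext h.2.1 h.2.2)

omit [Field K] in
theorem rr_swap [DecidableEq K] (E : Finset (K × K)) (α : K) :
    rr (fun α (x : K × K) => x.1 = α) (E.image Prod.swap) α =
      rr (fun α (x : K × K) => x.2 = α) E α := by
  unfold rr
  symm
  refine Finset.card_bij (fun x _ => x.swap) (fun x hx => ?_) (fun x _ y _ h => ?_) fun y hy => ?_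
  · simp only [Finset.mem_filter] at hx ⊢
    exact ⟨Finset.mem_image_of_mem _ hx.1, hx.2⟩
  · exact Prod.swap_injective h
  · simp only [Finset.mem_filter] at hy
    obtain ⟨x, hx, rfl⟩ := Finset.mem_image.1 hy.1
    exact ⟨x, by simp only [Finset.mem_filter]; exact ⟨hx, hy.2⟩, rfl⟩

end EnAux

open EnAux in
theorem energySt (hA : RegASt) (hB : RegBSt) (hC : RegCSt) (hD : DecSt) : EnergySt := by
  obtain ⟨CA, hA⟩ := hA 52
  obtain ⟨CB, hB⟩ := hB
  obtain ⟨CC0, hC⟩ := hC
  refine ⟨CA + 6 * CB + CC0 + 192, ?_⟩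
  intro K _ _ p _ E GG hp hoff hna hG hGc hpoor hn hn2
  classical
  set C := CA + 6 * CB + CC0 + 192 with hCdef
  have hJ : 2 ≤ JJ p := by unfold JJ; omega
  have hJ3 : JJ p ≤ JJ p ^ 3 := Nat.le_self_pow (by norm_num) _
  have hJp : p ≤ JJ p ^ 3 * p := Nat.le_mul_of_pos_left _ (by omega)
  have hJJ : JJ p * p ≤ JJ p ^ 3 * p := Nat.mul_le_mul_right _ hJ3
  have hn' : JJ p * (C * (JJ p ^ 3 * p)) ≤ E.card := by
    calc JJ p * (C * (JJ p ^ 3 * p)) = C * JJ p ^ 4 * p := by ring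
      _ ≤ _ := hn
  set W := JJ p ^ 3 * p with hW
  have hCW : C * W = CA * W + 6 * (CB * W) + CC0 * W + 192 * W := by rw [hCdef]; ring
  have hn1 : 2 * (C * W) ≤ E.card := (Nat.mul_le_mul_right _ hJ).trans hn'
  set ρ := Nat.sqrt (12 * E.card) + 1 with hρ
  have hρ1 : 12 * E.card ≤ ρ ^ 2 := (Nat.lt_succ_sqrt' _).le
  have hρ2 : ρ ^ 2 ≤ 26 * E.card := by
    have h1 := Nat.sqrt_le' (12 * E.card)
    have h2 : 1 ≤ E.card := by omega
    have h3 : 2 * Nat.sqrt (12 * E.card) ≤ Nat.sqrt (12 * E.card) ^ 2 + 1 := by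
      nlinarith [sq_nonneg ((Nat.sqrt (12 * E.card) : ℤ) - 1)]
    have h4 : ρ ^ 2 = Nat.sqrt (12 * E.card) ^ 2 + 2 * Nat.sqrt (12 * E.card) + 1 := by
      rw [hρ]; ring
    omega
  have hsq : ∀ E' ⊆ E, E'.card ^ 2 ≤ p ^ 3 := fun E' h =>
    (Nat.pow_le_pow_left (Finset.card_le_card h) 2).trans hn2
  have hna' : ∀ E' ⊆ E, NoAnti E' := fun E' h x hx hx' => hna x (h hx) (h hx')
  have up : ∀ {c n e : ℕ}, c ≤ C → e ≤ c * n → e ≤ C * n := fun h1 h2 =>
    h2.trans (Nat.mul_le_mul_right _ h1)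
  rcases hD K p ρ E (by omega) hpoor with ⟨E', hE', hc, hP⟩ |
    ⟨E', hE', CC, cf, ρ', hc, hr1, hr2, hF, hty⟩
  · refine ⟨E', hE', by omega, up (by omega) (hA K p E' GG ρ hp (fun x h => hoff x (hE' h))
      (hna' E' hE') hG hGc ?_ (hsq E' hE') hP (by omega))⟩
    rw [mul_assoc, ← hW]
    omega
  · have h6 : C * W ≤ 6 * E'.card := by
      refine Nat.le_of_mul_le_mul_left (hn'.trans (hc.trans (le_of_eq ?_))) (by omega)
      ring
    have h12 : 12 * E'.card ≤ ρ' ^ 2 :=
      (Nat.mul_le_mul_left _ (Finset.card_le_card hE')).trans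
        (hρ1.trans (Nat.pow_le_pow_left hr1 2))
    rcases hty with hty | hty | hty
    · obtain ⟨E'', h1, h2, h3⟩ := hB K p E' GG CC cf ρ' hp (fun x h => hoff x (hE' h))
        (hna' E' hE') hG hGc (by rw [mul_assoc, ← hW]; omega) (hsq E' hE') hF hr2 h12 hty
      exact ⟨E'', h1.trans hE', by omega, up (by omega) h3⟩
    · obtain ⟨A, a1, a2, a3⟩ := fibres 0 1 (by decide) (by decide) Prod.fst (fun _ => rfl) hF hty
        (by omega) (by omega)
      exact ⟨E', hE', by omega, up (by omega) (hC K p E' GG A ρ' hp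
        (fun x h => ⟨hoff x (hE' h), a1 x h⟩) hG (by omega) a2 hr2 a3)⟩
    · obtain ⟨A, a1, a2, a3⟩ := fibres 1 0 (by decide) (by decide) Prod.snd (fun _ => rfl) hF hty
        (by omega) (by omega)
      have hcs : (E'.image Prod.swap).card = E'.card :=
        Finset.card_image_of_injective _ Prod.swap_injective
      have h1 := hC K p (E'.image Prod.swap) GG A ρ' hp (fun x h => by
        obtain ⟨y, hy, rfl⟩ := Finset.mem_image.1 h
        exact ⟨(hoff y (hE' hy)).symm, a1 y hy⟩) hG (by omega) a2 hr2 fun α hα => by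
          rw [rr_swap]
          exact a3 α hα
      rw [hcs] at h1
      exact ⟨E', hE', by omega,
        up (by omega) ((Nat.mul_le_mul_left _ (en_swap GG E')).trans h1)⟩

end Pool.Agent.Lib.MP_a460e0_co.GK
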