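import Pool.Agent.Lib.MP_a460e0_co.GK.Pit

/-! Basic facts on the filtration, the Hilbert function and the dimension predicate. -/

namespace Pool.Agent.Lib.MP_a460e0_co.GK

open MvPolynomial

section general

variable {K : Type} [Field K] {σ : Type} [Fintype σ] [DecidableEq σ] {G : Finset σ}

theorem mem_Fil {f : MvPolynomial σ K} {d e : ℕ} :
    f ∈ Fil K G d e ↔ ∀ u ∈ f.support, ∑ i ∈ G, u i ≤ d ∧ ∑ i ∈ Gᶜ, u i ≤ e :=
  ⟨fun h _ hu => h hu, fun h _ hu => h _ hu⟩

theorem Fil_mono {d e d' e' : ℕ} (h1 : d ≤ d') (h2 : e ≤ e') : Fil K G d e ≤ Fil K G d' e' :=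
  fun _ hf => mem_Fil.2 fun u hu => ⟨((mem_Fil.1 hf) u hu).1.trans h1, ((mem_Fil.1 hf) u hu).2.trans h2⟩

theorem mul_mem_Fil {f h : MvPolynomial σ K} {d e d' e' : ℕ} (hf : f ∈ Fil K G d e)
    (hh : h ∈ Fil K G d' e') : f * h ∈ Fil K G (d + d') (e + e') := by
  refine mem_Fil.2 fun u hu => ?_
  obtain ⟨a, ha, b, hb, rfl⟩ := Finset.mem_add.1 (support_mul f h hu)
  have h1 := mem_Fil.1 hf a ha
  have h2 := mem_Fil.1 hh b hb
  simp only [Finsupp.add_apply, Finset.sum_add_distrib]
  omega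

theorem C_mem_Fil (c : K) (d e : ℕ) : (C c : MvPolynomial σ K) ∈ Fil K G d e := by
  refine mem_Fil.2 fun u hu => ?_
  have : u = 0 := by
    by_contra h
    rw [mem_support_iff, coeff_C, if_neg (Ne.symm h)] at hu
    exact hu rfl
  simp [this]

theorem one_mem_Fil (d e : ℕ) : (1 : MvPolynomial σ K) ∈ Fil K G d e := C_mem_Fil 1 d e

theorem monomial_mem_Fil {u : σ →₀ ℕ} (c : K) {d e : ℕ} (h1 : ∑ i ∈ G, u i ≤ d)
    (h2 : ∑ i ∈ Gᶜ, u i ≤ e) : monomial u c ∈ Fil K G d e := by
  refine mem_Fil.2 fun v hv => ?_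
  obtain rfl : v = u := Finset.mem_singleton.1 (support_monomial_subset hv)
  exact ⟨h1, h2⟩

theorem X_mem_Fil_left {i : σ} (hi : i ∈ G) : (X i : MvPolynomial σ K) ∈ Fil K G 1 0 := by
  refine monomial_mem_Fil 1 ?_ ?_
  · simp [Finsupp.single_apply, hi]
  · simp [Finsupp.single_apply, hi]

theorem X_mem_Fil_right {i : σ} (hi : i ∉ G) : (X i : MvPolynomial σ K) ∈ Fil K G 0 1 := by
  refine monomial_mem_Fil 1 ?_ ?_
  · simp [Finsupp.single_apply, hi]
  · simp [Finsupp.single_apply, hi]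

theorem X_mem_Fil (i : σ) : (X i : MvPolynomial σ K) ∈ Fil K G 1 1 := by
  by_cases hi : i ∈ G
  · exact Fil_mono le_rfl zero_le_one (X_mem_Fil_left hi)
  · exact Fil_mono zero_le_one le_rfl (X_mem_Fil_right hi)

theorem pow_mem_Fil {f : MvPolynomial σ K} {d e : ℕ} (hf : f ∈ Fil K G d e) (k : ℕ) :
    f ^ k ∈ Fil K G (k * d) (k * e) := by
  induction k with
  | zero => simpa using one_mem_Fil 0 0
  | succ k ih => simpa only [pow_succ, Nat.succ_mul] using mul_mem_Fil ih hf

theorem prod_mem_Fil {ι : Type*} (s : Finset ι) (f : ι → MvPolynomial σ K) (d e : ι → ℕ)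
    (hf : ∀ i ∈ s, f i ∈ Fil K G (d i) (e i)) :
    ∏ i ∈ s, f i ∈ Fil K G (∑ i ∈ s, d i) (∑ i ∈ s, e i) := by
  classical
  induction s using Finset.induction_on with
  | empty => simpa using one_mem_Fil 0 0
  | insert a s ha ih =>
    simp only [Finset.prod_insert ha, Finset.sum_insert ha]
    exact mul_mem_Fil (hf a (by simp)) (ih fun i hi => hf i (by simp [hi]))

theorem mem_Fil_of_totalDegree {f : MvPolynomial σ K} {d : ℕ} (h : f.totalDegree ≤ d) :
    f ∈ Fil K G d d := by
  refine mem_Fil.2 fun u hu => ?_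
  have h1 := (le_totalDegree hu).trans h
  rw [Finsupp.sum_fintype _ _ (fun _ => rfl), ← Finset.sum_add_sum_compl G] at h1
  omega

theorem totalDegree_le_of_mem_Fil {f : MvPolynomial σ K} {d e : ℕ} (h : f ∈ Fil K G d e) :
    f.totalDegree ≤ d + e := by
  refine Finset.sup_le fun u hu => ?_
  have h1 := mem_Fil.1 h u hu
  rw [Finsupp.sum_fintype _ _ (fun _ => rfl), ← Finset.sum_add_sum_compl G]
  omega

theorem mem_Fil_univ {f : MvPolynomial σ K} {d e : ℕ} :
    f ∈ Fil K Finset.univ d e ↔ f.totalDegree ≤ d := by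
  refine ⟨fun h => Finset.sup_le fun u hu => ?_, fun h => mem_Fil.2 fun u hu => ⟨?_, by simp⟩⟩
  · rw [Finsupp.sum_fintype _ _ (fun _ => rfl)]
    exact (mem_Fil.1 h u hu).1
  · have h1 := (le_totalDegree hu).trans h
    rwa [Finsupp.sum_fintype _ _ (fun _ => rfl)] at h1

theorem mem_Fil_zero {f : P2 K} {d e : ℕ} :
    f ∈ Fil K {0} d e ↔ f.degreeOf 0 ≤ d ∧ f.degreeOf 1 ≤ e := by
  have : ({0} : Finset (Fin 2))ᶜ = {1} := by decide
  simp only [mem_Fil, this, Finset.sum_singleton, degreeOf_le_iff]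
  exact ⟨fun h => ⟨fun u hu => (h u hu).1, fun u hu => (h u hu).2⟩,
    fun h u hu => ⟨h.1 u hu, h.2 u hu⟩⟩

instance Fil_finite (d e : ℕ) : Module.Finite K (Fil K G d e) :=
  Submodule.finiteDimensional_of_le (S₂ := restrictTotalDegree σ K (d + e)) fun _ h =>
    (mem_restrictTotalDegree _ _ _).2 (totalDegree_le_of_mem_Fil h)

theorem IsHom.le_of_mem_Fil {f : MvPolynomial σ K} {a d e : ℕ} (h : IsHom G f a) (h0 : f ≠ 0)
    (hf : f ∈ Fil K G d e) : a ≤ d := by
  obtain ⟨u, hu⟩ := support_nonempty.2 h0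
  exact (h u hu) ▸ (mem_Fil.1 hf u hu).1

/-- A factor of a nonzero member of the filtration lies in the same step. -/
theorem mem_Fil_of_dvd (hd : DegSt) {f F : MvPolynomial σ K} {d e : ℕ} (h0 : F ≠ 0) (h : f ∣ F)
    (hF : F ∈ Fil K G d e) : f ∈ Fil K G d e := by
  obtain ⟨ψ, rfl⟩ := h
  obtain ⟨a0, b0, h1, h2⟩ := (hd K σ G).1 f (left_ne_zero_of_mul h0)
  obtain ⟨h3, h4, -⟩ := h2 ψ d e (right_ne_zero_of_mul h0) hF
  exact Fil_mono h3 h4 h1

theorem HF_mono (I : Ideal (MvPolynomial σ K)) {d e d' e' : ℕ} (h1 : d ≤ d') (h2 : e ≤ e') :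
    HF G I d e ≤ HF G I d' e' :=
  Submodule.finrank_mono (Submodule.map_mono (Fil_mono h1 h2))

/-- Rank and nullity for the Hilbert function. -/
theorem HF_add (I : Ideal (MvPolynomial σ K)) (d e : ℕ) :
    HF G I d e + Module.finrank K (Fil K G d e ⊓ I.restrictScalars K : Submodule K _) =
      Module.finrank K (Fil K G d e) := by
  have h := LinearMap.finrank_range_add_finrank_ker
    ((Ideal.Quotient.mkₐ K I).toLinearMap.domRestrict (Fil K G d e))
  have hk : LinearMap.ker (Ideal.Quotient.mkₐ K I).toLinearMap = I.restrictScalars K := by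
    ext f
    simp [Ideal.Quotient.eq_zero_iff_mem]
  rw [LinearMap.range_domRestrict, LinearMap.ker_domRestrict, hk,
    ← Submodule.finrank_map_subtype_eq (Fil K G d e), Submodule.map_comap_subtype] at h
  exact h

theorem HF_le_finrank (I : Ideal (MvPolynomial σ K)) (d e : ℕ) :
    HF G I d e ≤ Module.finrank K (Fil K G d e) := by
  have := HF_add (G := G) I d e
  omega

theorem HF_anti {I I' : Ideal (MvPolynomial σ K)} (h : I ≤ I') (d e : ℕ) :
    HF G I' d e ≤ HF G I d e := by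
  have h1 := HF_add (G := G) I d e
  have h2 := HF_add (G := G) I' d e
  have h3 : Module.finrank K (Fil K G d e ⊓ I.restrictScalars K : Submodule K _) ≤
      Module.finrank K (Fil K G d e ⊓ I'.restrictScalars K : Submodule K _) :=
    Submodule.finrank_mono (inf_le_inf_left _ fun _ hf => h hf)
  omega

theorem HF_top (d e : ℕ) : HF G (⊤ : Ideal (MvPolynomial σ K)) d e = 0 := by
  have h1 := HF_add (G := G) (⊤ : Ideal (MvPolynomial σ K)) d e
  rw [Submodule.restrictScalars_top, inf_top_eq] at h1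
  omega

theorem exists_ne_zero_of_HF_lt {I : Ideal (MvPolynomial σ K)} {d e : ℕ}
    (h : HF G I d e < Module.finrank K (Fil K G d e)) : ∃ f ∈ Fil K G d e, f ∈ I ∧ f ≠ 0 := by
  have h1 := HF_add (G := G) I d e
  by_contra hn
  push Not at hn
  have : (Fil K G d e ⊓ I.restrictScalars K : Submodule K _) = ⊥ :=
    (Submodule.eq_bot_iff _).2 fun f hf => hn f hf.1 hf.2
  rw [this, finrank_bot] at h1
  omega

/-- An independent family inside one step bounds the Hilbert function from below. -/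
theorem card_le_HF {I : Ideal (MvPolynomial σ K)} {d e : ℕ} {ι : Type*} [Fintype ι]
    (f : ι → MvPolynomial σ K) (hf : ∀ i, f i ∈ Fil K G d e)
    (hi : LinearIndependent K fun i => Ideal.Quotient.mk I (f i)) : Fintype.card ι ≤ HF G I d e := by
  let v : ι → (Fil K G d e).map (Ideal.Quotient.mkₐ K I).toLinearMap :=
    fun i => ⟨Ideal.Quotient.mk I (f i), f i, hf i, rfl⟩
  exact (LinearIndependent.of_comp (v := v) (Submodule.subtype _) hi).fintype_card_le_finrank

/-- A spanning family modulo `I` bounds the Hilbert function from above. -/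
theorem HF_le_card {I : Ideal (MvPolynomial σ K)} {d e : ℕ} (s : Finset (MvPolynomial σ K))
    (h : ∀ f ∈ Fil K G d e, ∃ g ∈ Submodule.span K (s : Set (MvPolynomial σ K)), f - g ∈ I) :
    HF G I d e ≤ s.card := by
  have h1 : Module.finrank K (Submodule.span K (s : Set (MvPolynomial σ K))) ≤ s.card :=
    finrank_span_finset_le_card s
  have h2 : (Fil K G d e).map (Ideal.Quotient.mkₐ K I).toLinearMap ≤
      (Submodule.span K (s : Set (MvPolynomial σ K))).map (Ideal.Quotient.mkₐ K I).toLinearMap := by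
    rintro _ ⟨f, hf, rfl⟩
    obtain ⟨g, hg, hfg⟩ := h f hf
    exact ⟨g, hg, (Ideal.Quotient.eq.2 hfg).symm⟩
  exact (Submodule.finrank_mono h2).trans ((Submodule.finrank_map_le _ _).trans h1)

/-- T1, the telescoping inequality. -/
theorem telescope {I I' J : Ideal (MvPolynomial σ K)} {φ : MvPolynomial σ K} {w1 w2 : ℕ}
    (hI : I ≤ I') (hφ : φ ∈ I') (hw : φ ∈ Fil K G w1 w2) (hJ : ∀ ψ, φ * ψ ∈ I → ψ ∈ J)
    (d e : ℕ) : HF G I' (d + w1) (e + w2) + HF G J d e ≤ HF G I (d + w1) (e + w2) := by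
  have h1 := HF_add (G := G) I (d + w1) (e + w2)
  have h2 := HF_add (G := G) I' (d + w1) (e + w2)
  have h3 := HF_add (G := G) J d e
  set U := Fil K G (d + w1) (e + w2)
  set V := Fil K G d e
  let m : MvPolynomial σ K →ₗ[K] MvPolynomial σ K := LinearMap.mulLeft K φ
  have h4 := Submodule.finrank_sup_add_finrank_inf_eq (U ⊓ I.restrictScalars K) (V.map m)
  have h5 : Module.finrank K ((U ⊓ I.restrictScalars K) ⊔ V.map m : Submodule K _) ≤
      Module.finrank K (U ⊓ I'.restrictScalars K : Submodule K _) := by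
    refine Submodule.finrank_mono (sup_le (inf_le_inf_left _ fun _ hf => hI hf) ?_)
    rintro _ ⟨ψ, hψ, rfl⟩
    refine ⟨?_, I'.mul_mem_right ψ hφ⟩
    have := mul_mem_Fil hψ hw
    rwa [mul_comm] at this
  by_cases h0 : φ = 0
  · have : J = ⊤ := (Ideal.eq_top_iff_one J).2 (hJ 1 (by simp [h0]))
    rw [this, HF_top]
    exact HF_anti hI _ _
  have hm : Function.Injective m := fun a b hab => mul_left_cancel₀ h0 hab
  have h6 : Module.finrank K (V.map m) = Module.finrank K V :=
    (LinearEquiv.finrank_eq (Submodule.equivMapOfInjective m hm V)).symm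
  have h7 : Module.finrank K ((U ⊓ I.restrictScalars K) ⊓ V.map m : Submodule K _) ≤
      Module.finrank K (V ⊓ J.restrictScalars K : Submodule K _) := by
    refine le_trans (Submodule.finrank_mono (t := (V ⊓ J.restrictScalars K).map m) ?_)
      (Submodule.finrank_map_le _ _)
    rintro _ ⟨⟨-, hf⟩, ψ, hψ, rfl⟩
    exact ⟨ψ, ⟨hψ, hJ ψ hf⟩, rfl⟩
  omega

/-- T1 repeated, for a non zero divisor. -/
theorem telescope_mul {I I' : Ideal (MvPolynomial σ K)} {φ : MvPolynomial σ K} {w1 w2 : ℕ}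
    (hI : I ≤ I') (hφ : φ ∈ I') (hw : φ ∈ Fil K G w1 w2) (hJ : ∀ ψ, φ * ψ ∈ I → ψ ∈ I)
    (d e M : ℕ) : M * HF G I' d e ≤ HF G I (d + M * w1) (e + M * w2) := by
  induction M with
  | zero => simp
  | succ M ih =>
    have h1 := telescope hI hφ hw hJ (d + M * w1) (e + M * w2)
    have h2 : HF G I' d e ≤ HF G I' (d + M * w1 + w1) (e + M * w2 + w2) :=
      HF_mono _ (by omega) (by omega)
    rw [Nat.succ_mul, Nat.succ_mul, Nat.succ_mul, ← add_assoc, ← add_assoc]
    omega

end general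

section dim

variable {K : Type} [Field K] {σ : Type}

theorem mem_ptI {z : σ → K} {f : MvPolynomial σ K} : f ∈ ptI z ↔ eval z f = 0 := Iff.rfl

theorem ptI_isMaximal (z : σ → K) : (ptI z).IsMaximal :=
  RingHom.ker_isMaximal_of_surjective _ fun c => ⟨C c, eval_C c⟩

theorem ptI_isPrime (z : σ → K) : (ptI z).IsPrime := (ptI_isMaximal z).isPrime

end dim

section points

variable {K : Type} [Field K] {σ : Type} [Fintype σ] [DecidableEq σ] {G : Finset σ}

/-- The Hilbert function of a finite set of points reaches their number. -/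
theorem card_le_HF_points {ι : Type*} (Z : Finset ι) (z : ι → σ → K)
    (hz : ∀ a ∈ Z, ∀ b ∈ Z, z a = z b → a = b) {I : Ideal (MvPolynomial σ K)}
    (hI : ∀ a ∈ Z, I ≤ ptI (z a)) {d e : ℕ} (hd : Z.card ≤ d) (he : Z.card ≤ e ∨ G = Finset.univ) :
    Z.card ≤ HF G I d e := by
  classical
  have hs : ∀ a b : Z, a ≠ b → ∃ i, z a i ≠ z b i := fun a b hab =>
    Function.ne_iff.1 fun h => hab (Subtype.ext (hz _ a.2 _ b.2 h))
  choose c hc using hs
  let f : Z → MvPolynomial σ K := fun a => ∏ b ∈ Finset.univ.erase a,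
    if h : a ≠ b then X (c a b h) - C (z b (c a b h)) else 1
  have ht : ∀ a, (f a).totalDegree ≤ Z.card := fun a => by
    refine (totalDegree_finsetProd _ _).trans ((Finset.sum_le_card_nsmul _ _ 1 fun b _ => ?_).trans ?_)
    · split_ifs
      · exact (totalDegree_sub_C_le _ _).trans (totalDegree_X _).le
      · simp
    · simp
  rw [← Fintype.card_coe]
  refine card_le_HF f (fun a => ?_) ?_
  · rcases he with he | rfl
    · exact Fil_mono hd he (mem_Fil_of_totalDegree (ht a))
    · exact mem_Fil_univ.2 ((ht a).trans hd)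
  rw [Fintype.linearIndependent_iff]
  intro g hg a
  have h1 : ∑ i, g i • f i ∈ I := by
    rw [← Ideal.Quotient.eq_zero_iff_mem, ← hg, ← Ideal.Quotient.mkₐ_eq_mk K, map_sum]
    simp only [map_smul]
  have h2 := mem_ptI.1 (hI a a.2 h1)
  rw [map_sum, Finset.sum_eq_single a] at h2
  · rw [smul_eval] at h2
    refine (mul_eq_zero.1 h2).resolve_right ?_
    rw [map_prod]
    refine Finset.prod_ne_zero_iff.2 fun b hb => ?_
    have hab : a ≠ b := (Finset.ne_of_mem_erase hb).symm
    rw [dif_pos hab]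
    simpa [sub_eq_zero] using hc a b hab
  · intro b _ hb
    rw [smul_eval, map_prod, Finset.prod_eq_zero (i := a) (by simp [hb.symm]), mul_zero]
    rw [dif_pos hb]
    simp
  · simp

end points

end Pool.Agent.Lib.MP_a460e0_co.GK
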