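import Pool.Agent.Lib.MP_a460e0_co.GK.BasicM0

/-! Degrees of the derivation and homogeneous parts. -/

namespace Pool.Agent.Lib.MP_a460e0_co.GK

open MvPolynomial

noncomputable section

variable {K : Type} [Field K]

/-! ### Degrees -/

theorem sum_G4 (u : Fin 6 →₀ ℕ) : ∑ i ∈ G4, u i = u 0 + u 1 + u 2 + u 3 := by
  simp [G4, add_assoc]

theorem G4_compl : (G4ᶜ : Finset (Fin 6)) = {4, 5} := by decide

theorem sum_G4c (u : Fin 6 →₀ ℕ) : ∑ i ∈ G4ᶜ, u i = u 4 + u 5 := by
  simp [G4_compl]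

theorem mem_Fil_G4 {f : R K} {a b : ℕ} :
    f ∈ Fil K G4 a b ↔ ∀ u ∈ f.support, ∑ i ∈ G4, u i ≤ a ∧ ∑ i ∈ G4ᶜ, u i ≤ b := by
  unfold Fil
  rw [mem_restrictSupport_iff]
  exact ⟨fun h u hu => h hu, fun h u hu => h u hu⟩

theorem der_eq_sum {σ : Type} [Fintype σ] [DecidableEq σ]
    (D : Derivation K (MvPolynomial σ K) (MvPolynomial σ K)) (f : MvPolynomial σ K) :
    D f = ∑ i, pderiv i f * D (X i) := by
  induction f using MvPolynomial.induction_on with
  | C a => simp [derivation_C]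
  | add f g hf hg => simp [hf, hg, add_mul, Finset.sum_add_distrib]
  | mul_X f j hf =>
    rw [Derivation.leibniz, hf, smul_eq_mul, smul_eq_mul, Finset.mul_sum]
    have : f * D (X j) = ∑ i, f * pderiv i (X j) * D (X i) := by
      rw [Finset.sum_eq_single j]
      · simp
      · intro i _ hi
        simp [pderiv_X_of_ne (Ne.symm hi)]
      · simp
    rw [this, ← Finset.sum_add_distrib]
    refine Finset.sum_congr rfl fun i _ => ?_
    rw [Derivation.leibniz, smul_eq_mul, smul_eq_mul]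
    ring

theorem supp_Der_X (i : Fin 6) : ∀ v ∈ (Der K (X i)).support,
    i ∈ G4 ∧ ∑ j ∈ G4, v j = 1 ∧ ∑ j ∈ G4ᶜ, v j ≤ 2 := by
  classical
  have key : ∀ (a b : Fin 6), a ∈ G4 → b ∈ G4 → ∀ v ∈ (X a * X 4 + X b : R K).support,
      ∑ j ∈ G4, v j = 1 ∧ ∑ j ∈ G4ᶜ, v j ≤ 1 := by
    intro a b ha hb v hv
    rcases Finset.mem_union.1 (support_add hv) with h | h
    · rw [X, X, monomial_mul] at h
      have := Finset.mem_singleton.1 (support_monomial_subset h)
      subst this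
      rw [sum_G4, sum_G4c]
      fin_cases a <;> simp_all [G4]
    · rw [X] at h
      have := Finset.mem_singleton.1 (support_monomial_subset h)
      subst this
      rw [sum_G4, sum_G4c]
      fin_cases b <;> simp_all [G4]
  have key2 : ∀ (a b : Fin 6), a ∈ G4 → b ∈ G4 →
      ∀ v ∈ (-(X 5 * (X a * X 4 + X b)) : R K).support,
      ∑ j ∈ G4, v j = 1 ∧ ∑ j ∈ G4ᶜ, v j ≤ 2 := by
    intro a b ha hb v hv
    rw [support_neg] at hv
    obtain ⟨x, hx, y, hy, rfl⟩ := Finset.mem_add.1 (support_mul _ _ hv)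
    rw [X] at hx
    have := Finset.mem_singleton.1 (support_monomial_subset hx)
    subst this
    have h := key a b ha hb y hy
    rw [sum_G4, sum_G4c] at h ⊢
    simp
    omega
  intro v hv
  rw [Der_X] at hv
  fin_cases i
  · have := key 0 1 (by decide) (by decide) v hv
    exact ⟨by decide, this.1, by omega⟩
  · exact ⟨by decide, key2 0 1 (by decide) (by decide) v hv⟩
  · have := key 2 3 (by decide) (by decide) v hv
    exact ⟨by decide, this.1, by omega⟩
  · exact ⟨by decide, key2 2 3 (by decide) (by decide) v hv⟩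
  · simp at hv
  · simp at hv

/-- Every monomial of `Der f` comes from a monomial of `f` of the same first degree. -/
theorem supp_Der {f : R K} {w : Fin 6 →₀ ℕ} (hw : w ∈ (Der K f).support) :
    ∃ u ∈ f.support, ∑ j ∈ G4, w j = ∑ j ∈ G4, u j ∧ ∑ j ∈ G4ᶜ, w j ≤ ∑ j ∈ G4ᶜ, u j + 2 := by
  classical
  rw [der_eq_sum] at hw
  obtain ⟨i, -, hi⟩ := Finset.mem_biUnion.1 (support_sum hw)
  obtain ⟨x, hx, v, hv, rfl⟩ := Finset.mem_add.1 (support_mul _ _ hi)
  obtain ⟨hiG, h1, h2⟩ := supp_Der_X i v hv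
  refine ⟨x + Finsupp.single i 1, ?_, ?_⟩
  · rw [mem_support_iff] at hx ⊢
    rw [coeff_pderiv] at hx
    exact left_ne_zero_of_mul hx
  · rw [sum_G4, sum_G4c] at *
    rw [sum_G4, sum_G4c]
    fin_cases i <;> simp_all [G4] <;> omega

theorem Der_mem_Fil {f : R K} {a b : ℕ} (h : f ∈ Fil K G4 a b) : Der K f ∈ Fil K G4 a (b + 2) := by
  rw [mem_Fil_G4] at h ⊢
  intro w hw
  obtain ⟨u, hu, h1, h2⟩ := supp_Der hw
  have := h u hu
  omega

theorem Dj_mem_Fil {f : R K} {a b : ℕ} (h : f ∈ Fil K G4 a b) (j : ℕ) :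
    Dj j f ∈ Fil K G4 a (b + 2 * j) := by
  induction j with
  | zero => exact h
  | succ j ih => rw [Dj_succ]; exact Der_mem_Fil ih

theorem IsHom.der {f : R K} {a : ℕ} (h : IsHom G4 f a) : IsHom G4 (Der K f) a := by
  intro w hw
  obtain ⟨u, hu, h1, -⟩ := supp_Der hw
  rw [h1, h u hu]

theorem IsHom.dj {f : R K} {a : ℕ} (h : IsHom G4 f a) (j : ℕ) : IsHom G4 (Dj j f) a := by
  induction j with
  | zero => exact h
  | succ j ih => rw [Dj_succ]; exact ih.der

theorem IsHom.phi {f : R K} {a : ℕ} (h : IsHom G4 f a) : (Phi K f).IsHomogeneous a := by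
  rw [f.as_sum, map_sum]
  refine IsHomogeneous.sum _ _ _ fun u hu => ?_
  have hX : ∀ i : Fin 6, (Phi K (X i)).IsHomogeneous (if i ∈ G4 then 1 else 0) := by
    have e : ∀ (j : Fin 2) (c : S K), (X j * C c : MvPolynomial (Fin 2) (S K)).IsHomogeneous 1 :=
      fun j c => by rw [mul_comm]; exact isHomogeneous_C_mul_X c j
    intro i
    rw [Phi, aeval_X]
    fin_cases i
    · exact (e 0 _).add (e 1 _)
    · exact (e 0 (X 2 * X 1)).neg.sub (e 1 (X 3 * X 0))
    · exact (isHomogeneous_X _ 0).add (isHomogeneous_X _ 1)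
    · exact (e 0 (X 1)).neg.sub (e 1 (X 0))
    · exact isHomogeneous_C _ _
    · exact isHomogeneous_C _ _
  have hp := IsHomogeneous.prod Finset.univ (fun i => Phi K (X i) ^ u i)
    (fun i => (if i ∈ G4 then 1 else 0) * u i) fun i _ => (hX i).pow (u i)
  have hs : ∑ i : Fin 6, (if i ∈ G4 then 1 else 0) * u i = a := by
    rw [← h u hu, sum_G4, Fin.sum_univ_six]
    simp [G4]
  rw [hs] at hp
  rw [monomial_eq, map_mul, Finsupp.prod_fintype _ _ (by simp), map_prod]
  simp only [map_pow]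
  have hc : Phi K (C (coeff u f)) = C (C (coeff u f)) := by simp [Phi]
  rw [hc]
  exact hp.C_mul _

theorem IsHom.phiL {f : R K} {a : ℕ} (h : IsHom G4 f a) (l : Ln K) :
    (PhiL l f).IsHomogeneous a := by
  rw [← map_Phi]
  exact h.phi.map _

/-- The part of `f` of degree `a` in the matrix entries. -/
def hc (a : ℕ) (f : R K) : R K :=
  ∑ u ∈ f.support.filter (fun u => ∑ i ∈ G4, u i = a), monomial u (coeff u f)

theorem coeff_hc (a : ℕ) (f : R K) (u : Fin 6 →₀ ℕ) :
    coeff u (hc a f) = if ∑ i ∈ G4, u i = a then coeff u f else 0 := by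
  classical
  rw [hc, coeff_sum]
  simp only [coeff_monomial, Finset.sum_ite_eq', Finset.mem_filter, mem_support_iff]
  by_cases h1 : coeff u f = 0 <;> simp [h1]

theorem supp_hc {a : ℕ} {f : R K} {u : Fin 6 →₀ ℕ} :
    u ∈ (hc a f).support ↔ u ∈ f.support ∧ ∑ i ∈ G4, u i = a := by
  rw [mem_support_iff, mem_support_iff, coeff_hc]
  by_cases h : ∑ i ∈ G4, u i = a <;> simp [h]

theorem isHom_hc (a : ℕ) (f : R K) : IsHom G4 (hc a f) a := fun _ hu => (supp_hc.1 hu).2

theorem hc_mem_Fil {f : R K} {d e : ℕ} (h : f ∈ Fil K G4 d e) (a : ℕ) : hc a f ∈ Fil K G4 d e :=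
  mem_Fil_G4.2 fun u hu => mem_Fil_G4.1 h u (supp_hc.1 hu).1

theorem sum_hc (f : R K) :
    ∑ a ∈ f.support.image (fun u => ∑ i ∈ G4, u i), hc a f = f := by
  classical
  ext u
  rw [coeff_sum]
  simp only [coeff_hc, Finset.sum_ite_eq, Finset.mem_image]
  split_ifs with h
  · rfl
  · by_contra h0
    exact h ⟨u, mem_support_iff.2 (Ne.symm h0), rfl⟩

theorem hc_mem_tilde {I : Ideal (S K)} {f : R K} (h : f ∈ tilde I) (a : ℕ) :
    hc a f ∈ tilde I := by
  classical
  rw [mem_tilde] at h ⊢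
  intro m
  by_cases hm : m.degree = a
  · by_cases ha : a ∈ f.support.image (fun u => ∑ i ∈ G4, u i)
    · have h1 := h m
      rw [← sum_hc f, map_sum, coeff_sum, Finset.sum_eq_single_of_mem a ha] at h1
      · exact h1
      · intro b _ hb
        exact (isHom_hc b f).phi.coeff_eq_zero (by rw [hm]; exact Ne.symm hb)
    · have : hc a f = 0 := by
        by_contra h0
        obtain ⟨u, hu⟩ := support_nonempty.2 h0
        exact ha (Finset.mem_image.2 ⟨u, (supp_hc.1 hu).1, (supp_hc.1 hu).2⟩)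
      simp [this]
  · rw [(isHom_hc a f).phi.coeff_eq_zero hm]
    exact I.zero_mem

/-- A nonzero polynomial has a nonzero homogeneous part lying in the same lifted ideals. -/
theorem exists_hom_part {f : R K} (h0 : f ≠ 0) {d e : ℕ} (h : f ∈ Fil K G4 d e) :
    ∃ (f' : R K) (a : ℕ), f' ≠ 0 ∧ IsHom G4 f' a ∧ a ≤ d ∧ f' ∈ Fil K G4 d e ∧
      ∀ I : Ideal (S K), f ∈ tilde I → f' ∈ tilde I := by
  obtain ⟨u, hu⟩ := support_nonempty.2 h0
  refine ⟨hc (∑ i ∈ G4, u i) f, _, ?_, isHom_hc _ _, (mem_Fil_G4.1 h u hu).1, hc_mem_Fil h _,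
    fun I hI => hc_mem_tilde hI _⟩
  exact support_nonempty.1 ⟨u, supp_hc.2 ⟨hu, rfl⟩⟩

end

end Pool.Agent.Lib.MP_a460e0_co.GK
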