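import Pool.Agent.Lib.MP_a460e0_co.GK.ExcA
import Pool.Agent.Lib.MP_a460e0_co.GK.Basic
import Pool.Agent.Lib.MP_a460e0_co.GK.BasicM1

/-! Exceptional incidences: the sum of bidegrees over bad pairs of curves, and the count. -/

namespace Pool.Agent.Lib.MP_a460e0_co.GK

open MvPolynomial

namespace Exc

noncomputable section

variable {K : Type} [Field K]

theorem lin_deg (a b : K) (i j : Fin 2) :
    (C a * X i + C b : P2 K).degreeOf j ≤ if j = i then 1 else 0 := by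
  refine (degreeOf_add_le _ _ _).trans (max_le ?_ (by simp [degreeOf_C]))
  refine (degreeOf_C_mul_le _ _ _).trans ?_
  rw [degreeOf_X]

theorem pull_deg (g : Fin 4 → K) (c : P2 K) (j : Fin 2) :
    (pull g c).degreeOf j ≤ c.degreeOf j := by
  unfold pull
  refine (degreeOf_sum_le _ _ _).trans (Finset.sup_le fun u hu => ?_)
  refine (degreeOf_C_mul_le _ _ _).trans ?_
  have h0 : u 0 ≤ c.degreeOf 0 := monomial_le_degreeOf 0 hu
  have h1 : u 1 ≤ c.degreeOf 1 := monomial_le_degreeOf 1 hu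
  have key : ∀ (a b : K) (i : Fin 2) (n : ℕ),
      ((C a * X i + C b : P2 K) ^ n).degreeOf j ≤ n * if j = i then 1 else 0 := fun a b i n =>
    (degreeOf_pow_le _ _ _).trans (Nat.mul_le_mul_left _ (lin_deg a b i j))
  refine (degreeOf_mul_le _ _ _).trans ?_
  refine (add_le_add (degreeOf_mul_le _ _ _) (degreeOf_mul_le _ _ _)).trans ?_
  refine (add_le_add (add_le_add (key _ _ _ _) (key _ _ _ _))
    (add_le_add (key _ _ _ _) (key _ _ _ _))).trans ?_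
  fin_cases j <;> simp <;> omega

theorem pull_val {g : Fin 4 → K} {l : Ln K} (h : Inc g l) (c : P2 K) :
    ev2 l.1 (pull g c) = (g 2 * l.1.1 + g 3) ^ c.degreeOf 0 * (g 2 * l.1.2 + g 3) ^ c.degreeOf 1 *
      ev2 l.2 c := by
  unfold pull ev2
  rw [eval_eq' (X := ![l.2.1, l.2.2]), Finset.mul_sum, map_sum]
  refine Finset.sum_congr rfl fun u hu => ?_
  obtain ⟨k0, h0⟩ := Nat.exists_eq_add_of_le (monomial_le_degreeOf 0 hu)
  obtain ⟨k1, h1⟩ := Nat.exists_eq_add_of_le (monomial_le_degreeOf 1 hu)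
  rw [h0, h1, Nat.add_sub_cancel_left, Nat.add_sub_cancel_left]
  simp only [map_mul, map_pow, map_add, eval_C, eval_X, Fin.prod_univ_two, Matrix.cons_val_zero,
    Matrix.cons_val_one]
  rw [h.1, h.2, mul_pow, mul_pow]
  ring

theorem inc_inj {g : Fin 4 → K} (hg : g 0 * g 3 - g 1 * g 2 ≠ 0) {l l' : Ln K} (h : Inc g l)
    (h' : Inc g l') (e : l.1 = l'.1) : l = l' := by
  have key : ∀ x y y' : K, g 0 * x + g 1 = y * (g 2 * x + g 3) →
      g 0 * x + g 1 = y' * (g 2 * x + g 3) → y = y' := by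
    intro x y y' e1 e2
    by_cases h0 : g 2 * x + g 3 = 0
    · exfalso
      apply hg
      rw [h0, mul_zero] at e1
      linear_combination g 0 * h0 - g 2 * e1
    · exact mul_right_cancel₀ h0 (e1.symm.trans e2)
  obtain ⟨h1, h2⟩ := h'
  rw [← e] at h1 h2
  exact Prod.ext e (Prod.ext (key _ _ _ h.1 h1) (key _ _ _ h.2 h2))

theorem deg_mo (t : Fin 2) (i j k l : ℕ) :
    (inX (mo t i j) * inY (mo t.rev k l) : S K) =
      if t = 0 then X 0 ^ i * X 1 ^ j * X 2 ^ l * X 3 ^ k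
      else X 0 ^ j * X 1 ^ i * X 2 ^ k * X 3 ^ l := by
  have e : ∀ (t : Fin 2) (i j : ℕ), (mo t i j : P2 K) = X t ^ i * X t.rev ^ j := by
    intro t i j
    rw [mo, ex, X_pow_eq_monomial, X_pow_eq_monomial, monomial_mul, mul_one]
  rw [e, e]
  fin_cases t <;> simp [inX, inY, Fin.rev] <;> ring

theorem deg_four (i0 i1 i2 i3 : ℕ) (n : Fin 4) :
    (X 0 ^ i0 * X 1 ^ i1 * X 2 ^ i2 * X 3 ^ i3 : S K).degreeOf n ≤ ![i0, i1, i2, i3] n := by
  have key : ∀ (i : Fin 4) (m : ℕ), (X i ^ m : S K).degreeOf n ≤ m * if n = i then 1 else 0 := by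
    intro i m
    refine (degreeOf_pow_le _ _ _).trans ?_
    rw [degreeOf_X]
  refine (degreeOf_mul_le _ _ _).trans ?_
  refine (add_le_add ((degreeOf_mul_le _ _ _).trans (add_le_add ((degreeOf_mul_le _ _ _).trans
    (add_le_add (key _ _) (key _ _))) (key _ _))) (key _ _)).trans ?_
  fin_cases n <;> simp

theorem arith {s a b c e M : ℕ} (hb : 1 ≤ b) (hc : c ≤ M) (he : a * e ≤ M)
    (h : (M + 1) ^ 2 * ((M + 1) ^ 2 * s) ≤ a ^ 2 * (5 * M + c) ^ 2 * e ^ 2 +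
      2 * a * b * (5 * M + c) ^ 3 * e + b ^ 2 * (5 * M + c) ^ 4) : s ≤ 1764 * b ^ 2 := by
  set N := M + 1 with hN
  have h1 : 5 * M + c ≤ 6 * N := by omega
  have h2 : a * e ≤ N := by omega
  have hb2 : b ≤ b ^ 2 := by nlinarith
  have hb1 : 1 ≤ b ^ 2 := by omega
  have t1 : a ^ 2 * (5 * M + c) ^ 2 * e ^ 2 ≤ 36 * b ^ 2 * N ^ 4 :=
    calc a ^ 2 * (5 * M + c) ^ 2 * e ^ 2 = 1 * ((a * e) ^ 2 * (5 * M + c) ^ 2) := by ring
      _ ≤ b ^ 2 * (N ^ 2 * (6 * N) ^ 2) := by gcongr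
      _ = 36 * b ^ 2 * N ^ 4 := by ring
  have t2 : 2 * a * b * (5 * M + c) ^ 3 * e ≤ 432 * b ^ 2 * N ^ 4 :=
    calc 2 * a * b * (5 * M + c) ^ 3 * e = 2 * b * ((a * e) * (5 * M + c) ^ 3) := by ring
      _ ≤ 2 * b ^ 2 * (N * (6 * N) ^ 3) := by gcongr
      _ = 432 * b ^ 2 * N ^ 4 := by ring
  have t3 : b ^ 2 * (5 * M + c) ^ 4 ≤ 1296 * b ^ 2 * N ^ 4 :=
    calc b ^ 2 * (5 * M + c) ^ 4 ≤ b ^ 2 * (6 * N) ^ 4 := by gcongr
      _ = 1296 * b ^ 2 * N ^ 4 := by ring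
  have h3 : N ^ 4 * s ≤ N ^ 4 * (1764 * b ^ 2) :=
    calc N ^ 4 * s = N ^ 2 * (N ^ 2 * s) := by ring
      _ ≤ 36 * b ^ 2 * N ^ 4 + 432 * b ^ 2 * N ^ 4 + 1296 * b ^ 2 * N ^ 4 :=
        h.trans (add_le_add (add_le_add t1 t2) t3)
      _ = N ^ 4 * (1764 * b ^ 2) := by ring
  exact Nat.le_of_mul_le_mul_left h3 (by positivity)

/-- The sum of the bidegrees over the bad pairs. -/
theorem bad_sum (hbd : BdySt) (h42 : H42St) [IsAlgClosed K] {CC : Finset (P2 K)}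
    (hCC : Curves CC) {B : Finset (P2 K × P2 K)}
    (hB : ∀ p ∈ B, p.1 ∈ CC ∧ p.2 ∈ CC ∧ ∃ l : Ln K, Off l ∧ ev2 l.1 p.1 = 0 ∧ ev2 l.2 p.2 = 0)
    {F : R K} {a b : ℕ} (hb : 1 ≤ b) (hF : F ∈ Fil K G4 a b) (hr : IsRelPrime F (Der K F))
    (hz : ∀ p ∈ B, ∀ l : Ln K, ev2 l.1 p.1 = 0 → ev2 l.2 p.2 = 0 → F ∈ Ll l) (t : Fin 2) :
    ∑ p ∈ B, p.1.degreeOf t * p.2.degreeOf t.rev ≤ 15876 * b ^ 2 := by
  have hFt : F ∈ tilde (vanI B) := by
    refine mem_tilde.2 fun m => mem_vanI.2 fun l _ p hp h1 h2 => ?_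
    exact (Exc.mem_mx l _).1 (mem_tilde.1 (hz p hp l h1 h2) m)
  have hle : Ideal.span {F, Der K F} ≤ tilde (vanI B) := by
    rw [Ideal.span_le]
    rintro f (rfl | rfl)
    · exact hFt
    · exact Der_mem_tilde hFt
  obtain ⟨c0, hc0⟩ : ∃ c0 : ℕ, ∀ p ∈ B,
      (inX (cof CC p.1) * inY (cof CC p.2) : S K).totalDegree ≤ c0 :=
    ⟨∑ p ∈ B, (inX (cof CC p.1) * inY (cof CC p.2) : S K).totalDegree, fun p hp =>
      Finset.single_le_sum (f := fun p : P2 K × P2 K =>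
        (inX (cof CC p.1) * inY (cof CC p.2) : S K).totalDegree) (fun _ _ => Nat.zero_le _) hp⟩
  obtain ⟨c1, hc1⟩ : ∃ c1 : ℕ, ∀ p ∈ B, p.1.degreeOf t + p.2.degreeOf t.rev ≤ c1 :=
    ⟨∑ p ∈ B, (p.1.degreeOf t + p.2.degreeOf t.rev), fun p hp =>
      Finset.single_le_sum (f := fun p : P2 K × P2 K => p.1.degreeOf t + p.2.degreeOf t.rev)
        (fun _ _ => Nat.zero_le _) hp⟩
  obtain ⟨r, hr'⟩ : ∃ r, r = c0 + c1 := ⟨_, rfl⟩
  obtain ⟨M, hM⟩ : ∃ M, M = 2 * c0 + r + 4 + a * (r + r + 2) := ⟨_, rfl⟩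
  have hdeg : ∀ (k : Ix B t (M + 1)) (n : Fin 4), (chi CC B t (M + 1) k).degreeOf n ≤
      c0 + (if t = 0 then ![c1, M, M, c1] n else ![M, c1, c1, M] n) := by
    intro k n
    have e0 : (inX (cof CC k.1.1.1) * inY (cof CC k.1.1.2) : S K).degreeOf n ≤ c0 :=
      (degreeOf_le_totalDegree _ _).trans (hc0 k.1.1 k.1.2)
    have e1 := hc1 k.1.1 k.1.2
    have a1 := k.2.1.1.2
    have a2 := k.2.1.2.2
    have a3 := k.2.2.1.2
    have a4 := k.2.2.2.2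
    refine (degreeOf_mul_le _ _ _).trans (add_le_add e0 ?_)
    rw [deg_mo]
    split_ifs
    · refine (deg_four _ _ _ _ n).trans ?_
      fin_cases n <;> simp <;> omega
    · refine (deg_four _ _ _ _ n).trans ?_
      fin_cases n <;> simp <;> omega
  have h1 := hbd K (vanI B) (Ix B t (M + 1)) (chi CC B t (M + 1)) r (c0 + M) r M (vanI_kap B)
    (chi_indep hCC hB t (M + 1)) (by
      by_cases ht : t = 0
      · left
        intro k
        have := hdeg k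
        simp only [if_pos ht] at this
        rw [hr']
        exact ⟨this 0, this 1, this 2, this 3⟩
      · right
        intro k
        have := hdeg k
        simp only [if_neg ht] at this
        rw [hr']
        exact ⟨this 0, this 1, this 2, this 3⟩)
  have h2 := (h42 K).2 F (Der K F) a (b + 2) (2 * (c0 + M) + r + 3 * M) (r + r) hr
    (Fil_mono le_rfl (by omega) hF) (Der_mem_Fil hF)
  have h3 := h1.trans ((HF_anti hle _ _).trans h2)
  rw [card_Ix, show 2 * (c0 + M) + r + 3 * M + 4 = 5 * M + (2 * c0 + r + 4) by ring] at h3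
  have h4 := arith (by omega) (by omega) (by omega) h3
  have h5 : (b + 2) ^ 2 ≤ (3 * b) ^ 2 := Nat.pow_le_pow_left (by omega) 2
  nlinarith

end

end Exc

open Exc in
theorem excSt (hP : ProdSt) (hbd : BdySt) (h42 : H42St) (hbz : BezSt) : ExcSt := by
  refine ⟨31752, fun K _ _ E CC cf P _ hCC hE hPr a b F hb hF hr g hg Z hZ => ?_⟩
  classical
  set pr : Ln K → P2 K × P2 K := fun l => (cf l.1, cf l.2) with hpr
  set B : Finset (P2 K × P2 K) := Z.image pr with hBd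
  have hZ1 : ∀ l ∈ Z, l.1 ∈ E ∧ l.2 ∈ E := fun l hl => Finset.mem_product.1 (hZ l hl).1
  have hon : ∀ x ∈ E, ev2 x (cf x) = 0 := fun x hx =>
    ((hE x hx).2.2 _ (hE x hx).2.1).2 rfl
  have hB : ∀ p ∈ B, p.1 ∈ CC ∧ p.2 ∈ CC ∧
      ∃ l : Ln K, Off l ∧ ev2 l.1 p.1 = 0 ∧ ev2 l.2 p.2 = 0 := by
    intro p hp
    obtain ⟨l, hl, rfl⟩ := Finset.mem_image.1 hp
    obtain ⟨h1, h2⟩ := hZ1 l hl
    exact ⟨(hE _ h1).2.1, (hE _ h2).2.1, l, ⟨(hE _ h1).1, (hE _ h2).1⟩, hon _ h1, hon _ h2⟩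
  have hz : ∀ p ∈ B, ∀ l : Ln K, ev2 l.1 p.1 = 0 → ev2 l.2 p.2 = 0 → F ∈ Ll l := by
    intro p hp l' e1 e2
    obtain ⟨l, hl, rfl⟩ := Finset.mem_image.1 hp
    obtain ⟨h1, h2⟩ := hZ1 l hl
    obtain ⟨Q, hQ, hQl, hFQ, hV, hD⟩ := (hZ l hl).2.2
    have hx : inX (cf l.1) ∈ Q := by
      have := hV (inX (∏ c ∈ CC, c)) (by simp)
      unfold inX at this
      rw [map_prod] at this
      obtain ⟨c, hc, hcQ⟩ := Ideal.IsPrime.prod_mem_iff.1 this
      have e : ev2 l.1 c = 0 := by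
        rw [← eval_inX]
        exact (Exc.mem_mx l _).1 (hQl hcQ)
      rw [← ((hE _ h1).2.2 c hc).1 e]
      exact hcQ
    have hy : inY (cf l.2) ∈ Q := by
      have := hV (inY (∏ c ∈ CC, c)) (by simp)
      unfold inY at this
      rw [map_prod] at this
      obtain ⟨c, hc, hcQ⟩ := Ideal.IsPrime.prod_mem_iff.1 this
      have e : ev2 l.2 c = 0 := by
        rw [← eval_inY]
        exact (Exc.mem_mx l _).1 (hQl hcQ)
      rw [← ((hE _ h2).2.2 c hc).1 e]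
      exact hcQ
    exact tilde_mono (hP K _ _ Q (hCC.1 _ (hE _ h1).2.1) (hCC.1 _ (hE _ h2).2.1) hQ hx hy hD
      l'.1 l'.2 e1 e2) hFQ
  have s0 := bad_sum hbd h42 hCC hB hb hF hr hz 0
  have s1 := bad_sum hbd h42 hCC hB hb hF hr hz 1
  have hfib : ∀ p ∈ B, (Z.filter fun l => pr l = p).card ≤
      p.1.degreeOf 0 * p.2.degreeOf (0 : Fin 2).rev +
        p.1.degreeOf 1 * p.2.degreeOf (1 : Fin 2).rev := by
    intro p hp
    obtain ⟨l0, hl0, rfl⟩ := Finset.mem_image.1 hp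
    have hrel : IsRelPrime (cf l0.1) (pull g (cf l0.2)) :=
      (hCC.1 _ (hE _ (hZ1 l0 hl0).1).2.1).isRelPrime_iff_not_dvd.2 (hZ l0 hl0).2.1.2
    have hb := (hbz K _ _ hrel ((Z.filter fun l => pr l = pr l0).image Prod.fst) (by
      intro x hx
      obtain ⟨l, hl, rfl⟩ := Finset.mem_image.1 hx
      obtain ⟨hl, e⟩ := Finset.mem_filter.1 hl
      have e1 : cf l.1 = cf l0.1 := congrArg Prod.fst e
      have e2 : cf l.2 = cf l0.2 := congrArg Prod.snd e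
      rw [← e1, ← e2, pull_val (hZ l hl).2.1.1, hon _ (hZ1 l hl).2, mul_zero]
      exact ⟨hon _ (hZ1 l hl).1, rfl⟩)).1
    rw [Finset.card_image_of_injOn fun l hl l' hl' e => inc_inj (hPr.1 g hg)
      (hZ l (Finset.mem_filter.1 hl).1).2.1.1 (hZ l' (Finset.mem_filter.1 hl').1).2.1.1 e] at hb
    refine hb.trans (add_le_add (Nat.mul_le_mul_left _ (pull_deg g _ 1)) ?_)
    rw [mul_comm]
    exact Nat.mul_le_mul_left _ (pull_deg g _ 0)
  rw [Finset.card_eq_sum_card_image pr Z]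
  refine (Finset.sum_le_sum hfib).trans ?_
  rw [Finset.sum_add_distrib]
  omega

end Pool.Agent.Lib.MP_a460e0_co.GK
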