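import Pool.Agent.Lib.MP_a460e0_co.GK.St
import Pool.Agent.Lib.MP_a460e0_co.GkEndC

/-! T13 in the shape of the contract. -/

namespace Pool.Agent.Lib.MP_a460e0_co.GK

open MvPolynomial Finset

open scoped Classical

theorem Flat.exists_pair {K : Type} [Field K] (l : Submodule K (Fin 4 → K))
    (h : Module.finrank K l = 2) : ∃ A B : Fin 4 → K,
      (∀ s t : K, s • A + t • B = 0 → s = 0 ∧ t = 0) ∧
        ∀ x, x ∈ l ↔ ∃ s t : K, x = s • A + t • B := by
  let b := Module.finBasisOfFinrankEq K l h
  refine ⟨b 0, b 1, fun s t e => ?_, fun x => ⟨fun hx => ?_, ?_⟩⟩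
  · have := Fintype.linearIndependent_iff.1 b.linearIndependent ![s, t] (by
      rw [Fin.sum_univ_two]
      exact Subtype.ext e)
    exact ⟨this 0, this 1⟩
  · have := b.sum_repr ⟨x, hx⟩
    rw [Fin.sum_univ_two] at this
    exact ⟨_, _, (congrArg Subtype.val this).symm⟩
  · rintro ⟨s, t, rfl⟩
    exact l.add_mem (l.smul_mem _ (b 0).2) (l.smul_mem _ (b 1).2)

theorem flatSt : FlatSt := by
  intro K _ p _ a B0 lam hp ha _ d F P L hda hF0 hF hv hP hL hB
  choose! A B hind hmem using Flat.exists_pair (K := K)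
  have hP' : ∀ x ∈ P, ∀ y ∈ P, ∀ c : K, x = c • y → x = y := fun x hx y hy c e => hP y hy x hx c e
  have g : GkEnd.Good A B B0 P L := by
    refine ⟨hP', fun l hl => hind l (hL l hl), fun l hl l' hl' s => ?_, fun ν hν => ?_⟩
    · refine (Submodule.eq_of_le_of_finrank_eq (fun x hx => ?_) (by rw [hL l hl, hL l' hl'])).symm
      obtain ⟨s1, t1, rfl⟩ := (hmem l' (hL l' hl') x).1 hx
      exact l.add_mem (l.smul_mem _ ((hmem l (hL l hl) _).2 s.1))
        (l.smul_mem _ ((hmem l (hL l hl) _).2 s.2))
    · let φ : (Fin 4 → K) →ₗ[K] K :=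
        { toFun := fun w => ∑ i, w i * ν i
          map_add' := fun u v => by simp only [Pi.add_apply, add_mul, Finset.sum_add_distrib]
          map_smul' := fun c u => by
            simp only [Pi.smul_apply, smul_eq_mul, Finset.mul_sum, mul_assoc, RingHom.id_apply] }
      refine hB φ (fun h0 => hν (funext fun i => ?_)) _ (filter_subset _ _) fun l hl x hx => ?_
      · have : φ (Pi.single i 1) = 0 := by rw [h0]; rfl
        change ∑ j, (Pi.single i 1 : Fin 4 → K) j * ν j = 0 at this
        rw [Finset.sum_eq_single i (fun j _ hj => by simp [Pi.single_eq_of_ne hj]) (by simp)]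
          at this
        simpa using this
      · obtain ⟨hl, h1, h2⟩ := mem_filter.1 hl
        obtain ⟨s1, t1, rfl⟩ := (hmem l (hL l hl) x).1 hx
        have h1' : φ (A l) = 0 := h1
        have h2' : φ (B l) = 0 := h2
        rw [LinearMap.mem_ker, map_add, map_smul, map_smul, h1', h2', smul_zero, smul_zero, add_zero]
  rcases Nat.eq_zero_or_pos a with ha0 | ha0
  · have hd : d = 0 := by omega
    rw [hd, ← totalDegree_zero_iff_isHomogeneous, totalDegree_eq_zero_iff_eq_C] at hF
    have : P = ∅ := by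
      refine Finset.eq_empty_of_forall_notMem fun x hx => hF0 ?_
      have := (hv x hx).2
      rw [hF, eval_C] at this
      rw [hF, this, C_0]
    simp [this, inc]
  have b := GkEnd.inc_bound hp lam d P L F g hF0 hF (by omega) fun x hx => (hv x hx).2
  have c : inc (fun g (l : Submodule K (Fin 4 → K)) => g ∈ l) P L ≤
      GkEnd.inc A B P L + L.card := by
    have e : inc (fun g (l : Submodule K (Fin 4 → K)) => g ∈ l) P L =
        ∑ l ∈ L, (P.filter fun x => x ∈ l).card := by
      simp only [inc, rr, Finset.card_filter]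
      exact Finset.sum_comm
    rw [e, GkEnd.inc, card_eq_sum_ones L, ← Finset.sum_add_distrib]
    refine Finset.sum_le_sum fun l hl => ?_
    have h1 : (P.filter fun x => ∃ t : K, x = t • B l).card ≤ 1 := by
      refine Finset.card_le_one.2 fun x hx y hy => ?_
      obtain ⟨hx, t, e⟩ := mem_filter.1 hx
      obtain ⟨hy, t', e'⟩ := mem_filter.1 hy
      by_cases ht : t' = 0
      · exact (hP' y hy x hx 0 (by rw [e', ht, zero_smul, zero_smul])).symm
      · exact hP' x hx y hy (t / t') (by rw [e, e', smul_smul, div_mul_cancel₀ _ ht])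
    refine le_trans (card_le_card fun x hx => ?_)
      ((card_union_le _ _).trans (Nat.add_le_add_left h1 _))
    obtain ⟨hx, hxl⟩ := mem_filter.1 hx
    obtain ⟨s, t, e⟩ := (hmem l (hL l hl) x).1 hxl
    by_cases hs : s = 0
    · exact mem_union_right _ (mem_filter.2 ⟨hx, t, by rw [e, hs, zero_smul, zero_add]⟩)
    · refine mem_union_left _ (mem_filter.2 ⟨hx, s, t / s, hs, ?_⟩)
      rw [e, smul_add, smul_smul, mul_div_cancel₀ _ hs]
  have c' := Nat.mul_le_mul_left lam c
  have e : (3 * d + 1) * lam * L.card ≤ 4 * a * lam * L.card := by gcongr; omega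
  nlinarith

end Pool.Agent.Lib.MP_a460e0_co.GK
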