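import Pool.Agent.Lib.MP_a460e0_co.GK.St

/-! T6 (footprint bound): the affine Hilbert function of an ideal of `K[z0,..,z3]` is bounded
through its orthant families of standard monomials. -/

namespace Pool.Agent.Lib.MP_a460e0_co.GK

namespace Foot

open MvPolynomial MonomialOrder Finset
open scoped MonomialOrder

variable {K : Type*} [Field K]

/-- `d` is the leading exponent (degree lexicographic order) of a nonzero element of `I`. -/
def NS (I : Ideal (MvPolynomial (Fin 4) K)) (d : Fin 4 →₀ ℕ) : Prop :=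
  ∃ f ∈ I, f ≠ 0 ∧ degLex.degree f = d

lemma NS.up {I : Ideal (MvPolynomial (Fin 4) K)} {d e : Fin 4 →₀ ℕ} (h : NS I d) (hle : d ≤ e) :
    NS I e := by
  classical
  obtain ⟨f, hf, h0, hd⟩ := h
  have hm : (monomial (e - d) (1 : K) : MvPolynomial (Fin 4) K) ≠ 0 := by
    simp [monomial_eq_zero]
  refine ⟨monomial (e - d) 1 * f, I.mul_mem_left _ hf, mul_ne_zero hm h0, ?_⟩
  rw [degree_mul hm h0, degree_monomial, hd]
  simp [tsub_add_cancel_of_le hle]

lemma indep {I : Ideal (MvPolynomial (Fin 4) K)} {ι : Type*} (φ : ι → Fin 4 →₀ ℕ)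
    (hφ : Function.Injective φ) (hs : ∀ i, ¬ NS I (φ i)) :
    LinearIndependent K fun i => Ideal.Quotient.mk I (monomial (φ i) (1 : K)) := by
  classical
  rw [linearIndependent_iff']
  intro s g hg i hi
  set f : MvPolynomial (Fin 4) K := ∑ j ∈ s, monomial (φ j) (g j) with hf
  have hfI : f ∈ I := by
    rw [← Ideal.Quotient.eq_zero_iff_mem, ← hg, hf, map_sum]
    refine Finset.sum_congr rfl fun j _ => ?_
    have : (monomial (φ j) (g j) : MvPolynomial (Fin 4) K) = g j • monomial (φ j) 1 := by
      simp [smul_monomial]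
    rw [this]; rfl
  have hc : ∀ j ∈ s, coeff (φ j) f = g j := by
    intro j hj
    rw [hf, coeff_sum, Finset.sum_eq_single j]
    · simp
    · intro b _ hb
      rw [coeff_monomial, if_neg fun h => hb (hφ h)]
    · intro h; exact absurd hj h
  by_cases h0 : f = 0
  · rw [← hc i hi, h0]; simp
  · exfalso
    have hmem := degLex.degree_mem_support h0
    rw [mem_support_iff] at hmem
    have : ∃ j ∈ s, φ j = degLex.degree f := by
      by_contra hne
      push Not at hne
      apply hmem
      rw [hf, coeff_sum]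
      exact Finset.sum_eq_zero fun j hj => by rw [coeff_monomial, if_neg (hne j hj)]
    obtain ⟨j, _, hj⟩ := this
    exact hs j ⟨f, hfI, h0, hj.symm⟩

lemma mono_mem (I : Ideal (MvPolynomial (Fin 4) K)) (T : ℕ) (d : Fin 4 →₀ ℕ) (hd : d.degree ≤ T) :
    Ideal.Quotient.mk I (monomial d (1 : K)) ∈ Submodule.span K
      ((fun e => Ideal.Quotient.mk I (monomial e (1 : K))) '' {e | ¬ NS I e ∧ e.degree ≤ T}) := by
  classical
  induction h : degLex.toSyn d using WellFoundedLT.induction generalizing d with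
  | ind x ih =>
    by_cases hn : NS I d
    · obtain ⟨f, hf, h0, hdf⟩ := hn
      have hlc : coeff d f ≠ 0 := by
        rw [← hdf]; exact mem_support_iff.mp (degLex.degree_mem_support h0)
      have hdm : d ∈ f.support := mem_support_iff.mpr hlc
      have hsum : (∑ e ∈ f.support, coeff e f • Ideal.Quotient.mk I (monomial e (1 : K))) = 0 := by
        have h1 : Ideal.Quotient.mk I f = 0 := Ideal.Quotient.eq_zero_iff_mem.mpr hf
        rw [← h1]
        conv_rhs => rw [f.as_sum, map_sum]
        refine Finset.sum_congr rfl fun e _ => ?_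
        have : (monomial e (coeff e f) : MvPolynomial (Fin 4) K) = coeff e f • monomial e 1 := by
          simp [smul_monomial]
        rw [this]; rfl
      rw [← Finset.add_sum_erase _ _ hdm] at hsum
      have h2 : Ideal.Quotient.mk I (monomial d (1 : K)) = -(coeff d f)⁻¹ •
          ∑ e ∈ f.support.erase d, coeff e f • Ideal.Quotient.mk I (monomial e (1 : K)) := by
        rw [eq_neg_of_add_eq_zero_right hsum, smul_neg, neg_smul, neg_neg, smul_smul,
          inv_mul_cancel₀ hlc, one_smul]
      rw [h2]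
      refine Submodule.smul_mem _ _ (Submodule.sum_mem _ fun e he => Submodule.smul_mem _ _ ?_)
      obtain ⟨hne, hes⟩ := Finset.mem_erase.mp he
      have hle : degLex.toSyn e ≤ degLex.toSyn d := by rw [← hdf]; exact degLex.le_degree hes
      refine ih (degLex.toSyn e) ?_ e ?_ rfl
      · rw [← h]
        exact lt_of_le_of_ne hle fun hh => hne (degLex.toSyn.injective hh)
      · exact le_trans (Finsupp.DegLex.monotone_degree hle) hd
    · exact Submodule.subset_span ⟨d, ⟨hn, hd⟩, rfl⟩

lemma exists_bound (I : Ideal (MvPolynomial (Fin 4) K)) : ∃ c : ℕ, 1 ≤ c ∧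
    ∀ u v : Fin 4 →₀ ℕ, ¬ NS I u → (∀ i ∈ v.support, c ≤ u i) → ¬ NS I (u + v) := by
  classical
  have hfin : {x | Minimal (NS I) x}.Finite :=
    WellQuasiOrderedLE.finite_of_isAntichain (setOfPred_minimal_antichain (NS I))
  obtain ⟨c, hc⟩ := (hfin.image Finsupp.degree).bddAbove
  refine ⟨c + 1, by omega, fun u v hu hv h => hu ?_⟩
  obtain ⟨b, hb, hmin⟩ := exists_minimal_le_of_wellFoundedLT (NS I) _ h
  refine hmin.1.up fun i => ?_
  by_cases hi : i ∈ v.support
  · have h1 : b i ≤ b.degree := Finsupp.le_degree i b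
    have h2 : b.degree ≤ c := hc ⟨b, hmin, rfl⟩
    have := hv i hi
    omega
  · have h1 := hb i
    rw [Finsupp.notMem_support_iff] at hi
    simpa [hi] using h1

lemma card_fibre (A : Finset (Fin 4 →₀ ℕ)) (U : Finset (Fin 4)) (T : ℕ)
    (hA : ∀ u ∈ A, u.degree ≤ T) :
    A.card ≤ (T + 1) ^ U.card * (A.image fun u => u.filter (· ∉ U)).card := by
  classical
  refine Finset.card_le_mul_card_image _ _ fun a _ => ?_
  have : (T + 1) ^ U.card = (Fintype.piFinset fun _ : U => range (T + 1)).card := by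
    simp [Fintype.card_piFinset]
  rw [this]
  refine Finset.card_le_card_of_injOn (fun u i => u i) ?_ ?_
  · intro u hu
    simp only [coe_filter, Set.mem_ofPred_eq] at hu
    simp only [mem_coe, Fintype.mem_piFinset, mem_range]
    intro i
    have := Finsupp.le_degree (i : Fin 4) u
    have := hA u hu.1
    omega
  · intro u hu w hw h
    simp only [coe_filter, Set.mem_ofPred_eq] at hu hw
    ext i
    by_cases hi : i ∈ U
    · exact congrFun h ⟨i, hi⟩
    · have := DFunLike.congr_fun (hu.2.trans hw.2.symm) i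
      simpa [Finsupp.filter_apply, hi] using this

lemma add_inj {U : Finset (Fin 4)} {u u' v v' : Fin 4 →₀ ℕ} (hu : ∀ i ∈ U, u i = 0)
    (hu' : ∀ i ∈ U, u' i = 0) (hv : v.support ⊆ U) (hv' : v'.support ⊆ U)
    (h : u + v = u' + v') : u = u' ∧ v = v' := by
  have h1 : u = u' := by
    ext i
    by_cases hi : i ∈ U
    · rw [hu i hi, hu' i hi]
    · have a1 : v i = 0 := Finsupp.notMem_support_iff.mp fun x => hi (hv x)
      have a2 : v' i = 0 := Finsupp.notMem_support_iff.mp fun x => hi (hv' x)
      have := DFunLike.congr_fun h i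
      simpa [a1, a2] using this
  exact ⟨h1, add_left_cancel (h1 ▸ h)⟩

lemma finrank_le (I : Ideal (MvPolynomial (Fin 4) K)) (T : ℕ) (A : Finset (Fin 4 →₀ ℕ))
    (hA : ∀ u, ¬ NS I u ∧ u.degree ≤ T → u ∈ A) :
    Module.finrank K
      ((restrictTotalDegree (Fin 4) K T).map (Ideal.Quotient.mkₐ K I).toLinearMap) ≤ A.card := by
  classical
  have hle : (restrictTotalDegree (Fin 4) K T).map (Ideal.Quotient.mkₐ K I).toLinearMap ≤
      Submodule.span K (Set.range fun e : A => Ideal.Quotient.mk I (monomial e.1 (1 : K))) := by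
    rintro _ ⟨f, hf, rfl⟩
    have hf' : f.totalDegree ≤ T := (mem_restrictTotalDegree _ _ _).mp hf
    rw [f.as_sum, map_sum]
    refine Submodule.sum_mem _ fun e he => ?_
    have : (monomial e (coeff e f) : MvPolynomial (Fin 4) K) = coeff e f • monomial e 1 := by
      simp [smul_monomial]
    rw [this, map_smul]
    refine Submodule.smul_mem _ _ ?_
    refine Submodule.span_mono ?_ (mono_mem I T e (le_trans (le_totalDegree he) hf'))
    rintro _ ⟨u, hu, rfl⟩
    exact ⟨⟨u, hA u hu⟩, rfl⟩
  have hfd : Module.Finite K (Submodule.span K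
      (Set.range fun e : A => Ideal.Quotient.mk I (monomial e.1 (1 : K)))) :=
    Module.Finite.span_of_finite K (Set.finite_range _)
  have h2 := finrank_range_le_card (R := K)
    fun e : A => Ideal.Quotient.mk I (monomial e.1 (1 : K))
  rw [Fintype.card_coe] at h2
  exact (Submodule.finrank_mono hle).trans h2

/-- T6. -/
theorem footprint (I : Ideal (MvPolynomial (Fin 4) K)) (r m : ℕ)
    (hm : ∀ U : Finset (Fin 4), U.card = r → ∀ O : Finset (Fin 4 →₀ ℕ),
      (∀ u ∈ O, ∀ i ∈ U, u i = 0) →
      LinearIndependent K (fun p : O × {v : Fin 4 →₀ ℕ // v.support ⊆ U} =>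
        Ideal.Quotient.mk I (monomial (p.1.1 + p.2.1) (1 : K))) → O.card ≤ m)
    (h0 : ∀ U : Finset (Fin 4), U.card = r + 1 → ∀ u : Fin 4 →₀ ℕ, (∀ i ∈ U, u i = 0) →
      ¬ LinearIndependent K (fun v : {v : Fin 4 →₀ ℕ // v.support ⊆ U} =>
        Ideal.Quotient.mk I (monomial (u + v.1) (1 : K)))) :
    ∃ c : ℕ, ∀ T : ℕ, (T + 1) * Module.finrank K
        ((restrictTotalDegree (Fin 4) K T).map (Ideal.Quotient.mkₐ K I).toLinearMap) ≤
      6 * m * (T + 1) ^ (r + 1) + c * (T + 1) ^ r := by
  classical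
  obtain ⟨c, hc1, hc⟩ := exists_bound I
  refine ⟨16 * c ^ 4, fun T => ?_⟩
  have hfin : {e : Fin 4 →₀ ℕ | ¬ NS I e ∧ e.degree ≤ T}.Finite :=
    (Finsupp.finite_of_degree_le T).subset fun e he => he.2
  obtain ⟨A, hA⟩ : ∃ A : Finset (Fin 4 →₀ ℕ), ∀ u, u ∈ A ↔ ¬ NS I u ∧ u.degree ≤ T :=
    ⟨hfin.toFinset, fun u => by simp⟩
  have h1 := finrank_le I T A fun u => (hA u).mpr
  have key : ∀ (u : Fin 4 →₀ ℕ) (U : Finset (Fin 4)), ¬ NS I u → (∀ i ∈ U, c ≤ u i) →
      ∀ v : Fin 4 →₀ ℕ, v.support ⊆ U → ¬ NS I (u.filter (· ∉ U) + v) := by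
    intro u U hu hU v hv h
    refine hc u v hu (fun i hi => hU i (hv hi)) (h.up fun i => ?_)
    simp only [Finsupp.coe_add, Pi.add_apply, Finsupp.filter_apply]
    split_ifs <;> omega
  have h2 : ∀ U : Finset (Fin 4), (T + 1) * (A.filter fun u => univ.filter (c ≤ u ·) = U).card ≤
      (if U.card = r then m * (T + 1) ^ (r + 1) else 0) + c ^ 4 * (T + 1) ^ r := by
    intro U
    set AU := A.filter fun u => univ.filter (c ≤ u ·) = U with hAU
    have hmem : ∀ u ∈ AU, ¬ NS I u ∧ u.degree ≤ T ∧ ∀ i, i ∈ U ↔ c ≤ u i := by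
      intro u hu
      obtain ⟨a1, a2⟩ := Finset.mem_filter.mp hu
      exact ⟨((hA u).mp a1).1, ((hA u).mp a1).2, fun i => by rw [← a2]; simp⟩
    have hf := card_fibre AU U T fun u hu => (hmem u hu).2.1
    rcases lt_trichotomy U.card r with hlt | heq | hgt
    · have h3 : (AU.image fun u => u.filter (· ∉ U)).card ≤ c ^ 4 := by
        have : c ^ 4 = (Fintype.piFinset fun _ : Fin 4 => range c).card := by
          simp [Fintype.card_piFinset]
        rw [this]
        refine Finset.card_le_card_of_injOn (fun u i => u i) ?_ ?_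
        · intro w hw
          obtain ⟨u, hu, rfl⟩ := Finset.mem_image.mp hw
          simp only [mem_coe, Fintype.mem_piFinset, mem_range, Finsupp.filter_apply]
          intro i
          have := (hmem u hu).2.2 i
          split_ifs with hi
          · omega
          · by_contra hh; exact hi (this.mpr (by omega))
        · intro u _ w _ h; exact DFunLike.coe_injective h
      have h4 : (T + 1) ^ (U.card + 1) ≤ (T + 1) ^ r := Nat.pow_le_pow_right (by omega) hlt
      calc (T + 1) * AU.card ≤ (T + 1) * ((T + 1) ^ U.card * c ^ 4) :=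
            Nat.mul_le_mul_left _ (hf.trans (Nat.mul_le_mul_left _ h3))
        _ = c ^ 4 * (T + 1) ^ (U.card + 1) := by ring
        _ ≤ c ^ 4 * (T + 1) ^ r := Nat.mul_le_mul_left _ h4
        _ ≤ _ := Nat.le_add_left _ _
    · have hz : ∀ w ∈ AU.image fun u => u.filter (· ∉ U), ∀ i ∈ U, w i = 0 := by
        intro w hw i hi
        obtain ⟨u, _, rfl⟩ := Finset.mem_image.mp hw
        simp [hi]
      have h3 : (AU.image fun u => u.filter (· ∉ U)).card ≤ m := by
        refine hm U heq _ hz (indep _ ?_ ?_)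
        · rintro ⟨⟨a, ha⟩, ⟨v, hv⟩⟩ ⟨⟨a', ha'⟩, ⟨v', hv'⟩⟩ h
          obtain ⟨rfl, rfl⟩ := add_inj (hz a ha) (hz a' ha') hv hv' h
          rfl
        · rintro ⟨⟨a, ha⟩, ⟨v, hv⟩⟩
          obtain ⟨u, hu, rfl⟩ := Finset.mem_image.mp ha
          exact key u U (hmem u hu).1 (fun i hi => ((hmem u hu).2.2 i).mp hi) v hv
      rw [if_pos heq]
      calc (T + 1) * AU.card ≤ (T + 1) * ((T + 1) ^ U.card * m) :=
            Nat.mul_le_mul_left _ (hf.trans (Nat.mul_le_mul_left _ h3))
        _ = m * (T + 1) ^ (r + 1) := by rw [heq]; ring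
        _ ≤ _ := Nat.le_add_right _ _
    · have : AU = ∅ := by
        rw [Finset.eq_empty_iff_forall_notMem]
        intro u hu
        obtain ⟨U', hU', hc'⟩ := Finset.exists_subset_card_eq (s := U) (n := r + 1) hgt
        refine h0 U' hc' (u.filter (· ∉ U')) (fun i hi => by simp [hi])
          (indep _ ?_ ?_)
        · intro v v' h; exact Subtype.ext (add_left_cancel h)
        · intro v
          exact key u U' (hmem u hu).1 (fun i hi => ((hmem u hu).2.2 i).mp (hU' hi)) v.1 v.2
      simp [this]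
  have h5 : A.card = ∑ U : Finset (Fin 4), (A.filter fun u => univ.filter (c ≤ u ·) = U).card :=
    Finset.card_eq_sum_card_fiberwise fun _ _ => Finset.mem_univ _
  have h6 : (univ.filter fun U : Finset (Fin 4) => U.card = r).card ≤ 6 := by
    have : (univ.filter fun U : Finset (Fin 4) => U.card = r) = powersetCard r univ := by
      ext U; simp [mem_powersetCard]
    rw [this, card_powersetCard, card_univ, Fintype.card_fin]
    exact Nat.choose_le_middle r 4
  calc (T + 1) * _ ≤ (T + 1) * A.card := Nat.mul_le_mul_left _ h1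
    _ = ∑ U : Finset (Fin 4), (T + 1) * (A.filter fun u => univ.filter (c ≤ u ·) = U).card := by
        rw [h5, Finset.mul_sum]
    _ ≤ ∑ U : Finset (Fin 4),
          ((if U.card = r then m * (T + 1) ^ (r + 1) else 0) + c ^ 4 * (T + 1) ^ r) :=
        Finset.sum_le_sum fun U _ => h2 U
    _ = (univ.filter fun U : Finset (Fin 4) => U.card = r).card * (m * (T + 1) ^ (r + 1)) +
          16 * c ^ 4 * (T + 1) ^ r := by
        rw [Finset.sum_add_distrib, ← Finset.sum_filter]
        simp [mul_assoc]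
    _ ≤ _ := by
        rw [mul_assoc 6]
        exact Nat.add_le_add_right (Nat.mul_le_mul_right _ h6) _

end Foot

open MvPolynomial in
theorem footSt : FootSt := by
  intro K _ I r m hm h0
  obtain ⟨c, hc⟩ := Foot.footprint I r m (fun U hU O h1 h2 => hm U O hU ⟨h1, h2⟩) (by
    intro U hU u hu hl
    refine Finset.singleton_ne_empty u (h0 U {u} hU ⟨by simpa using hu, ?_⟩)
    have := hl.comp (fun q : ({u} : Finset (Fin 4 →₀ ℕ)) × {v : Fin 4 →₀ ℕ // v.support ⊆ U} =>
      q.2) fun q q' h => Prod.ext (Subsingleton.elim _ _) h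
    convert this using 2 with q
    rw [Finset.mem_singleton.mp q.1.2]
    rfl)
  refine ⟨c, fun T => ?_⟩
  have : Fil K Finset.univ T 0 = restrictTotalDegree (Fin 4) K T := by
    unfold Fil restrictTotalDegree
    congr 1
    ext u
    simp [Finsupp.sum_fintype]
  unfold HF
  rw [this]
  exact hc T

end Pool.Agent.Lib.MP_a460e0_co.GK
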