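import Pool.Agent.Lib.MP_a460e0_co.GK.HilA

/-! Growth in the line space from growth upstairs (first half of T9). -/

namespace Pool.Agent.Lib.MP_a460e0_co.GK

open MvPolynomial

namespace GrowAux

variable {K : Type} [Field K]

/-- The exponent vector of a point of a box. -/
noncomputable def ex {n : Fin 4 → ℕ} (f : ∀ i, Fin (n i)) : Fin 4 →₀ ℕ :=
  Finsupp.equivFunOnFinite.symm fun i => (f i : ℕ)

theorem ex_apply {n : Fin 4 → ℕ} (f : ∀ i, Fin (n i)) (i : Fin 4) : ex f i = (f i : ℕ) := by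
  simp [ex]

theorem ex_injective {n : Fin 4 → ℕ} : Function.Injective (ex (n := n)) := by
  intro f g h
  funext i
  apply Fin.ext
  rw [← ex_apply f i, ← ex_apply g i, h]

/-- An orthant family times a box is an independent family of bounded degrees. -/
theorem box_bound (hB : BdySt) (I : Ideal (S K)) (hk : ∀ ψ, kap K * ψ ∈ I → ψ ∈ I)
    (U : Finset (Fin 4)) (O : Finset (Fin 4 →₀ ℕ)) (hO : Orth I U O) (x y c0 q : ℕ)
    (hc : ∀ u ∈ O, ∀ i, u i ≤ c0) (w : Fin 4 → ℕ)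
    (hw : (w 0 ≤ y ∧ w 1 ≤ x ∧ w 2 ≤ x ∧ w 3 ≤ y) ∨ (w 0 ≤ x ∧ w 1 ≤ y ∧ w 2 ≤ y ∧ w 3 ≤ x)) :
    (q + 1) ^ 2 * (O.card * ∏ i ∈ U, w i) ≤
      HF G4 (tilde I) (2 * (c0 + x) + (c0 + y) + 3 * q) ((c0 + y) + (c0 + y)) := by
  classical
  let n : Fin 4 → ℕ := fun i => if i ∈ U then w i else 1
  have hsupp : ∀ f : ∀ i, Fin (n i), (ex f).support ⊆ U := by
    intro f i hi
    by_contra hU
    have h1 : (f i : ℕ) < n i := (f i).2
    have h2 : n i = 1 := by simp [n, hU]
    rw [Finsupp.mem_support_iff, ex_apply] at hi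
    omega
  have hle : ∀ (f : ∀ i, Fin (n i)) (i : Fin 4), ex f i ≤ w i := by
    intro f i
    have h1 : (f i : ℕ) < n i := (f i).2
    rw [ex_apply]
    by_cases hU : i ∈ U
    · have h2 : n i = w i := by simp [n, hU]
      omega
    · have h2 : n i = 1 := by simp [n, hU]
      omega
  let e : O × (∀ i, Fin (n i)) → O × {v : Fin 4 →₀ ℕ // v.support ⊆ U} :=
    fun k => (k.1, ⟨ex k.2, hsupp k.2⟩)
  have he : Function.Injective e := by
    rintro ⟨u, f⟩ ⟨u', f'⟩ h
    have h1 : u = u' := congrArg Prod.fst h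
    have h2 : ex f = ex f' := congrArg (fun k => k.2.1) h
    rw [h1, ex_injective h2]
  have hind := hO.2.comp e he
  have hdeg : ∀ (k : O × (∀ i, Fin (n i))) (i : Fin 4),
      (monomial (k.1.1 + ex k.2) (1 : K) : S K).degreeOf i ≤ c0 + w i := by
    intro k i
    rw [degreeOf_monomial_eq _ _ one_ne_zero, Finsupp.add_apply]
    exact Nat.add_le_add (hc _ k.1.2 i) (hle k.2 i)
  have hcard : Fintype.card (O × (∀ i, Fin (n i))) = O.card * ∏ i ∈ U, w i := by
    rw [Fintype.card_prod, Fintype.card_coe, Fintype.card_pi]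
    congr 1
    simp only [Fintype.card_fin, n]
    rw [Finset.prod_ite_mem, Finset.univ_inter]
  have key := hB K I (O × (∀ i, Fin (n i))) (fun k => monomial (k.1.1 + ex k.2) (1 : K))
    (c0 + y) (c0 + x) (c0 + y) q hk hind (by
      rcases hw with ⟨h0, h1, h2, h3⟩ | ⟨h0, h1, h2, h3⟩
      · exact Or.inl fun k => ⟨(hdeg k 0).trans (by omega), (hdeg k 1).trans (by omega),
          (hdeg k 2).trans (by omega), (hdeg k 3).trans (by omega)⟩
      · exact Or.inr fun k => ⟨(hdeg k 0).trans (by omega), (hdeg k 1).trans (by omega),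
          (hdeg k 2).trans (by omega), (hdeg k 3).trans (by omega)⟩)
  rwa [hcard] at key

/-- One of the two pairs holds at least half of `U`. -/
theorem exists_half (U : Finset (Fin 4)) :
    ∃ A : Finset (Fin 4), (A = {1, 2} ∨ A = {0, 3}) ∧
      (U.card + 1) / 2 ≤ (U.filter fun i => i ∈ A).card := by
  revert U
  decide

/-- The product of the side lengths. -/
theorem prod_ge (U A : Finset (Fin 4)) (x y : ℕ) (hxy : y ≤ x)
    (h : (U.card + 1) / 2 ≤ (U.filter fun i => i ∈ A).card) :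
    x ^ ((U.card + 1) / 2) * y ^ (U.card / 2) ≤ ∏ i ∈ U, if i ∈ A then x else y := by
  rw [Finset.prod_ite, Finset.prod_const, Finset.prod_const]
  have hs := Finset.card_filter_add_card_filter_not (s := U) fun i => i ∈ A
  obtain ⟨t, ht⟩ := Nat.exists_eq_add_of_le h
  have h2 : U.card / 2 = t + (U.filter fun i => ¬i ∈ A).card := by omega
  rw [h2, ht, pow_add, pow_add, mul_assoc]
  exact Nat.mul_le_mul_left _ (Nat.mul_le_mul_right _ (Nat.pow_le_pow_left hxy t))

/-- The lower bound for the Hilbert function upstairs. -/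
theorem lower (hB : BdySt) (I : Ideal (S K)) (hk : ∀ ψ, kap K * ψ ∈ I → ψ ∈ I)
    (U : Finset (Fin 4)) (O : Finset (Fin 4 →₀ ℕ)) (hO : Orth I U O) (a b : ℕ) (hb : 1 ≤ b)
    (hab : b ≤ a) : ∃ c0 : ℕ, ∀ M, c0 ≤ M →
      O.card * (a ^ (2 + (U.card + 1) / 2) * b ^ (U.card / 2)) * M ^ (U.card + 2) ≤
        HF G4 (tilde I) (a * (9 * M)) (b * (9 * M)) := by
  classical
  refine ⟨O.sup fun u => ∑ i, u i, fun M hM => ?_⟩
  have hc : ∀ u ∈ O, ∀ i, u i ≤ M := fun u hu i =>
    ((Finset.single_le_sum (f := fun i => u i) (fun _ _ => Nat.zero_le _)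
      (Finset.mem_univ i)).trans (Finset.le_sup (f := fun u : Fin 4 →₀ ℕ => ∑ i, u i) hu)).trans hM
  obtain ⟨A, hA, hh⟩ := exists_half U
  have hxy : b * M ≤ a * M := Nat.mul_le_mul_right M hab
  have hMy : M ≤ b * M := Nat.le_mul_of_pos_left M hb
  have h1 := box_bound hB I hk U O hO (a * M) (b * M) M (a * M) hc
    (fun i => if i ∈ A then a * M else b * M) (by
      rcases hA with rfl | rfl
      · exact Or.inl (by simp)
      · exact Or.inr (by simp))
  have h2 := prod_ge U A (a * M) (b * M) hxy hh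
  have h3 : HF G4 (tilde I) (2 * (M + a * M) + (M + b * M) + 3 * (a * M))
      ((M + b * M) + (M + b * M)) ≤ HF G4 (tilde I) (a * (9 * M)) (b * (9 * M)) := by
    apply Hil.HF_mono
    · have : a * (9 * M) = 9 * (a * M) := by ring
      omega
    · have : b * (9 * M) = 9 * (b * M) := by ring
      omega
  refine le_trans ?_ (h1.trans h3)
  have h4 : U.card + 2 = 2 + ((U.card + 1) / 2 + U.card / 2) := by omega
  calc O.card * (a ^ (2 + (U.card + 1) / 2) * b ^ (U.card / 2)) * M ^ (U.card + 2)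
      = (a * M) ^ 2 * (O.card * ((a * M) ^ ((U.card + 1) / 2) * (b * M) ^ (U.card / 2))) := by
        rw [h4]
        generalize (U.card + 1) / 2 = s
        generalize U.card / 2 = t
        ring
    _ ≤ _ := Nat.mul_le_mul (Nat.pow_le_pow_left (Nat.le_succ _) 2) (Nat.mul_le_mul_left _ h2)

end GrowAux

open GrowAux in
theorem growSt (hF : FootSt) (hB : BdySt) : GrowSt := by
  intro c
  refine ⟨6 * (c * 9 ^ 5), fun K _ I a b r hb hab hr hk hH => ?_⟩
  have h9 : ∀ M, 1 ≤ M → HF G4 (tilde I) (a * (9 * M)) (b * (9 * M)) ≤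
      c * 9 ^ 5 * (a ^ 4 * b ^ 2) * M ^ (r + 2) := by
    intro M hM
    refine (hH (9 * M) (by omega)).trans ?_
    calc c * a ^ 4 * b ^ 2 * (9 * M) ^ (r + 2)
        = 9 ^ (r + 2) * (c * (a ^ 4 * b ^ 2) * M ^ (r + 2)) := by rw [mul_pow]; ring
      _ ≤ 9 ^ 5 * (c * (a ^ 4 * b ^ 2) * M ^ (r + 2)) :=
        Nat.mul_le_mul_right _ (Nat.pow_le_pow_right (by norm_num) (by omega))
      _ = _ := by ring
  have ha : 0 < a := by omega
  have key := hF K I r (c * 9 ^ 5 * a ^ (2 - (r + 1) / 2) * b ^ (2 - r / 2)) ?_ ?_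
  · have e : 6 * (c * 9 ^ 5) * a ^ (2 - (r + 1) / 2) * b ^ (2 - r / 2) =
        6 * (c * 9 ^ 5 * a ^ (2 - (r + 1) / 2) * b ^ (2 - r / 2)) := by ring
    rw [e]
    exact key
  · intro U O hU hO
    obtain ⟨c0, hc0⟩ := lower hB I hk U O hO a b hb hab
    have h1 := (hc0 (c0 + 1) (by omega)).trans (h9 (c0 + 1) (by omega))
    rw [hU] at h1
    have h2 := Nat.le_of_mul_le_mul_right h1 (pow_pos (by omega) _)
    have e1 : 4 = (2 - (r + 1) / 2) + (2 + (r + 1) / 2) := by omega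
    have e2 : 2 = (2 - r / 2) + r / 2 := by omega
    have h3 : c * 9 ^ 5 * (a ^ 4 * b ^ 2) =
        c * 9 ^ 5 * a ^ (2 - (r + 1) / 2) * b ^ (2 - r / 2) *
          (a ^ (2 + (r + 1) / 2) * b ^ (r / 2)) := by
      have f1 : a ^ 4 = a ^ (2 - (r + 1) / 2) * a ^ (2 + (r + 1) / 2) := by
        rw [← pow_add, ← e1]
      have f2 : b ^ 2 = b ^ (2 - r / 2) * b ^ (r / 2) := by rw [← pow_add, ← e2]
      rw [f1, f2]
      ring
    rw [h3] at h2
    exact Nat.le_of_mul_le_mul_right h2 (Nat.mul_pos (pow_pos ha _) (pow_pos hb _))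
  · intro U O hU hO
    obtain ⟨c0, hc0⟩ := lower hB I hk U O hO a b hb hab
    set B := c * 9 ^ 5 * (a ^ 4 * b ^ 2) with hBdef
    have h1 := (hc0 (c0 + B + 1) (by omega)).trans (h9 (c0 + B + 1) (by omega))
    rw [hU, show r + 1 + 2 = (r + 2) + 1 by ring, pow_succ' (c0 + B + 1), ← mul_assoc] at h1
    have h2 := Nat.le_of_mul_le_mul_right h1 (pow_pos (by omega) _)
    by_contra hne
    have h3 : 1 ≤ O.card := Finset.card_pos.2 (Finset.nonempty_iff_ne_empty.2 hne)
    have h4 : 1 ≤ O.card * (a ^ (2 + (r + 1 + 1) / 2) * b ^ ((r + 1) / 2)) :=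
      Nat.mul_pos h3 (Nat.mul_pos (pow_pos ha _) (pow_pos hb _))
    have h5 := (Nat.le_mul_of_pos_left (c0 + B + 1) h4).trans h2
    omega

end Pool.Agent.Lib.MP_a460e0_co.GK
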