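import Pool.Agent.Lib.MP_a460e0_co.GK.HilA
import Pool.Agent.Lib.MP_a460e0_co.GK.BasicM1

/-! T10: heavy lines lie in a hypersurface of half the degree. -/

namespace Pool.Agent.Lib.MP_a460e0_co.GK

open MvPolynomial

namespace Heavy

variable {K : Type} [Field K]

/-- Polynomials whose derivatives of order below `e l - k` lie in `q l`. -/
def UU (Z : Finset (Ln K)) (q : Ln K → Ideal (R K)) (e : Ln K → ℕ) (k : ℕ) : Ideal (R K) where
  carrier := {φ | ∀ l ∈ Z, ∀ i, i + k < e l → Dj i φ ∈ q l}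
  add_mem' := fun {a b} ha hb l hl i hi => by
    rw [Dj_add]; exact (q l).add_mem (ha l hl i hi) (hb l hl i hi)
  zero_mem' := fun l _ i _ => by rw [Dj_of_zero]; exact (q l).zero_mem
  smul_mem' := fun c x hx l hl i hi =>
    Dj_mul_mem (q l) i c x fun j hj => hx l hl j (by omega)

theorem mem_UU {Z : Finset (Ln K)} {q : Ln K → Ideal (R K)} {e : Ln K → ℕ} {k : ℕ} {φ : R K} :
    φ ∈ UU Z q e k ↔ ∀ l ∈ Z, ∀ i, i + k < e l → Dj i φ ∈ q l := Iff.rfl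

theorem chain {F : R K} {a b : ℕ} (hF : F ∈ Fil K G4 a b) (Z : Finset (Ln K))
    (q : Ln K → Ideal (R K)) (e : Ln K → ℕ)
    (h : ∀ l ∈ Z, (q l).IsPrime ∧ b < e l ∧ (∀ j < e l, Dj j F ∈ q l) ∧ Dj (e l) F ∉ q l)
    (d c k : ℕ) (hk : k + 1 ≤ b) :
    HF G4 (UU Z q e (k + 1)) (d + a) (c + 3 * b) + k * HF G4 (Z.inf q) d c ≤
      HF G4 (Ideal.span {F, Der K F}) (d + a) (c + 3 * b) := by
  induction k with
  | zero =>
    rw [zero_mul, add_zero]
    refine Hil.HF_anti G4 ?_ _ _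
    rw [Ideal.span_le, Set.insert_subset_iff, Set.singleton_subset_iff]
    refine ⟨mem_UU.2 fun l hl i hi => (h l hl).2.2.1 i (by omega), mem_UU.2 fun l hl i hi => ?_⟩
    rw [← Dj_succ']
    exact (h l hl).2.2.1 _ (by omega)
  | succ k ih =>
    have h1 := ih (by omega)
    have h2 := Hil.HF_tele G4 (UU Z q e (k + 1)) (UU Z q e (k + 1 + 1)) (Z.inf q)
      (fun φ hφ => mem_UU.2 fun l hl i hi => mem_UU.1 hφ l hl i (by omega))
      (φ := Dj (k + 2) F) (mem_UU.2 fun l hl i hi => by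
        rw [Dj_Dj]; exact (h l hl).2.2.1 _ (by omega)) (a := a) (b := 3 * b)
      (Hil.Fil_mono le_rfl (by omega) (Dj_mem_Fil hF (k + 2))) (fun ψ hψ => by
        refine Submodule.mem_finsetInf.2 fun l hl => ?_
        obtain ⟨hp, hb, hlt, hne⟩ := h l hl
        obtain ⟨i, hi⟩ : ∃ i, e l = i + (k + 2) := ⟨e l - (k + 2), by omega⟩
        have h3 := mem_UU.1 hψ l hl i (by omega)
        have h4 := Dj_mul_sub_mem (q l) i ψ (Dj (k + 2) F) fun j hj => by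
          rw [Dj_Dj]; exact hlt _ (by omega)
        rw [mul_comm] at h3
        have h5 := (q l).sub_mem h3 h4
        rw [sub_sub_cancel, Dj_Dj, ← hi] at h5
        exact (hp.mem_or_mem h5).resolve_right hne) d c
    rw [add_mul k 1, one_mul]
    omega

theorem choose4 (x : ℕ) : (x + 1) ^ 4 ≤ 24 * (x + 4).choose 4 := by
  have h := Nat.pow_le_choose (α := ℚ) 4 (x + 4)
  have h1 : x + 4 + 1 - 4 = x + 1 := by omega
  rw [h1, div_le_iff₀ (by norm_num [Nat.factorial])] at h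
  have h2 : ((Nat.factorial 4 : ℕ) : ℚ) = 24 := by norm_num [Nat.factorial]
  rw [h2, mul_comm] at h
  exact_mod_cast h

theorem choose2 (x : ℕ) : (x + 1) ^ 2 ≤ 2 * (x + 2).choose 2 := by
  have h := Nat.pow_le_choose (α := ℚ) 2 (x + 2)
  have h1 : x + 2 + 1 - 2 = x + 1 := by omega
  rw [h1, div_le_iff₀ (by norm_num [Nat.factorial])] at h
  have h2 : ((Nat.factorial 2 : ℕ) : ℚ) = 2 := by norm_num [Nat.factorial]
  rw [h2, mul_comm] at h
  exact_mod_cast h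

theorem num (a b b' h : ℕ) (hh : a / 2 + 1 = h) (hb : 1 ≤ b) (h1 : b' ≤ b) :
    a ^ 2 * (a / 2 + a + 4) ^ 2 * (b' + 3 * b + 2) ^ 2 +
      2 * a * (b + 2) * (a / 2 + a + 4) ^ 3 * (b' + 3 * b + 2) +
      (b + 2) ^ 2 * (a / 2 + a + 4) ^ 4 ≤ 18225 * (h ^ 4 * b ^ 2) := by
  have e1 : a ≤ 2 * h := by omega
  have e2 : a / 2 + a + 4 ≤ 5 * h := by omega
  have e3 : b' + 3 * b + 2 ≤ 6 * b := by omega
  have e4 : b + 2 ≤ 3 * b := by omega
  calc _ ≤ (2 * h) ^ 2 * (5 * h) ^ 2 * (6 * b) ^ 2 +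
        2 * (2 * h) * (3 * b) * (5 * h) ^ 3 * (6 * b) + (3 * b) ^ 2 * (5 * h) ^ 4 := by gcongr
    _ = _ := by ring

end Heavy

theorem heavySt (h42 : H42St) : HeavySt := by
  classical
  refine ⟨7873202, by norm_num, fun K _ F a b b' Z _ hb0 hb1 hb3 hF hc hZ => ?_⟩
  have hex : ∀ l : Ln K, ∃ (q : Ideal (R K)) (e : ℕ), l ∈ Z → q ≤ Ll l ∧ q.IsPrime ∧ b < e ∧
      (∀ j < e, Dj j F ∈ q) ∧ Dj e F ∉ q := by
    intro l
    by_cases hl : l ∈ Z
    · obtain ⟨q, hp, hq, h1, h2⟩ := hZ l hl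
      refine ⟨q, Nat.find h2, fun _ => ⟨hq, hp, ?_, fun j hj => ?_, Nat.find_spec h2⟩⟩
      · by_contra hle
        exact Nat.find_spec h2 (h1 _ (by omega))
      · exact not_not.1 (Nat.find_min h2 hj)
    · exact ⟨⊤, 0, fun h => absurd h hl⟩
  choose q e hqe using hex
  obtain ⟨k, rfl⟩ : ∃ k, b = k + 1 := ⟨b - 1, by omega⟩
  have h1 := Heavy.chain hF Z q e (fun l hl => (hqe l hl).2) (a / 2) b' k le_rfl
  have h2 := (h42 K).2 F (Der K F) a (k + 1 + 2) (a / 2 + a) (b' + 3 * (k + 1)) hc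
    (Hil.Fil_mono le_rfl (by omega) hF) (Der_mem_Fil hF)
  have h3 := Heavy.num a (k + 1) b' _ rfl (by omega) hb1
  have hlt : HF G4 (Z.inf q) (a / 2) b' <
      (a / 2 + G4.card).choose G4.card * (b' + G4ᶜ.card).choose G4ᶜ.card := by
    have c1 : G4.card = 4 := by decide
    have c2 : G4ᶜ.card = 2 := by decide
    rw [c1, c2]
    by_contra hge
    have h4 := Nat.mul_le_mul (Heavy.choose4 (a / 2)) (Heavy.choose2 b')
    have hpos : 0 < (a / 2 + 1) ^ 4 * (b' + 1) ^ 2 := by positivity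
    generalize a / 2 + 1 = h at h3 h4 hpos
    have h5 : k * (h ^ 4 * (b' + 1) ^ 2) ≤ 48 * (18225 * (h ^ 4 * (k + 1) ^ 2)) := by
      calc k * (h ^ 4 * (b' + 1) ^ 2)
          ≤ k * (24 * (a / 2 + 4).choose 4 * (2 * (b' + 2).choose 2)) := Nat.mul_le_mul_left _ h4
        _ = 48 * (k * ((a / 2 + 4).choose 4 * (b' + 2).choose 2)) := by ring
        _ ≤ 48 * (k * HF G4 (Z.inf q) (a / 2) b') := by gcongr; exact not_lt.1 hge
        _ ≤ _ := Nat.mul_le_mul_left _ (by omega)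
    have h6 : (k + 1) ^ 2 ≤ (3 * (b' + 1)) ^ 2 := Nat.pow_le_pow_left (by omega) 2
    have h7 : k * (h ^ 4 * (b' + 1) ^ 2) ≤ 7873200 * (h ^ 4 * (b' + 1) ^ 2) :=
      calc _ ≤ 48 * (18225 * (h ^ 4 * (3 * (b' + 1)) ^ 2)) := h5.trans (by gcongr)
        _ = _ := by ring
    have := Nat.le_of_mul_le_mul_right h7 hpos
    omega
  obtain ⟨f, hf0, hfI, hf⟩ := Hil.exists_mem_of_HF_lt G4 _ hlt
  obtain ⟨f', a', g0, g1, -, g2, g3⟩ := exists_hom_part hf0 hf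
  exact ⟨f', a', g0, g1, g2, fun l hl =>
    g3 _ ((hqe l hl).1 (Submodule.mem_finsetInf.1 hfI l hl))⟩

end Pool.Agent.Lib.MP_a460e0_co.GK
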