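import Pool.Agent.Lib.MP_a460e0_co.GK.St

/-! The filtration `Fil`, its dimension, the Hilbert function and the telescoping inequality. -/

namespace Pool.Agent.Lib.MP_a460e0_co.GK.Hil

open MvPolynomial

noncomputable section

variable {K : Type} [Field K] {σ : Type} [Fintype σ] [DecidableEq σ]

theorem mem_Fil {G : Finset σ} {d e : ℕ} {f : MvPolynomial σ K} :
    f ∈ Fil K G d e ↔ ∀ u ∈ f.support, ∑ i ∈ G, u i ≤ d ∧ ∑ i ∈ Gᶜ, u i ≤ e := by
  unfold Fil
  rw [mem_restrictSupport_iff]
  exact ⟨fun h u hu => h hu, fun h u hu => h u hu⟩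

theorem Fil_mono {G : Finset σ} {d e d' e' : ℕ} (hd : d ≤ d') (he : e ≤ e') :
    Fil K G d e ≤ Fil K G d' e' := fun _ hf =>
  mem_Fil.2 fun u hu => ⟨(mem_Fil.1 hf u hu).1.trans hd, (mem_Fil.1 hf u hu).2.trans he⟩

theorem mul_mem_Fil {G : Finset σ} {d e d' e' : ℕ} {f g : MvPolynomial σ K}
    (hf : f ∈ Fil K G d e) (hg : g ∈ Fil K G d' e') : f * g ∈ Fil K G (d + d') (e + e') := by
  refine mem_Fil.2 fun u hu => ?_
  obtain ⟨a, ha, b, hb, rfl⟩ := Finset.mem_add.1 (support_mul f g hu)
  have h1 := mem_Fil.1 hf a ha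
  have h2 := mem_Fil.1 hg b hb
  simp only [Finsupp.add_apply, Finset.sum_add_distrib]
  omega

theorem C_mem_Fil {G : Finset σ} (d e : ℕ) (c : K) : (C c : MvPolynomial σ K) ∈ Fil K G d e := by
  refine mem_Fil.2 fun u hu => ?_
  have h : u = 0 := by
    have := support_monomial_subset (s := (0 : σ →₀ ℕ)) (a := c) hu
    simpa using this
  subst h
  simp

theorem one_mem_Fil {G : Finset σ} (d e : ℕ) : (1 : MvPolynomial σ K) ∈ Fil K G d e := by
  simpa using C_mem_Fil (G := G) d e (1 : K)

theorem X_mem_Fil_of_mem {G : Finset σ} {i : σ} (hi : i ∈ G) :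
    (X i : MvPolynomial σ K) ∈ Fil K G 1 0 := by
  refine mem_Fil.2 fun u hu => ?_
  rw [support_X, Finset.mem_singleton] at hu
  subst hu
  constructor
  · simp [Finsupp.single_apply, hi]
  · simp [Finsupp.single_apply, hi]

theorem X_mem_Fil_of_not_mem {G : Finset σ} {i : σ} (hi : i ∉ G) :
    (X i : MvPolynomial σ K) ∈ Fil K G 0 1 := by
  refine mem_Fil.2 fun u hu => ?_
  rw [support_X, Finset.mem_singleton] at hu
  subst hu
  constructor
  · simp [Finsupp.single_apply, hi]
  · simp [Finsupp.single_apply, hi]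

theorem pow_mem_Fil {G : Finset σ} {d e : ℕ} {f : MvPolynomial σ K} (hf : f ∈ Fil K G d e)
    (n : ℕ) : f ^ n ∈ Fil K G (n * d) (n * e) := by
  induction n with
  | zero => simpa using one_mem_Fil _ _
  | succ n ih =>
    rw [pow_succ, Nat.succ_mul, Nat.succ_mul]
    exact mul_mem_Fil ih hf

theorem prod_mem_Fil {G : Finset σ} {ι : Type} (s : Finset ι) (f : ι → MvPolynomial σ K)
    (d e : ι → ℕ) (hf : ∀ i ∈ s, f i ∈ Fil K G (d i) (e i)) :
    ∏ i ∈ s, f i ∈ Fil K G (∑ i ∈ s, d i) (∑ i ∈ s, e i) := by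
  classical
  induction s using Finset.induction_on with
  | empty => simpa using one_mem_Fil _ _
  | insert a s ha ih =>
    rw [Finset.prod_insert ha, Finset.sum_insert ha, Finset.sum_insert ha]
    exact mul_mem_Fil (hf a (Finset.mem_insert_self _ _))
      (ih fun i hi => hf i (Finset.mem_insert_of_mem hi))

omit [DecidableEq σ] in
theorem sum_le_totalDegree {f : MvPolynomial σ K} {u : σ →₀ ℕ} (hu : u ∈ f.support)
    (G : Finset σ) : ∑ i ∈ G, u i ≤ f.totalDegree := by
  refine le_trans ?_ (le_totalDegree hu)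
  rw [Finsupp.sum_fintype _ _ (fun _ => rfl)]
  exact Finset.sum_le_sum_of_subset (Finset.subset_univ _)

theorem mem_Fil_of_totalDegree {G : Finset σ} {d e : ℕ} {f : MvPolynomial σ K}
    (hd : f.totalDegree ≤ d) (he : f.totalDegree ≤ e ∨ G = Finset.univ) : f ∈ Fil K G d e := by
  refine mem_Fil.2 fun u hu => ⟨(sum_le_totalDegree hu G).trans hd, ?_⟩
  rcases he with he | rfl
  · exact (sum_le_totalDegree hu _).trans he
  · simp

theorem mem_Fil_univ {d e : ℕ} {f : MvPolynomial σ K} :
    f ∈ Fil K Finset.univ d e ↔ f.totalDegree ≤ d := by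
  refine ⟨fun h => ?_, fun h => mem_Fil_of_totalDegree h (Or.inr rfl)⟩
  refine Finset.sup_le fun u hu => ?_
  have := (mem_Fil.1 h u hu).1
  rwa [Finsupp.sum_fintype _ _ (fun _ => rfl)]

theorem totalDegree_le_of_mem_Fil {G : Finset σ} {d e : ℕ} {f : MvPolynomial σ K}
    (h : f ∈ Fil K G d e) : f.totalDegree ≤ d + e := by
  refine Finset.sup_le fun u hu => ?_
  have := mem_Fil.1 h u hu
  rw [Finsupp.sum_fintype _ _ (fun _ => rfl), ← Finset.sum_add_sum_compl G]
  omega

/-- Exponents supported in `G` of degree at most `d`. -/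
def low (G : Finset σ) (d : ℕ) : Finset (σ →₀ ℕ) :=
  (Finset.range (d + 1)).biUnion fun k => G.finsuppAntidiag k

omit [Fintype σ] in
theorem mem_low {G : Finset σ} {d : ℕ} {u : σ →₀ ℕ} :
    u ∈ low G d ↔ ∑ i ∈ G, u i ≤ d ∧ u.support ⊆ G := by
  simp only [low, Finset.mem_biUnion, Finset.mem_range, Finset.mem_finsuppAntidiag]
  constructor
  · rintro ⟨k, hk, h1, h2⟩
    exact ⟨Nat.lt_succ_iff.1 (lt_of_eq_of_lt h1 hk), h2⟩
  · rintro ⟨h1, h2⟩
    exact ⟨_, Nat.lt_succ_iff.2 h1, rfl, h2⟩

omit [Fintype σ] in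
theorem card_low (G : Finset σ) (d : ℕ) : (low G d).card = (d + G.card).choose G.card := by
  unfold low
  rw [Finset.card_biUnion]
  · simp only [Finset.card_finsuppAntidiag_nat_eq_multichoose]
    induction d with
    | zero => simp
    | succ d ih =>
      rw [Finset.sum_range_succ, ih, Nat.multichoose_eq]
      rcases Nat.eq_zero_or_pos G.card with h | h
      · rw [h]
        simp
      · obtain ⟨m, hm⟩ : ∃ m, G.card = m + 1 := ⟨G.card - 1, by omega⟩
        rw [hm, show m + 1 + (d + 1) - 1 = d + 1 + m by omega,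
          show d + 1 + (m + 1) = (d + 1 + m) + 1 by omega, Nat.choose_succ_succ,
          show d + (m + 1) = d + 1 + m by omega, Nat.choose_symm_add, add_comm]
  · intro a _ b _ hab
    refine Finset.disjoint_left.2 fun u h1 h2 => hab ?_
    rw [Finset.mem_finsuppAntidiag] at h1 h2
    rw [← h1.1, ← h2.1]

/-- The exponents of the filtration. -/
def box (G : Finset σ) (d e : ℕ) : Finset (σ →₀ ℕ) :=
  (low G d ×ˢ low Gᶜ e).image fun q => q.1 + q.2

theorem mem_box {G : Finset σ} {d e : ℕ} {u : σ →₀ ℕ} :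
    u ∈ box G d e ↔ ∑ i ∈ G, u i ≤ d ∧ ∑ i ∈ Gᶜ, u i ≤ e := by
  simp only [box, Finset.mem_image, Finset.mem_product, mem_low]
  constructor
  · rintro ⟨⟨a, b⟩, ⟨⟨h1, h2⟩, h3, h4⟩, rfl⟩
    have hb : ∑ i ∈ G, b i = 0 := Finset.sum_eq_zero fun i hi => by
      by_contra h
      exact (Finset.mem_compl.1 (h4 (Finsupp.mem_support_iff.2 h))) hi
    have ha : ∑ i ∈ Gᶜ, a i = 0 := Finset.sum_eq_zero fun i hi => by
      by_contra h
      exact (Finset.mem_compl.1 hi) (h2 (Finsupp.mem_support_iff.2 h))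
    simp only [Finsupp.add_apply, Finset.sum_add_distrib] at h1 h3 ⊢
    omega
  · rintro ⟨h1, h2⟩
    refine ⟨(u.filter (· ∈ G), u.filter (· ∉ G)), ⟨⟨?_, ?_⟩, ?_, ?_⟩,
      Finsupp.filter_add_filter_not u _⟩
    · refine le_of_eq_of_le (Finset.sum_congr rfl fun i hi => ?_) h1
      simp [hi]
    · intro i hi
      rw [Finsupp.support_filter, Finset.mem_filter] at hi
      exact hi.2
    · refine le_of_eq_of_le (Finset.sum_congr rfl fun i hi => ?_) h2
      simp [Finset.mem_compl.1 hi]
    · intro i hi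
      rw [Finsupp.support_filter, Finset.mem_filter] at hi
      exact Finset.mem_compl.2 hi.2

theorem card_box (G : Finset σ) (d e : ℕ) :
    (box G d e).card = (d + G.card).choose G.card * (e + Gᶜ.card).choose Gᶜ.card := by
  unfold box
  rw [Finset.card_image_of_injOn, Finset.card_product, card_low, card_low]
  rintro ⟨a, b⟩ hab ⟨a', b'⟩ hab' h
  simp only [Finset.coe_product, Set.mem_prod, Finset.mem_coe, mem_low] at hab hab' h
  have key : ∀ i, a i = a' i ∧ b i = b' i := fun i => by
    have hi := DFunLike.congr_fun h i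
    simp only [Finsupp.add_apply] at hi
    by_cases hG : i ∈ G
    · have h1 : b i = 0 := by
        by_contra h0
        exact (Finset.mem_compl.1 (hab.2.2 (Finsupp.mem_support_iff.2 h0))) hG
      have h2 : b' i = 0 := by
        by_contra h0
        exact (Finset.mem_compl.1 (hab'.2.2 (Finsupp.mem_support_iff.2 h0))) hG
      omega
    · have h1 : a i = 0 := by
        by_contra h0
        exact hG (hab.1.2 (Finsupp.mem_support_iff.2 h0))
      have h2 : a' i = 0 := by
        by_contra h0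
        exact hG (hab'.1.2 (Finsupp.mem_support_iff.2 h0))
      omega
  exact Prod.ext (Finsupp.ext fun i => (key i).1) (Finsupp.ext fun i => (key i).2)

theorem Fil_eq_box (G : Finset σ) (d e : ℕ) :
    Fil K G d e = restrictSupport K (box G d e : Set (σ →₀ ℕ)) := by
  unfold Fil
  congr 1
  ext u
  simp [mem_box]

instance Fil_finite (G : Finset σ) (d e : ℕ) : Module.Finite K (Fil K G d e) := by
  rw [Fil_eq_box]
  exact Module.Finite.of_basis (basisRestrictSupport K _)

theorem finrank_Fil (G : Finset σ) (d e : ℕ) :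
    Module.finrank K (Fil K G d e) =
      (d + G.card).choose G.card * (e + Gᶜ.card).choose Gᶜ.card := by
  rw [Fil_eq_box, Module.finrank_eq_card_basis (basisRestrictSupport K _), ← card_box]
  simp

section tele

variable {A : Type} [CommRing A] [Algebra K A]

/-- Rank and nullity for the image of a subspace in a quotient ring. -/
theorem finrank_map_add (I : Ideal A) (U : Submodule K A) [Module.Finite K U] :
    Module.finrank K (U.map (Ideal.Quotient.mkₐ K I).toLinearMap) +
      Module.finrank K ↥(U ⊓ I.restrictScalars K) = Module.finrank K U := by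
  have h := LinearMap.finrank_range_add_finrank_ker
    ((Ideal.Quotient.mkₐ K I).toLinearMap.domRestrict U)
  rw [LinearMap.range_domRestrict] at h
  rw [← h]
  congr 1
  have hk : LinearMap.ker ((Ideal.Quotient.mkₐ K I).toLinearMap.domRestrict U) =
      (U ⊓ I.restrictScalars K).comap U.subtype := by
    ext x
    simp [Ideal.Quotient.eq_zero_iff_mem]
  rw [hk]
  exact (Submodule.comapSubtypeEquivOfLe inf_le_left).finrank_eq.symm

/-- The telescoping inequality for subspaces. -/
theorem telescope (I I' J : Ideal A) (U V : Submodule K A) [Module.Finite K U]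
    [Module.Finite K V] (hI : I ≤ I') {φ : A} (hφ : φ ∈ I') (hm : ∀ ψ ∈ V, φ * ψ ∈ U)
    (hJ : ∀ ψ, φ * ψ ∈ I → ψ ∈ J) :
    Module.finrank K (U.map (Ideal.Quotient.mkₐ K I').toLinearMap) +
      Module.finrank K (V.map (Ideal.Quotient.mkₐ K J).toLinearMap) ≤
      Module.finrank K (U.map (Ideal.Quotient.mkₐ K I).toLinearMap) := by
  have h1 := finrank_map_add (K := K) I' U
  have h2 := finrank_map_add (K := K) I U
  have h3 := finrank_map_add (K := K) J V
  have : Module.Finite K ↥(U ⊓ I'.restrictScalars K) :=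
    Module.Finite.of_injective (Submodule.inclusion inf_le_left) (Submodule.inclusion_injective _)
  have : Module.Finite K ↥(V ⊓ J.restrictScalars K) :=
    Module.Finite.of_injective (Submodule.inclusion inf_le_left) (Submodule.inclusion_injective _)
  set W' : Submodule K A := U ⊓ I'.restrictScalars K with hW'
  set W : Submodule K A := U ⊓ I.restrictScalars K with hW
  have hWW : W ≤ W' := inf_le_inf_left _ fun x hx => hI hx
  let m : V →ₗ[K] W' := LinearMap.codRestrict W' ((LinearMap.mulLeft K φ).domRestrict V)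
    fun ψ => ⟨hm ψ ψ.2, I'.mul_mem_right _ hφ⟩
  let q : V →ₗ[K] (W' ⧸ W.comap W'.subtype) := (W.comap W'.subtype).mkQ ∘ₗ m
  have h4 := LinearMap.finrank_range_add_finrank_ker q
  have h5 : Module.finrank K (LinearMap.range q) ≤ Module.finrank K (W' ⧸ W.comap W'.subtype) :=
    Submodule.finrank_le _
  have h6 := Submodule.finrank_quotient_add_finrank (W.comap W'.subtype)
  have h7 : Module.finrank K (W.comap W'.subtype) = Module.finrank K W :=
    (Submodule.comapSubtypeEquivOfLe hWW).finrank_eq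
  have h8 : Module.finrank K (LinearMap.ker q) ≤
      Module.finrank K ↥(V ⊓ J.restrictScalars K) := by
    rw [← (Submodule.comapSubtypeEquivOfLe
      (inf_le_left : V ⊓ J.restrictScalars K ≤ V)).finrank_eq]
    refine Submodule.finrank_mono fun ψ hψ => ⟨ψ.2, hJ ψ ?_⟩
    have h0 : m ψ ∈ W.comap W'.subtype := by
      simpa [q, Submodule.Quotient.mk_eq_zero] using hψ
    exact h0.2
  omega

end tele

theorem HF_add_finrank (G : Finset σ) (I : Ideal (MvPolynomial σ K)) (d e : ℕ) :
    HF G I d e + Module.finrank K ↥(Fil K G d e ⊓ I.restrictScalars K) =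
      (d + G.card).choose G.card * (e + Gᶜ.card).choose Gᶜ.card := by
  rw [← finrank_Fil (K := K)]
  exact finrank_map_add I _

theorem HF_le (G : Finset σ) (I : Ideal (MvPolynomial σ K)) (d e : ℕ) :
    HF G I d e ≤ (d + G.card).choose G.card * (e + Gᶜ.card).choose Gᶜ.card := by
  have := HF_add_finrank G I d e
  omega

theorem HF_mono (G : Finset σ) (I : Ideal (MvPolynomial σ K)) {d e d' e' : ℕ} (hd : d ≤ d')
    (he : e ≤ e') : HF G I d e ≤ HF G I d' e' :=
  Submodule.finrank_mono (Submodule.map_mono (Fil_mono hd he))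

/-- T1. -/
theorem HF_tele (G : Finset σ) (I I' J : Ideal (MvPolynomial σ K)) (hI : I ≤ I')
    {φ : MvPolynomial σ K} (hφ : φ ∈ I') {a b : ℕ} (hab : φ ∈ Fil K G a b)
    (hJ : ∀ ψ, φ * ψ ∈ I → ψ ∈ J) (d e : ℕ) :
    HF G I' (d + a) (e + b) + HF G J d e ≤ HF G I (d + a) (e + b) :=
  telescope I I' J _ _ hI hφ
    (fun ψ hψ => by simpa [mul_comm] using mul_mem_Fil hψ hab) hJ

theorem HF_anti (G : Finset σ) {I I' : Ideal (MvPolynomial σ K)} (hI : I ≤ I') (d e : ℕ) :
    HF G I' d e ≤ HF G I d e := by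
  have := HF_tele G I I' ⊤ hI (φ := 0) (zero_mem _) (a := 0) (b := 0) (zero_mem _)
    (fun _ _ => trivial) d e
  simp only [add_zero] at this
  omega

/-- A small Hilbert function gives a nonzero element of the ideal in the filtration. -/
theorem exists_mem_of_HF_lt (G : Finset σ) (I : Ideal (MvPolynomial σ K)) {d e : ℕ}
    (h : HF G I d e < (d + G.card).choose G.card * (e + Gᶜ.card).choose Gᶜ.card) :
    ∃ f : MvPolynomial σ K, f ≠ 0 ∧ f ∈ I ∧ f ∈ Fil K G d e := by
  have h1 := HF_add_finrank G I d e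
  by_contra hc
  have : Fil K G d e ⊓ I.restrictScalars K = ⊥ := by
    rw [eq_bot_iff]
    intro f hf
    by_contra h0
    exact hc ⟨f, h0, hf.2, hf.1⟩
  rw [this, finrank_bot] at h1
  omega

/-- Elements of the filtration that are independent modulo `I` bound the Hilbert function. -/
theorem card_le_HF_of_indep (G : Finset σ) (I : Ideal (MvPolynomial σ K)) {d e : ℕ} {ι : Type}
    [Fintype ι] (f : ι → MvPolynomial σ K) (hf : ∀ i, f i ∈ Fil K G d e)
    (hi : LinearIndependent K fun i => Ideal.Quotient.mk I (f i)) :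
    Fintype.card ι ≤ HF G I d e := by
  let v : ι → (Fil K G d e).map (Ideal.Quotient.mkₐ K I).toLinearMap :=
    fun i => ⟨Ideal.Quotient.mk I (f i), f i, hf i, rfl⟩
  have hv : LinearIndependent K v := LinearIndependent.of_comp (Submodule.subtype _) hi
  exact hv.fintype_card_le_finrank

end

end Pool.Agent.Lib.MP_a460e0_co.GK.Hil

theorem Pool.Agent.Lib.MP_a460e0_co.GK.dimSt : Pool.Agent.Lib.MP_a460e0_co.GK.DimSt :=
  fun _ _ _ _ _ G d e => Pool.Agent.Lib.MP_a460e0_co.GK.Hil.finrank_Fil G d e
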