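import Pool.Agent.Lib.MP_a460e0_co.GK.HilB

/-! The three numerical forms of the bound for one and two hypersurfaces. -/

namespace Pool.Agent.Lib.MP_a460e0_co.GK

open MvPolynomial Hil

theorem Hil.card_G4 : G4.card = 4 ∧ G4ᶜ.card = 2 := by decide

theorem Hil.NZ_zero_le (x : ℤ) : NZ 0 x ≤ 1 := by
  unfold NZ
  split_ifs <;> simp

theorem h42St (hD : DegSt) : H42St := by
  intro K _
  refine ⟨fun F a b d e hF hab => ?_, fun f0 f1 a b d e hc h0 h1 => ?_⟩
  · obtain ⟨a0, b0, h0⟩ := (hD K (Fin 6) G4).1 F hF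
    have hle := Exact.le (G := G4) h0 hab
    have e1 := HF_span_one (G := G4) hF h0 d e
    rw [card_G4.1, card_G4.2] at e1
    have e2 := first_diff 3 1 a0 b0 d e
    have ha : (a0 : ℤ) ≤ a := by exact_mod_cast hle.1
    have hb : (b0 : ℤ) ≤ b := by exact_mod_cast hle.2
    have e3 : (a0 : ℤ) * NZ 3 d * NZ 2 e ≤ a * (d + 4) ^ 3 * (e + 2) ^ 2 :=
      mul_le_mul (mul_le_mul ha (NZ_le_pow 3 d 4 (by omega)) (NZ_nonneg _ _) (by positivity))
        (NZ_le_pow 2 e 2 le_rfl) (NZ_nonneg _ _) (by positivity)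
    have e4 : (b0 : ℤ) * NZ 4 d * NZ 1 e ≤ b * (d + 4) ^ 4 * (e + 2) :=
      mul_le_mul (mul_le_mul hb (NZ_le_pow 4 d 4 le_rfl) (NZ_nonneg _ _) (by positivity))
        (by simpa using NZ_le_pow 1 e 2 (by omega)) (NZ_nonneg _ _) (by positivity)
    have e5 : (HF G4 (Ideal.span {F}) d e : ℤ) ≤
        a * (d + 4) ^ 3 * (e + 2) ^ 2 + b * (d + 4) ^ 4 * (e + 2) := by
      rw [e1]
      exact e2.trans (add_le_add e3 e4)
    exact_mod_cast e5
  · by_cases hf0 : f0 = 0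
    · subst hf0
      rw [HF_span_zero_left G4 hc]
      exact Nat.zero_le _
    obtain ⟨a0, b0, he⟩ := (hD K (Fin 6) G4).1 f0 hf0
    have hle := Exact.le (G := G4) he h0
    have e1 := HF_span_two (G := G4) hf0 he h1 hc d e
    rw [card_G4.1, card_G4.2] at e1
    have e2 := second_diff 3 1 a0 b0 a b d e _ _
      (mul_nonneg (by positivity) (NZ_nonneg 0 e)) (NZ_d2 2 a0 a d) (NZ_d2 0 b0 b e)
    have ha : (a0 : ℤ) ≤ a := by exact_mod_cast hle.1
    have hb : (b0 : ℤ) ≤ b := by exact_mod_cast hle.2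
    have e3 : (a0 : ℤ) * a * NZ 2 d * NZ 2 e ≤ a * a * (d + 4) ^ 2 * (e + 2) ^ 2 :=
      mul_le_mul (mul_le_mul (mul_le_mul_of_nonneg_right ha (by positivity))
        (NZ_le_pow 2 d 4 (by omega)) (NZ_nonneg _ _) (by positivity))
        (NZ_le_pow 2 e 2 le_rfl) (NZ_nonneg _ _) (by positivity)
    have e4 : ((a0 : ℤ) * b + a * b0) * (NZ 3 d * NZ 1 e) ≤
        (a * b + a * b) * ((d + 4) ^ 3 * (e + 2)) :=
      mul_le_mul (add_le_add (mul_le_mul_of_nonneg_right ha (by positivity))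
        (mul_le_mul_of_nonneg_left hb (by positivity)))
        (mul_le_mul (NZ_le_pow 3 d 4 (by omega)) (by simpa using NZ_le_pow 1 e 2 (by omega))
          (NZ_nonneg _ _) (by positivity))
        (mul_nonneg (NZ_nonneg _ _) (NZ_nonneg _ _)) (by positivity)
    have e5 : NZ 4 d * ((b0 : ℤ) * b * NZ 0 e) ≤ (d + 4) ^ 4 * (b * b * 1) :=
      mul_le_mul (NZ_le_pow 4 d 4 le_rfl)
        (mul_le_mul (mul_le_mul_of_nonneg_right hb (by positivity)) (NZ_zero_le e)
          (NZ_nonneg _ _) (by positivity))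
        (mul_nonneg (by positivity) (NZ_nonneg _ _)) (by positivity)
    have e6 : (HF G4 (Ideal.span {f0, f1}) d e : ℤ) ≤ a ^ 2 * (d + 4) ^ 2 * (e + 2) ^ 2 +
        2 * a * b * (d + 4) ^ 3 * (e + 2) + b ^ 2 * (d + 4) ^ 4 := by
      refine (e1.trans e2).trans ((add_le_add (add_le_add e3 e4) e5).trans (le_of_eq ?_))
      ring
    exact_mod_cast e6

theorem h21St (hD : DegSt) : H21St := by
  intro K _ f0 f1 a b d e hc h0 h1 hbe
  by_cases hf0 : f0 = 0
  · subst hf0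
    rw [HF_span_zero_left _ hc]
    exact Nat.zero_le _
  obtain ⟨a0, b0, he⟩ := (hD K (Fin 3) {0, 1}).1 f0 hf0
  have hle := Exact.le (G := {0, 1}) he h0
  have e1 := HF_span_two (G := {0, 1}) hf0 he h1 hc d e
  rw [show ({0, 1} : Finset (Fin 3)).card = 2 by decide,
    show ({0, 1} : Finset (Fin 3))ᶜ.card = 1 by decide] at e1
  have ha : (a0 : ℤ) ≤ a := by exact_mod_cast hle.1
  have hb : (b0 : ℤ) ≤ b := by exact_mod_cast hle.2
  have e2 := second_diff 1 0 a0 b0 a b d e _ 0 le_rfl (NZ_d2 0 a0 a d)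
    (NZ_d2_one b0 b (by omega)).le
  have e3 : (a0 : ℤ) * a * NZ 0 d * NZ 1 e ≤ a * a * 1 * (e + 1) :=
    mul_le_mul (mul_le_mul (mul_le_mul_of_nonneg_right ha (by positivity))
      (NZ_zero_le d) (NZ_nonneg _ _) (by positivity))
      (NZ_one (by positivity)).le (NZ_nonneg _ _) (by positivity)
  have e4 : ((a0 : ℤ) * b + a * b0) * (NZ 1 d * NZ 0 e) ≤ (a * b + a * b) * ((d + 1) * 1) :=
    mul_le_mul (add_le_add (mul_le_mul_of_nonneg_right ha (by positivity))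
      (mul_le_mul_of_nonneg_left hb (by positivity)))
      (mul_le_mul (NZ_one (by positivity)).le (NZ_zero_le e) (NZ_nonneg _ _) (by positivity))
      (mul_nonneg (NZ_nonneg _ _) (NZ_nonneg _ _)) (by positivity)
  have e6 : (HF {0, 1} (Ideal.span {f0, f1}) d e : ℤ) ≤
      a ^ 2 * (e + 1) + 2 * a * b * (d + 1) := by
    refine (e1.trans e2).trans ?_
    rw [mul_zero, add_zero]
    refine (add_le_add e3 e4).trans (le_of_eq ?_)
    ring
  exact_mod_cast e6

theorem h11St (hD : DegSt) : H11St := by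
  intro K _ f0 f1 a0' b0' a1 b1 d e hc h0 h1
  by_cases hf0 : f0 = 0
  · subst hf0
    rw [HF_span_zero_left _ hc]
    exact Nat.zero_le _
  obtain ⟨a0, b0, he⟩ := (hD K (Fin 2) {0}).1 f0 hf0
  have hle := Exact.le (G := {0}) he h0
  refine (HF_mono _ _ (Nat.le_add_right d (a0 + a1)) (Nat.le_add_right e (b0 + b1))).trans ?_
  have e1 := HF_span_two (G := {0}) hf0 he h1 hc (d + (a0 + a1)) (e + (b0 + b1))
  rw [show ({0} : Finset (Fin 2)).card = 1 by decide,
    show ({0} : Finset (Fin 2))ᶜ.card = 1 by decide] at e1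
  have ha : (a0 : ℤ) ≤ a0' := by exact_mod_cast hle.1
  have hb : (b0 : ℤ) ≤ b0' := by exact_mod_cast hle.2
  have e2 := second_diff 0 0 a0 b0 a1 b1 (d + (a0 + a1) : ℕ) (e + (b0 + b1) : ℕ) 0 0 le_rfl
    (NZ_d2_one a0 a1 (by omega)).le (NZ_d2_one b0 b1 (by omega)).le
  have e4 : ((a0 : ℤ) * b1 + a1 * b0) *
      (NZ 0 (d + (a0 + a1) : ℕ) * NZ 0 (e + (b0 + b1) : ℕ)) ≤ (a0' * b1 + a1 * b0') * (1 * 1) :=
    mul_le_mul (add_le_add (mul_le_mul_of_nonneg_right ha (by positivity))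
      (mul_le_mul_of_nonneg_left hb (by positivity)))
      (mul_le_mul (NZ_zero_le _) (NZ_zero_le _) (NZ_nonneg _ _) (by positivity))
      (mul_nonneg (NZ_nonneg _ _) (NZ_nonneg _ _)) (by positivity)
  have e6 : (HF {0} (Ideal.span {f0, f1}) (d + (a0 + a1)) (e + (b0 + b1)) : ℤ) ≤
      a0' * b1 + a1 * b0' := by
    refine (e1.trans e2).trans ?_
    rw [zero_mul, mul_zero, add_zero, zero_add]
    simpa using e4
  exact_mod_cast e6

end Pool.Agent.Lib.MP_a460e0_co.GK
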