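import Pool.Agent.Lib.MP_a460e0_co.GK.Pit

/-! T7: a prime containing all derivatives of a form gives a prime of the line space. -/

namespace Pool.Agent.Lib.MP_a460e0_co.GK

open MvPolynomial

namespace InvL

variable {K : Type} [Field K]

lemma mem_ker {B : Type} [CommRing B] (ε : S K →+* B) (f : R K) :
    f ∈ tilde (RingHom.ker ε) ↔ MvPolynomial.map ε (Phi K f) = 0 := by
  rw [tilde, Ideal.mem_comap, ← MvPolynomial.ker_map, RingHom.mem_ker]; rfl

lemma phi0 : Phi K (X 0) = X 0 * C (X 2) + X 1 * C (X 3) := by simp [Phi]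
lemma phi1 : Phi K (X 1) = -(X 0 * C (X 2 * X 1)) - X 1 * C (X 3 * X 0) := by simp [Phi]
lemma phi2 : Phi K (X 2) = X 0 + X 1 := by simp [Phi]
lemma phi3 : Phi K (X 3) = -(X 0 * C (X 1)) - X 1 * C (X 0) := by simp [Phi]
lemma phi4 : Phi K (X 4) = C (X 0) := by simp [Phi]
lemma phi5 : Phi K (X 5) = C (X 1) := by simp [Phi]

lemma phiC (c : K) : Phi K (C c) = C (C c) := (Phi K).commutes c

lemma phi_der (f : R K) :
    Phi K (Der K f) = C (X 0 - X 1) * (X 0 * pderiv 0 (Phi K f)) := by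
  induction f using MvPolynomial.induction_on with
  | C a => rw [phiC, pderiv_C, show (C a : R K) = algebraMap K _ a from rfl,
      Derivation.map_algebraMap]; simp
  | add f g hf hg => simp only [map_add, hf, hg]; ring
  | mul_X f i hf =>
    have hx : Phi K (Der K (X i)) = C (X 0 - X 1) * (X 0 * pderiv 0 (Phi K (X i))) := by
      fin_cases i <;>
        simp [Der, mkDerivation_X, phi0, phi1, phi2, phi3, phi4, phi5, pderiv_X] <;> ring
    rw [Derivation.leibniz, map_add, smul_eq_mul, smul_eq_mul, map_mul, map_mul, map_mul, hf, hx,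
      Derivation.leibniz, smul_eq_mul, smul_eq_mul]
    ring

lemma coeff_euler (m : Fin 2 →₀ ℕ) (h : MvPolynomial (Fin 2) (S K)) :
    coeff m (X 0 * pderiv 0 h) = (m 0 : S K) * coeff m h := by
  classical
  induction h using MvPolynomial.induction_on' with
  | monomial u c =>
    rw [X_mul_pderiv_monomial, coeff_smul, coeff_monomial]
    split_ifs with e
    · subst e; simp
    · simp
  | add f g hf hg => simp only [map_add, mul_add, coeff_add, hf, hg]

lemma coeff_dj (j : ℕ) (f : R K) (m : Fin 2 →₀ ℕ) :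
    coeff m (Phi K (Dj j f)) = coeff m (Phi K f) * ((X 0 - X 1) * (m 0 : S K)) ^ j := by
  induction j with
  | zero => simp [Dj]
  | succ j ih =>
    rw [Dj, Function.iterate_succ_apply', phi_der, coeff_C_mul, coeff_euler, ← Dj, ih]; ring

lemma phi_hom {F : R K} {a : ℕ} (h : IsHom G4 F a) : (Phi K F).IsHomogeneous a := by
  have c0 : ∀ c : S K, (C c : MvPolynomial (Fin 2) (S K)).IsHomogeneous 0 := fun c =>
    isHomogeneous_C _ c
  have x1 : ∀ (i : Fin 2) (c : S K),
      (X i * C c : MvPolynomial (Fin 2) (S K)).IsHomogeneous 1 := fun i c =>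
    (isHomogeneous_X _ i).mul (c0 c)
  have h0 : (Phi K (X 0)).IsHomogeneous 1 := phi0 (K := K) ▸ (x1 _ _).add (x1 _ _)
  have h1 : (Phi K (X 1)).IsHomogeneous 1 := phi1 (K := K) ▸ (x1 _ _).neg.sub (x1 _ _)
  have h2 : (Phi K (X 2)).IsHomogeneous 1 :=
    phi2 (K := K) ▸ (isHomogeneous_X _ _).add (isHomogeneous_X _ _)
  have h3 : (Phi K (X 3)).IsHomogeneous 1 := phi3 (K := K) ▸ (x1 _ _).neg.sub (x1 _ _)
  have h4 : (Phi K (X 4)).IsHomogeneous 0 := phi4 (K := K) ▸ c0 _
  have h5 : (Phi K (X 5)).IsHomogeneous 0 := phi5 (K := K) ▸ c0 _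
  rw [F.as_sum, map_sum]
  refine IsHomogeneous.sum _ _ _ fun u hu => ?_
  have e := h u hu
  have e' : a = 0 + (1 * u 0 + 1 * u 1 + 1 * u 2 + 1 * u 3 + 0 * u 4 + 0 * u 5) := by
    rw [← e]; simp [G4, add_assoc]
  rw [monomial_eq, Finsupp.prod_fintype _ _ (by simp), Fin.prod_univ_six, e']
  simp only [map_mul, map_pow, phiC]
  exact (c0 _).mul ((((((h0.pow _).mul (h1.pow _)).mul (h2.pow _)).mul (h3.pow _)).mul
    (h4.pow _)).mul (h5.pow _))

lemma phi_u : Phi K (X 2 * X 4 + X 3) = X 0 * C (X 0 - X 1) := by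
  simp only [map_add, map_mul, map_sub, phi2, phi3, phi4]; ring

lemma phi_v : Phi K (X 2 * X 5 + X 3) = -(X 1 * C (X 0 - X 1)) := by
  simp only [map_add, map_mul, map_sub, phi2, phi3, phi5]; ring

lemma phi_w : Phi K (X 4 - X 5) = C (X 0 - X 1) := by
  simp only [map_sub, phi4, phi5]

lemma clear (ψ : S K) : ∃ (k : ℕ) (f : R K),
    Phi K f = Phi K ((X 2 * X 4 + X 3) * (X 2 * X 5 + X 3)) ^ k * C ψ := by
  induction ψ using MvPolynomial.induction_on with
  | C a => exact ⟨0, C a, by simp⟩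
  | add f g hf hg =>
    obtain ⟨k, f', hf⟩ := hf
    obtain ⟨n, g', hg⟩ := hg
    refine ⟨k + n, ((X 2 * X 4 + X 3) * (X 2 * X 5 + X 3)) ^ n * f' +
      ((X 2 * X 4 + X 3) * (X 2 * X 5 + X 3)) ^ k * g', ?_⟩
    rw [map_add, map_mul _ _ f', map_mul _ _ g', map_pow, map_pow, hf, hg, map_add C]; ring
  | mul_X f i hf =>
    obtain ⟨k, f', hf⟩ := hf
    have : ∃ h : R K, Phi K h = Phi K ((X 2 * X 4 + X 3) * (X 2 * X 5 + X 3)) * C (X i) := by
      fin_cases i
      · exact ⟨(X 2 * X 4 + X 3) * (X 2 * X 5 + X 3) * X 4, by rw [map_mul _ _ (X 4), phi4]; rfl⟩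
      · exact ⟨(X 2 * X 4 + X 3) * (X 2 * X 5 + X 3) * X 5, by rw [map_mul _ _ (X 5), phi5]; rfl⟩
      · refine ⟨(X 0 * X 4 + X 1) * (X 2 * X 5 + X 3), ?_⟩
        simp only [map_add, map_mul, phi0, phi1, phi2, phi3, phi4, phi5, Fin.reduceFinMk]; ring
      · refine ⟨(X 2 * X 4 + X 3) * (X 0 * X 5 + X 1), ?_⟩
        simp only [map_add, map_mul, phi0, phi1, phi2, phi3, phi4, phi5, Fin.reduceFinMk]; ring
    obtain ⟨h, hh⟩ := this
    exact ⟨k + 1, f' * h, by rw [map_mul _ f', hf, hh, map_mul C]; ring⟩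

lemma vander {Ω ι : Type} [Field Ω] (T : Finset ι) (x y : ι → Ω) (hx : Set.InjOn x T)
    (h : ∀ j : ℕ, ∑ m ∈ T, y m * x m ^ j = 0) : ∀ m ∈ T, y m = 0 := by
  have e := Matrix.eq_zero_of_forall_pow_sum_mul_pow_eq_zero
    (f := fun i => x (T.equivFin.symm i)) (v := fun i => y (T.equivFin.symm i))
    (fun i j hij => T.equivFin.symm.injective (Subtype.ext
      (hx (T.equivFin.symm i).2 (T.equivFin.symm j).2 hij))) fun i => by
      rw [← h i, ← Finset.sum_coe_sort T]
      exact T.equivFin.symm.sum_comp fun m => y m * x m ^ (i : ℕ)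
  intro m hm
  simpa using congrFun e (T.equivFin ⟨m, hm⟩)

lemma dim_down {P : Ideal (S K)} [P.IsPrime] {r : ℕ} (h : DimGE (tilde P) (r + 2)) :
    DimGE P r := by
  obtain ⟨z, hz⟩ := dimGE_iff_aeval.1 h
  let μ : R K →ₐ[K] MvPolynomial (Fin 2) (S K ⧸ P) :=
    (mapAlgHom (Ideal.Quotient.mkₐ K P)).comp (Phi K)
  have ind : AlgebraicIndependent K fun i => μ (z i) := by
    rw [algebraicIndependent_iff]
    intro H hH
    refine hz H ?_
    rw [← Ideal.mk_ker (I := P), mem_ker]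
    rw [← comp_aeval_apply] at hH
    exact hH
  have h1 := ind.cardinalMk_le_trdeg
  rw [← trdeg_add_eq K (S K ⧸ P) (A := MvPolynomial (Fin 2) (S K ⧸ P)),
    MvPolynomial.trdeg_of_isDomain] at h1
  rw [dimGE_iff_trdeg, ← Cardinal.add_nat_le_add_nat_iff 2]
  simpa using h1

lemma core {Ω : Type} [Field Ω] [Algebra K Ω] (π : R K →ₐ[K] Ω) {p : ℕ} [CharP K p] {F : R K}
    {a r : ℕ} {q : Ideal (R K)} {l : Ln K} (hF : IsHom G4 F a) (ha : a < p) (hl : Off l)
    (hql : q ≤ Ll l) (hD : ∀ j, Dj j F ∈ q) (hd : DimGE q (r + 2))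
    (hπ : ∀ f, π f = 0 ↔ f ∈ q) :
    ∃ P : Ideal (S K), P.IsPrime ∧ P ≤ mx l ∧ F ∈ tilde P ∧ DimGE P r := by
  have hL : ∀ f, f ∈ Ll l ↔ MvPolynomial.map (eval (pt l)) (Phi K f) = 0 := fun f => mem_ker _ f
  have w0 : eval (pt l) (X 0 - X 1 : S K) ≠ 0 := by simpa [pt, sub_eq_zero] using hl.1
  have wC : (C (eval (pt l) (X 0 - X 1 : S K)) : MvPolynomial (Fin 2) K) ≠ 0 := C_ne_zero.2 w0
  have nu : MvPolynomial.map (eval (pt l)) (Phi K (X 2 * X 4 + X 3)) ≠ 0 := by
    rw [phi_u, map_mul, map_X, map_C]; exact mul_ne_zero (X_ne_zero _) wC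
  have nv : MvPolynomial.map (eval (pt l)) (Phi K (X 2 * X 5 + X 3)) ≠ 0 := by
    rw [phi_v, map_neg, map_mul, map_X, map_C]; exact neg_ne_zero.2 (mul_ne_zero (X_ne_zero _) wC)
  have nw : MvPolynomial.map (eval (pt l)) (Phi K (X 4 - X 5)) ≠ 0 := by
    rw [phi_w, map_C]; exact wC
  have ne : ∀ f, MvPolynomial.map (eval (pt l)) (Phi K f) ≠ 0 → π f ≠ 0 := fun f h e =>
    h ((hL f).1 (hql ((hπ f).1 e)))
  have hu := ne _ nu
  have hv := ne _ nv
  have hw := ne _ nw
  simp only [map_add, map_mul, map_sub] at hu hv hw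
  let ε : S K →ₐ[K] Ω := aeval ![π (X 4), π (X 5),
    (π (X 0) * π (X 4) + π (X 1)) / (π (X 2) * π (X 4) + π (X 3)),
    (π (X 0) * π (X 5) + π (X 1)) / (π (X 2) * π (X 5) + π (X 3))]
  let st : Fin 2 → Ω := ![(π (X 2) * π (X 4) + π (X 3)) / (π (X 4) - π (X 5)),
    -(π (X 2) * π (X 5) + π (X 3)) / (π (X 4) - π (X 5))]
  have st0 : ∀ i, st i ≠ 0 := fun i => by
    fin_cases i
    · exact div_ne_zero hu hw
    · exact div_ne_zero (neg_ne_zero.2 hv) hw
  let θ : MvPolynomial (Fin 2) (S K) →+* Ω := eval₂Hom ε.toRingHom st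
  have θC : ∀ c, θ (C c) = ε c := fun c => eval₂Hom_C _ _ c
  have θX : ∀ i, θ (X i) = st i := fun i => eval₂Hom_X' _ _ i
  have hθ : ∀ f, θ (Phi K f) = π f := by
    intro f
    induction f using MvPolynomial.induction_on with
    | C c => rw [phiC, θC]; exact (ε.commutes c).trans (π.commutes c).symm
    | add f g hf hg => rw [map_add, map_add, hf, hg, map_add]
    | mul_X f i hf =>
      rw [map_mul, map_mul, hf, map_mul]
      congr 1
      fin_cases i <;>
        simp only [Fin.reduceFinMk, Fin.zero_eta, Fin.mk_one, phi0, phi1, phi2, phi3, phi4, phi5,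
          map_add, map_mul, map_sub, map_neg, θC, θX, ε, st, aeval_X, Matrix.cons_val] <;>
        field_simp <;> ring
  have hP : (RingHom.ker ε.toRingHom).IsPrime := RingHom.ker_isPrime _
  refine ⟨RingHom.ker ε.toRingHom, hP, fun ψ hψ => ?_, ?_, dim_down (hd.anti fun f hf => ?_)⟩
  · obtain ⟨k, f, hf⟩ := clear ψ
    have e : π f = 0 := by rw [← hθ, hf, map_mul, θC, show ε ψ = 0 from hψ, mul_zero]
    have e' := (hL f).1 (hql ((hπ f).1 e))
    rw [hf, map_mul, map_pow, map_mul (Phi K), map_mul, map_C] at e'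
    exact C_eq_zero.1 ((mul_eq_zero.1 e').resolve_left (pow_ne_zero _ (mul_ne_zero nu nv)))
  · have hom := phi_hom hF
    have deg : ∀ m ∈ (Phi K F).support, m 0 + m 1 = a := fun m hm => by
      have := hom (mem_support_iff.1 hm)
      rw [← this, Finsupp.weight_apply, Finsupp.sum_fintype _ _ (by simp)]; simp
    have : CharP Ω p := charP_of_injective_algebraMap (algebraMap K Ω).injective p
    have key := vander (Phi K F).support (fun m => (π (X 4) - π (X 5)) * (m 0 : Ω))
      (fun m => ε (coeff m (Phi K F)) * ∏ i, st i ^ m i) (fun m hm m' hm' e => by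
        have d := deg m hm
        have d' := deg m' hm'
        have e0 : m 0 = m' 0 := CharP.natCast_injOn_Iio Ω p (by simp; omega) (by simp; omega)
          (mul_left_cancel₀ hw e)
        ext i; fin_cases i
        · exact e0
        · simp; omega) fun j => by
        have sub : (Phi K (Dj j F)).support ⊆ (Phi K F).support := fun m hm => by
          rw [mem_support_iff] at hm ⊢
          rw [coeff_dj] at hm
          exact left_ne_zero_of_mul hm
        have as : Phi K (Dj j F) =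
            ∑ m ∈ (Phi K F).support, monomial m (coeff m (Phi K (Dj j F))) :=
          (Phi K (Dj j F)).as_sum.trans (Finset.sum_subset sub fun m _ hm => by
            rw [notMem_support_iff.1 hm, map_zero])
        refine Eq.trans ?_ ((congrArg θ as).symm.trans ((hθ _).trans ((hπ _).2 (hD j))))
        rw [map_sum]
        refine Finset.sum_congr rfl fun m _ => ?_
        rw [show θ (monomial m (coeff m (Phi K (Dj j F)))) = _ from eval₂Hom_monomial _ _ _ _,
          Finsupp.prod_fintype _ _ (by simp), coeff_dj]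
        simp [ε]; ring
    rw [mem_ker]
    ext m
    rw [coeff_map, coeff_zero]
    by_cases hm : m ∈ (Phi K F).support
    · exact (mul_eq_zero.1 (key m hm)).resolve_right
        (Finset.prod_ne_zero_iff.2 fun i _ => pow_ne_zero _ (st0 i))
    · rw [notMem_support_iff.1 hm, map_zero]
  · rw [← hπ, ← hθ]
    rw [mem_ker] at hf
    have : θ (Phi K f) = eval st (MvPolynomial.map ε.toRingHom (Phi K f)) := (eval_map _ _ _).symm
    rw [this, hf, map_zero]

end InvL

theorem invSt : InvSt := by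
  intro K _ p _ F a r q l hF ha hq hl hql hD hd
  refine InvL.core (Ω := FractionRing (R K ⧸ q))
    ((IsScalarTower.toAlgHom K (R K ⧸ q) _).comp (Ideal.Quotient.mkₐ K q)) hF ha hl hql hD hd
    fun f => ?_
  rw [← Ideal.Quotient.eq_zero_iff_mem]
  exact map_eq_zero_iff (algebraMap (R K ⧸ q) _) (IsFractionRing.injective _ _)

end Pool.Agent.Lib.MP_a460e0_co.GK
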