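import Pool.Agent.Lib.MP_a460e0_co.GK.Basic

/-! Lemma B: the recursion over the degree. -/

namespace Pool.Agent.Lib.MP_a460e0_co.GK

open MvPolynomial

namespace LemB

lemma der_eq_zero {K : Type} [Field K] {F : R K} {b : ℕ} (h : F ∈ Fil K G4 0 b) :
    Der K F = 0 := by
  rw [F.as_sum, map_sum]
  refine Finset.sum_eq_zero fun u hu => ?_
  have h0 : ∀ i ∈ G4, u i = 0 :=
    Finset.sum_eq_zero_iff.1 (Nat.le_zero.1 (mem_Fil.1 h u hu).1)
  rw [Der, mkDerivation_monomial, Finsupp.sum, Finset.sum_eq_zero, smul_zero]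
  intro i hi
  have hi' : i ∉ G4 := fun hG => Finsupp.mem_support_iff.1 hi (h0 i hG)
  have : i = 4 ∨ i = 5 := (by decide : ∀ i : Fin 6, i ∉ G4 → i = 4 ∨ i = 5) i hi'
  rcases this with rfl | rfl <;> simp

lemma not_heavy {K : Type} [Field K] {F : R K} {b : ℕ} (h : F ∈ Fil K G4 0 b)
    (hc : IsRelPrime F (Der K F)) (l : Ln K) : ¬Heavy F b l := by
  rintro ⟨q, hq, -, h1, -⟩
  rw [der_eq_zero h, isRelPrime_zero_right] at hc
  exact hq.ne_top (Ideal.eq_top_of_isUnit_mem q (h1 0 (Nat.zero_le b)) hc)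

/-- The cost of one level. -/
def cost (n T a b : ℕ) : ℕ :=
  (a + b) * b * n + (a + b) * b ^ 2 * T + (a + b) ^ 2 * b ^ 2 + b * n * T

lemma cost_mono (n T : ℕ) {a b a' b' : ℕ} (h1 : a ≤ a') (h2 : b ≤ b') :
    cost n T a b ≤ cost n T a' b' := by
  unfold cost
  gcongr

lemma cost_half {n T a b b0 : ℕ} (hn : 1 ≤ n) (hT : 1 ≤ T) (h0 : 1 ≤ b0) (hb : b0 ≤ b) :
    2 * cost n T (a / 2) (max (b / 2) b0) ≤ cost n T a b + 10 * b0 ^ 4 * (n * T) := by
  obtain ⟨x, hx⟩ : ∃ x, x = a / 2 := ⟨_, rfl⟩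
  have hxa : 2 * x ≤ a := by omega
  rw [← hx]
  rcases le_total b0 (b / 2) with h | h
  · rw [max_eq_left h]
    obtain ⟨y, hy⟩ : ∃ y, y = b / 2 := ⟨_, rfl⟩
    have h2 := cost_mono n T hxa (show 2 * y ≤ b by omega)
    rw [← hy]
    have h3 : 2 * cost n T x y ≤ cost n T (2 * x) (2 * y) := by
      unfold cost
      have e1 : (2 * x + 2 * y) * (2 * y) * n = 4 * ((x + y) * y * n) := by ring
      have e2 : (2 * x + 2 * y) * (2 * y) ^ 2 * T = 8 * ((x + y) * y ^ 2 * T) := by ring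
      have e3 : (2 * x + 2 * y) ^ 2 * (2 * y) ^ 2 = 16 * ((x + y) ^ 2 * y ^ 2) := by ring
      have e4 : 2 * y * n * T = 2 * (y * n * T) := by ring
      omega
    omega
  · rw [max_eq_right h]
    have h2 := cost_mono n T hxa hb
    have hnT : 1 ≤ n * T := Nat.mul_pos hn hT
    have p2 : b0 ^ 2 ≤ b0 ^ 4 := Nat.pow_le_pow_right h0 (by norm_num)
    have p3 : b0 ^ 3 ≤ b0 ^ 4 := Nat.pow_le_pow_right h0 (by norm_num)
    have p1 : b0 ≤ b0 ^ 4 := Nat.le_self_pow (by norm_num) b0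
    have q1 : b0 ^ 2 * n ≤ b0 ^ 4 * (n * T) := Nat.mul_le_mul p2 (Nat.le_mul_of_pos_right n hT)
    have q2 : b0 ^ 3 * T ≤ b0 ^ 4 * (n * T) := Nat.mul_le_mul p3 (Nat.le_mul_of_pos_left T hn)
    have q3 : b0 ^ 4 ≤ b0 ^ 4 * (n * T) := Nat.le_mul_of_pos_right _ hnT
    have q4 : b0 * (n * T) ≤ b0 ^ 4 * (n * T) := Nat.mul_le_mul_right _ p1
    have e1 : 2 * cost n T x b0 + (2 * x ^ 2 * b0 ^ 2) =
        cost n T (2 * x) b0 + (b0 ^ 2 * n + b0 ^ 3 * T + b0 ^ 4 + b0 * (n * T)) := by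
      unfold cost; ring
    have e2 : 10 * b0 ^ 4 * (n * T) = 10 * (b0 ^ 4 * (n * T)) := by ring
    omega

lemma step_cost {c1 n D T a b : ℕ} (h : D * T ≤ c1 * n) :
    b * D * T ^ 2 + max a b * b * D * T + max a b * b ^ 2 * T + max a b ^ 2 * b ^ 2 ≤
      (c1 + 1) * cost n T a b := by
  have hm : max a b ≤ a + b := by omega
  have e1 : b * D * T ^ 2 ≤ c1 * (b * n * T) :=
    calc b * D * T ^ 2 = b * T * (D * T) := by ring
      _ ≤ b * T * (c1 * n) := Nat.mul_le_mul_left _ h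
      _ = _ := by ring
  have e2 : max a b * b * D * T ≤ c1 * ((a + b) * b * n) :=
    calc max a b * b * D * T = max a b * b * (D * T) := by ring
      _ ≤ (a + b) * b * (c1 * n) := Nat.mul_le_mul (Nat.mul_le_mul_right _ hm) h
      _ = _ := by ring
  have e3 : max a b * b ^ 2 * T ≤ (a + b) * b ^ 2 * T := by gcongr
  have e4 : max a b ^ 2 * b ^ 2 ≤ (a + b) ^ 2 * b ^ 2 := by gcongr
  unfold cost
  nlinarith [Nat.zero_le (c1 * ((a + b) * b ^ 2 * T)), Nat.zero_le (c1 * ((a + b) ^ 2 * b ^ 2)),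
    Nat.zero_le ((a + b) * b * n), Nat.zero_le (b * n * T)]

lemma sq_half {b b0 : ℕ} : 2 * max (b / 2) b0 ^ 2 ≤ b ^ 2 + 2 * b0 ^ 2 := by
  rcases le_total b0 (b / 2) with h | h
  · rw [max_eq_left h]
    have : (2 * (b / 2)) ^ 2 ≤ b ^ 2 := Nat.pow_le_pow_left (by omega) 2
    nlinarith [Nat.zero_le ((b / 2) ^ 2), Nat.zero_le (b0 ^ 2)]
  · rw [max_eq_right h]; omega

end LemB

open LemB in
theorem lemBSt (hd : DegSt) (hs : StepSt) (hh : HeavySt) : LemBSt := by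
  intro c1
  obtain ⟨Cs, hs⟩ := hs
  obtain ⟨b0, h0, hh⟩ := hh
  obtain ⟨M, hM⟩ : ∃ M, M = Cs * (c1 + 1) := ⟨_, rfl⟩
  refine ⟨b0, 2 * M + 10 * b0 ^ 4 * M + 2 * b0 ^ 2, h0, ?_⟩
  intro K _ _ p _ c2 E V1 V2 D T P cnt hD hX
  classical
  have hT := hD.pT
  have hn : 1 ≤ E.card := by
    rcases Nat.eq_zero_or_pos E.card with h | h
    · have h1 := hD.dt
      have h2 := Nat.mul_pos hD.pD hD.pT
      rw [h] at h1; omega
    · exact h
  have key : ∀ (k : ℕ) (F : R K) (a0 a b : ℕ), F ≠ 0 → IsHom G4 F a0 → F ∈ Fil K G4 a b →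
      a < p → b0 ≤ b → a < 2 ^ k → ∃ Y ⊆ E ×ˢ E,
      Y.card ≤ M * (2 * cost E.card T a b + 10 * b0 ^ 4 * (E.card * T) * k) ∧
      ∀ g ∈ P, ∀ Z : Finset (Ln K), (∀ l ∈ Z, l ∈ E ×ˢ E ∧ l ∉ Y ∧ cnt g l ∧ F ∈ Ll l) →
        Z.card ≤ c2 * (2 * b ^ 2 + 2 * b0 ^ 2 * k) := by
    intro k
    induction k with
    | zero =>
      intro F a0 a b hF hH hab hp hb hk
      obtain rfl : a = 0 := by omega
      obtain ⟨F1, Y, h1, h2, h3, h4, h5⟩ := hs K p c1 E V1 V2 D T hD F a0 (max 0 b) b hF hH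
        ((hH.le_of_mem_Fil hF hab).trans_lt hp) (Fil_mono (le_max_left _ _) le_rfl hab)
        (h0.trans hb) (le_max_right _ _)
      have h6 := mem_Fil_of_dvd hd hF h1 hab
      refine ⟨Y, h3, h4.trans ?_, fun g hg Z hZ => ?_⟩
      · refine (Nat.mul_le_mul_left _ (step_cost hD.dt)).trans ?_
        rw [← mul_assoc, ← hM]
        exact Nat.mul_le_mul_left _ (by omega)
      · refine (hX 0 b F1 (h0.trans hb) h6 h2 g hg Z fun l hl => ?_).trans
          (Nat.mul_le_mul_left _ (by omega))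
        obtain ⟨z1, z2, z3, z4⟩ := hZ l hl
        exact ⟨z1, z3, ((h5 l z1 z4).resolve_left z2).resolve_left (not_heavy h6 h2 l)⟩
    | succ k ih =>
      intro F a0 a b hF hH hab hp hb hk
      rcases Nat.eq_zero_or_pos a with ha | ha
      · obtain ⟨Y, h1, h2, h3⟩ := ih F a0 a b hF hH hab hp hb (ha ▸ Nat.two_pow_pos k)
        refine ⟨Y, h1, h2.trans (by gcongr; omega), fun g hg Z hZ =>
          (h3 g hg Z hZ).trans (by gcongr; omega)⟩
      obtain ⟨F1, Y, h1, h2, h3, h4, h5⟩ := hs K p c1 E V1 V2 D T hD F a0 (max a b) b hF hH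
        ((hH.le_of_mem_Fil hF hab).trans_lt hp) (Fil_mono (le_max_left _ _) le_rfl hab)
        (h0.trans hb) (le_max_right _ _)
      have h6 := mem_Fil_of_dvd hd hF h1 hab
      obtain ⟨F', a', g1, g2, g3, g4⟩ := hh K F1 a b (max (b / 2) b0)
        ((E ×ˢ E).filter fun l => Heavy F1 b l) ha (le_max_right _ _) (by omega) (by omega) h6 h2
        fun l hl => (Finset.mem_filter.1 hl).2
      obtain ⟨Y', k1, k2, k3⟩ := ih F' a' (a / 2) (max (b / 2) b0) g1 g2 g3 (by omega)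
        (le_max_right _ _) (by rw [pow_succ] at hk; omega)
      refine ⟨Y ∪ Y', Finset.union_subset h3 k1, ?_, fun g hg Z hZ => ?_⟩
      · have e1 : Y.card ≤ M * cost E.card T a b := by
          refine h4.trans ((Nat.mul_le_mul_left _ (step_cost hD.dt)).trans ?_)
          rw [← mul_assoc, ← hM]
        have e2 := cost_half (a := a) hn hT h0 hb
        refine (Finset.card_union_le _ _).trans ((Nat.add_le_add e1 k2).trans ?_)
        rw [← mul_add]
        refine Nat.mul_le_mul_left _ ?_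
        rw [mul_add_one]
        omega
      · rw [← Finset.card_filter_add_card_filter_not (s := Z) fun l => Heavy F1 b l]
        have e1 := k3 g hg (Z.filter fun l => Heavy F1 b l) fun l hl => by
          obtain ⟨z0, z5⟩ := Finset.mem_filter.1 hl
          obtain ⟨z1, z2, z3, -⟩ := hZ l z0
          exact ⟨z1, fun h => z2 (Finset.mem_union_right _ h), z3,
            g4 l (Finset.mem_filter.2 ⟨z1, z5⟩)⟩
        have e2 := hX a b F1 (h0.trans hb) h6 h2 g hg (Z.filter fun l => ¬Heavy F1 b l)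
          fun l hl => by
            obtain ⟨z0, z5⟩ := Finset.mem_filter.1 hl
            obtain ⟨z1, z2, z3, z4⟩ := hZ l z0
            exact ⟨z1, z3, ((h5 l z1 z4).resolve_left
              fun h => z2 (Finset.mem_union_left _ h)).resolve_left z5⟩
        refine (Nat.add_le_add e1 e2).trans ?_
        rw [← mul_add]
        refine Nat.mul_le_mul_left _ ?_
        have := sq_half (b := b) (b0 := b0)
        rw [mul_add_one]
        omega
  intro F a0 a b hF hH hab hp hb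
  have hk : a < 2 ^ JJ p := by
    unfold JJ
    exact hp.trans ((Nat.lt_pow_succ_log_self (b := 2) (by norm_num) p).trans_le
      (Nat.pow_le_pow_right (by norm_num) (by omega)))
  obtain ⟨Y, h1, h2, h3⟩ := key (JJ p) F a0 a b hF hH hab hp hb hk
  refine ⟨Y, h1, h2.trans ?_, fun g hg Z hZ => (h3 g hg Z hZ).trans ?_⟩
  · obtain ⟨x, hx⟩ : ∃ x, x = cost E.card T a b := ⟨_, rfl⟩
    obtain ⟨y, hy⟩ : ∃ y, y = JJ p * E.card * T := ⟨_, rfl⟩
    have e1 : (a + b) * b * E.card + (a + b) * b ^ 2 * T + (a + b) ^ 2 * b ^ 2 +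
        (b + JJ p) * E.card * T = x + y := by rw [hx, hy]; unfold cost; ring
    have e2 : M * (2 * x + 10 * b0 ^ 4 * (E.card * T) * JJ p) =
        2 * M * x + 10 * b0 ^ 4 * M * y := by rw [hy]; ring
    rw [e1, ← hx, e2, mul_add]
    exact Nat.add_le_add (Nat.mul_le_mul_right _ (by omega)) (Nat.mul_le_mul_right _ (by omega))
  · have p2 : 1 ≤ b0 ^ 2 := Nat.one_le_pow _ _ h0
    rw [mul_comm _ c2, mul_assoc c2]
    refine Nat.mul_le_mul_left _ ?_
    rw [mul_add]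
    exact Nat.add_le_add (Nat.mul_le_mul_right _ (by omega)) (Nat.mul_le_mul_right _ (by omega))

end Pool.Agent.Lib.MP_a460e0_co.GK
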