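import Mathlib

/-! The descent over the levels in the main incidence bound, as pure arithmetic. -/

namespace Pool.Agent.Lib.MP_a460e0_co.GK.M14

theorem keyY {c a m n T J y : ℕ} (hm : m ≤ a) (ham : a * m ≤ n)
    (hy : y ≤ c * ((a + m) * m * n + (a + m) * m ^ 2 * T + (a + m) ^ 2 * m ^ 2 + (m + J) * n * T)) :
    y * a ≤ m * (c * (6 * a ^ 2 * n + 3 * a * n * T)) + c * J * n * T * a := by
  have h0 : a + m ≤ 2 * a := by omega
  have h1 : (a + m) * m * n * a ≤ m * (2 * a ^ 2 * n) := by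
    calc (a + m) * m * n * a ≤ (2 * a) * m * n * a := by gcongr
      _ = _ := by ring
  have h2 : (a + m) * m ^ 2 * T * a ≤ m * (2 * a * n * T) := by
    calc (a + m) * m ^ 2 * T * a ≤ (2 * a) * m ^ 2 * T * a := by gcongr
      _ = m * (2 * a * (a * m) * T) := by ring
      _ ≤ _ := by gcongr
  have h3 : (a + m) ^ 2 * m ^ 2 * a ≤ m * (4 * a ^ 2 * n) := by
    calc (a + m) ^ 2 * m ^ 2 * a ≤ (2 * a) ^ 2 * m ^ 2 * a := by gcongr
      _ = m * (4 * a ^ 2 * (a * m)) := by ring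
      _ ≤ _ := by gcongr
  calc y * a ≤ c * ((a + m) * m * n + (a + m) * m ^ 2 * T + (a + m) ^ 2 * m ^ 2 +
        (m + J) * n * T) * a := by gcongr
    _ = c * ((a + m) * m * n * a + (a + m) * m ^ 2 * T * a + (a + m) ^ 2 * m ^ 2 * a +
        m * (a * n * T)) + c * J * n * T * a := by ring
    _ ≤ c * (m * (2 * a ^ 2 * n) + m * (2 * a * n * T) + m * (4 * a ^ 2 * n) +
        m * (a * n * T)) + c * J * n * T * a := by gcongr
    _ = _ := by ring

/-- One level in real numbers. -/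
theorem level {ι : Type} {I : Finset ι → ℕ} {L0 : Finset ι} {c a m n T J N : ℕ} (m0 : 1 ≤ m)
    (hN : n ≤ N) (ham : a * m ≤ n) (h3 : 216 * N * m ≤ a ^ 3) (n0 : 1 ≤ n)
    (h : m ≤ a → ∃ Y ⊆ L0, Y.card ≤ c * ((a + m) * m * n + (a + m) * m ^ 2 * T +
      (a + m) ^ 2 * m ^ 2 + (m + J) * n * T) ∧
      ∀ L ⊆ L0, m * I L ≤ a * L.card + m * (c * (m ^ 2 + J) * N + I Y)) :
    ∃ Y ⊆ L0, (Y.card : ℝ) * (a / m) ≤ c * (6 * a ^ 2 * n + 3 * a * n * T) +
        c * J * n * T * (a / m) ∧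
      ∀ L ⊆ L0, (I L : ℝ) ≤ L.card * (a / m) + c * a ^ 2 * n + c * J * N + I Y := by
  have a0 : 0 < a := by
    rcases Nat.eq_zero_or_pos a with rfl | h0
    · have : 0 < 216 * N * m := by have : 0 < N := by omega
                                   positivity
      simp at h3; omega
    · exact h0
  have hma : m ≤ a := by
    have h4 : a * m ^ 2 ≤ a * a ^ 2 := by
      calc a * m ^ 2 = a * m * m := by ring
        _ ≤ N * m := by gcongr; omega
        _ ≤ 216 * N * m := by gcongr; omega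
        _ ≤ a ^ 3 := h3
        _ = _ := by ring
    exact (Nat.pow_le_pow_iff_left two_ne_zero).1 (Nat.le_of_mul_le_mul_left h4 a0)
  obtain ⟨Y, hY, hc, hI⟩ := h hma
  have mr : (0 : ℝ) < m := by exact_mod_cast m0
  refine ⟨Y, hY, ?_, fun L hL => ?_⟩
  · have k : (Y.card : ℝ) * a ≤ m * (c * (6 * a ^ 2 * n + 3 * a * n * T)) + c * J * n * T * a := by
      exact_mod_cast keyY hma ham hc
    rw [← mul_div_assoc, div_le_iff₀ mr]
    calc _ ≤ _ := k
      _ = _ := by field_simp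
  · have e : m ^ 2 * N ≤ a ^ 2 * n := by
      calc m ^ 2 * N = N * m * m := by ring
        _ ≤ 216 * N * m * m := by gcongr; omega
        _ ≤ a ^ 3 * m := by gcongr
        _ = a ^ 2 * (a * m) := by ring
        _ ≤ _ := by gcongr
    have k : m * I L ≤ a * L.card + m * (c * a ^ 2 * n + c * J * N + I Y) := by
      refine (hI L hL).trans ?_
      have : c * (m ^ 2 + J) * N ≤ c * a ^ 2 * n + c * J * N := by
        calc c * (m ^ 2 + J) * N = c * (m ^ 2 * N) + c * J * N := by ring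
          _ ≤ c * (a ^ 2 * n) + c * J * N := by gcongr
          _ = _ := by ring
      gcongr
    have k' : (m : ℝ) * I L ≤ a * L.card + m * (c * a ^ 2 * n + c * J * N + I Y) := by
      exact_mod_cast k
    refine le_of_mul_le_mul_left (k'.trans (le_of_eq ?_)) mr
    field_simp
    ring

theorem descent {ι : Type} {I : Finset ι → ℕ} {L0 : Finset ι} {c b0 ae p n T J N : ℕ}
    (hb : 1 ≤ b0) (hN : n ≤ N) (n0 : 1 ≤ n) (hae : 216 * N * b0 ≤ ae ^ 3)
    (hae' : ae ^ 3 ≤ 1728 * b0 * N) (hp : 1728 * N * n < p ^ 4)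
    (hstep : ∀ a m, b0 ≤ m → a < p → 216 * N * m ≤ a ^ 3 → ∃ Y ⊆ L0,
      Y.card ≤ c * ((a + m) * m * n + (a + m) * m ^ 2 * T + (a + m) ^ 2 * m ^ 2 +
        (m + J) * n * T) ∧ ∀ L ⊆ L0, m * I L ≤ a * L.card + m * (c * (m ^ 2 + J) * N + I Y))
    (hend : ∀ Y ⊆ L0, I Y ≤ 5 * ae * Y.card + 4 * N + c * ae ^ 2 * n) (i : ℕ) :
    ∀ a m : ℕ, a = 2 ^ i * ae → m = 8 ^ i * b0 → a * m ≤ n → ∀ L ⊆ L0,
      (I L : ℝ) ≤ L.card * (a / m) + 40 * b0 * c * (a ^ 2 * n + a * n * T) +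
        5 * c * J * n * T * (2 * ae - a / m) + (i + 1) * c * J * N + 4 * N := by
  have lev : ∀ (i a m : ℕ), a = 2 ^ i * ae → m = 8 ^ i * b0 → a * m ≤ n →
      ∃ Y ⊆ L0, (Y.card : ℝ) * (a / m) ≤ c * (6 * a ^ 2 * n + 3 * a * n * T) +
        c * J * n * T * (a / m) ∧
      ∀ L ⊆ L0, (I L : ℝ) ≤ L.card * (a / m) + c * a ^ 2 * n + c * J * N + I Y := by
    intro i a m ha hm ham
    have e8 : (2 ^ i) ^ 3 = 8 ^ i := by rw [← pow_mul, mul_comm, pow_mul]; norm_num
    have hbm : b0 ≤ m := hm ▸ Nat.le_mul_of_pos_left _ (by positivity)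
    have h3 : 216 * N * m ≤ a ^ 3 := by
      rw [ha, hm, mul_pow, e8]
      calc 216 * N * (8 ^ i * b0) = 8 ^ i * (216 * N * b0) := by ring
        _ ≤ _ := by gcongr
    have h4 : b0 * a ^ 4 ≤ b0 * (1728 * N * n) := by
      calc b0 * a ^ 4 = b0 * a * a ^ 3 := by ring
        _ = a * m * ae ^ 3 := by
          conv_lhs => rw [show a ^ 3 = 8 ^ i * ae ^ 3 by rw [ha, mul_pow, e8]]
          rw [hm]; ring
        _ ≤ n * (1728 * b0 * N) := by gcongr
        _ = _ := by ring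
    have hap : a < p := lt_of_pow_lt_pow_left₀ 4 (Nat.zero_le _)
      ((Nat.le_of_mul_le_mul_left h4 hb).trans_lt hp)
    exact level (hb.trans hbm) hN ham h3 n0 fun _ => hstep a m hbm hap h3
  have br : (1 : ℝ) ≤ b0 := by exact_mod_cast hb
  induction i with
  | zero =>
    intro a m ha hm ham L hL
    obtain ⟨Y, hY, k1, k2⟩ := lev 0 a m ha hm ham
    rw [pow_zero, one_mul] at ha hm
    subst ha hm
    have k3 : (I Y : ℝ) ≤ 5 * a * Y.card + 4 * N + c * a ^ 2 * n := by exact_mod_cast hend Y hY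
    have k4 := k2 L hL
    have mr : (0 : ℝ) < m := by linarith
    have q1 : (a : ℝ) / m ≤ a := div_le_self (by positivity) br
    have q2 : (a : ℝ) / m * m = a := div_mul_cancel₀ _ mr.ne'
    generalize (a : ℝ) / m = q at *
    have k5 : 5 * (a : ℝ) * Y.card ≤ 5 * m * (c * (6 * a ^ 2 * n + 3 * a * n * T)) +
        5 * c * J * n * T * a := by
      calc 5 * (a : ℝ) * Y.card = 5 * m * (Y.card * q) := by rw [← q2]; ring
        _ ≤ 5 * m * (c * (6 * a ^ 2 * n + 3 * a * n * T) + c * J * n * T * q) := by gcongr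
        _ = 5 * m * (c * (6 * a ^ 2 * n + 3 * a * n * T)) + 5 * c * J * n * T * (q * m) := by ring
        _ = _ := by rw [q2]
    have k6 : 5 * (c : ℝ) * J * n * T * a ≤ 5 * c * J * n * T * (2 * a - q) := by
      gcongr; linarith
    have u0 : (0 : ℝ) ≤ c * a ^ 2 * n := by positivity
    have u1 : (0 : ℝ) ≤ m * (c * a * n * T) := by positivity
    have u2 : (c : ℝ) * a ^ 2 * n ≤ m * (c * a ^ 2 * n) := le_mul_of_one_le_left u0 br
    push_cast
    nlinarith
  | succ i ih =>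
    intro a m ha hm ham L hL
    obtain ⟨Y, hY, k1, k2⟩ := lev (i + 1) a m ha hm ham
    have ha' : a = 2 * (2 ^ i * ae) := by rw [ha]; ring
    have hm' : m = 8 * (8 ^ i * b0) := by rw [hm]; ring
    have m0 : 0 < 8 ^ i * b0 := by positivity
    have k3 := ih _ _ rfl rfl (by rw [ha', hm'] at ham; nlinarith) Y hY
    have k4 := k2 L hL
    generalize 2 ^ i * ae = a' at *
    generalize 8 ^ i * b0 = m' at *
    subst ha' hm'
    have mr : (0 : ℝ) < m' := by exact_mod_cast m0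
    have q0 : (0 : ℝ) ≤ a' / m' := by positivity
    have q1 : ((2 * a' : ℕ) : ℝ) / ((8 * m' : ℕ) : ℝ) = a' / m' / 4 := by
      push_cast; field_simp; ring
    rw [q1] at k1 k4 ⊢
    generalize (a' : ℝ) / m' = q at *
    push_cast at k1 k4 ⊢
    have u0 : (0 : ℝ) ≤ c * a' ^ 2 * n := by positivity
    have u1 : (0 : ℝ) ≤ c * a' * n * T := by positivity
    have u2 : (c : ℝ) * a' ^ 2 * n ≤ b0 * (c * a' ^ 2 * n) := le_mul_of_one_le_left u0 br
    have u3 : (c : ℝ) * a' * n * T ≤ b0 * (c * a' * n * T) := le_mul_of_one_le_left u1 br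
    have u4 : (0 : ℝ) ≤ c * J * n * T * q := by positivity
    nlinarith

end Pool.Agent.Lib.MP_a460e0_co.GK.M14
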