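import Pool.Agent.Lib.MP_a460e0_co.GK.St
import Pool.Agent.Lib.MP_a460e0_co.GK.MainNum

/-! The main incidence bound from Lemma B, the polynomial of high order and the weak bound. -/

namespace Pool.Agent.Lib.MP_a460e0_co.GK

open Finset

namespace M14

theorem exists_cube {x : ℕ} (hx : 1 ≤ x) : ∃ a : ℕ, x ≤ a ^ 3 ∧ a ^ 3 ≤ 8 * x := by
  classical
  have ex : ∃ a : ℕ, x ≤ a ^ 3 := ⟨x, Nat.le_self_pow (by norm_num) x⟩
  refine ⟨Nat.find ex, Nat.find_spec ex, ?_⟩
  rcases Nat.lt_or_ge (Nat.find ex) 2 with h | h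
  · have : Nat.find ex ^ 3 ≤ 1 ^ 3 := Nat.pow_le_pow_left (by omega) 3
    omega
  · have h1 : ¬x ≤ (Nat.find ex - 1) ^ 3 := Nat.find_min ex (by omega)
    have h2 : Nat.find ex ^ 3 ≤ (2 * (Nat.find ex - 1)) ^ 3 := Nat.pow_le_pow_left (by omega) 3
    rw [mul_pow] at h2
    omega

theorem exists_level {w n : ℕ} (hw : 1 ≤ w) (hn : w ≤ n) :
    ∃ h : ℕ, 16 ^ h * w ≤ n ∧ n < 16 * (16 ^ h * w) := by
  classical
  have ex : ∃ h : ℕ, n < 16 * (16 ^ h * w) := ⟨n, by
    have h1 : n < 16 ^ n := Nat.lt_pow_self (by norm_num)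
    have h2 : 16 ^ n ≤ 16 ^ n * w := Nat.le_mul_of_pos_right _ hw
    omega⟩
  refine ⟨Nat.find ex, ?_, Nat.find_spec ex⟩
  rcases Nat.eq_zero_or_pos (Nat.find ex) with h | h
  · rw [h]; simpa using hn
  · have h1 := Nat.find_min ex (show Nat.find ex - 1 < Nat.find ex by omega)
    have h2 : 16 ^ Nat.find ex = 16 * 16 ^ (Nat.find ex - 1) := by
      rw [← pow_succ']; congr 1; omega
    rw [h2, mul_assoc]; omega

theorem numeric {ι : Type} {I : Finset ι → ℕ} {L0 : Finset ι} {c b0 p n T N a1 a2 : ℕ}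
    (hb : 1 ≤ b0) (hc : 1 ≤ c) (hN : n ≤ N) (hL : L0.card = n * n) (p1 : 1 ≤ p)
    (h1 : 3000 * b0 * c * p ≤ n) (h2 : n ≤ p ^ 2) (h3 : 3000 * b0 * c * N * n ≤ p ^ 4)
    (h4 : N * n ≤ a1 ^ 4) (h5 : N ≤ a2 ^ 3)
    (hstep : ∀ a m, b0 ≤ m → a < p → 216 * N * m ≤ a ^ 3 → ∃ Y ⊆ L0,
      Y.card ≤ c * ((a + m) * m * n + (a + m) * m ^ 2 * T + (a + m) ^ 2 * m ^ 2 +
        (m + JJ p) * n * T) ∧
      ∀ L ⊆ L0, m * I L ≤ a * L.card + m * (c * (m ^ 2 + JJ p) * N + I Y))
    (hend : ∀ a, a < p → 6 * N ≤ a ^ 3 → ∀ Y ⊆ L0,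
      I Y ≤ 5 * a * Y.card + 4 * N + c * a ^ 2 * n) :
    I L0 ≤ 3000 * b0 * c * (a1 ^ 2 * n + a1 * n * T + JJ p * a2 * n * T + JJ p ^ 2 * N) := by
  have bc : b0 ≤ b0 * c := Nat.le_mul_of_pos_right _ hc
  have cb : c ≤ b0 * c := Nat.le_mul_of_pos_left _ hb
  have hC : 3000 * b0 ≤ 3000 * b0 * c := Nat.le_mul_of_pos_right _ hc
  have n0 : 1 ≤ n := le_trans (Nat.mul_pos (by omega) p1) h1
  have N0 : 1 ≤ N := n0.trans hN
  obtain ⟨ae, hae, hae'⟩ := exists_cube (x := 216 * N * b0)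
    (Nat.succ_le_of_lt (by positivity))
  replace hae' : ae ^ 3 ≤ 1728 * b0 * N := hae'.trans (le_of_eq (by ring))
  have ae0 : 1 ≤ ae := by
    rcases Nat.eq_zero_or_pos ae with rfl | h
    · have : 0 < 216 * N * b0 := by positivity
      simp at hae; omega
    · exact h
  have hp : 1728 * N * n < p ^ 4 := by
    have : 0 < N * n := by positivity
    calc 1728 * N * n < 3000 * 1 * 1 * N * n := by nlinarith
      _ ≤ 3000 * b0 * c * N * n := by gcongr
      _ ≤ _ := h3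
  have haep : ae < p := by
    refine lt_of_pow_lt_pow_left₀ 3 (Nat.zero_le _) (Nat.lt_of_mul_lt_mul_left (a := p) ?_)
    have : 0 < b0 * N * p := by positivity
    calc p * ae ^ 3 ≤ p * (1728 * b0 * N) := by gcongr
      _ < 3000 * b0 * 1 * N * (1 * p) := by nlinarith
      _ ≤ 3000 * b0 * c * N * (3000 * b0 * c * p) := by gcongr; omega
      _ ≤ 3000 * b0 * c * N * n := by gcongr
      _ ≤ p ^ 4 := h3
      _ = _ := by ring
  have hw : ae * b0 ≤ n := by
    calc ae * b0 ≤ p * (3000 * b0 * c) := by gcongr; omega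
      _ = 3000 * b0 * c * p := by ring
      _ ≤ _ := h1
  obtain ⟨h, hl, hu⟩ := exists_level (w := ae * b0) (Nat.mul_pos ae0 hb) hw
  have e16 : 2 ^ h * ae * (8 ^ h * b0) = 16 ^ h * (ae * b0) := by
    rw [show (16 : ℕ) = 2 * 8 by norm_num, mul_pow]; ring
  have e8 : (2 ^ h) ^ 3 = 8 ^ h := by rw [← pow_mul, mul_comm, pow_mul]; norm_num
  have h6 : 6 * N ≤ ae ^ 3 := by
    calc 6 * N ≤ 216 * N * 1 := by omega
      _ ≤ 216 * N * b0 := by gcongr
      _ ≤ _ := hae
  have main := descent hb hN n0 hae hae' hp hstep (hend ae haep h6) h _ _ rfl rfl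
    (e16 ▸ hl) L0 subset_rfl
  have hJ : h + 1 ≤ JJ p := by
    have k1 : p < 2 ^ (Nat.log 2 p + 1) := Nat.lt_pow_succ_log_self (by norm_num) p
    have k2 : 16 ^ h < 16 ^ (Nat.log 2 p + 1) := by
      calc 16 ^ h ≤ 16 ^ h * (ae * b0) := Nat.le_mul_of_pos_right _ (by positivity)
        _ ≤ p ^ 2 := hl.trans h2
        _ < (2 ^ (Nat.log 2 p + 1)) ^ 2 := by gcongr
        _ = 4 ^ (Nat.log 2 p + 1) := by rw [← pow_mul, mul_comm, pow_mul]; norm_num
        _ ≤ _ := by gcongr; norm_num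
    have := (Nat.pow_lt_pow_iff_right (by norm_num)).1 k2
    unfold JJ; omega
  have ha1 : 2 ^ h * ae ≤ 7 * a1 := by
    refine (Nat.pow_le_pow_iff_left (n := 4) (by norm_num)).1 (Nat.le_of_mul_le_mul_left ?_ hb)
    calc b0 * (2 ^ h * ae) ^ 4 = b0 * (2 ^ h * ae) * (2 ^ h * ae) ^ 3 := by ring
      _ = 2 ^ h * ae * (8 ^ h * b0) * ae ^ 3 := by rw [mul_pow, e8]; ring
      _ ≤ n * (1728 * b0 * N) := by rw [e16]; gcongr
      _ = b0 * (1728 * (N * n)) := by ring
      _ ≤ b0 * (2401 * a1 ^ 4) := by gcongr; norm_num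
      _ = _ := by ring
  have ha2 : ae ≤ 12 * b0 * a2 := by
    refine (Nat.pow_le_pow_iff_left (n := 3) (by norm_num)).1 ?_
    calc ae ^ 3 ≤ 1728 * b0 * N := hae'
      _ ≤ 1728 * b0 ^ 3 * a2 ^ 3 := by gcongr; exact Nat.le_self_pow (by norm_num) b0
      _ = _ := by ring
  rw [← e16] at hu
  have m0 : 0 < 8 ^ h * b0 := by positivity
  have J1 : 1 ≤ JJ p := by omega
  generalize 2 ^ h * ae = a at *
  generalize 8 ^ h * b0 = m at *
  generalize JJ p = J at *
  have mr : (0 : ℝ) < m := by exact_mod_cast m0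
  have q0 : (0 : ℝ) ≤ a / m := by positivity
  have k1 : (L0.card : ℝ) * (a / m) ≤ 16 * a ^ 2 * n := by
    have : (n : ℝ) ≤ 16 * (a * m) := by exact_mod_cast hu.le
    rw [hL, ← mul_div_assoc, div_le_iff₀ mr]
    push_cast
    calc (n : ℝ) * n * a ≤ n * (16 * (a * m)) * a := by gcongr
      _ = _ := by ring
  have k2 : 5 * (c : ℝ) * J * n * T * (2 * ae - a / m) ≤ 5 * c * J * n * T * (2 * ae) := by
    gcongr; linarith
  have k3 : ((h : ℝ) + 1) * c * J * N ≤ J * c * J * N := by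
    have : (h : ℝ) + 1 ≤ J := by exact_mod_cast hJ
    gcongr
  have k4 : I L0 ≤ 16 * a ^ 2 * n + 40 * b0 * c * (a ^ 2 * n + a * n * T) +
      5 * c * J * n * T * (2 * ae) + J * c * J * N + 4 * N := by
    have : (I L0 : ℝ) ≤ 16 * a ^ 2 * n + 40 * b0 * c * (a ^ 2 * n + a * n * T) +
      5 * c * J * n * T * (2 * ae) + J * c * J * N + 4 * N := by linarith
    exact_mod_cast this
  have u1 : a1 ^ 2 * n ≤ b0 * c * (a1 ^ 2 * n) := Nat.le_mul_of_pos_left _ (by positivity)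
  have u2 : c * (J ^ 2 * N) ≤ b0 * c * (J ^ 2 * N) := by gcongr
  have u3 : N ≤ b0 * c * (J ^ 2 * N) := by
    rw [← mul_assoc]; exact Nat.le_mul_of_pos_left _ (by positivity)
  calc I L0 ≤ _ := k4
    _ ≤ 16 * (7 * a1) ^ 2 * n + 40 * b0 * c * ((7 * a1) ^ 2 * n + 7 * a1 * n * T) +
      5 * c * J * n * T * (2 * (12 * b0 * a2)) + J * c * J * N + 4 * N := by gcongr
    _ = 784 * (a1 ^ 2 * n) + 1960 * (b0 * c * (a1 ^ 2 * n)) + 280 * (b0 * c * (a1 * n * T)) +
      120 * (b0 * c * (J * a2 * n * T)) + c * (J ^ 2 * N) + 4 * N := by ring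
    _ ≤ 3000 * (b0 * c * (a1 ^ 2 * n)) + 3000 * (b0 * c * (a1 * n * T)) +
      3000 * (b0 * c * (J * a2 * n * T)) + 3000 * (b0 * c * (J ^ 2 * N)) := by omega
    _ = _ := by ring

variable {K : Type} [Field K]

theorem inc_mono {α β : Type} {r s : α → β → Prop} (h : ∀ g l, r g l → s g l) (P : Finset α)
    (L : Finset β) : inc r P L ≤ inc s P L := by
  classical
  refine sum_le_sum fun g _ => ?_
  unfold rr
  exact card_le_card fun l hl => by
    simp only [mem_filter] at hl ⊢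
    exact ⟨hl.1, h g l hl.2⟩

theorem inc_swap {α β : Type} (r : α → β → Prop) (P : Finset α) (L : Finset β) :
    inc r P L = ∑ l ∈ L, rr (fun l g => r g l) P l := by
  classical
  unfold inc rr
  simp only [card_filter]
  rw [sum_comm]

/-- An invertible matrix meets at most one pair with a given first point. -/
theorem rr_le_card {g : Fin 4 → K} (hg : g 0 * g 3 - g 1 * g 2 ≠ 0) (E : Finset (K × K))
    {cnt : (Fin 4 → K) → Ln K → Prop} (hc : ∀ g l, cnt g l → Inc g l) :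
    rr cnt (E ×ˢ E) g ≤ E.card := by
  classical
  have key : ∀ x y y' : K, g 0 * x + g 1 = y * (g 2 * x + g 3) →
      g 0 * x + g 1 = y' * (g 2 * x + g 3) → y = y' := by
    intro x y y' h h'
    by_contra hne
    have h0 : g 2 * x + g 3 = 0 := by
      have : (y - y') * (g 2 * x + g 3) = 0 := by linear_combination h' - h
      exact (mul_eq_zero.1 this).resolve_left (sub_ne_zero.2 hne)
    rw [h0, mul_zero] at h
    exact hg (by linear_combination g 0 * h0 - g 2 * h)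
  unfold rr
  refine card_le_card_of_injOn Prod.fst (fun l hl => ?_) fun l hl l' hl' e => ?_
  · simp only [coe_filter, mem_product, Set.mem_ofPred_eq] at hl
    exact hl.1.1
  · simp only [coe_filter, mem_product, Set.mem_ofPred_eq] at hl hl'
    obtain ⟨u1, u2⟩ := hc g l hl.2
    obtain ⟨v1, v2⟩ := hc g l' hl'.2
    rw [← e] at v1 v2
    exact Prod.ext e (Prod.ext (key _ _ _ u1 v1) (key _ _ _ u2 v2))

/-- The split of the incidences by a hypersurface. -/
theorem split {α β : Type} {cnt r : α → β → Prop} (hc : ∀ g l, cnt g l → r g l) {P : Finset α}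
    {L Y : Finset β} {on : β → Prop} {a m z : ℕ}
    (h1 : ∀ l ∈ L, ¬on l → m * rr (fun l g => r g l) P l ≤ a)
    (h2 : ∀ g ∈ P, ∀ Z : Finset β, (∀ l ∈ Z, l ∈ L ∧ l ∉ Y ∧ cnt g l ∧ on l) → Z.card ≤ z) :
    m * inc cnt P L ≤ a * L.card + m * (z * P.card + inc cnt P Y) := by
  classical
  have k1 : ∀ g ∈ P, rr cnt L g ≤ rr r (L.filter fun l => ¬on l) g + (z + rr cnt Y g) := by
    intro g hg
    have := h2 g hg (L.filter fun l => l ∉ Y ∧ cnt g l ∧ on l) fun l hl => by simpa using hl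
    unfold rr
    refine le_trans ?_ (Nat.add_le_add_left (Nat.add_le_add_right this _) _)
    refine le_trans (card_le_card fun l hl => ?_)
      ((card_union_le _ _).trans (Nat.add_le_add_left (card_union_le _ _) _))
    simp only [mem_filter, mem_union] at hl ⊢
    have := hc g l hl.2
    tauto
  have k2 : inc cnt P L ≤ inc r P (L.filter fun l => ¬on l) + (z * P.card + inc cnt P Y) := by
    refine (sum_le_sum k1).trans (le_of_eq ?_)
    unfold inc
    rw [sum_add_distrib, sum_add_distrib, sum_const, smul_eq_mul, mul_comm]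
  have k3 : m * inc r P (L.filter fun l => ¬on l) ≤ a * L.card := by
    rw [inc_swap, mul_sum]
    calc _ ≤ (L.filter fun l => ¬on l).card • a :=
          sum_le_card_nsmul _ _ _ fun l hl => h1 l (mem_filter.1 hl).1 (mem_filter.1 hl).2
      _ ≤ L.card * a := Nat.mul_le_mul_right _ (card_filter_le _ _)
      _ = _ := mul_comm _ _
  calc m * inc cnt P L ≤ m * (inc r P (L.filter fun l => ¬on l) + (z * P.card + inc cnt P Y)) := by
        gcongr
    _ ≤ _ := by rw [mul_add]; gcongr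

end M14

open M14 in
theorem mainSt (hB : LemBSt) (hO : OrdSt) (hE : EndSt) : MainSt := by
  intro c1 c2
  obtain ⟨b0, CB, hb, hB⟩ := hB c1
  obtain ⟨c, hc⟩ : ∃ c, c = CB + CB * c2 + 1 + 2 * c1 := ⟨_, rfl⟩
  refine ⟨3000 * b0 * c, ?_⟩
  intro K _ _ p _ E V1 V2 D T ρ a1 a2 P cnt p1 hD hX hcnt hP hA hR hρ h1 h2 h3 h4 h5
  have c0 : 1 ≤ c := by omega
  have C0 : 3000 ≤ 3000 * b0 * c := by
    calc 3000 = 3000 * 1 * 1 := rfl
      _ ≤ _ := by gcongr
  rcases Nat.lt_or_ge P.card E.card with hN | hN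
  · have k1 : inc cnt P (E ×ˢ E) ≤ P.card * E.card :=
      sum_le_card_nsmul _ _ _ fun g hg => rr_le_card (hP.1 g hg) E hcnt
    have k2 : P.card ≤ a1 ^ 2 := by
      refine (Nat.pow_le_pow_iff_left (n := 2) (by norm_num)).1 ?_
      calc P.card ^ 2 = P.card * P.card := by ring
        _ ≤ P.card * E.card := by gcongr
        _ ≤ a1 ^ 4 := h4
        _ = _ := by ring
    calc _ ≤ P.card * E.card := k1
      _ ≤ a1 ^ 2 * E.card := by gcongr
      _ ≤ a1 ^ 2 * E.card + a1 * E.card * T + JJ p * a2 * E.card * T + JJ p ^ 2 * P.card := by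
        omega
      _ ≤ _ := Nat.le_mul_of_pos_left _ (by omega)
  have p3 : 2 < p := by
    have : 3000 * p ≤ p * p := by
      calc 3000 * p ≤ 3000 * b0 * c * p := by gcongr
        _ ≤ p ^ 2 := h1.trans h2
        _ = _ := by ring
    have := Nat.le_of_mul_le_mul_right this p1
    omega
  refine numeric (I := inc cnt P) hb c0 hN (card_product _ _) p1 h1 h2 h3 h4 h5 ?_ ?_
  · intro a m hm hap ha
    obtain ⟨F, a0, F0, hF, hF', hO⟩ := hO K p P a m hP (hb.trans hm) ha hap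
    obtain ⟨Y, hY, hYc, hZ⟩ := hB K p c2 E V1 V2 D T P cnt hD hX F a0 a m F0 hF hF' hap hm
    refine ⟨Y, hY, hYc.trans (Nat.mul_le_mul_right _ (by omega)), fun L hL => ?_⟩
    refine (split (on := fun l => F ∈ Ll l) (Y := Y) (a := a) hcnt (fun l hl hn => ?_)
      fun g hg Z h => hZ g hg Z fun l hl => ⟨hL (h l hl).1, (h l hl).2⟩).trans ?_
    · have := mem_product.1 (hL hl)
      exact hO l ⟨hD.off _ this.1, hD.off _ this.2⟩ hn
    · gcongr; omega
  · intro a hap ha Y hY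
    have N0 : 0 < P.card := by
      have : 0 < 3000 * b0 * c * p := Nat.mul_pos (by omega) p1
      omega
    have a0 : 0 < a := by
      rcases Nat.eq_zero_or_pos a with rfl | h
      · simp at ha; simp [ha] at N0
      · exact h
    obtain ⟨B, hB'⟩ : ∃ B, B = E.card + 2 * ρ ^ 2 := ⟨_, rfl⟩
    have k1 := hE K p E ρ a (B / a + 1) P Y p3 hap (Nat.le_add_left _ _) hD.off hA hR hP hY ha
    rw [← hB'] at k1
    have k2 : B ≤ a * (B / a + 1) := (Nat.lt_mul_div_succ B a0).le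
    have k3 : inc Inc P Y ≤ 5 * a * Y.card + (3 + (B / a + 1)) * P.card := by
      refine Nat.le_of_mul_le_mul_left (k1.trans ?_) (Nat.succ_pos _)
      calc _ ≤ (4 * a * (B / a + 1) + a * (B / a + 1)) * Y.card +
            (B / a + 1) * (3 + (B / a + 1)) * P.card := by gcongr
        _ = _ := by ring
    have k4 : B / a * P.card ≤ c * a ^ 2 * E.card := by
      calc B / a * P.card ≤ B / a * a ^ 3 := by gcongr; omega
        _ = B / a * a * a ^ 2 := by ring
        _ ≤ B * a ^ 2 := by gcongr; exact Nat.div_mul_le_self B a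
        _ ≤ ((1 + 2 * c1) * E.card) * a ^ 2 := by gcongr; rw [hB']; nlinarith
        _ ≤ (c * E.card) * a ^ 2 := by gcongr; omega
        _ = _ := by ring
    calc inc cnt P Y ≤ inc Inc P Y := inc_mono hcnt P Y
      _ ≤ 5 * a * Y.card + (3 + (B / a + 1)) * P.card := k3
      _ = 5 * a * Y.card + 4 * P.card + B / a * P.card := by ring
      _ ≤ _ := by gcongr

end Pool.Agent.Lib.MP_a460e0_co.GK
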