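import Pool.Agent.Lib.MP_a460e0_co.GK.St

/-! T12: a polynomial of high order at the points along every line. -/

namespace Pool.Agent.Lib.MP_a460e0_co.GK

open MvPolynomial

namespace OrdAux

noncomputable section

variable {K : Type} [Field K]

/-- Degrees in the last two variables are bounded by a shift of the degree in the first. -/
def Gd (q : MvPolynomial (Fin 3) K) (m n : ℕ) : Prop :=
  ∀ u ∈ q.support, u 1 ≤ m + u 0 ∧ u 2 ≤ n + u 0

theorem Gd.mono {q : MvPolynomial (Fin 3) K} {m n m' n' : ℕ} (h : Gd q m n) (h1 : m ≤ m')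
    (h2 : n ≤ n') : Gd q m' n' := fun u hu => by
  have := h u hu
  omega

theorem Gd.add {q r : MvPolynomial (Fin 3) K} {m n : ℕ} (h : Gd q m n) (h' : Gd r m n) :
    Gd (q + r) m n := fun u hu => by
  classical
  rcases Finset.mem_union.1 (support_add hu) with h1 | h1
  · exact h u h1
  · exact h' u h1

theorem Gd.neg {q : MvPolynomial (Fin 3) K} {m n : ℕ} (h : Gd q m n) : Gd (-q) m n :=
  fun u hu => h u (by simpa using hu)

theorem Gd.mul {q r : MvPolynomial (Fin 3) K} {m n m' n' : ℕ} (h : Gd q m n) (h' : Gd r m' n') :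
    Gd (q * r) (m + m') (n + n') := fun u hu => by
  classical
  obtain ⟨v, hv, w, hw, rfl⟩ := Finset.mem_add.1 (support_mul q r hu)
  have h1 := h v hv
  have h2 := h' w hw
  simp only [Finsupp.add_apply]
  omega

theorem gd_C (c : K) : Gd (C c) 0 0 := fun u hu => by
  have h : u ∈ ({0} : Finset (Fin 3 →₀ ℕ)) := support_monomial_subset hu
  rw [Finset.mem_singleton.1 h]
  simp

theorem Gd.pow {q : MvPolynomial (Fin 3) K} {m n : ℕ} (h : Gd q m n) (k : ℕ) :
    Gd (q ^ k) (k * m) (k * n) := by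
  induction k with
  | zero => simpa using gd_C (1 : K)
  | succ k ih => simpa [pow_succ, add_mul] using ih.mul h

theorem gd_X1 : Gd (X 1 : MvPolynomial (Fin 3) K) 1 0 := fun u hu => by
  have h : u ∈ ({Finsupp.single 1 1} : Finset (Fin 3 →₀ ℕ)) := support_monomial_subset hu
  rw [Finset.mem_singleton.1 h]
  simp

theorem gd_X2 : Gd (X 2 : MvPolynomial (Fin 3) K) 0 1 := fun u hu => by
  have h : u ∈ ({Finsupp.single 2 1} : Finset (Fin 3 →₀ ℕ)) := support_monomial_subset hu
  rw [Finset.mem_singleton.1 h]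
  simp

theorem Gd.X0 {q : MvPolynomial (Fin 3) K} (h : Gd q 1 1) : Gd (X 0 * q) 0 0 := fun u hu => by
  classical
  obtain ⟨v, hv, w, hw, rfl⟩ := Finset.mem_add.1 (support_mul _ q hu)
  have h0 : v ∈ ({Finsupp.single 0 1} : Finset (Fin 3 →₀ ℕ)) := support_monomial_subset hv
  have h2 := h w hw
  rw [Finset.mem_singleton.1 h0]
  simp only [Finsupp.add_apply]
  simp
  omega

theorem gd_lin (c d : K) : Gd (C c * X 1 + C d : MvPolynomial (Fin 3) K) 1 0 :=
  (((gd_C c).mul gd_X1).mono (by omega) (by omega)).add ((gd_C d).mono (by omega) (by omega))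

/-- The substitution along the line through `g` in the direction of the last two variables. -/
def tau (g : Fin 4 → K) : R K →ₐ[K] MvPolynomial (Fin 3) K :=
  aeval ![C (g 0) + X 0 * (C (g 0) * X 1 + C (g 1)),
    C (g 1) + -(X 0 * (X 2 * (C (g 0) * X 1 + C (g 1)))),
    C (g 2) + X 0 * (C (g 2) * X 1 + C (g 3)),
    C (g 3) + -(X 0 * (X 2 * (C (g 2) * X 1 + C (g 3)))), X 1, X 2]

theorem aeval_mon {A : Type} [CommRing A] [Algebra K A] (v : Fin 6 → A) (u : Fin 6 →₀ ℕ) (c : K) :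
    aeval v (monomial u c) = algebraMap K A c *
      (v 0 ^ u 0 * v 1 ^ u 1 * v 2 ^ u 2 * v 3 ^ u 3 * v 4 ^ u 4 * v 5 ^ u 5) := by
  rw [aeval_monomial, Finsupp.prod_fintype _ _ (by simp), Fin.prod_univ_six]

theorem gd_tau (g : Fin 4 → K) (u : Fin 6 →₀ ℕ) (c : K) :
    Gd (tau g (monomial u c)) (u 4) (u 5) := by
  have h0 : ∀ c d e : K, Gd (C e + X 0 * (C c * X 1 + C d) : MvPolynomial (Fin 3) K) 0 0 :=
    fun c d e => (gd_C e).add ((gd_lin c d).mono (by omega) (by omega)).X0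
  have h1 : ∀ c d e : K,
      Gd (C e + -(X 0 * (X 2 * (C c * X 1 + C d))) : MvPolynomial (Fin 3) K) 0 0 :=
    fun c d e => (gd_C e).add ((gd_X2.mul (gd_lin c d)).mono (by omega) (by omega)).X0.neg
  rw [tau, aeval_mon]
  have := (gd_C c).mul (((((((h0 (g 0) (g 1) (g 0)).pow (u 0)).mul
    ((h1 (g 0) (g 1) (g 1)).pow (u 1))).mul ((h0 (g 2) (g 3) (g 2)).pow (u 2))).mul
    ((h1 (g 2) (g 3) (g 3)).pow (u 3))).mul (gd_X1.pow (u 4))).mul (gd_X2.pow (u 5)))
  simpa using this

theorem sum_G4 (u : Fin 6 →₀ ℕ) : ∑ i ∈ G4, u i = u 0 + u 1 + u 2 + u 3 := by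
  simp [G4, add_assoc]

theorem sum_G4c (u : Fin 6 →₀ ℕ) : ∑ i ∈ G4ᶜ, u i = u 4 + u 5 := by
  have h : (G4ᶜ : Finset (Fin 6)) = {4, 5} := by decide
  rw [h]
  simp

/-- Scaling the first block. -/
theorem aeval_scale {A : Type} [CommRing A] [Algebra K A] (v v' : Fin 6 → A) (c : A) {F : R K}
    {a : ℕ} (hF : IsHom G4 F a) (h0 : v 0 = c * v' 0) (h1 : v 1 = c * v' 1) (h2 : v 2 = c * v' 2)
    (h3 : v 3 = c * v' 3) (h4 : v 4 = v' 4) (h5 : v 5 = v' 5) :
    aeval v F = c ^ a * aeval v' F := by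
  rw [F.as_sum, map_sum, map_sum, Finset.mul_sum]
  refine Finset.sum_congr rfl fun u hu => ?_
  have h := hF u hu
  rw [sum_G4] at h
  rw [aeval_mon, aeval_mon, h0, h1, h2, h3, h4, h5, ← h]
  ring

/-- Existence of the polynomial. -/
theorem exists_F (P : Finset (Fin 4 → K)) (a μ : ℕ)
    (hN : 216 * P.card * μ ≤ a ^ 3) :
    ∃ F : R K, F ≠ 0 ∧ IsHom G4 F a ∧ F ∈ Fil K G4 a μ ∧
      ∀ g ∈ P, ∀ u ∈ (tau g F).support, μ ≤ u 0 := by
  classical
  set m := μ / 2 with hm
  let ι := ↥(G4.finsuppAntidiag a) × Fin (m + 1) × Fin (m + 1)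
  let e : ι → (Fin 6 →₀ ℕ) := fun i => i.1.1 + Finsupp.single 4 i.2.1.1 + Finsupp.single 5 i.2.2.1
  have hz : ∀ (i : ι) (k : Fin 6), k ∉ G4 → i.1.1 k = 0 := fun i k hk => by
    by_contra h
    exact hk ((Finset.mem_finsuppAntidiag.1 i.1.2).2 (Finsupp.mem_support_iff.2 h))
  have e4 : ∀ i : ι, e i 4 = i.2.1.1 := fun i => by simp [e, hz i 4 (by decide)]
  have e5 : ∀ i : ι, e i 5 = i.2.2.1 := fun i => by simp [e, hz i 5 (by decide)]
  have eG : ∀ i : ι, ∑ k ∈ G4, e i k = a := fun i => by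
    have h := (Finset.mem_finsuppAntidiag.1 i.1.2).1
    rw [sum_G4] at h ⊢
    simpa [e] using h
  have einj : Function.Injective e := fun i j h => by
    have h4 : i.2.1 = j.2.1 := Fin.ext (by rw [← e4, ← e4, h])
    have h5 : i.2.2 = j.2.2 := Fin.ext (by rw [← e5, ← e5, h])
    have h1 : i.1.1 = j.1.1 := by
      simp only [e] at h
      rw [h4, h5] at h
      exact add_right_cancel (add_right_cancel h)
    exact Prod.ext (Subtype.ext h1) (Prod.ext h4 h5)
  let Fl : (ι → K) →ₗ[K] R K := ∑ i, (monomial (e i)).comp (LinearMap.proj i)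
  have hFl : ∀ c, Fl c = ∑ i, monomial (e i) (c i) := fun c => by simp [Fl]
  let κ := ↥P × Fin μ × Fin (m + μ) × Fin (m + μ)
  let ex : κ → (Fin 3 →₀ ℕ) := fun k =>
    Finsupp.single 0 k.2.1.1 + Finsupp.single 1 k.2.2.1.1 + Finsupp.single 2 k.2.2.2.1
  let T : (ι → K) →ₗ[K] κ → K :=
    LinearMap.pi fun k => (lcoeff K (ex k)).comp ((tau k.1.1).toLinearMap.comp Fl)
  have hcard : Module.finrank K (κ → K) < Module.finrank K (ι → K) := by
    rw [Module.finrank_pi, Module.finrank_pi]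
    have hG : G4.card = 4 := by decide
    have h1 : Fintype.card ι = (a + 3).choose a * ((m + 1) * (m + 1)) := by
      simp [ι, Finset.card_finsuppAntidiag_nat_eq_choose, hG, show 4 + a - 1 = a + 3 by omega]
    have h2 : Fintype.card κ = P.card * (μ * ((m + μ) * (m + μ))) := by simp [κ]
    have h3 : 6 * (a + 3).choose a = (a + 3) * (a + 2) * (a + 1) := by
      have h4 : (a + 3).choose a = (a + 3).choose 3 := Nat.choose_symm_add
      have h5 := Nat.descFactorial_eq_factorial_mul_choose (a + 3) 3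
      rw [h4]
      simp only [Nat.descFactorial, Nat.factorial] at h5
      have h6 : a + 3 - 2 = a + 1 := by omega
      have h7 : a + 3 - 1 = a + 2 := by omega
      rw [h6, h7] at h5
      simp only [Nat.sub_zero] at h5
      nlinarith
    have h4 : 36 * (P.card * μ) < (a + 3).choose a := by nlinarith [Nat.zero_le a]
    have h5 : (m + μ) * (m + μ) ≤ 9 * ((m + 1) * (m + 1)) := by
      have : m + μ ≤ 3 * (m + 1) := by omega
      nlinarith
    rw [h1, h2]
    calc P.card * (μ * ((m + μ) * (m + μ))) = P.card * μ * ((m + μ) * (m + μ)) := by ring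
      _ ≤ P.card * μ * (9 * ((m + 1) * (m + 1))) := Nat.mul_le_mul_left _ h5
      _ ≤ 36 * (P.card * μ) * ((m + 1) * (m + 1)) := by nlinarith [Nat.zero_le (P.card * μ * ((m + 1) * (m + 1)))]
      _ < _ := Nat.mul_lt_mul_of_pos_right h4 (by positivity)
  obtain ⟨c, hc, hc0⟩ := (Submodule.ne_bot_iff _).1 (LinearMap.ker_ne_bot_of_finrank_lt hcard (f := T))
  have hsup : ∀ u ∈ (Fl c).support, ∃ i, u = e i := fun u hu => by
    rw [hFl] at hu
    obtain ⟨i, -, hi⟩ := Finset.mem_biUnion.1 (support_sum hu)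
    exact ⟨i, Finset.mem_singleton.1 (support_monomial_subset hi)⟩
  refine ⟨Fl c, fun h => hc0 ?_, fun u hu => ?_, fun u hu => ?_, fun g hg u hu => ?_⟩
  · funext i
    have h1 := congrArg (coeff (e i)) h
    rw [hFl, coeff_sum, Finset.sum_eq_single i] at h1
    · simpa using h1
    · intro j _ hj
      rw [coeff_monomial, if_neg fun h2 => hj (einj h2)]
    · simp
  · obtain ⟨i, rfl⟩ := hsup u hu
    exact eG i
  · obtain ⟨i, rfl⟩ := hsup u hu
    refine ⟨(eG i).le, ?_⟩
    rw [sum_G4c, e4, e5]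
    have h1 := i.2.1.2
    have h2 := i.2.2.2
    omega
  · by_contra hlt
    have hgd : u 1 ≤ m + u 0 ∧ u 2 ≤ m + u 0 := by
      rw [hFl, map_sum] at hu
      obtain ⟨i, -, hi⟩ := Finset.mem_biUnion.1 (support_sum hu)
      have h1 := gd_tau g (e i) (c i) u hi
      rw [e4, e5] at h1
      have h2 := i.2.1.2
      have h3 := i.2.2.2
      omega
    let k : κ := (⟨g, hg⟩, ⟨u 0, by omega⟩, ⟨u 1, by omega⟩, ⟨u 2, by omega⟩)
    have h1 : ex k = u := by
      ext j
      fin_cases j <;> simp [ex, k]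
    have h2 : T c k = 0 := by rw [LinearMap.mem_ker.1 hc]; rfl
    have h3 : T c k = coeff (ex k) (tau g (Fl c)) := rfl
    rw [h3, h1] at h2
    exact mem_support_iff.1 hu h2

/-- The restriction to a line, in the affine coordinate. -/
def psi (l : Ln K) : R K →ₐ[K] Polynomial K :=
  aeval ![Polynomial.X * Polynomial.C l.2.1 + Polynomial.C l.2.2,
    -(Polynomial.X * Polynomial.C (l.2.1 * l.1.2)) - Polynomial.C (l.2.2 * l.1.1),
    Polynomial.X + 1, -(Polynomial.X * Polynomial.C l.1.2) - Polynomial.C l.1.1,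
    Polynomial.C l.1.1, Polynomial.C l.1.2]

/-- The restriction to a line, homogeneous form. -/
def phi (l : Ln K) : R K →ₐ[K] MvPolynomial (Fin 2) K :=
  aeval ![X 0 * C l.2.1 + X 1 * C l.2.2, -(X 0 * C (l.2.1 * l.1.2)) - X 1 * C (l.2.2 * l.1.1),
    X 0 + X 1, -(X 0 * C l.1.2) - X 1 * C l.1.1, C l.1.1, C l.1.2]

theorem map_Phi (l : Ln K) (F : R K) : map (eval (pt l)) (Phi K F) = phi l F := by
  have h : (map (eval (pt l))).comp (Phi K).toRingHom = (phi l).toRingHom := by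
    refine ringHom_ext (fun c => ?_) fun i => ?_
    · simp [Phi, phi]
    · fin_cases i <;> simp [Phi, phi, pt]
  exact RingHom.congr_fun h F

theorem aeval_phi (l : Ln K) (F : R K) : aeval ![Polynomial.X, 1] (phi l F) = psi l F := by
  have h : (aeval ![Polynomial.X, 1]).comp (phi l) = psi l := by
    refine algHom_ext fun i => ?_
    fin_cases i <;> simp [phi, psi]
  exact AlgHom.congr_fun h F

theorem phi_hom (l : Ln K) {F : R K} {a : ℕ} (hF : IsHom G4 F a) : (phi l F).IsHomogeneous a := by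
  rw [F.as_sum, map_sum]
  refine IsHomogeneous.sum _ _ _ fun u hu => ?_
  have h := hF u hu
  rw [sum_G4] at h
  have hx : ∀ (i : Fin 2) (c : K), (X i * C c : MvPolynomial (Fin 2) K).IsHomogeneous 1 :=
    fun i c => (isHomogeneous_X K i).mul (isHomogeneous_C _ c)
  have h0 := (hx 0 l.2.1).add (hx 1 l.2.2)
  have h1 := (hx 0 (l.2.1 * l.1.2)).neg.sub (hx 1 (l.2.2 * l.1.1))
  have h2 := (isHomogeneous_X K (0 : Fin 2)).add (isHomogeneous_X K (1 : Fin 2))
  have h3 := (hx 0 l.1.2).neg.sub (hx 1 l.1.1)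
  have h4 := isHomogeneous_C (Fin 2) l.1.1
  have h5 := isHomogeneous_C (Fin 2) l.1.2
  have := (isHomogeneous_C (Fin 2) (coeff u F)).mul ((((((h0.pow (u 0)).mul (h1.pow (u 1))).mul
    (h2.pow (u 2))).mul (h3.pow (u 3))).mul (h4.pow (u 4))).mul (h5.pow (u 5)))
  rw [phi, aeval_mon]
  simpa [h] using this

theorem psi_ne_zero (l : Ln K) {F : R K} {a : ℕ} (hF : IsHom G4 F a) (h : F ∉ Ll l) :
    psi l F ≠ 0 := fun h0 => h <| by
  have h1 := Polynomial.homogenize_eq_of_isHomogeneous (phi_hom l hF) (aeval_phi l F)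
  rw [h0, Polynomial.homogenize_zero, ← map_Phi] at h1
  refine Ideal.mem_comap.2 (mem_map_C_iff.2 fun m => ?_)
  have h2 := congrArg (coeff m) h1
  rw [coeff_map, coeff_zero] at h2
  exact RingHom.mem_ker.2 h2.symm

theorem natDegree_psi (l : Ln K) {F : R K} {a : ℕ} (hF : IsHom G4 F a) :
    (psi l F).natDegree ≤ a := by
  have hh := phi_hom l hF
  rw [← aeval_phi, (phi l F).as_sum, map_sum]
  refine Polynomial.natDegree_sum_le_of_forall_le _ _ fun u hu => ?_
  have h1 : u 0 + u 1 = a := by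
    have := hh (mem_support_iff.1 hu)
    rw [← this, Finsupp.weight_apply, Finsupp.sum_fintype _ _ (by simp)]
    simp
  rw [aeval_monomial, Finsupp.prod_fintype _ _ (by simp), Fin.prod_univ_two]
  simp only [Polynomial.algebraMap_eq, Matrix.cons_val_zero, Matrix.cons_val_one, one_pow, mul_one]
  exact (Polynomial.natDegree_C_mul_X_pow_le _ _).trans (by omega)

/-- A high order at an incident point gives a multiple root on the line. -/
theorem dvd_psi (l : Ln K) (hl : Off l) {F : R K} {a μ : ℕ} (hF : IsHom G4 F a) (g : Fin 4 → K)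
    (s t : K) (hs : s ≠ 0) (ht : t ≠ 0) (h0 : g 0 = s * l.2.1 + t * l.2.2)
    (h1 : g 1 = -(s * (l.2.1 * l.1.2)) - t * (l.2.2 * l.1.1)) (h2 : g 2 = s + t)
    (h3 : g 3 = -(s * l.1.2) - t * l.1.1) (hg : ∀ u ∈ (tau g F).support, μ ≤ u 0) :
    (Polynomial.X - Polynomial.C (s / t)) ^ μ ∣ psi l F := by
  have hw : l.1.1 - l.1.2 ≠ 0 := sub_ne_zero.2 hl.1
  let ρ : MvPolynomial (Fin 3) K →ₐ[K] Polynomial K :=
    aeval ![Polynomial.X, Polynomial.C l.1.1, Polynomial.C l.1.2]
  have hd : Polynomial.X ^ μ ∣ ρ (tau g F) := by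
    rw [(tau g F).as_sum, map_sum]
    refine Finset.dvd_sum fun u hu => ?_
    rw [aeval_monomial, Finsupp.prod_fintype _ _ (by simp), Fin.prod_univ_three]
    refine Dvd.dvd.mul_left (Dvd.dvd.mul_right (Dvd.dvd.mul_right ?_ _) _) _
    exact pow_dvd_pow _ (hg u hu)
  let θ : Polynomial K →ₐ[K] Polynomial K :=
    Polynomial.aeval (Polynomial.C (s / t) + Polynomial.C (s * (l.1.1 - l.1.2) / t) * Polynomial.X)
  let θ' : Polynomial K →ₐ[K] Polynomial K :=
    Polynomial.aeval (Polynomial.C (t / (s * (l.1.1 - l.1.2))) *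
      (Polynomial.X - Polynomial.C (s / t)))
  have hθ : ∀ f, θ' (θ f) = f := fun f => by
    have h : θ'.comp θ = AlgHom.id K _ := by
      refine Polynomial.algHom_ext ?_
      have h4 : s * (l.1.1 - l.1.2) / t * (t / (s * (l.1.1 - l.1.2))) = 1 := by field_simp
      simp only [θ, θ', AlgHom.comp_apply, Polynomial.aeval_X, map_add, map_mul,
        Polynomial.aeval_C, Polynomial.algebraMap_eq, AlgHom.id_apply]
      rw [← mul_assoc, ← Polynomial.C_mul, h4]
      simp
    exact AlgHom.congr_fun h f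
  have e1 : Polynomial.C t * Polynomial.C (s / t) = Polynomial.C s := by
    rw [← Polynomial.C_mul, mul_div_cancel₀ _ ht]
  have e2 : Polynomial.C t * Polynomial.C (s * (l.1.1 - l.1.2) / t) =
      Polynomial.C s * (Polynomial.C l.1.1 - Polynomial.C l.1.2) := by
    rw [← Polynomial.C_mul, mul_div_cancel₀ _ ht]
    simp
  have key : ρ (tau g F) = Polynomial.C t ^ a * θ (psi l F) := by
    have a1 : ρ (tau g F) = aeval (fun i => ρ (tau g (X i))) F :=
      AlgHom.congr_fun (aeval_unique (ρ.comp (tau g))) F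
    have a2 : θ (psi l F) = aeval (fun i => θ (psi l (X i))) F :=
      AlgHom.congr_fun (aeval_unique (θ.comp (psi l))) F
    rw [a1, a2]
    refine aeval_scale _ _ _ hF ?_ ?_ ?_ ?_ ?_ ?_
    · simp [ρ, θ, tau, psi, h0, h1]
      linear_combination (-Polynomial.C l.2.1) * e1 - Polynomial.C l.2.1 * Polynomial.X * e2
    · simp [ρ, θ, tau, psi, h0, h1]
      linear_combination (Polynomial.C l.2.1 * Polynomial.C l.1.2) * e1 +
        Polynomial.C l.2.1 * Polynomial.C l.1.2 * Polynomial.X * e2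
    · simp [ρ, θ, tau, psi, h2, h3]
      linear_combination (-1) * e1 - Polynomial.X * e2
    · simp [ρ, θ, tau, psi, h2, h3]
      linear_combination (Polynomial.C l.1.2) * e1 + Polynomial.C l.1.2 * Polynomial.X * e2
    · simp [ρ, θ, tau, psi]
    · simp [ρ, θ, tau, psi]
  rw [key] at hd
  have hu : IsUnit (Polynomial.C t ^ a) := (Polynomial.isUnit_C.2 (Ne.isUnit ht)).pow a
  have hd2 := map_dvd θ' (hu.dvd_mul_left.1 hd)
  rw [hθ, map_pow] at hd2
  refine Dvd.dvd.trans (pow_dvd_pow_of_dvd ?_ μ) hd2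
  simp only [θ', Polynomial.aeval_X]
  exact Dvd.intro_left _ rfl

theorem card_roots_mul {f : Polynomial K} (hf : f ≠ 0) (Z : Finset K) (μ : ℕ)
    (h : ∀ z ∈ Z, (Polynomial.X - Polynomial.C z) ^ μ ∣ f) : μ * Z.card ≤ f.natDegree := by
  have h1 : ∏ z ∈ Z, (Polynomial.X - Polynomial.C z) ^ μ ∣ f :=
    Finset.prod_dvd_of_coprime (fun x _ y _ hxy =>
      (Polynomial.isCoprime_X_sub_C_of_isUnit_sub (Ne.isUnit (sub_ne_zero.2 hxy))).pow) h
  have h2 := Polynomial.natDegree_le_of_dvd h1 hf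
  rw [Polynomial.natDegree_prod_of_monic _ _ fun z _ => (Polynomial.monic_X_sub_C z).pow μ] at h2
  simpa [Polynomial.natDegree_pow, mul_comm] using h2

end

end OrdAux

open OrdAux in
theorem ordSt : OrdSt := by
  intro K _ p _ P a μ hP _ hN _
  classical
  obtain ⟨F, hF0, hF, hFil, hord⟩ := exists_F P a μ hN
  refine ⟨F, a, hF0, hF, hFil, fun l hl hFl => ?_⟩
  have hw : l.1.1 - l.1.2 ≠ 0 := sub_ne_zero.2 hl.1
  let s : (Fin 4 → K) → K := fun g => (g 2 * l.1.1 + g 3) / (l.1.1 - l.1.2)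
  let t : (Fin 4 → K) → K := fun g => -(g 2 * l.1.2 + g 3) / (l.1.1 - l.1.2)
  have hco : ∀ g, Inc g l → g 0 = s g * l.2.1 + t g * l.2.2 ∧
      g 1 = -(s g * (l.2.1 * l.1.2)) - t g * (l.2.2 * l.1.1) ∧ g 2 = s g + t g ∧
      g 3 = -(s g * l.1.2) - t g * l.1.1 := fun g hg => by
    refine ⟨?_, ?_, ?_, ?_⟩ <;> simp only [s, t] <;> field_simp
    · linear_combination hg.1 - hg.2
    · linear_combination l.1.1 * hg.2 - l.1.2 * hg.1
    · ring
    · ring
  have hne : ∀ g ∈ P, Inc g l → s g ≠ 0 ∧ t g ≠ 0 := fun g hg hi => by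
    obtain ⟨h0, h1, h2, h3⟩ := hco g hi
    have hd := hP.1 g hg
    constructor <;> intro h <;> apply hd <;> rw [h0, h1, h2, h3, h] <;> ring
  let Z := P.filter fun g => Inc g l
  have hinj : Set.InjOn (fun g => s g / t g) Z := fun g hg h hh hgh => by
    obtain ⟨hgP, hgi⟩ := Finset.mem_filter.1 hg
    obtain ⟨hhP, hhi⟩ := Finset.mem_filter.1 hh
    obtain ⟨g0, g1, g2, g3⟩ := hco g hgi
    obtain ⟨k0, k1, k2, k3⟩ := hco h hhi
    have tg := (hne g hgP hgi).2
    have th := (hne h hhP hhi).2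
    have e1 : s h = t h / t g * s g := by
      have := (div_eq_div_iff tg th).1 hgh
      field_simp
      linear_combination -this
    have e2 : t h = t h / t g * t g := by field_simp
    refine (hP.2 g hgP h hhP (t h / t g) ?_).symm
    funext i
    fin_cases i <;> simp only [Pi.smul_apply, smul_eq_mul]
    · change h 0 = _ * g 0
      linear_combination k0 - t h / t g * g0 + l.2.1 * e1 + l.2.2 * e2
    · change h 1 = _ * g 1
      linear_combination k1 - t h / t g * g1 - l.2.1 * l.1.2 * e1 - l.2.2 * l.1.1 * e2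
    · change h 2 = _ * g 2
      linear_combination k2 - t h / t g * g2 + e1 + e2
    · change h 3 = _ * g 3
      linear_combination k3 - t h / t g * g3 - l.1.2 * e1 - l.1.1 * e2
  have h1 := card_roots_mul (psi_ne_zero l hF hFl) (Z.image fun g => s g / t g) μ fun z hz => by
    obtain ⟨g, hg, rfl⟩ := Finset.mem_image.1 hz
    obtain ⟨hgP, hgi⟩ := Finset.mem_filter.1 hg
    obtain ⟨g0, g1, g2, g3⟩ := hco g hgi
    exact dvd_psi l hl hF g _ _ (hne g hgP hgi).1 (hne g hgP hgi).2 g0 g1 g2 g3 (hord g hgP)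
  rw [Finset.card_image_of_injOn hinj] at h1
  have h2 : rr (fun l g => Inc g l) P l = Z.card := by
    unfold rr
    congr
  rw [h2]
  exact h1.trans (natDegree_psi l hF)

end Pool.Agent.Lib.MP_a460e0_co.GK
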