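import Pool.Agent.Lib.MP_a460e0_co.GK.St
import Pool.Agent.Lib.MP_a460e0_co.StB

/-! The weighted count in one plane. -/

namespace Pool.Agent.Lib.MP_a460e0_co.GK

open Finset

namespace Plane

theorem dyadic {ι : Type*} (r : ι → ℕ) (h : ℕ → ℕ) (hm : Monotone h)
    (h2 : ∀ k, h (2 * k) ≤ 8 * h k) (A k0 : ℕ) (J : ℕ) : ∀ (L : Finset ι),
    (∀ k, k0 ≤ k → (L.filter fun l => k ≤ r l).card * h k ≤ A) →
    (∀ l ∈ L, k0 ≤ r l ∧ r l < k0 * 2 ^ J) → ∑ l ∈ L, h (r l) ≤ J * (8 * A) := by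
  induction J with
  | zero =>
    intro L _ hL
    rw [sum_eq_zero fun l hl => absurd (hL l hl) (by omega)]
    exact Nat.zero_le _
  | succ J ih =>
    intro L hA hL
    rw [← sum_filter_add_sum_filter_not L fun l => k0 * 2 ^ J ≤ r l, Nat.succ_mul, add_comm]
    refine add_le_add (ih _ (fun k hk => le_trans (Nat.mul_le_mul_right _
      (card_le_card (filter_subset_filter _ (filter_subset _ _)))) (hA k hk)) fun l hl =>
        ⟨(hL l (mem_filter.1 hl).1).1, not_le.1 (mem_filter.1 hl).2⟩) ?_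
    have h3 := hA (k0 * 2 ^ J) (Nat.le_mul_of_pos_right _ (by positivity))
    calc _ ≤ (L.filter fun l => k0 * 2 ^ J ≤ r l).card • (8 * h (k0 * 2 ^ J)) :=
          sum_le_card_nsmul _ _ _ fun l hl => (hm (by
            have := (hL l (mem_filter.1 hl).1).2
            rw [pow_succ, ← mul_assoc] at this
            omega)).trans (h2 _)
      _ ≤ 8 * A := by rw [smul_eq_mul]; nlinarith

variable {K : Type} [Field K]

theorem rich_rr (p : ℕ) [CharP K p] (P L : Finset (K × K)) (k : ℕ) (h4 : 4 ≤ k)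
    (hp : 8 * P.card < k * p) :
    (L.filter fun l => k ≤ rr OnL P l).card * k ^ 3 ≤ 256 * P.card ^ 2 + 16 * P.card * k ^ 2 := by
  classical
  refine St.rich p P _ k h4 hp fun l hl => ⟨P.filter fun z => OnL l z, filter_subset _ _, ?_,
    fun z hz => (mem_filter.1 hz).2⟩
  have := (mem_filter.1 hl).2
  unfold rr at this
  convert this

theorem sum_pairs (P1 P2 L : Finset (K × K)) :
    ∑ l ∈ L, rr (fun l (q : (K × K) × (K × K)) => OnL l q.1 ∧ OnL l q.2 ∧ q.1 ≠ q.2)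
      (P1 ×ˢ P2) l ≤ P1.card * P2.card := by
  classical
  unfold rr
  rw [← card_product, ← card_biUnion]
  · refine card_le_card (biUnion_subset.2 fun l _ q hq => ?_)
    simp only [mem_filter] at hq
    exact hq.1
  · intro l _ l' _ hne
    rw [Function.onFun, disjoint_left]
    intro q h1 h2
    simp only [mem_filter] at h1 h2
    obtain ⟨a1, a2, a3⟩ := h1.2
    obtain ⟨b1, b2, -⟩ := h2.2
    unfold OnL at a1 a2 b1 b2
    have hx : q.1.1 - q.2.1 ≠ 0 := fun h0 => a3 (Prod.ext (sub_eq_zero.1 h0)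
      (by rw [a1, a2, sub_eq_zero.1 h0]))
    have hs : l.1 = l'.1 := mul_right_cancel₀ hx (by linear_combination b1 - a1 + a2 - b2)
    exact hne (Prod.ext hs (by linear_combination b1 - a1 - q.1.1 * hs))

theorem pairs_le (P1 P2 : Finset (K × K)) (l : K × K) :
    rr (fun l (q : (K × K) × (K × K)) => OnL l q.1 ∧ OnL l q.2 ∧ q.1 ≠ q.2) (P1 ×ˢ P2) l ≤
      rr OnL P1 l * rr OnL P2 l := by
  classical
  unfold rr
  rw [← card_product]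
  refine card_le_card fun q hq => ?_
  simp only [mem_filter, mem_product] at hq ⊢
  tauto

theorem point (r1 r2 q k0 κ0 D ρ : ℕ) (hq : q ≤ r1 * r2) (h1 : r1 ≤ 2 * ρ) (hD : 1 ≤ D)
    (hρ : 1 ≤ ρ) (hk : 1 ≤ k0) :
    ((r1 * q : ℕ) : ℝ) ≤ k0 * q + (κ0 / k0 + D / ρ) * ((if k0 ≤ r1 then r1 ^ 3 else 0 : ℕ) : ℝ) +
      4 * ρ ^ 2 / D ^ 2 * ((if κ0 ≤ r2 then min r2 D ^ 2 * r2 else 0 : ℕ) : ℝ) := by
  have D0 : (0 : ℝ) < D := by exact_mod_cast hD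
  have ρ0 : (0 : ℝ) < ρ := by exact_mod_cast hρ
  have k00 : (0 : ℝ) < k0 := by exact_mod_cast hk
  have t1 : (0 : ℝ) ≤ k0 * q := by positivity
  have t2 : (0 : ℝ) ≤ (κ0 / k0 + D / ρ) * ((if k0 ≤ r1 then r1 ^ 3 else 0 : ℕ) : ℝ) := by
    positivity
  have t3 : (0 : ℝ) ≤
      4 * ρ ^ 2 / D ^ 2 * ((if κ0 ≤ r2 then min r2 D ^ 2 * r2 else 0 : ℕ) : ℝ) := by positivity
  by_cases c1 : k0 ≤ r1
  swap
  · have : ((r1 * q : ℕ) : ℝ) ≤ k0 * q := by exact_mod_cast Nat.mul_le_mul_right _ (by omega)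
    linarith
  have hq' : r1 * q ≤ r1 ^ 2 * r2 := by nlinarith
  rw [if_pos c1] at t2 ⊢
  have u1 : (0 : ℝ) ≤ κ0 / k0 * ((r1 ^ 3 : ℕ) : ℝ) := by positivity
  have u2 : (0 : ℝ) ≤ D / ρ * ((r1 ^ 3 : ℕ) : ℝ) := by positivity
  by_cases c2 : κ0 ≤ r2
  swap
  · have : ((r1 * q : ℕ) : ℝ) ≤ κ0 / k0 * ((r1 ^ 3 : ℕ) : ℝ) := by
      rw [div_mul_eq_mul_div, le_div_iff₀ k00]
      have : r1 * q * k0 ≤ κ0 * r1 ^ 3 :=
        calc r1 * q * k0 ≤ r1 ^ 2 * κ0 * r1 :=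
              Nat.mul_le_mul (hq'.trans (Nat.mul_le_mul_left _ (by omega))) c1
          _ = _ := by ring
      exact_mod_cast this
    linarith
  by_cases c3 : ρ * r2 ≤ D * r1
  · have : ((r1 * q : ℕ) : ℝ) ≤ D / ρ * ((r1 ^ 3 : ℕ) : ℝ) := by
      rw [div_mul_eq_mul_div, le_div_iff₀ ρ0]
      have : r1 * q * ρ ≤ D * r1 ^ 3 :=
        calc r1 * q * ρ ≤ r1 ^ 2 * r2 * ρ := by gcongr
          _ = r1 ^ 2 * (ρ * r2) := by ring
          _ ≤ r1 ^ 2 * (D * r1) := by gcongr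
          _ = _ := by ring
      exact_mod_cast this
    linarith
  rw [if_pos c2] at t3 ⊢
  have : ((r1 * q : ℕ) : ℝ) ≤ 4 * ρ ^ 2 / D ^ 2 * ((min r2 D ^ 2 * r2 : ℕ) : ℝ) := by
    rw [div_mul_eq_mul_div, le_div_iff₀ (by positivity)]
    have h5 : D * r1 ≤ 2 * ρ * min r2 D := by
      rcases le_total r2 D with h | h
      · rw [min_eq_left h]; nlinarith
      · rw [min_eq_right h]; nlinarith
    have : r1 * q * D ^ 2 ≤ 4 * ρ ^ 2 * (min r2 D ^ 2 * r2) :=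
      calc r1 * q * D ^ 2 ≤ r1 ^ 2 * r2 * D ^ 2 := by gcongr
        _ = (D * r1) ^ 2 * r2 := by ring
        _ ≤ (2 * ρ * min r2 D) ^ 2 * r2 := by gcongr
        _ = _ := by ring
    exact_mod_cast this
  linarith

theorem lt_two_pow (p : ℕ) : 4 * p ^ 2 < 2 ^ (2 * JJ p) := by
  have h := Nat.lt_pow_succ_log_self (b := 2) (by norm_num) p
  calc 4 * p ^ 2 < 4 * (2 ^ (Nat.log 2 p).succ) ^ 2 := by gcongr
    _ = _ := by rw [JJ, Nat.succ_eq_add_one]; ring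

theorem arith (p D ρ J k0 κ0 S M1 M2 : ℝ) (hp : 1 ≤ p) (hD : 1 ≤ D) (hρ : D ≤ ρ) (hJ : 2 ≤ J)
    (k1 : k0 * D * p ≤ 6 * D * p + 32 * ρ ^ 2 * D + ρ * p + J * D * p) (k2 : ρ ≤ k0 * D)
    (k3 : J ≤ k0) (κ1 : κ0 * p ≤ 5 * p + 8 * D ^ 2) (κ2 : 0 ≤ κ0)
    (m1 : M1 ≤ 2 * J * (8 * (4352 * ρ ^ 4))) (m2 : M2 ≤ 2 * J * (8 * (272 * D ^ 4)))
    (hS : S ≤ k0 * (4 * ρ ^ 2 * D ^ 2) + (κ0 / k0 + D / ρ) * M1 + 4 * ρ ^ 2 / D ^ 2 * M2) :
    p * S ≤ 1000000 * (D ^ 2 * ρ ^ 4 + p * J * D * ρ ^ 3) := by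
  have D0 : 0 < D := by linarith
  have ρ0 : 0 < ρ := by linarith
  have k0' : 0 < k0 := by linarith
  have p0 : 0 < p := by linarith
  have J0 : 0 < J := by linarith
  set T := p * J * D * ρ ^ 3 with hT
  have T0 : 0 ≤ T := by positivity
  have U0 : 0 ≤ D ^ 2 * ρ ^ 4 := by positivity
  have b1 : p * D ^ 2 * ρ ^ 2 ≤ p * D * ρ ^ 3 :=
    calc p * D ^ 2 * ρ ^ 2 = p * D * ρ ^ 2 * D := by ring
      _ ≤ p * D * ρ ^ 2 * ρ := by gcongr
      _ = _ := by ring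
  have b2 : 2 * (p * D * ρ ^ 3) ≤ T :=
    calc 2 * (p * D * ρ ^ 3) ≤ J * (p * D * ρ ^ 3) := by gcongr
      _ = T := by rw [hT]; ring
  have b3 : J * (p * D ^ 2 * ρ ^ 2) ≤ T :=
    calc J * (p * D ^ 2 * ρ ^ 2) ≤ J * (p * D * ρ ^ 3) := by gcongr
      _ = T := by rw [hT]; ring
  have a1 : p * (k0 * (4 * ρ ^ 2 * D ^ 2)) ≤ 128 * (D ^ 2 * ρ ^ 4) + 18 * T :=
    calc p * (k0 * (4 * ρ ^ 2 * D ^ 2)) = k0 * D * p * (4 * ρ ^ 2 * D) := by ring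
      _ ≤ (6 * D * p + 32 * ρ ^ 2 * D + ρ * p + J * D * p) * (4 * ρ ^ 2 * D) := by gcongr
      _ = 24 * (p * D ^ 2 * ρ ^ 2) + 128 * (D ^ 2 * ρ ^ 4) + 4 * (p * D * ρ ^ 3) +
          4 * (J * (p * D ^ 2 * ρ ^ 2)) := by ring
      _ ≤ _ := by linarith
  have c1 : p * (κ0 / k0) * J ≤ 5 * p * J * (D / ρ) + 8 * D ^ 2 := by
    have e1 : 1 / k0 ≤ D / ρ := by
      rw [div_le_div_iff₀ k0' ρ0]
      linarith
    have e2 : J / k0 ≤ 1 := (div_le_one k0').2 k3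
    calc p * (κ0 / k0) * J = κ0 * p * (J / k0) := by ring
      _ ≤ (5 * p + 8 * D ^ 2) * (J / k0) := by gcongr
      _ = 5 * p * J * (1 / k0) + 8 * D ^ 2 * (J / k0) := by ring
      _ ≤ 5 * p * J * (D / ρ) + 8 * D ^ 2 * 1 := by gcongr
      _ = _ := by ring
  have a2 : p * ((κ0 / k0 + D / ρ) * M1) ≤ 557056 * (D ^ 2 * ρ ^ 4) + 417792 * T :=
    calc p * ((κ0 / k0 + D / ρ) * M1)
        ≤ p * ((κ0 / k0 + D / ρ) * (2 * J * (8 * (4352 * ρ ^ 4)))) := by gcongr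
      _ = (p * (κ0 / k0) * J + p * J * (D / ρ)) * (69632 * ρ ^ 4) := by ring
      _ ≤ (5 * p * J * (D / ρ) + 8 * D ^ 2 + p * J * (D / ρ)) * (69632 * ρ ^ 4) := by gcongr
      _ = _ := by rw [hT]; field_simp; ring
  have a3 : p * (4 * ρ ^ 2 / D ^ 2 * M2) ≤ 17408 * T :=
    calc p * (4 * ρ ^ 2 / D ^ 2 * M2)
        ≤ p * (4 * ρ ^ 2 / D ^ 2 * (2 * J * (8 * (272 * D ^ 4)))) := by gcongr
      _ = 17408 * (J * (p * D ^ 2 * ρ ^ 2)) := by field_simp; ring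
      _ ≤ _ := by linarith
  have := mul_le_mul_of_nonneg_left hS p0.le
  rw [mul_add, mul_add] at this
  linarith

theorem arithN (p D ρ J k0 κ0 S Q M1 M2 : ℕ) (hp : 1 ≤ p) (hD : 1 ≤ D) (hρ : D ≤ ρ) (hJ : 2 ≤ J)
    (k1 : k0 * D * p ≤ 6 * D * p + 32 * ρ ^ 2 * D + ρ * p + J * D * p) (k2 : ρ ≤ k0 * D)
    (k3 : J ≤ k0) (κ1 : κ0 * p ≤ 5 * p + 8 * D ^ 2) (m0 : Q ≤ 4 * ρ ^ 2 * D ^ 2)
    (m1 : M1 ≤ 2 * J * (8 * (4352 * ρ ^ 4))) (m2 : M2 ≤ 2 * J * (8 * (272 * D ^ 4)))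
    (hS : (S : ℝ) ≤ k0 * Q + (κ0 / k0 + D / ρ) * M1 + 4 * ρ ^ 2 / D ^ 2 * M2) :
    p * S ≤ 1000000 * (D ^ 2 * ρ ^ 4 + p * J * D * ρ ^ 3) := by
  have m0' : (Q : ℝ) ≤ 4 * ρ ^ 2 * D ^ 2 := by exact_mod_cast m0
  have := arith p D ρ J k0 κ0 S M1 M2 (by exact_mod_cast hp) (by exact_mod_cast hD)
    (by exact_mod_cast hρ) (by exact_mod_cast hJ) (by exact_mod_cast k1) (by exact_mod_cast k2)
    (by exact_mod_cast k3) (by exact_mod_cast κ1) (by positivity)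
    (by exact_mod_cast m1) (by exact_mod_cast m2) (hS.trans (by gcongr))
  exact_mod_cast this

end Plane

open Plane in
theorem planeSt : PlaneSt := by
  refine ⟨1000000, fun K _ _ p _ P1 P2 L D ρ hp hD hρ hρp h1 h2 hL => ?_⟩
  classical
  set J := JJ p with hJ
  have J2 : 2 ≤ J := by rw [hJ, JJ]; omega
  have hx : ∀ a b : ℕ, 1 ≤ b → ∃ x, x * b ≤ a ∧ a < b * (x + 1) := fun a b hb =>
    ⟨a / b, Nat.div_mul_le_self a b, Nat.lt_mul_div_succ a hb⟩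
  obtain ⟨x1, e1, e2⟩ := hx (32 * ρ ^ 2) p hp
  obtain ⟨x2, e3, e4⟩ := hx ρ D hD
  obtain ⟨x3, e5, e6⟩ := hx (8 * D ^ 2) p hp
  have hpow := lt_two_pow p
  rw [← hJ] at hpow
  clear_value J
  obtain ⟨k0, hk0⟩ : ∃ k0, k0 = 6 + x1 + x2 + J := ⟨_, rfl⟩
  obtain ⟨κ0, hκ0⟩ : ∃ κ0, κ0 = 5 + x3 := ⟨_, rfl⟩
  have m1 : ∑ l ∈ L.filter (fun l => k0 ≤ rr OnL P1 l), rr OnL P1 l ^ 3 ≤
      2 * J * (8 * (4352 * ρ ^ 4)) := by
    refine dyadic (rr OnL P1) (fun k => k ^ 3) (fun a b h => Nat.pow_le_pow_left h 3)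
      (fun k => le_of_eq (by ring)) _ k0 _ _ (fun k hk => ?_) fun l hl => ⟨(mem_filter.1 hl).2, ?_⟩
    · by_cases hk2 : k ≤ 2 * ρ
      · refine (rich_rr p P1 _ k (by omega) ?_).trans ?_
        · have : (x1 + 1) * p ≤ k * p := Nat.mul_le_mul_right _ (by omega)
          nlinarith
        · calc _ ≤ 256 * (4 * ρ ^ 2) ^ 2 + 16 * (4 * ρ ^ 2) * (2 * ρ) ^ 2 := by gcongr
            _ = _ := by ring
      · rw [card_eq_zero.2 (filter_eq_empty_iff.2 fun l hl => by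
          have := hL l (mem_filter.1 hl).1
          omega)]
        simp
    · have := hL l (mem_filter.1 hl).1
      have h3 : 1 * 2 ^ (2 * J) ≤ k0 * 2 ^ (2 * J) := Nat.mul_le_mul_right _ (by omega)
      nlinarith
  have m2 : ∑ l ∈ L.filter (fun l => κ0 ≤ rr OnL P2 l), min (rr OnL P2 l) D ^ 2 * rr OnL P2 l ≤
      2 * J * (8 * (272 * D ^ 4)) := by
    refine dyadic (rr OnL P2) (fun k => min k D ^ 2 * k) (fun a b h => by dsimp only; gcongr)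
      (fun k => ?_) _ κ0 _ _ (fun k hk => ?_) fun l hl => ⟨(mem_filter.1 hl).2, ?_⟩
    · calc min (2 * k) D ^ 2 * (2 * k) ≤ (2 * min k D) ^ 2 * (2 * k) := by gcongr; omega
        _ = _ := by ring
    · have h3 := (rich_rr p P2 (L.filter fun l => κ0 ≤ rr OnL P2 l) k (by omega) (by
        have : (x3 + 1) * p ≤ k * p := Nat.mul_le_mul_right _ (by omega)
        nlinarith)).trans (show _ ≤ 256 * (D ^ 2) ^ 2 + 16 * D ^ 2 * k ^ 2 by gcongr)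
      set N := ((L.filter fun l => κ0 ≤ rr OnL P2 l).filter fun l => k ≤ rr OnL P2 l).card
      rcases le_total k D with h | h
      · rw [min_eq_left h]
        calc N * (k ^ 2 * k) = N * k ^ 3 := by ring
          _ ≤ 256 * (D ^ 2) ^ 2 + 16 * D ^ 2 * D ^ 2 := h3.trans (by gcongr)
          _ = _ := by ring
      · rw [min_eq_right h]
        refine Nat.le_of_mul_le_mul_right ?_ (show 0 < k ^ 2 from pow_pos (by omega) 2)
        calc N * (D ^ 2 * k) * k ^ 2 = D ^ 2 * (N * k ^ 3) := by ring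
          _ ≤ D ^ 2 * (256 * (D ^ 2 * k ^ 2) + 16 * D ^ 2 * k ^ 2) := by
            refine Nat.mul_le_mul_left _ (h3.trans ?_)
            rw [sq (D ^ 2)]
            gcongr
          _ = _ := by ring
    · have h4 : rr OnL P2 l ≤ P2.card := card_filter_le _ _
      have h3 : 1 * 2 ^ (2 * J) ≤ κ0 * 2 ^ (2 * J) := Nat.mul_le_mul_right _ (by omega)
      have h5 : D ^ 2 ≤ (2 * p) ^ 2 := by gcongr; omega
      nlinarith
  have m0 := (sum_pairs P1 P2 L).trans (Nat.mul_le_mul h1 h2)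
  rw [sum_filter] at m1 m2
  have hS := sum_le_sum fun l (hl : l ∈ L) =>
    point _ _ _ k0 κ0 D ρ (pairs_le P1 P2 l) (hL l hl) hD (hD.trans hρ) (by omega)
  rw [sum_add_distrib, sum_add_distrib, ← mul_sum, ← mul_sum, ← mul_sum, ← Nat.cast_sum,
    ← Nat.cast_sum, ← Nat.cast_sum, ← Nat.cast_sum] at hS
  refine arithN p D ρ J k0 κ0 _ _ _ _ hp hD hρ J2 ?_ ?_ (by omega) ?_ m0 m1 m2 hS
  · have := Nat.mul_le_mul_right D e1
    have := Nat.mul_le_mul_right p e3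
    calc k0 * D * p = 6 * D * p + x1 * p * D + x2 * D * p + J * D * p := by rw [hk0]; ring
      _ ≤ _ := by omega
  · exact e4.le.trans (by rw [mul_comm]; exact Nat.mul_le_mul_right _ (by omega))
  · rw [hκ0, add_mul]
    omega

end Pool.Agent.Lib.MP_a460e0_co.GK
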