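import Pool.Agent.Lib.MP_a460e0_co.GK.RegBb

/-! The second regime. -/

namespace Pool.Agent.Lib.MP_a460e0_co.GK

open MvPolynomial

namespace RB

variable {K : Type} [Field K]

theorem isData (hBa : BaseSt) [DecidableEq (S K)] (E : Finset (K × K)) (Γ φ : P2 K)
    (c1 D T : ℕ) (hoff : ∀ x ∈ E, x.1 ≠ x.2) (h0 : Γ ≠ 0) (hr : IsRelPrime Γ φ)
    (hΓ : ∀ x ∈ E, ev2 x Γ = 0) (hφ : ∀ x ∈ E, ev2 x φ = 0) (dΓ : Γ.totalDegree ≤ D)
    (dφ : φ.totalDegree ≤ T) (hDT : D ≤ T) (hD : 1 ≤ D) (hdt : D * T ≤ c1 * E.card) :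
    IsData c1 E {inX Γ, inY Γ} {inX Γ, inX φ, inY Γ, inY φ} D T where
  off := hoff
  d1 := by
    intro ψ hψ
    simp only [Finset.mem_insert, Finset.mem_singleton] at hψ
    rcases hψ with rfl | rfl
    · exact ⟨(inX_deg Γ).trans dΓ, fun l hl => inX_mem Γ l (hΓ _ (Finset.mem_product.mp hl).1)⟩
    · exact ⟨(inY_deg Γ).trans dΓ, fun l hl => inY_mem Γ l (hΓ _ (Finset.mem_product.mp hl).2)⟩
  d2 := by
    intro ψ hψ
    simp only [Finset.mem_insert, Finset.mem_singleton] at hψ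
    rcases hψ with rfl | rfl | rfl | rfl
    · exact ⟨(inX_deg Γ).trans (dΓ.trans hDT),
        fun l hl => inX_mem Γ l (hΓ _ (Finset.mem_product.mp hl).1)⟩
    · exact ⟨(inX_deg φ).trans dφ, fun l hl => inX_mem φ l (hφ _ (Finset.mem_product.mp hl).1)⟩
    · exact ⟨(inY_deg Γ).trans (dΓ.trans hDT),
        fun l hl => inY_mem Γ l (hΓ _ (Finset.mem_product.mp hl).2)⟩
    · exact ⟨(inY_deg φ).trans dφ, fun l hl => inY_mem φ l (hφ _ (Finset.mem_product.mp hl).2)⟩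
  n3 := fun Q hQ h => (hBa K Q hQ).2 Γ h0 (h _ (by simp)) (h _ (by simp))
  n1 := fun Q hQ h => (hBa K Q hQ).1 Γ φ hr (h _ (by simp)) (h _ (by simp)) (h _ (by simp))
    (h _ (by simp))
  pD := hD
  pT := hD.trans hDT
  dt := hdt

theorem sum_fib (E : Finset (K × K)) (CC : Finset (P2 K)) (cf : K × K → P2 K)
    (h : ∀ x ∈ E, cf x ∈ CC) : ∑ c ∈ CC, rr (fun c x => cf x = c) E c = E.card := by
  classical
  rw [Finset.card_eq_sum_card_fiberwise (f := cf) (t := CC) fun x hx => h x hx]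
  refine Finset.sum_congr rfl fun c _ => ?_
  obtain ⟨Z, hZ, hZ'⟩ := rr_spec (fun c x => cf x = c) E c
  rw [hZ]
  congr 1
  ext x
  rw [hZ', Finset.mem_filter]

end RB

open RB in
/-- Regime II. -/
theorem regBSt (hRi : RichSt) (hEx : ExcSt) (hCo : CompSt) (hSe : SecSt) (hBa : BaseSt)
    (hB : BezSt) : RegBSt := by
  classical
  obtain ⟨c2, hEx⟩ := hEx
  obtain ⟨C0, hRi⟩ := hRi 144 c2
  refine ⟨2 * C0 + 4, ?_⟩
  intro K _ _ p _ E GG CC cf ρ hp hoff hanti hG hGc hn hn3 hF hρ h12 hd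
  obtain ⟨hC, hcf, hsz⟩ := hF
  have hJ : 1 ≤ JJ p ^ 3 := Nat.one_le_pow _ _ (by unfold JJ; omega)
  generalize hD : ∑ c ∈ CC, c.totalDegree = D
  have hρD : ρ * D ≤ E.card := by
    rw [← hD, Finset.mul_sum, ← sum_fib E CC cf fun x hx => (hcf x hx).1]
    exact Finset.sum_le_sum fun c hc => (hsz c hc).1
  have hJp : p ≤ JJ p ^ 3 * p := Nat.le_mul_of_pos_left _ hJ
  have hn' : 2 * (C0 * JJ p ^ 3 * p) + 4 * (JJ p ^ 3 * p) ≤ E.card :=
    le_trans (le_of_eq (by ring)) hn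
  have hpos : 0 < E.card := by omega
  have hρ0 : 0 < ρ := by
    rcases Nat.eq_zero_or_pos ρ with rfl | h
    · omega
    · exact h
  have hDρ : 12 * D ≤ ρ := by
    refine Nat.le_of_mul_le_mul_left ?_ hρ0
    nlinarith
  have hDD : 12 * D ^ 2 ≤ E.card := by nlinarith
  have hD1 : 1 ≤ D := by
    obtain ⟨x, hx⟩ := Finset.card_pos.mp hpos
    have h1 := deg_le_sum CC _ (hcf x hx).1
    have h2 := degreeOf_le_totalDegree (cf x) 0
    have h3 := (hd _ (hcf x hx).1).1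
    omega
  obtain ⟨E', hE'⟩ : ∃ E' : Finset (K × K),
      E' = E.filter fun x => ev2 x (aux CC (cf x)) ≠ 0 := ⟨_, rfl⟩
  have hm : ∀ x, x ∈ E' ↔ x ∈ E ∧ ev2 x (aux CC (cf x)) ≠ 0 := fun x => by
    rw [hE', Finset.mem_filter]
  have hsub : E' ⊆ E := fun x hx => ((hm x).mp hx).1
  have hbad := bad_card hB p CC hC cf hd (by omega) (E \ E') fun x hx => by
    obtain ⟨a, b⟩ := Finset.mem_sdiff.mp hx
    refine ⟨(hcf x a).1, (hcf x a).2, ?_⟩
    by_contra h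
    exact b ((hm x).mpr ⟨a, h⟩)
  rw [hD] at hbad
  have hsd := Finset.card_sdiff_add_card_eq_card hsub
  have hle := Finset.card_le_card hsub
  have h2 : E.card ≤ 2 * E'.card := by omega
  refine ⟨E', hsub, h2, ?_⟩
  have hone : ∀ x ∈ E', ∀ c ∈ CC, ev2 x c = 0 ↔ c = cf x := fun x hx c hc =>
    ⟨(aux_ne CC _ x ((hm x).mp hx).2).1 c hc, fun e => e ▸ (hcf x (hsub hx)).2⟩
  have hΓ : ∀ x ∈ E', ev2 x (∏ c ∈ CC, c) = 0 := fun x hx => by
    rw [ev2_prod]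
    exact Finset.prod_eq_zero (hcf x (hsub hx)).1 (hcf x (hsub hx)).2
  obtain ⟨φ, hrel, hφd, hφ⟩ := hSe K E' CC (2 * ρ) hC
    (fun x hx => ⟨cf x, hcf x (hsub hx)⟩) fun c hc => by
      refine le_trans ?_ (hsz c hc).2
      obtain ⟨Z, hZ, hZ'⟩ := rr_spec (fun c x => ev2 x c = 0) E' c
      obtain ⟨W, hW, hW'⟩ := rr_spec (fun c x => cf x = c) E c
      rw [hZ, hW]
      refine Finset.card_le_card fun x hx => ?_
      obtain ⟨a, b⟩ := (hZ' x).mp hx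
      exact (hW' x).mpr ⟨hsub a, ((hone x a c hc).mp b).symm⟩
  rw [hD] at hφd
  have hT : 2 * ρ + D ≤ 3 * ρ := by omega
  have hDT : D * (2 * ρ + D) ≤ 6 * E'.card := by nlinarith
  have hdata := isData hBa E' (∏ c ∈ CC, c) φ 144 D (2 * ρ + D) (fun x hx => hoff x (hsub hx))
    (Finset.prod_ne_zero_iff.mpr fun c hc => (hC.1 c hc).ne_zero) hrel hΓ hφ
    (hD ▸ totalDegree_finsetProd CC fun c => c) hφd (by omega) hD1 (by omega)
  have hexc := hEx K E' CC cf GG hC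
    (fun x hx => ⟨hoff x (hsub hx), (hcf x (hsub hx)).1, hone x hx⟩) hG
  have hrul := rul_of hB E' CC hC.1 hd hΓ
  rw [hD] at hrul
  have hmain := hRi K p E' _ _ D (2 * ρ + D) (2 * D) (4 * D ^ 2) GG _ hp hdata hexc
    (fun _ _ h => h.1) hG (fun x hx h => hanti x (hsub hx) (hsub h)) hrul
    (by nlinarith) (by omega) ((Nat.pow_le_pow_left hle 2).trans hn3) (by omega) hGc
    (fun g hg => hD ▸ cnt_card hB CC hC.1 cf E' (fun x hx => hcf x (hsub hx)) g (hG.1 g hg))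
    (by
      calc 4 * D ^ 2 * (2 * ρ + D) ^ 2 = 4 * (D * (2 * ρ + D)) ^ 2 := by ring
        _ ≤ 4 * (6 * E'.card) ^ 2 := by gcongr
        _ = _ := by ring)
  have hcomp := comp_sum hCo cf E' (fun x hx => ⟨hoff x (hsub hx), (hcf x (hsub hx)).2,
    (aux_ne CC _ x ((hm x).mp hx).2).2⟩) GG hG
  have hen := en_le GG E' fun g l => cf l.1 ∣ pull g (cf l.2)
  have hpn : p ≤ E'.card := by omega
  calc p * En GG E' ≤ p * (2 * _ + 2 * _) := Nat.mul_le_mul_left _ hen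
    _ = 2 * (p * _) + 2 * (p * _) := by rw [mul_add, mul_left_comm, mul_left_comm p 2]
    _ ≤ 2 * (C0 * E'.card ^ 4) + 2 * (E'.card * (2 * E'.card ^ 3)) :=
        Nat.add_le_add (Nat.mul_le_mul_left _ hmain)
          (Nat.mul_le_mul_left _ (Nat.mul_le_mul hpn hcomp))
    _ = _ := by ring

end Pool.Agent.Lib.MP_a460e0_co.GK
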