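import Pool.Agent.Lib.MP_a460e0_co.GK.St

/-! Regime III: reduction to the weighted count in one plane. -/

namespace Pool.Agent.Lib.MP_a460e0_co.GK

open Finset

noncomputable section

namespace RegC

open Classical in
/-- Symmetrisation of a count of pairs. -/
theorem amgm {α β : Type} (I : Finset α) (key : α → β) (D : Finset β) (hD : ∀ l ∈ I, key l ∈ D)
    (Q : α → β → Prop) :
    ((I ×ˢ I).filter fun q => Q q.1 (key q.2) ∧ Q q.2 (key q.1)).card ≤
      ∑ κ ∈ D, (I.filter fun l => key l = κ).card *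
        ((I ×ˢ D).filter fun q => key q.1 = κ ∧ Q q.1 q.2).card := by
  set N : β → β → ℕ := fun κ κ2 => (I.filter fun l => key l = κ ∧ Q l κ2).card with hN
  have h1 : ((I ×ˢ I).filter fun q => Q q.1 (key q.2) ∧ Q q.2 (key q.1)).card ≤
      ∑ κ ∈ D, ∑ κ2 ∈ D, N κ κ2 * N κ2 κ := by
    rw [card_eq_sum_card_fiberwise (f := fun q : α × α => (key q.1, key q.2)) (t := D ×ˢ D)]
    · rw [sum_product]
      refine sum_le_sum fun κ _ => sum_le_sum fun κ2 _ => ?_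
      rw [hN]
      simp only
      rw [← card_product]
      refine card_le_card fun q hq => ?_
      simp only [mem_filter, mem_product, Prod.mk.injEq] at hq ⊢
      obtain ⟨⟨⟨h1, h2⟩, h3, h4⟩, h5, h6⟩ := hq
      exact ⟨⟨h1, h5, h6 ▸ h3⟩, h2, h6, h5 ▸ h4⟩
    · intro q hq
      simp only [coe_filter, mem_product, Set.mem_setOf_eq] at hq
      simp only [coe_product, Set.mem_prod, mem_coe]
      exact ⟨hD _ hq.1.1, hD _ hq.1.2⟩
  have h2 : 2 * ∑ κ ∈ D, ∑ κ2 ∈ D, N κ κ2 * N κ2 κ ≤ 2 * ∑ κ ∈ D, ∑ κ2 ∈ D, N κ κ2 ^ 2 := by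
    have e : ∑ κ ∈ D, ∑ κ2 ∈ D, N κ2 κ ^ 2 = ∑ κ ∈ D, ∑ κ2 ∈ D, N κ κ2 ^ 2 := sum_comm
    calc 2 * ∑ κ ∈ D, ∑ κ2 ∈ D, N κ κ2 * N κ2 κ
        = ∑ κ ∈ D, ∑ κ2 ∈ D, 2 * (N κ κ2 * N κ2 κ) := by simp only [mul_sum]
      _ ≤ ∑ κ ∈ D, ∑ κ2 ∈ D, (N κ κ2 ^ 2 + N κ2 κ ^ 2) := by
          refine sum_le_sum fun κ _ => sum_le_sum fun κ2 _ => ?_
          nlinarith [two_mul_le_add_sq (N κ κ2 : ℤ) (N κ2 κ), sq_nonneg ((N κ κ2 : ℤ) - N κ2 κ)]
      _ = 2 * ∑ κ ∈ D, ∑ κ2 ∈ D, N κ κ2 ^ 2 := by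
          simp only [sum_add_distrib]
          rw [e]; ring
  refine h1.trans ((Nat.le_of_mul_le_mul_left h2 (by norm_num)).trans ?_)
  refine sum_le_sum fun κ _ => ?_
  have h3 : ((I ×ˢ D).filter fun q => key q.1 = κ ∧ Q q.1 q.2).card = ∑ κ2 ∈ D, N κ κ2 := by
    rw [hN]
    simp only [card_filter]
    rw [sum_product_right]
  rw [h3, mul_sum]
  refine sum_le_sum fun κ2 _ => ?_
  rw [pow_two]
  refine Nat.mul_le_mul_right _ (card_le_card fun l hl => ?_)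
  simp only [mem_filter] at hl ⊢
  exact ⟨hl.1, hl.2.1⟩

variable {K : Type} [Field K]

/-- The matrix maps the first entry to the second. -/
def Mob (g : Fin 4 → K) (κ : K × K) : Prop := g 0 * κ.1 + g 1 = κ.2 * (g 2 * κ.1 + g 3)

/-- The affine line of a matrix in the inverted coordinates. -/
def lam (κ : K × K) (g : Fin 4 → K) : K × K :=
  ((g 2 * κ.1 + g 3) / (g 0 - κ.2 * g 2), g 2 / (g 0 - κ.2 * g 2))

/-- The inverted coordinates. -/
def inv2 (κ z : K × K) : K × K := ((z.1 - κ.1)⁻¹, (z.2 - κ.2)⁻¹)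

theorem inv2_inj (κ : K × K) : Function.Injective (inv2 κ) := by
  intro z w h
  simp only [inv2, Prod.mk.injEq, inv_inj, sub_left_inj] at h
  exact Prod.ext h.1 h.2

theorem del_ne {g : Fin 4 → K} {κ : K × K} (hg : g 0 * g 3 - g 1 * g 2 ≠ 0) (h : Mob g κ) :
    g 0 - κ.2 * g 2 ≠ 0 := by
  intro h0
  apply hg
  unfold Mob at h
  linear_combination (g 2 * κ.1 + g 3) * h0 - g 2 * h

theorem onL {g : Fin 4 → K} {κ z : K × K} (hg : g 0 * g 3 - g 1 * g 2 ≠ 0) (h : Mob g κ)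
    (hz : Mob g z) (hne : z.1 ≠ κ.1) : OnL (lam κ g) (inv2 κ z) := by
  have hd := del_ne hg h
  have h1 : z.1 - κ.1 ≠ 0 := sub_ne_zero.2 hne
  have key : (g 0 - κ.2 * g 2) * (z.1 - κ.1) =
      (z.2 - κ.2) * ((g 2 * κ.1 + g 3) + g 2 * (z.1 - κ.1)) := by
    unfold Mob at h hz
    linear_combination hz - h
  have h2 : z.2 - κ.2 ≠ 0 := by
    intro h0
    rw [h0, zero_mul] at key
    exact mul_ne_zero hd h1 key
  simp only [OnL, lam, inv2]
  field_simp
  linear_combination key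

theorem lam_inj {GG : Finset (Fin 4 → K)} (hP : Proj GG) {κ : K × K} {g h : Fin 4 → K}
    (hg : g ∈ GG) (hh : h ∈ GG) (mg : Mob g κ) (mh : Mob h κ) (e : lam κ g = lam κ h) : g = h := by
  have dg := del_ne (hP.1 g hg) mg
  have dh := del_ne (hP.1 h hh) mh
  simp only [lam, Prod.mk.injEq] at e
  obtain ⟨e1, e2⟩ := e
  rw [div_eq_div_iff dg dh] at e1 e2
  unfold Mob at mg mh
  refine (hP.2 g hg h hh ((h 0 - κ.2 * h 2) / (g 0 - κ.2 * g 2)) ?_).symm
  have k2 : h 2 * (g 0 - κ.2 * g 2) = (h 0 - κ.2 * h 2) * g 2 := by linear_combination -e2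
  have k3 : h 3 * (g 0 - κ.2 * g 2) = (h 0 - κ.2 * h 2) * g 3 := by
    linear_combination -e1 + κ.1 * e2
  have k0 : h 0 * (g 0 - κ.2 * g 2) = (h 0 - κ.2 * h 2) * g 0 := by
    linear_combination κ.2 * k2
  have k1 : h 1 * (g 0 - κ.2 * g 2) = (h 0 - κ.2 * h 2) * g 1 := by
    linear_combination (g 0 - κ.2 * g 2) * mh - (h 0 - κ.2 * h 2) * mg - κ.1 * k0 +
      κ.2 * κ.1 * k2 + κ.2 * k3
  funext i
  rw [Pi.smul_apply, smul_eq_mul, div_mul_eq_mul_div, eq_div_iff dg]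
  fin_cases i
  · exact k0
  · exact k1
  · exact k2
  · exact k3

open Classical in
/-- Second coordinates over a first coordinate. -/
def fib (E : Finset (K × K)) (a : K) : Finset K := (E.filter fun x => x.1 = a).image Prod.snd

open Classical in
/-- The first point set. -/
def PA (E : Finset (K × K)) (κ : K × K) : Finset (K × K) :=
  (fib E κ.1 ×ˢ fib E κ.2).image (inv2 κ)

open Classical in
/-- The second point set. -/
def PB (A : Finset K) (κ : K × K) : Finset (K × K) := (A ×ˢ A).image (inv2 κ)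

theorem card_fib (E : Finset (K × K)) (a : K) :
    (fib E a).card ≤ rr (fun α (x : K × K) => x.1 = α) E a := by
  classical
  unfold fib rr
  convert card_image_le

theorem mem_fib {E : Finset (K × K)} {x : K × K} (hx : x ∈ E) : x.2 ∈ fib E x.1 := by
  classical
  unfold fib
  simp only [mem_image, mem_filter]
  exact ⟨x, ⟨hx, rfl⟩, rfl⟩

theorem rr_PA (E : Finset (K × K)) (κ l : K × K) : rr OnL (PA E κ) l ≤ (fib E κ.1).card := by
  classical
  unfold rr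
  refine card_le_card_of_injOn (fun z => (z.1)⁻¹ + κ.1) ?_ ?_
  · intro z hz
    simp only [coe_filter, Set.mem_setOf_eq, PA, mem_image, mem_product] at hz
    obtain ⟨⟨w, ⟨hw, _⟩, rfl⟩, _⟩ := hz
    simpa [inv2] using hw
  · intro z hz w hw e
    simp only [coe_filter, Set.mem_setOf_eq, OnL] at hz hw
    simp only [add_left_inj, inv_inj] at e
    exact Prod.ext e (by rw [hz.2, hw.2, e])

/-- The weight of a line. -/
def wt (P1 P2 : Finset (K × K)) (l : K × K) : ℕ :=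
  rr OnL P1 l *
    rr (fun l (q : (K × K) × (K × K)) => OnL l q.1 ∧ OnL l q.2 ∧ q.1 ≠ q.2) (P1 ×ˢ P2) l

open Classical in
theorem one_g (E : Finset (K × K)) (A : Finset K) (hE : ∀ x ∈ E, x.1 ≠ x.2 ∧ x.1 ∈ A)
    (g : Fin 4 → K) (hg : g 0 * g 3 - g 1 * g 2 ≠ 0) :
    (((E ×ˢ E) ×ˢ (E ×ˢ E)).filter fun q => Inc g q.1 ∧ Inc g q.2 ∧ ND q.1.1 q.2.1).card ≤
      ∑ κ ∈ (A ×ˢ A).filter (Mob g), wt (PA E κ) (PB A κ) (lam κ g) := by
  set I : Finset (Ln K) := (E ×ˢ E).filter (Inc g) with hI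
  have hmem : ∀ l ∈ I, l.1 ∈ E ∧ l.2 ∈ E ∧ Inc g l := by
    intro l hl
    simp only [hI, mem_filter, mem_product] at hl
    exact ⟨hl.1.1, hl.1.2, hl.2⟩
  have h0 := amgm I (fun l => (l.1.1, l.2.1)) ((A ×ˢ A).filter (Mob g)) (by
    intro l hl
    obtain ⟨h1, h2, h3⟩ := hmem l hl
    simp only [mem_filter, mem_product]
    exact ⟨⟨(hE _ h1).2, (hE _ h2).2⟩, h3.1⟩) (fun l κ => l.1.1 ≠ κ.1 ∧ l.1.2 ≠ κ.1)
  refine le_trans (le_trans (card_le_card ?_) h0) (sum_le_sum fun κ hκ => ?_)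
  · intro q hq
    simp only [mem_filter, mem_product, hI] at hq ⊢
    obtain ⟨⟨a1, a2⟩, b1, b2, c1, _, c3, c4⟩ := hq
    exact ⟨⟨⟨a1, b1⟩, a2, b2⟩, ⟨c1, c4⟩, c1.symm, c3.symm⟩
  · have mκ : Mob g κ := (mem_filter.1 hκ).2
    have hA : ∀ l ∈ I, (l.1.1, l.2.1) = κ → inv2 κ (l.1.2, l.2.2) ∈ PA E κ ∧
        OnL (lam κ g) (inv2 κ (l.1.2, l.2.2)) := by
      intro l hl e
      obtain ⟨h1, h2, h3⟩ := hmem l hl
      subst e
      refine ⟨?_, onL hg mκ h3.2 (hE _ h1).1.symm⟩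
      unfold PA
      exact mem_image_of_mem _ (mem_product.2 ⟨mem_fib h1, mem_fib h2⟩)
    have hinj : ∀ l m : Ln K, (l.1.1, l.2.1) = κ → (m.1.1, m.2.1) = κ →
        inv2 κ (l.1.2, l.2.2) = inv2 κ (m.1.2, m.2.2) → l = m := by
      intro l m e1 e2 e
      have e3 := inv2_inj κ e
      have e4 := e1.trans e2.symm
      simp only [Prod.mk.injEq] at e3 e4
      exact Prod.ext (Prod.ext e4.1 e3.1) (Prod.ext e4.2 e3.2)
    unfold wt rr
    refine Nat.mul_le_mul ?_ ?_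
    · refine card_le_card_of_injOn (fun l => inv2 κ (l.1.2, l.2.2)) ?_ ?_
      · intro l hl
        simp only [coe_filter, Set.mem_setOf_eq] at hl ⊢
        exact hA l hl.1 hl.2
      · intro l hl m hm e
        simp only [coe_filter, Set.mem_setOf_eq] at hl hm
        exact hinj l m hl.2 hm.2 e
    · refine card_le_card_of_injOn (fun q => (inv2 κ (q.1.1.2, q.1.2.2), inv2 κ q.2)) ?_ ?_
      · intro q hq
        simp only [coe_filter, Set.mem_setOf_eq, mem_product, mem_filter] at hq ⊢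
        obtain ⟨⟨a1, a2, a3⟩, b1, b2, b3⟩ := hq
        obtain ⟨c1, c2⟩ := hA q.1 a1 b1
        refine ⟨⟨c1, ?_⟩, c2, onL hg mκ a3 ?_, ?_⟩
        · unfold PB
          exact mem_image_of_mem _ (mem_product.2 a2)
        · rw [← b1]
          exact b2.symm
        · intro e
          exact b3 (congrArg Prod.fst (inv2_inj κ e))
      · intro q hq r hr e
        simp only [coe_filter, Set.mem_setOf_eq] at hq hr
        simp only [Prod.mk.injEq] at e
        exact Prod.ext (hinj _ _ hq.2.1 hr.2.1 e.1) (inv2_inj κ e.2)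

open Classical in
theorem en_le (E : Finset (K × K)) (A : Finset K) (hE : ∀ x ∈ E, x.1 ≠ x.2 ∧ x.1 ∈ A)
    (GG : Finset (Fin 4 → K)) (hP : Proj GG) :
    En GG E ≤ ∑ κ ∈ A ×ˢ A, ∑ l ∈ (GG.filter fun g => Mob g κ).image (lam κ),
      wt (PA E κ) (PB A κ) l := by
  unfold En
  refine (sum_le_sum fun g hg => one_g E A hE g (hP.1 g hg)).trans (le_of_eq ?_)
  simp only [sum_filter]
  rw [sum_comm]
  refine sum_congr rfl fun κ _ => ?_
  rw [sum_image, sum_filter]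
  intro g hg h hh e
  simp only [coe_filter, Set.mem_setOf_eq] at hg hh
  exact lam_inj hP hg.1 hh.1 hg.2 hh.2 e

theorem card_ge (E : Finset (K × K)) (A : Finset K) (ρ : ℕ) (hE : ∀ x ∈ E, x.1 ∈ A)
    (h : ∀ α ∈ A, ρ ≤ rr (fun α (x : K × K) => x.1 = α) E α) : A.card * ρ ≤ E.card := by
  classical
  rw [card_eq_sum_card_fiberwise (f := Prod.fst) (s := E) (t := A) (fun x hx => hE x hx)]
  rw [← smul_eq_mul, ← sum_const]
  refine sum_le_sum fun α hα => ?_
  have := h α hα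
  unfold rr at this
  convert this

end RegC

open RegC in
theorem regCSt (hPl : PlaneSt) : RegCSt := by
  classical
  obtain ⟨C, hC⟩ := hPl
  refine ⟨2 * C, ?_⟩
  intro K _ _ p _ E GG A ρ hp hE hP hJ hA hρ hf
  have hn := card_ge E A ρ (fun x hx => (hE x hx).2) (fun α hα => (hf α hα).1)
  have hD : 1 ≤ A.card := by
    have h1 : 0 < JJ p * p := Nat.mul_pos (by unfold JJ; omega) hp
    obtain ⟨x, hx⟩ := card_pos.1 (lt_of_lt_of_le h1 hJ)
    exact card_pos.2 ⟨x.1, (hE x hx).2⟩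
  have hone : ∀ κ ∈ A ×ˢ A, p * ∑ l ∈ (GG.filter fun g => Mob g κ).image (lam κ),
      wt (PA E κ) (PB A κ) l ≤ C * (A.card ^ 2 * ρ ^ 4 + p * JJ p * A.card * ρ ^ 3) := by
    intro κ hκ
    obtain ⟨k1, k2⟩ := mem_product.1 hκ
    have f1 := (card_fib E κ.1).trans (hf _ k1).2
    have f2 := (card_fib E κ.2).trans (hf _ k2).2
    refine hC K p (PA E κ) (PB A κ) _ A.card ρ hp hD hA hρ ?_ ?_ ?_
    · unfold PA
      refine card_image_le.trans ?_
      rw [card_product]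
      calc _ ≤ (2 * ρ) * (2 * ρ) := Nat.mul_le_mul f1 f2
        _ = 4 * ρ ^ 2 := by ring
    · unfold PB
      refine card_image_le.trans ?_
      rw [card_product, pow_two]
    · exact fun l _ => (rr_PA E κ l).trans f1
  calc p * En GG E ≤ p * ∑ κ ∈ A ×ˢ A, ∑ l ∈ (GG.filter fun g => Mob g κ).image (lam κ),
        wt (PA E κ) (PB A κ) l := Nat.mul_le_mul_left _ (by convert en_le E A hE GG hP)
    _ ≤ ∑ _κ ∈ A ×ˢ A, C * (A.card ^ 2 * ρ ^ 4 + p * JJ p * A.card * ρ ^ 3) := by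
        rw [mul_sum]
        exact sum_le_sum hone
    _ = C * ((A.card * ρ) ^ 4 + (JJ p * p) * (A.card * ρ) ^ 3) := by
        rw [sum_const, card_product, smul_eq_mul]
        ring
    _ ≤ C * (E.card ^ 4 + E.card * E.card ^ 3) := by gcongr
    _ = 2 * C * E.card ^ 4 := by ring

end

end Pool.Agent.Lib.MP_a460e0_co.GK
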