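import Pool.Agent.Lib.MP_a460e0_co.GK.St

/-! The second moment bound from the main incidence bound. -/

namespace Pool.Agent.Lib.MP_a460e0_co.GK

open Finset

lemma exists_root (m e : ℕ) (he : 0 < e) : ∃ a : ℕ, m ≤ a ^ e ∧ a ^ e ≤ 2 ^ e * m := by
  classical
  have hex : ∃ a : ℕ, m ≤ a ^ e := ⟨m, Nat.le_self_pow he.ne' m⟩
  refine ⟨Nat.find hex, Nat.find_spec hex, ?_⟩
  rcases hf : Nat.find hex with _ | _ | a
  · simp [he.ne']
  · have h := Nat.find_min hex (m := 0) (by omega)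
    rw [zero_pow he.ne'] at h
    have h2 : 1 ≤ 2 ^ e := Nat.one_le_two_pow
    simp only [zero_add, one_pow]
    nlinarith
  · have h := Nat.find_min hex (m := a + 1) (by omega)
    calc (a + 1 + 1) ^ e ≤ (2 * (a + 1)) ^ e := Nat.pow_le_pow_left (by omega) e
      _ = 2 ^ e * (a + 1) ^ e := mul_pow _ _ _
      _ ≤ 2 ^ e * m := Nat.mul_le_mul_left _ (by omega)

lemma le_of_pow_le {x X y e : ℕ} (he : 0 < e) (h : x ^ e ≤ X * y ^ e) : x ≤ X * y := by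
  rw [← Nat.pow_le_pow_iff_left he.ne', mul_pow]
  exact h.trans (Nat.mul_le_mul_right _ (Nat.le_self_pow he.ne' X))

/-- The three cases of the bound for rich points. -/
lemma rich_cases {M c1 N k n T J a1 a2 : ℕ} (hN : 0 < N) (h1 : a1 ^ 4 ≤ 16 * (N * n))
    (h2 : a2 ^ 3 ≤ 8 * N) (hk : k * T ^ 2 ≤ c1 * n ^ 2) (hT : J ^ 3 * T ≤ c1 * n)
    (h : 3 * (N * k) ≤ M * (a1 ^ 2 * n + a1 * n * T + J * a2 * n * T)) :
    N * k ^ 2 ≤ (16 * M ^ 2 + 16 * M ^ 4 * c1 ^ 2 + 8 * M ^ 3 * c1 ^ 2) * n ^ 3 := by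
  have hc : N * k ≤ M * (a1 ^ 2 * n) ∨ N * k ≤ M * (a1 * n * T) ∨
      N * k ≤ M * (J * a2 * n * T) := by
    rw [mul_add, mul_add] at h
    omega
  rw [add_mul, add_mul]
  rcases hc with hc | hc | hc
  · have e1 : N * (N * k ^ 2) ≤ N * (16 * M ^ 2 * n ^ 3) :=
      calc N * (N * k ^ 2) = (N * k) ^ 2 := by ring
        _ ≤ (M * (a1 ^ 2 * n)) ^ 2 := Nat.pow_le_pow_left hc 2
        _ = M ^ 2 * n ^ 2 * a1 ^ 4 := by ring
        _ ≤ M ^ 2 * n ^ 2 * (16 * (N * n)) := Nat.mul_le_mul_left _ h1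
        _ = _ := by ring
    have := Nat.le_of_mul_le_mul_left e1 hN
    omega
  · have e1 : N * (N * k ^ 2) ^ 3 ≤ N * (16 * M ^ 4 * c1 ^ 2 * (n ^ 3) ^ 3) :=
      calc N * (N * k ^ 2) ^ 3 = (N * k) ^ 4 * k ^ 2 := by ring
        _ ≤ (M * (a1 * n * T)) ^ 4 * k ^ 2 :=
          Nat.mul_le_mul_right _ (Nat.pow_le_pow_left hc 4)
        _ = M ^ 4 * n ^ 4 * (a1 ^ 4 * (k * T ^ 2) ^ 2) := by ring
        _ ≤ M ^ 4 * n ^ 4 * (16 * (N * n) * (c1 * n ^ 2) ^ 2) :=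
          Nat.mul_le_mul_left _ (Nat.mul_le_mul h1 (Nat.pow_le_pow_left hk 2))
        _ = _ := by ring
    have := le_of_pow_le (by norm_num) (Nat.le_of_mul_le_mul_left e1 hN)
    omega
  · have e1 : N * (N * k ^ 2) ^ 2 ≤ N * (8 * M ^ 3 * c1 ^ 2 * (n ^ 3) ^ 2) :=
      calc N * (N * k ^ 2) ^ 2 = (N * k) ^ 3 * k := by ring
        _ ≤ (M * (J * a2 * n * T)) ^ 3 * k :=
          Nat.mul_le_mul_right _ (Nat.pow_le_pow_left hc 3)
        _ = M ^ 3 * n ^ 3 * (a2 ^ 3 * ((k * T ^ 2) * (J ^ 3 * T))) := by ring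
        _ ≤ M ^ 3 * n ^ 3 * (8 * N * ((c1 * n ^ 2) * (c1 * n))) :=
          Nat.mul_le_mul_left _ (Nat.mul_le_mul h2 (Nat.mul_le_mul hk hT))
        _ = _ := by ring
    have := le_of_pow_le (by norm_num) (Nat.le_of_mul_le_mul_left e1 hN)
    omega

/-- A set of rich points is small enough for the main bound. -/
lemma rich_small {G : Type} {C c1 p n T J k : ℕ} (r : G → ℕ) (P : Finset G) (hJ : 1 ≤ J)
    (hC : 1 ≤ C) (hp : 1 ≤ p) (hn : J ^ 3 * p ≤ n) (hn2 : n ≤ p ^ 2) (hCp : C ≤ p)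
    (hT : T ≤ c1 * p) (hr : ∀ g ∈ P, k ≤ r g)
    (hk : (2 * C ^ 2 * (2 + 3 * c1) + 1) * n ^ 2 ≤ k * p ^ 2)
    (H : ∀ Q ⊆ P, ∀ a1 a2 : ℕ, C * Q.card * n ≤ p ^ 4 → Q.card * n ≤ a1 ^ 4 → Q.card ≤ a2 ^ 3 →
      ∑ g ∈ Q, r g ≤ C * (a1 ^ 2 * n + a1 * n * T + J * a2 * n * T + J ^ 2 * Q.card)) :
    C * P.card * n ≤ p ^ 4 := by
  by_contra hcon
  have hJ3 : J ≤ J ^ 3 := Nat.le_self_pow (by norm_num) J
  have hn0 : 0 < n := lt_of_lt_of_le (by positivity) hn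
  have hCn : 0 < C * n := by positivity
  obtain ⟨N, hN⟩ : ∃ N, N = p ^ 4 / (C * n) := ⟨_, rfl⟩
  have hN1 : N * (C * n) ≤ p ^ 4 := hN ▸ Nat.div_mul_le_self _ _
  have hN2 : p ^ 4 < (N + 1) * (C * n) := by
    rw [hN, mul_comm]; exact Nat.lt_mul_div_succ _ hCn
  have hN0 : 1 ≤ N := by
    rw [hN, Nat.le_div_iff_mul_le hCn, one_mul]
    calc C * n ≤ p * p ^ 2 := Nat.mul_le_mul hCp hn2
      _ = p ^ 3 := by ring
      _ ≤ p ^ 4 := Nat.pow_le_pow_right hp (by norm_num)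
  have hNP : N ≤ P.card := by
    by_contra h
    have : P.card * (C * n) ≤ N * (C * n) := Nat.mul_le_mul_right _ (by omega)
    exact hcon (by nlinarith)
  obtain ⟨Q, hQ, hQc⟩ := Finset.exists_subset_card_eq hNP
  have hNn : N * n ≤ p ^ 4 := le_trans (Nat.mul_le_mul_left _ (Nat.le_mul_of_pos_left n hC)) hN1
  have hJp : J ≤ p := by
    have : J * p ≤ p * p := by nlinarith
    exact Nat.le_of_mul_le_mul_right this hp
  have ha : p ≤ J * (p / J + 1) := (Nat.lt_mul_div_succ p hJ).le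
  have ha' : J * (p / J + 1) ≤ 2 * p := by
    have := Nat.mul_div_le p J
    rw [mul_add]; omega
  have hN3 : N ≤ (p / J + 1) ^ 3 := by
    have e1 : N * J ^ 3 * p ≤ p ^ 3 * p :=
      calc N * J ^ 3 * p = N * (J ^ 3 * p) := by ring
        _ ≤ N * n := Nat.mul_le_mul_left _ hn
        _ ≤ p ^ 4 := hNn
        _ = _ := by ring
    have e2 : N * J ^ 3 ≤ (p / J + 1) ^ 3 * J ^ 3 :=
      calc N * J ^ 3 ≤ p ^ 3 := Nat.le_of_mul_le_mul_right e1 hp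
        _ ≤ (J * (p / J + 1)) ^ 3 := Nat.pow_le_pow_left ha 3
        _ = _ := by ring
    exact Nat.le_of_mul_le_mul_right e2 (by positivity)
  have hH := H Q hQ p (p / J + 1) (by rw [hQc]; nlinarith) (by rw [hQc]; exact hNn)
    (by rw [hQc]; exact hN3)
  rw [hQc] at hH
  have hlow : N * k ≤ ∑ g ∈ Q, r g := by
    have := Finset.card_nsmul_le_sum Q r k fun g hg => hr g (hQ hg)
    rwa [hQc, smul_eq_mul] at this
  have hJN : J ^ 2 * N ≤ p ^ 2 * n := by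
    have e0 : J * p ≤ n := le_trans (Nat.mul_le_mul_right _ hJ3) hn
    have e1 : J ^ 2 * N * n ≤ p ^ 2 * n * n :=
      calc J ^ 2 * N * n = J ^ 2 * (N * n) := by ring
        _ ≤ J ^ 2 * p ^ 4 := Nat.mul_le_mul_left _ hNn
        _ = p ^ 2 * (J * p) ^ 2 := by ring
        _ ≤ p ^ 2 * n ^ 2 := Nat.mul_le_mul_left _ (Nat.pow_le_pow_left e0 2)
        _ = _ := by ring
    exact Nat.le_of_mul_le_mul_right e1 hn0
  have e1 : p * n * T ≤ p * n * (c1 * p) := Nat.mul_le_mul_left _ hT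
  have e2 : J * (p / J + 1) * n * T ≤ 2 * p * n * (c1 * p) :=
    Nat.mul_le_mul (Nat.mul_le_mul_right _ ha') hT
  have e3 : N * k ≤ C * ((2 + 3 * c1) * (p ^ 2 * n)) :=
    hlow.trans (hH.trans (Nat.mul_le_mul_left _ (by nlinarith)))
  have e4 : p ^ 4 ≤ 2 * N * (C * n) := hN2.le.trans (Nat.mul_le_mul_right _ (by omega))
  have e5 : (2 * C ^ 2 * (2 + 3 * c1) + 1) * (N * n ^ 2) ≤
      (2 * C ^ 2 * (2 + 3 * c1)) * (N * n ^ 2) :=
    calc _ = N * ((2 * C ^ 2 * (2 + 3 * c1) + 1) * n ^ 2) := by ring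
      _ ≤ N * (k * p ^ 2) := Nat.mul_le_mul_left _ hk
      _ = N * k * p ^ 2 := by ring
      _ ≤ C * ((2 + 3 * c1) * (p ^ 2 * n)) * p ^ 2 := Nat.mul_le_mul_right _ e3
      _ = C * (2 + 3 * c1) * n * p ^ 4 := by ring
      _ ≤ C * (2 + 3 * c1) * n * (2 * N * (C * n)) := Nat.mul_le_mul_left _ e4
      _ = _ := by ring
  have := Nat.le_of_mul_le_mul_right e5 (by positivity)
  omega

/-- The second moment, as pure counting. -/
lemma rich_arith (C c1 : ℕ) (hC : 1 ≤ C) : ∃ C' : ℕ, C ≤ C' ∧ ∀ {G : Type} (GG : Finset G)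
    (r : G → ℕ) (p n T J km : ℕ), 1 ≤ J → 1 ≤ p → p ≤ 2 ^ J → C' * J ^ 3 * p ≤ n →
    n ^ 2 ≤ p ^ 3 → T ≤ c1 * p → GG.card ≤ 4 * p ^ 3 → (∀ g ∈ GG, r g ≤ km) →
    (∀ g ∈ GG, r g ≤ n ^ 2) → km * T ^ 2 ≤ c1 * n ^ 2 →
    (∀ Q ⊆ GG, ∀ a1 a2 : ℕ, C * Q.card * n ≤ p ^ 4 → Q.card * n ≤ a1 ^ 4 → Q.card ≤ a2 ^ 3 →
      ∑ g ∈ Q, r g ≤ C * (a1 ^ 2 * n + a1 * n * T + J * a2 * n * T + J ^ 2 * Q.card)) →
    p * ∑ g ∈ GG, r g ^ 2 ≤ C' * n ^ 4 := by
  classical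
  obtain ⟨A, hA⟩ : ∃ A, A = 2 * C ^ 2 * (2 + 3 * c1) + 1 := ⟨_, rfl⟩
  obtain ⟨X, hX⟩ : ∃ X, X = 16 * (6 * C) ^ 2 + 16 * (6 * C) ^ 4 * c1 ^ 2 +
    8 * (6 * C) ^ 3 * c1 ^ 2 := ⟨_, rfl⟩
  refine ⟨C + 4 * A ^ 2 + 16 * X, by omega, ?_⟩
  intro G GG r p n T J km hJ hp hpJ hn hn2 hT hG hkm hr2 hk H
  have hJ3 : J ≤ J ^ 3 := Nat.le_self_pow (by norm_num) J
  have hJ31 : 1 ≤ J ^ 3 := hJ.trans hJ3
  have hCn : C * J ^ 3 * p ≤ n :=
    le_trans (Nat.mul_le_mul_right _ (Nat.mul_le_mul_right _ (by omega))) hn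
  have hn1 : J ^ 3 * p ≤ n := le_trans (Nat.mul_le_mul_right _ (Nat.le_mul_of_pos_left _ hC)) hCn
  have hCp' : C * p ≤ n := le_trans (Nat.mul_le_mul_right _ (Nat.le_mul_of_pos_right _ hJ31)) hCn
  have hJp : J * p ≤ n := le_trans (Nat.mul_le_mul_right _ hJ3) hn1
  have hn0 : 0 < n := lt_of_lt_of_le (by positivity) hn1
  have hnp : n ≤ p ^ 2 := by
    rw [← Nat.pow_le_pow_iff_left (n := 2) (by norm_num), ← pow_mul]
    exact hn2.trans (Nat.pow_le_pow_right hp (by norm_num))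
  have hCp : C ≤ p := by
    have : C * p ≤ p * p := by nlinarith
    exact Nat.le_of_mul_le_mul_right this hp
  have hA2 : 2 * C ≤ A := by rw [hA]; nlinarith
  -- one dyadic class
  have cls : ∀ Q ⊆ GG, (∀ g ∈ Q, A * n ^ 2 ≤ r g * p ^ 2) →
      (∀ g ∈ Q, ∀ g' ∈ Q, r g ≤ 2 * r g') → ∑ g ∈ Q, r g ^ 2 ≤ 4 * X * n ^ 3 := by
    intro Q hQ h1 h2
    rcases Q.eq_empty_or_nonempty with rfl | hne
    · simp
    obtain ⟨g0, hg0, hmin⟩ := Finset.exists_min_image Q r hne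
    have hN : 0 < Q.card := hne.card_pos
    have hs := rich_small r Q hJ hC hp hn1 hnp hCp hT hmin (hA ▸ h1 g0 hg0)
      fun Q' hQ' => H Q' (hQ'.trans hQ)
    obtain ⟨a1, ha1, ha1'⟩ := exists_root (Q.card * n) 4 (by norm_num)
    obtain ⟨a2, ha2, ha2'⟩ := exists_root Q.card 3 (by norm_num)
    have hH := H Q hQ a1 a2 hs ha1 ha2
    have hlow : Q.card * r g0 ≤ ∑ g ∈ Q, r g := by
      simpa using Finset.card_nsmul_le_sum Q r (r g0) hmin
    have hk0 : 2 * C * J ^ 2 ≤ r g0 := by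
      have e1 : 2 * C * J ^ 2 * p ^ 2 ≤ r g0 * p ^ 2 :=
        calc 2 * C * J ^ 2 * p ^ 2 = 2 * C * (J * p) ^ 2 := by ring
          _ ≤ A * n ^ 2 := Nat.mul_le_mul hA2 (Nat.pow_le_pow_left hJp 2)
          _ ≤ _ := h1 g0 hg0
      exact Nat.le_of_mul_le_mul_right e1 (by positivity)
    have e2 : Q.card * (2 * C * J ^ 2) ≤ Q.card * r g0 := Nat.mul_le_mul_left _ hk0
    have e3 := rich_cases (M := 6 * C) (c1 := c1) (k := r g0) (n := n) (T := T) (J := J) hN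
      (by simpa using ha1') (by simpa using ha2')
      ((Nat.mul_le_mul_right _ (hkm g0 (hQ hg0))).trans hk)
      (by
        calc J ^ 3 * T ≤ J ^ 3 * (c1 * p) := Nat.mul_le_mul_left _ hT
          _ = c1 * (J ^ 3 * p) := by ring
          _ ≤ c1 * n := Nat.mul_le_mul_left _ hn1)
      (by nlinarith)
    rw [← hX] at e3
    calc ∑ g ∈ Q, r g ^ 2 ≤ Q.card • (2 * r g0) ^ 2 :=
          Finset.sum_le_card_nsmul _ _ _ fun g hg => Nat.pow_le_pow_left (h2 g hg g0 hg0) 2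
      _ = 4 * (Q.card * r g0 ^ 2) := by rw [smul_eq_mul]; ring
      _ ≤ 4 * (X * n ^ 3) := Nat.mul_le_mul_left _ e3
      _ = _ := by ring
  rw [← Finset.sum_filter_add_sum_filter_not GG fun g => A * n ^ 2 ≤ r g * p ^ 2]
  have hhigh : ∑ g ∈ GG.filter (fun g => A * n ^ 2 ≤ r g * p ^ 2), r g ^ 2 ≤
      4 * J * (4 * X * n ^ 3) := by
    have hpos : ∀ g ∈ GG.filter (fun g => A * n ^ 2 ≤ r g * p ^ 2), r g ≠ 0 := by
      intro g hg h0
      have h1 := (mem_filter.1 hg).2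
      have h2 : 0 < A * n ^ 2 := Nat.mul_pos (by omega) (by positivity)
      rw [h0] at h1; omega
    rw [← Finset.sum_fiberwise_of_maps_to (t := range (4 * J)) (g := fun g => Nat.log 2 (r g))]
    · refine (Finset.sum_le_card_nsmul _ _ (4 * X * n ^ 3) fun i _ => ?_).trans (by simp)
      refine cls _ (fun g hg => (mem_filter.1 (mem_filter.1 hg).1).1)
        (fun g hg => (mem_filter.1 (mem_filter.1 hg).1).2) fun g hg g' hg' => ?_
      have h1 := Nat.lt_pow_succ_log_self (b := 2) (by norm_num) (r g)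
      have h2 := Nat.pow_log_le_self 2 (hpos g' (mem_filter.1 hg').1)
      rw [(mem_filter.1 hg).2, Nat.succ_eq_add_one, pow_succ] at h1
      rw [(mem_filter.1 hg').2] at h2
      omega
    · intro g hg
      rw [mem_range]
      apply Nat.log_lt_of_lt_pow (hpos g hg)
      calc r g ≤ n ^ 2 := hr2 g (mem_filter.1 hg).1
        _ ≤ p ^ 3 := hn2
        _ ≤ (2 ^ J) ^ 3 := Nat.pow_le_pow_left hpJ 3
        _ = 2 ^ (J * 3) := (pow_mul _ _ _).symm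
        _ < 2 ^ (4 * J) := Nat.pow_lt_pow_right (by norm_num) (by omega)
  have hlow : p * ∑ g ∈ GG.filter (fun g => ¬A * n ^ 2 ≤ r g * p ^ 2), r g ^ 2 ≤
      4 * A ^ 2 * n ^ 4 := by
    have e1 : (p * ∑ g ∈ GG.filter (fun g => ¬A * n ^ 2 ≤ r g * p ^ 2), r g ^ 2) * p ^ 3 ≤
        4 * A ^ 2 * n ^ 4 * p ^ 3 :=
      calc _ = ∑ g ∈ GG.filter (fun g => ¬A * n ^ 2 ≤ r g * p ^ 2), (r g * p ^ 2) ^ 2 := by
            rw [mul_comm p, mul_assoc, Finset.sum_mul]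
            exact Finset.sum_congr rfl fun g _ => by ring
        _ ≤ (GG.filter (fun g => ¬A * n ^ 2 ≤ r g * p ^ 2)).card • (A * n ^ 2) ^ 2 :=
            Finset.sum_le_card_nsmul _ _ _ fun g hg =>
              Nat.pow_le_pow_left (not_le.1 (mem_filter.1 hg).2).le 2
        _ ≤ 4 * p ^ 3 * (A * n ^ 2) ^ 2 := by
            rw [smul_eq_mul]
            exact Nat.mul_le_mul_right _ ((card_filter_le _ _).trans hG)
        _ = _ := by ring
    exact Nat.le_of_mul_le_mul_right e1 (by positivity)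
  have e2 : p * (4 * J * (4 * X * n ^ 3)) ≤ 16 * X * n ^ 4 :=
    calc p * (4 * J * (4 * X * n ^ 3)) = 16 * X * n ^ 3 * (J * p) := by ring
      _ ≤ 16 * X * n ^ 3 * n := Nat.mul_le_mul_left _ hJp
      _ = _ := by ring
  have e3 := Nat.mul_le_mul_left p hhigh
  rw [mul_add, add_mul, add_mul]
  omega

theorem richSt (h : MainSt) : RichSt := by
  intro c1 c2
  obtain ⟨C, hC⟩ := h c1 c2
  obtain ⟨C', hC', H⟩ := rich_arith (C + 1) c1 (by omega)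
  refine ⟨C', ?_⟩
  intro K _ _ p _ E V1 V2 D T ρ km GG cnt hp hD hX hI hP hA hR hρ hn hn2 hT hG hkm hk
  have hJ : 1 ≤ JJ p := by unfold JJ; omega
  have hJ3 : 1 ≤ JJ p ^ 3 := Nat.one_le_pow _ _ hJ
  refine H GG _ p E.card T (JJ p) km hJ hp ?_ hn hn2 hT hG hkm ?_ hk ?_
  · unfold JJ
    exact (Nat.lt_pow_succ_log_self (b := 2) (by norm_num) p).le.trans
      (Nat.pow_le_pow_right (by norm_num) (by omega))
  · intro g _
    classical
    unfold rr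
    refine (Finset.card_le_card (Finset.filter_subset _ _)).trans ?_
    rw [Finset.card_product, sq]
  · intro Q hQ a1 a2 h1 h2 h3
    refine (hC K p E V1 V2 D T ρ a1 a2 Q cnt hp hD
      (fun a b F hb hF hc g hg => hX a b F hb hF hc g (hQ hg)) hI
      ⟨fun g hg => hP.1 g (hQ hg), fun g hg g' hg' => hP.2 g (hQ hg) g' (hQ hg')⟩ hA hR hρ ?_ ?_
      ?_ h2 h3).trans (Nat.mul_le_mul_right _ (Nat.le_succ C))
    · exact le_trans (Nat.mul_le_mul_right _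
        (le_trans (by omega) (Nat.le_mul_of_pos_right C' hJ3))) hn
    · rw [← Nat.pow_le_pow_iff_left (n := 2) (by norm_num), ← pow_mul]
      exact hn2.trans (Nat.pow_le_pow_right hp (by norm_num))
    · exact le_trans (Nat.mul_le_mul_right _ (Nat.mul_le_mul_right _ (Nat.le_succ C))) h1

end Pool.Agent.Lib.MP_a460e0_co.GK
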