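import Pool.Agent.Lib.MP_a460e0_co.GK.Dec

/-! A second curve through a point set that lies on given curves. -/

namespace Pool.Agent.Lib.MP_a460e0_co.GK.Sec

open MvPolynomial

variable {K : Type} [Field K]

/-- More monomials than points give a polynomial through the points. -/
theorem exists_vanish (M : Finset (Fin 2 →₀ ℕ)) (Z : Finset (K × K)) (h : Z.card < M.card) :
    ∃ f : P2 K, f ≠ 0 ∧ f.support ⊆ M ∧ ∀ x ∈ Z, ev2 x f = 0 := by
  classical
  let V := restrictSupport K (M : Set (Fin 2 →₀ ℕ))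
  have hb := basisRestrictSupport K (M : Set (Fin 2 →₀ ℕ))
  have : Module.Finite K V := Module.Finite.of_basis hb
  have hV : Module.finrank K V = M.card := by
    rw [Module.finrank_eq_card_basis hb]
    simp
  let φ : V →ₗ[K] (Z → K) :=
    LinearMap.pi fun x => (aeval ![x.1.1, x.1.2] : P2 K →ₐ[K] K).toLinearMap ∘ₗ V.subtype
  have hk : LinearMap.ker φ ≠ ⊥ := by
    refine LinearMap.ker_ne_bot_of_finrank_lt ?_
    rw [hV]
    simpa using h
  obtain ⟨f, hf, hf0⟩ := Submodule.exists_mem_ne_zero_of_ne_bot hk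
  refine ⟨f.1, fun h0 => hf0 (Subtype.ext h0), ?_, fun x hx => ?_⟩
  · exact Finset.coe_subset.1 ((mem_restrictSupport_iff K).1 f.2)
  · have := congrFun (LinearMap.mem_ker.1 hf) ⟨x, hx⟩
    simpa [φ, ev2, coe_aeval_eq_eval] using this

theorem totalDegree_pos {c : P2 K} (hc : Irreducible c) : 0 < c.totalDegree := by
  rcases Nat.eq_zero_or_pos c.totalDegree with h | h
  · exfalso
    rw [totalDegree_eq_zero_iff_eq_C] at h
    by_cases h0 : coeff 0 c = 0
    · rw [h0, map_zero] at h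
      exact hc.ne_zero h
    · exact hc.not_isUnit (h ▸ (IsUnit.mk0 _ h0).map C)
  · exact h

/-- A polynomial through the points that the given one does not divide. -/
theorem exists_not_dvd (c : P2 K) (hc0 : c ≠ 0) (hd : 0 < c.totalDegree) (ρ : ℕ)
    (Z : Finset (K × K)) (hZ : Z.card ≤ ρ * c.totalDegree) :
    ∃ f : P2 K, ¬c ∣ f ∧ f.totalDegree ≤ ρ + c.totalDegree ∧ ∀ x ∈ Z, ev2 x f = 0 := by
  classical
  set m : MonomialOrder (Fin 2) := MonomialOrder.degLex with hm
  set u := m.degree c with hu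
  have hab : u 0 + u 1 = c.totalDegree := by
    rw [← degree_degLexDegree (f := c), Finsupp.degree_eq_sum, Fin.sum_univ_two]
  let e : ℕ × ℕ → Fin 2 →₀ ℕ := fun q => Finsupp.equivFunOnFinite.symm ![q.1, q.2]
  have he0 : ∀ q, e q 0 = q.1 := fun q => rfl
  have he1 : ∀ q, e q 1 = q.2 := fun q => rfl
  have hinj : Function.Injective e := fun q q' h =>
    Prod.ext (by rw [← he0, h, he0]) (by rw [← he1, h, he1])
  set M1 := Finset.range (u 0) ×ˢ Finset.range (ρ + 1) with hM1
  set M2 := Finset.Ico (u 0) (u 0 + (ρ + 1)) ×ˢ Finset.range (u 1) with hM2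
  have hdis : Disjoint M1 M2 := by
    rw [Finset.disjoint_left]
    intro q h1 h2
    simp only [hM1, hM2, Finset.mem_product, Finset.mem_range, Finset.mem_Ico] at h1 h2
    omega
  have hcard : Z.card < ((M1 ∪ M2).image e).card := by
    rw [Finset.card_image_of_injective _ hinj, Finset.card_union_of_disjoint hdis]
    simp only [hM1, hM2, Finset.card_product, Finset.card_range, Nat.card_Ico,
      Nat.add_sub_cancel_left]
    rw [← hab] at hZ hd
    nlinarith
  obtain ⟨f, hf0, hfs, hfz⟩ := exists_vanish _ Z hcard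
  have hmem : ∀ v ∈ f.support, (v 0 < u 0 ∨ v 1 < u 1) ∧ v 0 + v 1 ≤ ρ + c.totalDegree := by
    intro v hv
    obtain ⟨q, hq, rfl⟩ := Finset.mem_image.1 (hfs hv)
    simp only [hM1, hM2, Finset.mem_union, Finset.mem_product, Finset.mem_range,
      Finset.mem_Ico] at hq
    rw [he0, he1]
    omega
  refine ⟨f, ?_, ?_, hfz⟩
  · rintro ⟨g, rfl⟩
    have hg : g ≠ 0 := right_ne_zero_of_mul hf0
    have h1 := (hmem _ (m.degree_mem_support hf0)).1
    rw [m.degree_mul hc0 hg, ← hu] at h1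
    simp only [Finsupp.add_apply] at h1
    omega
  · refine Finset.sup_le fun v hv => ?_
    have := (hmem v hv).2
    rw [Finsupp.sum_fintype _ _ (fun _ => rfl), Fin.sum_univ_two]
    exact this

theorem secSt : SecSt := by
  classical
  intro K _ E CC ρ hCC hE hr
  have hex : ∀ c : P2 K, ∃ f : P2 K, c ∈ CC → ¬c ∣ f ∧ f.totalDegree ≤ ρ + c.totalDegree ∧
      ∀ x ∈ E, ev2 x c = 0 → ev2 x f = 0 := by
    intro c
    by_cases hc : c ∈ CC
    · obtain ⟨W, hW, hw⟩ := Dec.exists_rr (fun c x => ev2 x c = 0) E c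
      obtain ⟨f, h1, h2, h3⟩ := exists_not_dvd c (hCC.1 c hc).ne_zero
        (totalDegree_pos (hCC.1 c hc)) ρ W (hW ▸ hr c hc)
      exact ⟨f, fun _ => ⟨h1, h2, fun x hx h0 => h3 x ((hw x).2 ⟨hx, h0⟩)⟩⟩
    · exact ⟨0, fun h => absurd h hc⟩
  choose st hst using hex
  refine ⟨∑ c ∈ CC, (∏ c' ∈ CC.erase c, c') * st c, ?_, ?_, ?_⟩
  · refine IsRelPrime.prod_left fun c hc => (hCC.1 c hc).isRelPrime_iff_not_dvd.2 fun hd => ?_
    rw [← Finset.add_sum_erase _ _ hc] at hd
    have h1 : c ∣ ∑ c1 ∈ CC.erase c, (∏ c' ∈ CC.erase c1, c') * st c1 := by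
      refine Finset.dvd_sum fun c1 h1 => Dvd.dvd.mul_right ?_ _
      exact Finset.dvd_prod_of_mem (fun c' : P2 K => c')
        (Finset.mem_erase.2 ⟨(Finset.mem_erase.1 h1).1.symm, hc⟩)
    have hp : Prime c := (hCC.1 c hc).prime
    rcases hp.dvd_or_dvd ((dvd_add_left h1).1 hd) with h2 | h2
    · obtain ⟨c', h3, h4⟩ := (hp.dvd_finsetProd_iff _).1 h2
      have h5 := Finset.mem_erase.1 h3
      exact h5.1 (hCC.2 c hc c' h5.2 h4).symm
    · exact (hst c hc).1 h2
  · refine totalDegree_finsetSum_le fun c hc => (totalDegree_mul _ _).trans ?_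
    have h1 := totalDegree_finsetProd (CC.erase c) fun c' : P2 K => c'
    have h2 := (hst c hc).2.1
    rw [← Finset.add_sum_erase _ _ hc]
    omega
  · intro x hx
    obtain ⟨c0, hc0, h0⟩ := hE x hx
    unfold ev2
    rw [map_sum]
    refine Finset.sum_eq_zero fun c hc => ?_
    by_cases h : c0 = c
    · subst h
      exact Dec.ev2_dvd (Dvd.intro_left _ rfl) ((hst c0 hc).2.2 x hx h0)
    · refine Dec.ev2_dvd (Dvd.dvd.mul_right ?_ _) h0
      exact Finset.dvd_prod_of_mem (fun c' : P2 K => c') (Finset.mem_erase.2 ⟨h, hc0⟩)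

end Pool.Agent.Lib.MP_a460e0_co.GK.Sec

namespace Pool.Agent.Lib.MP_a460e0_co.GK

theorem secSt : SecSt := Sec.secSt

end Pool.Agent.Lib.MP_a460e0_co.GK
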