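import Pool.Agent.Lib.MP_a460e0_co.GK.Model
import Pool.Agent.Lib.MP_a460e0_co.SlC

/-! From the energy theorem to distances on the two-dimensional sphere. -/

namespace Pool.Agent.Lib.MP_a460e0_co.GK

open Finset

theorem exists_small (C : ℕ) : ∃ B : ℕ, 1 ≤ B ∧ ∀ p : ℕ, B ≤ p → C * JJ p ^ 8 ≤ p := by
  have h := (isLittleO_pow_const_const_pow_of_one_lt (R := ℝ) 8 (r := 2) one_lt_two).def
    (c := 1 / (4 * C + 1)) (by positivity)
  obtain ⟨m0, hm⟩ := Filter.eventually_atTop.1 h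
  refine ⟨2 ^ m0, Nat.one_le_two_pow, fun p hp => ?_⟩
  have p0 : p ≠ 0 := by have := Nat.one_le_two_pow (n := m0); omega
  have h1 : m0 ≤ Nat.log 2 p := Nat.le_log_of_pow_le one_lt_two hp
  have h2 := hm (JJ p) (by unfold JJ; omega)
  have h3 : (2 : ℝ) ^ Nat.log 2 p ≤ p := by exact_mod_cast Nat.pow_log_le_self 2 p0
  rw [Real.norm_of_nonneg (by positivity), Real.norm_of_nonneg (by positivity), one_div,
    inv_mul_eq_div, le_div_iff₀ (by positivity)] at h2
  have h4 : (2 : ℝ) ^ JJ p = 4 * 2 ^ Nat.log 2 p := by unfold JJ; ring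
  have h5 : (0 : ℝ) ≤ (JJ p : ℝ) ^ 8 := by positivity
  have : (C : ℝ) * (JJ p : ℝ) ^ 8 ≤ p := by nlinarith
  exact_mod_cast this

open Classical in
theorem card_nd {K : Type} [Field K] {E : Finset (K × K)} {ρ : ℕ} (h : Rul E ρ) :
    E.card * E.card ≤ ((E ×ˢ E).filter fun q => ND q.1 q.2).card + 4 * ρ * E.card := by
  have h1 := card_filter_add_card_filter_not (s := E ×ˢ E) fun q => ND q.1 q.2
  rw [card_product] at h1
  have h2 : ((E ×ˢ E).filter fun q => ¬ND q.1 q.2).card ≤ 4 * ρ * E.card := by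
    refine card_le_mul_card_image_of_maps_to (f := fun q => q.1) (t := E)
      (fun q hq => (mem_product.1 (mem_filter.1 hq).1).1) _ fun x _ => ?_
    have a1 := h x.1 _ (filter_subset (fun y => y.1 = x.1) E) (.inl fun y hy => (mem_filter.1 hy).2)
    have a2 := h x.2 _ (filter_subset (fun y => y.1 = x.2) E) (.inl fun y hy => (mem_filter.1 hy).2)
    have a3 := h x.1 _ (filter_subset (fun y => y.2 = x.1) E) (.inr fun y hy => (mem_filter.1 hy).2)
    have a4 := h x.2 _ (filter_subset (fun y => y.2 = x.2) E) (.inr fun y hy => (mem_filter.1 hy).2)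
    refine (card_le_card_of_injOn (t := ((E.filter fun y => y.1 = x.1) ∪
      (E.filter fun y => y.1 = x.2)) ∪ ((E.filter fun y => y.2 = x.1) ∪
      (E.filter fun y => y.2 = x.2))) (fun q => q.2) (fun q hq => ?_) fun q hq q' hq' e => ?_).trans
      ((card_union_le _ _).trans ((add_le_add (card_union_le _ _) (card_union_le _ _)).trans
        (by omega)))
    · obtain ⟨b1, rfl⟩ := mem_filter.1 (mem_coe.1 hq)
      obtain ⟨b2, b3⟩ := mem_filter.1 b1
      have b4 := (mem_product.1 b2).2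
      simp only [coe_union, coe_filter, Set.mem_union, Set.mem_ofPred_eq, b4, true_and]
      unfold ND at b3
      tauto
    · exact Prod.ext ((mem_filter.1 (mem_coe.1 hq)).2.trans (mem_filter.1 (mem_coe.1 hq')).2.symm) e
  omega

theorem sphereSt_of (hE : EnergySt) (hM : ModelSt) : SphereSt := by
  classical
  obtain ⟨C, hC⟩ := hE
  obtain ⟨B, B1, hB⟩ := exists_small (C ^ 2)
  refine ⟨4 * C + 2 + B, by omega, fun F _ _ _ j E hp hF hj hS hN => ?_⟩
  set p := Fintype.card F with hpd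
  have p1 : 1 ≤ p := hp.one_le
  have J1 : 1 ≤ JJ p ^ 4 := Nat.one_le_pow _ _ (by unfold JJ; omega)
  have JP : p ≤ JJ p ^ 4 * p := Nat.le_mul_of_pos_left _ J1
  rcases lt_or_ge p B with hpB | hpB
  · have e0 : 0 < E.card := lt_of_lt_of_le (by positivity) hN
    have e1 : 0 < ((E ×ˢ E).image fun q => ∑ i, (q.1 i - q.2 i) ^ 2).card :=
      card_pos.2 (((card_pos.1 e0).product (card_pos.1 e0)).image _)
    nlinarith
  have : Fact p.Prime := ⟨hp⟩
  have : CharP F p := charP_of_card_eq_prime hpd.symm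
  have : CharP (AlgebraicClosure F) p :=
    charP_of_injective_algebraMap (algebraMap F (AlgebraicClosure F)).injective p
  obtain ⟨E0, GG, ψ, c0, m0, na, pr, gc, po, hg⟩ := hM F (AlgebraicClosure F) j E hF hj hS
  rw [← hpd] at c0 gc po
  obtain ⟨E2, s2, c2⟩ := exists_subset_card_eq (s := E0) (n := C * JJ p ^ 4 * p) (by nlinarith)
  obtain ⟨E', s', c', en⟩ := hC (AlgebraicClosure F) p E2 GG p1 (fun x hx => (m0 x (s2 hx)).1)
    (na.mono s2) pr gc (po.mono s2) c2.ge (by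
      rw [c2]
      calc (C * JJ p ^ 4 * p) ^ 2 = C ^ 2 * JJ p ^ 8 * p ^ 2 := by ring
        _ ≤ p * p ^ 2 := Nat.mul_le_mul_right _ (hB p hpB)
        _ = p ^ 3 := by ring)
  have s0 : E' ⊆ E0 := s'.trans s2
  have nd := card_nd (po.mono s0).rul
  set N := (E' ×ˢ E').filter fun q => ND q.1 q.2 with hNd
  let ds : Ln (AlgebraicClosure F) → F := fun q => ∑ i, (ψ q.1 i - ψ q.2 i) ^ 2
  have cs := Sl.cs_image N ds
  have im : (N.image ds).card ≤ ((E ×ˢ E).image fun q => ∑ i, (q.1 i - q.2 i) ^ 2).card := by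
    refine card_le_card fun t ht => ?_
    obtain ⟨q, hq, rfl⟩ := mem_image.1 ht
    obtain ⟨a, b⟩ := mem_product.1 (mem_filter.1 hq).1
    exact mem_image.2 ⟨(ψ q.1, ψ q.2), mem_product.2 ⟨(m0 _ (s0 a)).2, (m0 _ (s0 b)).2⟩, rfl⟩
  have le : ∑ a ∈ N, #{b ∈ N | ds b = ds a} ≤ En GG E' := by
    rw [← card_sigma, En]
    refine (card_le_card_of_injOn (fun q => ((q.1.1, q.2.1), (q.1.2, q.2.2))) (fun q hq => ?_)
      fun q _ q' _ e => ?_).trans card_biUnion_le
    · obtain ⟨a, b⟩ := mem_sigma.1 (mem_coe.1 hq)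
      obtain ⟨b, c⟩ := mem_filter.1 b
      obtain ⟨a1, a2⟩ := mem_filter.1 a
      obtain ⟨b1, b2⟩ := mem_filter.1 b
      obtain ⟨a3, a4⟩ := mem_product.1 a1
      obtain ⟨b3, b4⟩ := mem_product.1 b1
      obtain ⟨g, g1, g2, g3⟩ := hg _ (s0 a3) _ (s0 a4) _ (s0 b3) _ (s0 b4) a2 b2 c.symm
      exact mem_coe.2 (mem_biUnion.2 ⟨g, g1, mem_filter.2 ⟨mem_product.2
        ⟨mem_product.2 ⟨a3, b3⟩, mem_product.2 ⟨a4, b4⟩⟩, g2, g3, a2⟩⟩)
    · obtain ⟨⟨a, b⟩, c, d⟩ := q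
      obtain ⟨⟨a', b'⟩, c', d'⟩ := q'
      simp only [Prod.mk.injEq] at e
      obtain ⟨⟨rfl, rfl⟩, rfl, rfl⟩ := e
      rfl
  have cs' : N.card ^ 2 ≤ (N.image ds).card * ∑ a ∈ N, #{b ∈ N | ds b = ds a} := by
    exact_mod_cast cs
  set D := ((E ×ˢ E).image fun q => ∑ i, (q.1 i - q.2 i) ^ 2).card
  have n2 : E'.card * E'.card ≤ 2 * N.card := by nlinarith
  have n0 : 0 < E'.card ^ 4 := pow_pos (by omega) 4
  have k : p * E'.card ^ 4 ≤ 4 * C * D * E'.card ^ 4 :=
    calc p * E'.card ^ 4 = p * (E'.card * E'.card) ^ 2 := by ring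
      _ ≤ p * (2 * N.card) ^ 2 := by gcongr
      _ = 4 * p * N.card ^ 2 := by ring
      _ ≤ 4 * p * (D * En GG E') := Nat.mul_le_mul_left _ (cs'.trans (Nat.mul_le_mul im le))
      _ = 4 * D * (p * En GG E') := by ring
      _ ≤ 4 * D * (C * E'.card ^ 4) := Nat.mul_le_mul_left _ en
      _ = _ := by ring
  exact (Nat.le_of_mul_le_mul_right k n0).trans (Nat.mul_le_mul_right _ (by omega))

theorem sphereSt (hE : EnergySt) : SphereSt := sphereSt_of hE modelSt

end Pool.Agent.Lib.MP_a460e0_co.GK
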