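import Pool.Agent.Lib.MP_a460e0_co.GK.StepB
import Pool.Agent.Lib.MP_a460e0_co.GK.Basic
import Pool.Agent.Lib.MP_a460e0_co.GK.BasicM1

/-! The step of Lemma B. -/

namespace Pool.Agent.Lib.MP_a460e0_co.GK

theorem Step.bas (K : Type) [Field K] : Step.Bas K where
  fil := fun _ _ _ _ _ h1 h2 h => Fil_mono h1 h2 h
  anti := fun _ _ d e h => HF_anti h d e
  prime := fun _ h => tilde_prime h
  inf := fun _ _ _ h => mem_tilde_inf.2 h
  dj := fun _ _ j h => Dj_mem_tilde h j
  djfil := fun _ _ _ j h => Dj_mem_Fil h j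

theorem stepSt (hdeg : DegSt) (h42 : H42St) (hcut : CutSt) (hinv : InvSt) (hgrow : GrowSt)
    (hcount : CountSt) : StepSt :=
  Step.step_of Step.bas hdeg h42 hcut hinv hgrow hcount

end Pool.Agent.Lib.MP_a460e0_co.GK
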