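import Pool.Agent.Lib.MP_a460e0_co.GK.Base
import Pool.Agent.Lib.MP_a460e0_co.GK.Bdy
import Pool.Agent.Lib.MP_a460e0_co.GK.Bez
import Pool.Agent.Lib.MP_a460e0_co.GK.Comp
import Pool.Agent.Lib.MP_a460e0_co.GK.Count
import Pool.Agent.Lib.MP_a460e0_co.GK.Cut
import Pool.Agent.Lib.MP_a460e0_co.GK.Dec
import Pool.Agent.Lib.MP_a460e0_co.GK.Deg
import Pool.Agent.Lib.MP_a460e0_co.GK.End
import Pool.Agent.Lib.MP_a460e0_co.GK.Energy
import Pool.Agent.Lib.MP_a460e0_co.GK.ExcB
import Pool.Agent.Lib.MP_a460e0_co.GK.Final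
import Pool.Agent.Lib.MP_a460e0_co.GK.Flat
import Pool.Agent.Lib.MP_a460e0_co.GK.Foot
import Pool.Agent.Lib.MP_a460e0_co.GK.Grow
import Pool.Agent.Lib.MP_a460e0_co.GK.Heavy
import Pool.Agent.Lib.MP_a460e0_co.GK.HilA
import Pool.Agent.Lib.MP_a460e0_co.GK.HilC
import Pool.Agent.Lib.MP_a460e0_co.GK.Inv
import Pool.Agent.Lib.MP_a460e0_co.GK.LemB
import Pool.Agent.Lib.MP_a460e0_co.GK.Main
import Pool.Agent.Lib.MP_a460e0_co.GK.Ord
import Pool.Agent.Lib.MP_a460e0_co.GK.Plane
import Pool.Agent.Lib.MP_a460e0_co.GK.RegA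
import Pool.Agent.Lib.MP_a460e0_co.GK.RegB
import Pool.Agent.Lib.MP_a460e0_co.GK.RegC
import Pool.Agent.Lib.MP_a460e0_co.GK.Rich
import Pool.Agent.Lib.MP_a460e0_co.GK.Sec
import Pool.Agent.Lib.MP_a460e0_co.GK.Sphere
import Pool.Agent.Lib.MP_a460e0_co.GK.Step

/-! Assembly of the rich point bound and of the distance theorem on spheres over prime fields. -/

namespace Pool.Agent.Lib.MP_a460e0_co.GK

namespace All

theorem lemB : LemBSt :=
  lemBSt degSt (stepSt degSt (h42St degSt) cutSt invSt (growSt footSt bdySt) countSt)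
    (heavySt (h42St degSt))

theorem rich : RichSt := richSt (mainSt lemB ordSt (endSt flatSt))

theorem bez : BezSt := bezSt (h11St degSt)

theorem exc : ExcSt := excSt prodSt bdySt (h42St degSt) bez

theorem energy : EnergySt :=
  energySt (regASt rich secSt baseSt dimSt) (regBSt rich exc compSt secSt baseSt bez)
    (regCSt planeSt) decSt

theorem sphere : SphereSt := sphereSt energy

end All

end Pool.Agent.Lib.MP_a460e0_co.GK
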