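import Pool.Agent.Lib.MP_a460e0_co.GK.Pit

/-! Dimensions of base loci and of products of curves (T16, T17 first half). -/

set_option autoImplicit false

namespace Pool.Agent.Lib.MP_a460e0_co.GK

open MvPolynomial

namespace Pit

variable {K : Type} [Field K] {A : Type} [CommRing A] [Algebra K A]

theorem aeval_mk (P : Ideal A) {ι : Type} (f : ι → A) (h : MvPolynomial ι K) :
    aeval (fun i => Ideal.Quotient.mk P (f i)) h = Ideal.Quotient.mk P (aeval f h) := by
  simpa using (comp_aeval_apply (f := f) (Ideal.Quotient.mkₐ K P) h).symm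

/-- A strictly smaller prime has strictly larger dimension. -/
theorem DimA.succ_of_lt {P Q : Ideal A} [P.IsPrime] {r : ℕ} (h : DimA K Q r) (hPQ : P < Q) :
    DimA K P (r + 1) := by
  obtain ⟨φ, hφQ, hφP⟩ := SetLike.exists_of_lt hPQ
  obtain ⟨f, hf⟩ := dimGE_iff_aeval.1 h
  have h1 : AlgebraicIndependent K fun i => Ideal.Quotient.mk P (f i) :=
    algebraicIndependent_iff.2 fun u hu => hf u (hPQ.le (by
      rwa [aeval_mk, Ideal.Quotient.eq_zero_iff_mem] at hu))
  have h2 : Transcendental (Algebra.adjoin K (Set.range fun i => Ideal.Quotient.mk P (f i)))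
      (Ideal.Quotient.mk P φ) := by
    intro ha
    obtain ⟨c, hc0, w, hw⟩ := ha.exists_nonzero_dvd
      (mem_nonZeroDivisors_of_ne_zero fun e => hφP (Ideal.Quotient.eq_zero_iff_mem.1 e))
    obtain ⟨c, hc⟩ := c
    have hc' := hc
    rw [Algebra.adjoin_range_eq_range_aeval] at hc'
    obtain ⟨u, rfl⟩ := hc'
    obtain ⟨w, rfl⟩ := Ideal.Quotient.mk_surjective w
    have h3 : Ideal.Quotient.mk P (aeval f u) = Ideal.Quotient.mk P (φ * w) := by
      rw [← aeval_mk, map_mul]; exact hw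
    have h4 : aeval f u ∈ Q := by
      have := Q.add_mem (hPQ.le (Ideal.Quotient.eq.1 h3)) (Q.mul_mem_right w hφQ)
      simpa using this
    have h5 := hf u h4
    subst h5
    exact hc0 (Subtype.ext (by simp))
  have h6 := (h1.option_iff_transcendental _).2 h2
  refine ⟨fun i => (finSuccEquiv r i).elim φ f, ?_⟩
  convert h6.comp _ (finSuccEquiv r).injective using 1
  funext i
  simp only [Function.comp]
  cases finSuccEquiv r i <;> rfl

theorem not_dimA_bot_mv (σ : Type) [Fintype σ] :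
    ¬DimA K (⊥ : Ideal (MvPolynomial σ K)) (Fintype.card σ + 1) := by
  intro h
  have h1 := h.le_trdeg.trans (trdeg_le_of_surjective (Ideal.Quotient.mkₐ K
    (⊥ : Ideal (MvPolynomial σ K))) Ideal.Quotient.mk_surjective)
  rw [MvPolynomial.trdeg_of_isDomain] at h1
  simp only [Cardinal.mk_fintype, Cardinal.lift_natCast, Nat.cast_le] at h1
  omega

theorem dimA_of_sub {A' : Type} [CommRing A'] [Algebra K A'] (g : A' →ₐ[K] A) {Q : Ideal A}
    {t : Set (A ⧸ Q)} (ht : AlgebraicIndependent K ((↑) : t → A ⧸ Q)) {a : ℕ}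
    (h : ¬Cardinal.mk {z : A ⧸ Q | z ∈ t ∧ ∃ u, Ideal.Quotient.mk Q (g u) = z} ≤ a) :
    DimA K (Q.comap g) (a + 1) := by
  rw [not_le, ← Order.succ_le_iff, Cardinal.succ_natCast, ← Nat.cast_succ,
    ← Cardinal.mk_fin] at h
  obtain ⟨e⟩ := (Cardinal.le_def _ _).1 h
  choose f hf using fun i => (e i).2.2
  refine dimGE_iff_aeval.2 ⟨f, fun u hu => ?_⟩
  have h1 : AlgebraicIndependent K fun i => ((e i).1 : A ⧸ Q) :=
    ht.comp (fun i => ⟨(e i).1, (e i).2.1⟩) fun i j hij =>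
      e.injective (Subtype.ext (Subtype.mk.inj hij))
  refine algebraicIndependent_iff.1 h1 u ?_
  rw [← funext hf, aeval_mk, Ideal.Quotient.eq_zero_iff_mem, ← comp_aeval_apply]
  exact hu

theorem exists_basis_subset {B : Type} [CommRing B] [IsDomain B] [Algebra K B] (s : Set B)
    (_ : Algebra.IsAlgebraic (Algebra.adjoin K s) B) :
    ∃ t, t ⊆ s ∧ IsTranscendenceBasis K ((↑) : t → B) :=
  exists_isTranscendenceBasis_subset s

/-- Dimension is subadditive over two blocks of variables. -/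
theorem dimA_blocks {σ : Type} {A' : Type} [CommRing A'] [Algebra K A']
    (g1 g2 : A' →ₐ[K] MvPolynomial σ K) (hX : ∀ i, (∃ u, g1 u = X i) ∨ ∃ u, g2 u = X i)
    {Q : Ideal (MvPolynomial σ K)} [Q.IsPrime] {a b : ℕ} (h : DimA K Q (a + b + 1)) :
    DimA K (Q.comap g1) (a + 1) ∨ DimA K (Q.comap g2) (b + 1) := by
  set s : Set (MvPolynomial σ K ⧸ Q) := Set.range fun i => Ideal.Quotient.mk Q (X i) with hs
  have htop : Algebra.adjoin K s = ⊤ := by
    rw [hs, Algebra.adjoin_range_eq_range_aeval, AlgHom.range_eq_top]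
    intro z
    obtain ⟨z, rfl⟩ := Ideal.Quotient.mk_surjective z
    exact ⟨z, by rw [aeval_mk]; simp⟩
  have : Algebra.IsAlgebraic (Algebra.adjoin K s) (MvPolynomial σ K ⧸ Q) :=
    ⟨fun z => isAlgebraic_algebraMap (⟨z, htop ▸ Algebra.mem_top⟩ : Algebra.adjoin K s)⟩
  obtain ⟨t, hts, ht⟩ := exists_basis_subset (K := K) s this
  have h1 := h.le_trdeg
  rw [← ht.cardinalMk_eq_trdeg] at h1
  by_contra hc
  rw [not_or] at hc
  have h2 := of_not_not (mt (dimA_of_sub g1 ht.1) hc.1)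
  have h3 := of_not_not (mt (dimA_of_sub g2 ht.1) hc.2)
  have h4 : t ⊆ {z | z ∈ t ∧ ∃ u, Ideal.Quotient.mk Q (g1 u) = z} ∪
      {z | z ∈ t ∧ ∃ u, Ideal.Quotient.mk Q (g2 u) = z} := by
    intro z hz
    obtain ⟨i, rfl⟩ := hts hz
    rcases hX i with ⟨u, hu⟩ | ⟨u, hu⟩
    · exact Or.inl ⟨hz, u, by rw [hu]⟩
    · exact Or.inr ⟨hz, u, by rw [hu]⟩
  have h5 := h1.trans ((Cardinal.mk_le_mk_of_subset h4).trans
    ((Cardinal.mk_union_le _ _).trans (add_le_add h2 h3)))
  have h6 : a + b + 1 ≤ a + b := by exact_mod_cast h5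
  omega

theorem not_dimA_two {p : Ideal (P2 K)} {f : P2 K} (hf : f ≠ 0) (hp : f ∈ p) : ¬DimA K p 2 :=
  fun h => not_dimA_bot_mv (K := K) (Fin 2)
    (h.succ_of_lt (bot_lt_iff_ne_bot.2 fun e => hf (by rwa [e] at hp)))

theorem not_dimA_one {p : Ideal (P2 K)} [hp : p.IsPrime] {f0 f1 : P2 K} (hf : IsRelPrime f0 f1)
    (h0 : f0 ∈ p) (h1 : f1 ∈ p) : ¬DimA K p 1 := by
  intro h
  have hu : ∀ u : P2 K, IsUnit u → u ∉ p := fun u hu hm =>
    hp.ne_top (Ideal.eq_top_of_isUnit_mem _ hm hu)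
  have hne : f0 ≠ 0 := by
    rintro rfl
    exact hu f1 (hf (dvd_zero _) dvd_rfl) h1
  obtain ⟨g, hg, hgf, hgp⟩ : ∃ g : P2 K, Prime g ∧ g ∣ f0 ∧ g ∈ p := by
    obtain ⟨l, hl, e⟩ := UniqueFactorizationMonoid.exists_prime_factors f0 hne
    obtain ⟨u, hu'⟩ := e
    have h2 : l.prod ∈ p := (hp.mem_or_mem (hu'.symm ▸ h0)).resolve_right (hu _ u.isUnit)
    obtain ⟨g, hgl, hgp⟩ := (hp.multiset_prod_mem_iff_exists_mem l).1 h2
    exact ⟨g, hl g hgl, (Multiset.dvd_prod hgl).trans ⟨u, hu'.symm⟩, hgp⟩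
  have : (Ideal.span {g}).IsPrime := (Ideal.span_singleton_prime hg.ne_zero).2 hg
  refine not_dimA_two hg.ne_zero (Ideal.mem_span_singleton_self g) (h.succ_of_lt ?_)
  refine lt_of_le_of_ne ((Ideal.span_singleton_le_iff_mem _).2 hgp) fun e => ?_
  rw [← e] at h1
  exact hg.not_isUnit (hf hgf (Ideal.mem_span_singleton.1 h1))

theorem blocks_S {Q : Ideal (S K)} [Q.IsPrime] {a b : ℕ} (h : DimA K Q (a + b + 1)) :
    DimA K (Q.comap (rename ![0, 1] : P2 K →ₐ[K] S K)) (a + 1) ∨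
      DimA K (Q.comap (rename ![2, 3] : P2 K →ₐ[K] S K)) (b + 1) := by
  refine dimA_blocks _ _ (fun i => ?_) h
  fin_cases i
  · exact Or.inl ⟨X 0, by simp⟩
  · exact Or.inl ⟨X 1, by simp⟩
  · exact Or.inr ⟨X 0, by simp⟩
  · exact Or.inr ⟨X 1, by simp⟩

end Pit

variable {K : Type} [Field K]

theorem DimGE.succ_of_lt {σ : Type} {P Q : Ideal (MvPolynomial σ K)} (hP : P.IsPrime) {r : ℕ}
    (h : DimGE Q r) (hPQ : P < Q) : DimGE P (r + 1) :=
  Pit.DimA.succ_of_lt (K := K) h hPQ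

theorem not_dimGE_three {Q : Ideal (S K)} (hQ : Q.IsPrime) {f f' : P2 K} (hf : f ≠ 0)
    (hf' : f' ≠ 0) (h : inX f ∈ Q) (h' : inY f' ∈ Q) : ¬DimGE Q 3 := fun hd =>
  (Pit.blocks_S (K := K) (a := 1) (b := 1) hd).elim (Pit.not_dimA_two hf h)
    (Pit.not_dimA_two hf' h')

theorem baseSt : BaseSt := by
  intro K _ Q hQ
  refine ⟨fun f0 f1 hf a0 a1 b0 b1 hd => ?_, fun f hf a b => not_dimGE_three hQ hf hf a b⟩
  exact (Pit.blocks_S (K := K) (a := 0) (b := 0) hd).elim (Pit.not_dimA_one hf a0 a1)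
    (Pit.not_dimA_one hf b0 b1)

theorem ev2_curve [IsAlgClosed K] {c u : P2 K} (hc : Irreducible c)
    (h : ∀ x : K × K, ev2 x c = 0 → ev2 x u = 0) : c ∣ u := by
  have : (Ideal.span {c}).IsPrime := (Ideal.span_singleton_prime hc.ne_zero).2 hc.prime
  rw [← Ideal.mem_span_singleton, ← IsPrime.vanishingIdeal_zeroLocus (K := K) (Ideal.span {c})]
  intro z hz
  have e : z = ![z 0, z 1] := by
    funext i
    fin_cases i <;> rfl
  have h1 := hz c (Ideal.mem_span_singleton_self c)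
  rw [e] at h1 ⊢
  exact h (z 0, z 1) h1

theorem ev2_curve_mul [IsAlgClosed K] {c u v : P2 K} (hc : Irreducible c)
    (h : ∀ x : K × K, ev2 x c = 0 → ev2 x u = 0 ∨ ev2 x v = 0) :
    (∀ x : K × K, ev2 x c = 0 → ev2 x u = 0) ∨ ∀ x : K × K, ev2 x c = 0 → ev2 x v = 0 := by
  have h1 : c ∣ u * v := ev2_curve hc fun x hx => by
    rw [ev2, map_mul, mul_eq_zero]; exact h x hx
  refine (hc.prime.dvd_or_dvd h1).imp ?_ ?_ <;>
  · rintro ⟨w, rfl⟩ x hx
    rw [ev2] at hx ⊢
    rw [map_mul, hx, zero_mul]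

/-- Fix the second point. -/
noncomputable def fixY (y : K × K) : S K →ₐ[K] P2 K := aeval ![X 0, X 1, C y.1, C y.2]

/-- Fix the first point. -/
noncomputable def fixX (x : K × K) : S K →ₐ[K] P2 K := aeval ![C x.1, C x.2, X 0, X 1]

theorem ev2_fixY (x y : K × K) (φ : S K) : ev2 x (fixY y φ) = eval (pt (x, y)) φ := by
  have : (eval ![x.1, x.2]).comp (fixY y).toRingHom = eval (pt (x, y)) := by
    refine ringHom_ext (fun a => by simp [fixY]) fun i => ?_
    fin_cases i <;> simp [fixY, pt]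
  exact congrArg (fun g : S K →+* K => g φ) this

theorem ev2_fixX (x y : K × K) (φ : S K) : ev2 y (fixX x φ) = eval (pt (x, y)) φ := by
  have : (eval ![y.1, y.2]).comp (fixX x).toRingHom = eval (pt (x, y)) := by
    refine ringHom_ext (fun a => by simp [fixX]) fun i => ?_
    fin_cases i <;> simp [fixX, pt]
  exact congrArg (fun g : S K →+* K => g φ) this

theorem eval_pt_inX (x y : K × K) (f : P2 K) : eval (pt (x, y)) (inX f) = ev2 x f := by
  rw [inX, eval_rename, ev2]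
  congr 2
  funext i
  fin_cases i <;> rfl

theorem eval_pt_inY (x y : K × K) (f : P2 K) : eval (pt (x, y)) (inY f) = ev2 y f := by
  rw [inY, eval_rename, ev2]
  congr 2
  funext i
  fin_cases i <;> rfl

/-- The ideal of the product of two curves. -/
noncomputable def prodI (c c' : P2 K) : Ideal (S K) := (Ideal.span {inX c, inY c'}).radical

theorem mem_prodI [IsAlgClosed K] {c c' : P2 K} {φ : S K} :
    φ ∈ prodI c c' ↔ ∀ x y : K × K, ev2 x c = 0 → ev2 y c' = 0 → eval (pt (x, y)) φ = 0 := by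
  rw [prodI, ← vanishingIdeal_zeroLocus_eq_radical (K := K), zeroLocus_span,
    mem_vanishingIdeal_iff]
  constructor
  · intro h x y hx hy
    refine h (pt (x, y)) fun q hq => ?_
    rcases hq with rfl | rfl
    · exact (eval_pt_inX x y c).trans hx
    · exact (eval_pt_inY x y c').trans hy
  · intro h z hz
    have e : z = pt ((z 0, z 1), (z 2, z 3)) := by
      funext i
      fin_cases i <;> rfl
    have h1 := hz (inX c) (Or.inl rfl)
    have h2 := hz (inY c') (Or.inr rfl)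
    rw [e] at h1 h2 ⊢
    exact h _ _ ((eval_pt_inX _ _ c).symm.trans h1) ((eval_pt_inY _ _ c').symm.trans h2)

theorem prodI_mem_or_mem [IsAlgClosed K] {c c' : P2 K} (hc : Irreducible c) (hc' : Irreducible c')
    {φ ψ : S K} (h : φ * ψ ∈ prodI c c') : φ ∈ prodI c c' ∨ ψ ∈ prodI c c' := by
  simp only [mem_prodI] at h ⊢
  by_contra hn
  push Not at hn
  obtain ⟨⟨x0, y0, hx0, hy0, h0⟩, x1, y1, hx1, hy1, h1⟩ := hn
  have key : ∀ x, ev2 x c = 0 → ev2 x (fixY y0 φ) = 0 ∨ ev2 x (fixY y1 ψ) = 0 := by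
    intro x hx
    have := ev2_curve_mul (u := fixX x φ) (v := fixX x ψ) hc' fun y hy => by
      rw [ev2_fixX, ev2_fixX, ← mul_eq_zero, ← map_mul]
      exact h x y hx hy
    simp only [ev2_fixX, ev2_fixY] at this ⊢
    exact this.imp (fun t => t y0 hy0) fun t => t y1 hy1
  rcases ev2_curve_mul hc key with t | t
  · exact h0 ((ev2_fixY _ _ _).symm.trans (t x0 hx0))
  · exact h1 ((ev2_fixY _ _ _).symm.trans (t x1 hx1))

theorem prodSt : ProdSt := by
  intro K _ _ c c' Q hc hc' hQ hx hy hd x y h1 h2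
  have hs : Ideal.span {inX c, inY c'} ≤ Q := by
    rw [Ideal.span_le]
    rintro q (rfl | rfl)
    exacts [hx, hy]
  have hle : prodI c c' ≤ Q := hQ.radical_le_iff.2 hs
  have hp : (prodI c c').IsPrime :=
    ⟨fun e => hQ.ne_top (top_le_iff.1 (e ▸ hle)), fun h => prodI_mem_or_mem hc hc' h⟩
  have he : prodI c c' = Q := by
    by_contra hne
    exact not_dimGE_three hp hc.ne_zero hc'.ne_zero
      (Ideal.le_radical (Ideal.subset_span (Or.inl rfl)))
      (Ideal.le_radical (Ideal.subset_span (Or.inr rfl)))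
      (hd.succ_of_lt hp (lt_of_le_of_ne hle hne))
  intro φ hφ
  exact mem_prodI.1 (he ▸ hφ) x y h1 h2

end Pool.Agent.Lib.MP_a460e0_co.GK
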