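import Pool.Agent.Lib.MP_a460e0_co.GK.Defs

/-! Basic facts on the ring of the model: `tilde`, `Der`, `Dj`, homogeneous parts. -/

namespace Pool.Agent.Lib.MP_a460e0_co.GK

open MvPolynomial

noncomputable section

variable {K : Type} [Field K]

/-! ### The ideal `tilde I` -/

theorem mem_tilde {I : Ideal (S K)} {f : R K} :
    f ∈ tilde I ↔ ∀ m, coeff m (Phi K f) ∈ I := by
  unfold tilde
  rw [Ideal.mem_comap, MvPolynomial.mem_map_C_iff]
  rfl

theorem mem_tilde_map {I : Ideal (S K)} {f : R K} :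
    f ∈ tilde I ↔ MvPolynomial.map (Ideal.Quotient.mk I) (Phi K f) = 0 := by
  rw [mem_tilde, MvPolynomial.ext_iff]
  refine forall_congr' fun m => ?_
  rw [coeff_map, coeff_zero, Ideal.Quotient.eq_zero_iff_mem]

theorem tilde_prime {I : Ideal (S K)} (hI : I.IsPrime) : (tilde I).IsPrime := by
  have h : tilde I = RingHom.ker
      ((MvPolynomial.map (Ideal.Quotient.mk I)).comp (Phi K).toRingHom) := by
    ext f
    rw [mem_tilde_map, RingHom.mem_ker]
    rfl
  rw [h]
  exact RingHom.ker_isPrime _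

theorem tilde_mono {I J : Ideal (S K)} (h : I ≤ J) : tilde I ≤ tilde J := fun _ hf =>
  mem_tilde.2 fun m => h (mem_tilde.1 hf m)

theorem mem_tilde_inf {ι : Type} {Z : Finset ι} {P : ι → Ideal (S K)} {f : R K} :
    f ∈ tilde (Z.inf P) ↔ ∀ z ∈ Z, f ∈ tilde (P z) := by
  simp only [mem_tilde, Submodule.mem_finsetInf]
  exact ⟨fun h z hz m => h m z hz, fun h m z hz => h z hz m⟩

theorem tilde_inf {ι : Type} (Z : Finset ι) (P : ι → Ideal (S K)) :
    tilde (Z.inf P) = Z.inf fun z => tilde (P z) := by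
  ext f
  rw [mem_tilde_inf, Submodule.mem_finsetInf]

theorem mem_tilde_iInf {ι : Type} {P : ι → Ideal (S K)} {f : R K} :
    f ∈ tilde (⨅ z, P z) ↔ ∀ z, f ∈ tilde (P z) := by
  simp only [mem_tilde, Ideal.mem_iInf]
  exact ⟨fun h z m => h m z, fun h m z => h z m⟩

theorem mem_mx {l : Ln K} {φ : S K} : φ ∈ mx l ↔ eval (pt l) φ = 0 := RingHom.mem_ker

theorem mx_prime (l : Ln K) : (mx l).IsPrime := RingHom.ker_isPrime _

theorem Ll_prime (l : Ln K) : (Ll l).IsPrime := tilde_prime (mx_prime l)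

theorem kap_not_mem_mx {l : Ln K} (h : Off l) : kap K ∉ mx l := by
  rw [mem_mx]
  simp [kap, pt, sub_eq_zero, h.1, h.2]

/-- The restriction of a polynomial to the plane of the pair `l`. -/
def PhiL (l : Ln K) : R K →ₐ[K] MvPolynomial (Fin 2) K :=
  aeval ![X 0 * C l.2.1 + X 1 * C l.2.2, -(X 0 * C (l.2.1 * l.1.2)) - X 1 * C (l.2.2 * l.1.1),
    X 0 + X 1, -(X 0 * C l.1.2) - X 1 * C l.1.1, C l.1.1, C l.1.2]

theorem map_Phi (l : Ln K) (f : R K) :
    MvPolynomial.map (eval (pt l)) (Phi K f) = PhiL l f := by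
  induction f using MvPolynomial.induction_on with
  | C a => simp [Phi, PhiL]
  | add f g hf hg => simp [hf, hg]
  | mul_X f i hf =>
    rw [map_mul, map_mul, map_mul, hf]
    congr 1
    fin_cases i <;> simp [Phi, PhiL, pt]

theorem mem_Ll {l : Ln K} {f : R K} : f ∈ Ll l ↔ PhiL l f = 0 := by
  rw [Ll, mem_tilde, ← map_Phi, MvPolynomial.ext_iff]
  refine forall_congr' fun m => ?_
  rw [coeff_map, coeff_zero, mem_mx]

/-- The matrix `s A + t B` of the pair `l`. -/
def gl (l : Ln K) (s t : K) : Fin 4 → K :=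
  ![s * l.2.1 + t * l.2.2, -(s * (l.2.1 * l.1.2)) - t * (l.2.2 * l.1.1), s + t,
    -(s * l.1.2) - t * l.1.1]

/-- The point of the big space given by a matrix and a point of the plane. -/
def gx (g : Fin 4 → K) (x : K × K) : Fin 6 → K := ![g 0, g 1, g 2, g 3, x.1, x.2]

theorem eval_PhiL (l : Ln K) (s t : K) (f : R K) :
    eval ![s, t] (PhiL l f) = eval (gx (gl l s t) l.1) f := by
  induction f using MvPolynomial.induction_on with
  | C a => simp [PhiL]
  | add f g hf hg => simp [hf, hg]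
  | mul_X f i hf =>
    rw [map_mul, map_mul, map_mul, hf]
    congr 1
    fin_cases i <;> simp [PhiL, gx, gl]

theorem eval_eq_zero_of_mem_Ll {l : Ln K} {f : R K} (h : f ∈ Ll l) (s t : K) :
    eval (gx (gl l s t) l.1) f = 0 := by
  rw [← eval_PhiL, mem_Ll.1 h, map_zero]

theorem mem_Ll_iff_eval [Infinite K] {l : Ln K} {f : R K} :
    f ∈ Ll l ↔ ∀ s t : K, eval (gx (gl l s t) l.1) f = 0 := by
  refine ⟨eval_eq_zero_of_mem_Ll, fun h => mem_Ll.2 (MvPolynomial.funext fun z => ?_)⟩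
  have hz : z = ![z 0, z 1] := by
    ext i
    fin_cases i <;> rfl
  rw [hz, eval_PhiL, h, map_zero]

/-! ### The derivation -/

theorem Der_X (i : Fin 6) : Der K (X i) =
    (![X 0 * X 4 + X 1, -(X 5 * (X 0 * X 4 + X 1)), X 2 * X 4 + X 3,
      -(X 5 * (X 2 * X 4 + X 3)), 0, 0] : Fin 6 → R K) i := mkDerivation_X _ _ _

theorem Der_mul (f g : R K) : Der K (f * g) = f * Der K g + g * Der K f := by
  rw [Derivation.leibniz, smul_eq_mul, smul_eq_mul]

theorem Der_C (a : K) : Der K (C a) = 0 := derivation_C _ a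

theorem Phi_Der (f : R K) :
    Phi K (Der K f) = C (X 0 - X 1) * X 0 * pderiv 0 (Phi K f) := by
  induction f using MvPolynomial.induction_on with
  | C a => simp [Phi]
  | add f g hf hg => simp [hf, hg, mul_add]
  | mul_X f i hf =>
    have h : Phi K (Der K (X i)) = C (X 0 - X 1) * X 0 * pderiv 0 (Phi K (X i)) := by
      rw [Der_X]
      fin_cases i <;> simp [Phi, pderiv_X] <;> ring
    rw [Der_mul, map_add, map_mul, map_mul, hf, h, map_mul, Derivation.leibniz, smul_eq_mul,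
      smul_eq_mul]
    ring

theorem PhiL_Der (l : Ln K) (f : R K) :
    PhiL l (Der K f) = C (l.1.1 - l.1.2) * X 0 * pderiv 0 (PhiL l f) := by
  rw [← map_Phi, ← map_Phi, Phi_Der, map_mul, map_mul, pderiv_map]
  simp [pt]

theorem Der_mem_tilde {I : Ideal (S K)} {f : R K} (h : f ∈ tilde I) : Der K f ∈ tilde I := by
  rw [mem_tilde_map] at h ⊢
  rw [Phi_Der, map_mul, ← pderiv_map, h, map_zero, mul_zero]

theorem Dj_zero (f : R K) : Dj 0 f = f := rfl

theorem Dj_succ (j : ℕ) (f : R K) : Dj (j + 1) f = Der K (Dj j f) :=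
  Function.iterate_succ_apply' _ _ _

theorem Dj_succ' (j : ℕ) (f : R K) : Dj (j + 1) f = Dj j (Der K f) :=
  Function.iterate_succ_apply _ _ _

theorem Dj_one (f : R K) : Dj 1 f = Der K f := rfl

theorem Dj_Dj (i j : ℕ) (f : R K) : Dj i (Dj j f) = Dj (i + j) f :=
  (Function.iterate_add_apply _ _ _ _).symm

theorem Dj_add (j : ℕ) (f g : R K) : Dj j (f + g) = Dj j f + Dj j g := by
  induction j with
  | zero => rfl
  | succ j ih => rw [Dj_succ, Dj_succ, Dj_succ, ih, map_add]

theorem Dj_smul (j : ℕ) (c : K) (f : R K) : Dj j (c • f) = c • Dj j f := by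
  induction j with
  | zero => rfl
  | succ j ih => rw [Dj_succ, Dj_succ, ih, Derivation.map_smul]

theorem Dj_of_zero (j : ℕ) : Dj j (0 : R K) = 0 := by
  induction j with
  | zero => rfl
  | succ j ih => rw [Dj_succ, ih, map_zero]

/-- The iterated derivative as a linear map. -/
def DjL (j : ℕ) : R K →ₗ[K] R K where
  toFun := Dj j
  map_add' := Dj_add j
  map_smul' := Dj_smul j

theorem DjL_apply (j : ℕ) (f : R K) : DjL j f = Dj j f := rfl

theorem Dj_mem_tilde {I : Ideal (S K)} {f : R K} (h : f ∈ tilde I) (j : ℕ) :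
    Dj j f ∈ tilde I := by
  induction j with
  | zero => exact h
  | succ j ih => rw [Dj_succ]; exact Der_mem_tilde ih

theorem dvd_Dj {f : R K} (h : f ∣ Der K f) (j : ℕ) : f ∣ Dj j f := by
  induction j with
  | zero => exact dvd_rfl
  | succ j ih =>
    obtain ⟨g, hg⟩ := ih
    rw [Dj_succ, hg, Der_mul]
    exact dvd_add (dvd_mul_right _ _) (Dvd.dvd.mul_left h _)

/-- Leibniz rule modulo an ideal that holds the lower derivatives of one factor. -/
theorem Dj_mul_sub_mem (q : Ideal (R K)) (k : ℕ) (ψ φ : R K) (h : ∀ i < k, Dj i φ ∈ q) :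
    Dj k (ψ * φ) - ψ * Dj k φ ∈ q := by
  induction k generalizing ψ φ with
  | zero => simp [Dj_zero]
  | succ k ih =>
    have h1 := ih ψ (Der K φ) fun i hi => by
      rw [← Dj_succ']; exact h _ (by omega)
    have h2 := ih (Der K ψ) φ fun i hi => h _ (by omega)
    have h3 : Der K ψ * Dj k φ ∈ q := q.mul_mem_left _ (h _ (by omega))
    have e : Dj (k + 1) (ψ * φ) - ψ * Dj (k + 1) φ =
        (Dj k (ψ * Der K φ) - ψ * Dj k (Der K φ)) +
          (Dj k (Der K ψ * φ) - Der K ψ * Dj k φ) + Der K ψ * Dj k φ := by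
      rw [Dj_succ', Dj_succ', Der_mul, Dj_add, mul_comm φ]
      ring
    rw [e]
    exact q.add_mem (q.add_mem h1 h2) h3

theorem Dj_mul_mem (q : Ideal (R K)) (k : ℕ) (ψ φ : R K) (h : ∀ i ≤ k, Dj i φ ∈ q) :
    Dj k (ψ * φ) ∈ q := by
  have h1 := Dj_mul_sub_mem q k ψ φ fun i hi => h i hi.le
  have h2 : ψ * Dj k φ ∈ q := q.mul_mem_left _ (h k le_rfl)
  simpa using q.add_mem h1 h2

end

end Pool.Agent.Lib.MP_a460e0_co.GK
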