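import Mathlib

/-! Definitions and statements for the incidence bound over prime fields. -/

namespace Pool.Agent.Lib.MP_a460e0_co.GK

open MvPolynomial

noncomputable section

section general

variable (K : Type) [Field K] {σ : Type} [Fintype σ] [DecidableEq σ]

/-- Polynomials of degree at most `d` in the block `G` and at most `e` in the other block. -/
def Fil (G : Finset σ) (d e : ℕ) : Submodule K (MvPolynomial σ K) :=
  restrictSupport K {u | ∑ i ∈ G, u i ≤ d ∧ ∑ i ∈ Gᶜ, u i ≤ e}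

variable {K}

/-- The Hilbert function of an ideal for the filtration `Fil`. -/
def HF (G : Finset σ) (I : Ideal (MvPolynomial σ K)) (d e : ℕ) : ℕ :=
  Module.finrank K ((Fil K G d e).map (Ideal.Quotient.mkₐ K I).toLinearMap)

/-- Homogeneous of degree `a` in the block `G`. -/
def IsHom (G : Finset σ) (f : MvPolynomial σ K) (a : ℕ) : Prop :=
  ∀ u ∈ f.support, ∑ i ∈ G, u i = a

end general

section dim

variable {K : Type} [Field K] {σ : Type}

/-- There are `r` elements algebraically independent modulo `P`. -/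
def DimGE (P : Ideal (MvPolynomial σ K)) (r : ℕ) : Prop :=
  ∃ z : Fin r → MvPolynomial σ K, AlgebraicIndependent K fun i => Ideal.Quotient.mk P (z i)

/-- The ideal of a point. -/
def ptI (z : σ → K) : Ideal (MvPolynomial σ K) := RingHom.ker (eval z)

end dim

/-- Variables `g0 g1 g2 g3 al be`. -/
abbrev R (K : Type) [Field K] : Type := MvPolynomial (Fin 6) K

/-- Variables `al be al' be'`. -/
abbrev S (K : Type) [Field K] : Type := MvPolynomial (Fin 4) K

/-- Variables `al be`. -/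
abbrev P2 (K : Type) [Field K] : Type := MvPolynomial (Fin 2) K

/-- Pairs of points of the plane; they index the lines. -/
abbrev Ln (K : Type) : Type := (K × K) × (K × K)

/-- The block of the matrix entries. -/
def G4 : Finset (Fin 6) := {0, 1, 2, 3}

/-- The logarithmic factor. -/
def JJ (p : ℕ) : ℕ := Nat.log 2 p + 2

section model

variable (K : Type) [Field K]

/-- The substitution `g = s A + t B`. -/
def Phi : R K →ₐ[K] MvPolynomial (Fin 2) (S K) :=
  aeval ![X 0 * C (X 2) + X 1 * C (X 3), -(X 0 * C (X 2 * X 1)) - X 1 * C (X 3 * X 0),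
    X 0 + X 1, -(X 0 * C (X 1)) - X 1 * C (X 0), C (X 0), C (X 1)]

/-- The derivation along the lines. -/
def Der : Derivation K (R K) (R K) :=
  mkDerivation K ![X 0 * X 4 + X 1, -(X 5 * (X 0 * X 4 + X 1)), X 2 * X 4 + X 3,
    -(X 5 * (X 2 * X 4 + X 3)), 0, 0]

/-- The product of the two diagonals. -/
def kap : S K := (X 0 - X 1) * (X 2 - X 3)

variable {K}

/-- The `j`-th derivative along the lines. -/
def Dj (j : ℕ) (f : R K) : R K := (fun h => Der K h)^[j] f

/-- Polynomials whose substitution has all coefficients in `I`. -/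
def tilde (I : Ideal (S K)) : Ideal (R K) :=
  Ideal.comap (Phi K).toRingHom (Ideal.map (C : S K →+* MvPolynomial (Fin 2) (S K)) I)

/-- The coordinates of a pair of points. -/
def pt (l : Ln K) : Fin 4 → K := ![l.1.1, l.1.2, l.2.1, l.2.2]

/-- The point ideal of a pair. -/
def mx (l : Ln K) : Ideal (S K) := ptI (pt l)

/-- The ideal of the lifted line. -/
def Ll (l : Ln K) : Ideal (R K) := tilde (mx l)

/-- Off both diagonals. -/
def Off (l : Ln K) : Prop := l.1.1 ≠ l.1.2 ∧ l.2.1 ≠ l.2.2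

/-- The matrix `g` maps the first point to the second. -/
def Inc (g : Fin 4 → K) (l : Ln K) : Prop :=
  g 0 * l.1.1 + g 1 = l.2.1 * (g 2 * l.1.1 + g 3) ∧ g 0 * l.1.2 + g 1 = l.2.2 * (g 2 * l.1.2 + g 3)

/-- Invertible, pairwise non proportional matrices. -/
def Proj (P : Finset (Fin 4 → K)) : Prop :=
  (∀ g ∈ P, g 0 * g 3 - g 1 * g 2 ≠ 0) ∧ ∀ g ∈ P, ∀ h ∈ P, ∀ c : K, h = c • g → h = g

/-- No point together with its mirror image. -/
def NoAnti (E : Finset (K × K)) : Prop := ∀ x ∈ E, x.swap ∉ E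

/-- At most `ρ` points share a first coordinate, or a second coordinate. -/
def Rul (E : Finset (K × K)) (ρ : ℕ) : Prop :=
  ∀ (c : K) (Z : Finset (K × K)), Z ⊆ E → ((∀ x ∈ Z, x.1 = c) ∨ ∀ x ∈ Z, x.2 = c) → Z.card ≤ ρ

/-- Four distinct coordinates (for points off the diagonal). -/
def ND (x y : K × K) : Prop := x.1 ≠ y.1 ∧ x.2 ≠ y.2 ∧ x.1 ≠ y.2 ∧ x.2 ≠ y.1

open Classical in
/-- The number of members of `L` related to `g`. -/
def rr {α β : Type} (cnt : α → β → Prop) (L : Finset β) (g : α) : ℕ :=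
  (L.filter fun l => cnt g l).card

/-- The number of related pairs. -/
def inc {α β : Type} (cnt : α → β → Prop) (P : Finset α) (L : Finset β) : ℕ :=
  ∑ g ∈ P, rr cnt L g

open Classical in
/-- The energy: a matrix and two incident pairs in general position. -/
def En (GG : Finset (Fin 4 → K)) (E : Finset (K × K)) : ℕ :=
  ∑ g ∈ GG, (((E ×ˢ E) ×ˢ (E ×ˢ E)).filter fun q =>
    Inc g q.1 ∧ Inc g q.2 ∧ ND q.1.1 q.2.1).card

/-- Evaluation of a plane polynomial. -/
def ev2 (x : K × K) (f : P2 K) : K := eval ![x.1, x.2] f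

/-- A plane polynomial in the first point. -/
def inX (f : P2 K) : S K := rename ![0, 1] f

/-- A plane polynomial in the second point. -/
def inY (f : P2 K) : S K := rename ![2, 3] f

/-- The pull back of a plane curve by a matrix. -/
def pull (g : Fin 4 → K) (c : P2 K) : P2 K :=
  ∑ u ∈ c.support, C (coeff u c) * ((C (g 0) * X 0 + C (g 1)) ^ u 0 *
    (C (g 2) * X 0 + C (g 3)) ^ (c.degreeOf 0 - u 0) * ((C (g 0) * X 1 + C (g 1)) ^ u 1 *
    (C (g 2) * X 1 + C (g 3)) ^ (c.degreeOf 1 - u 1)))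

/-- Every irreducible curve of degree `d` holds at most `ρ d` points of `E`. -/
def Poor (E : Finset (K × K)) (ρ : ℕ) : Prop :=
  ∀ f : P2 K, Irreducible f → ∀ Z : Finset (K × K), Z ⊆ E → (∀ x ∈ Z, ev2 x f = 0) →
    Z.card ≤ ρ * f.totalDegree

/-- Pairwise non associated irreducible curves. -/
def Curves (CC : Finset (P2 K)) : Prop :=
  (∀ c ∈ CC, Irreducible c) ∧ ∀ c ∈ CC, ∀ c' ∈ CC, c ∣ c' → c = c'

/-- `E` is cut into pieces on the curves of `CC`, each of size about `ρ` times the degree. -/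
def Fam (E : Finset (K × K)) (CC : Finset (P2 K)) (cf : K × K → P2 K) (ρ : ℕ) : Prop :=
  Curves CC ∧ (∀ x ∈ E, cf x ∈ CC ∧ ev2 x (cf x) = 0) ∧ ∀ c ∈ CC,
    ρ * c.totalDegree ≤ rr (fun c x => cf x = c) E c ∧
    rr (fun c x => cf x = c) E c ≤ 2 * ρ * c.totalDegree

/-- The data of Lemma B. -/
structure IsData (c1 : ℕ) (E : Finset (K × K)) (V1 V2 : Finset (S K)) (D T : ℕ) : Prop where
  off : ∀ x ∈ E, x.1 ≠ x.2
  d1 : ∀ φ ∈ V1, φ.totalDegree ≤ D ∧ ∀ l ∈ E ×ˢ E, φ ∈ mx l
  d2 : ∀ φ ∈ V2, φ.totalDegree ≤ T ∧ ∀ l ∈ E ×ˢ E, φ ∈ mx l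
  n3 : ∀ Q : Ideal (S K), Q.IsPrime → (∀ φ ∈ V1, φ ∈ Q) → ¬DimGE Q 3
  n1 : ∀ Q : Ideal (S K), Q.IsPrime → (∀ φ ∈ V2, φ ∈ Q) → ¬DimGE Q 1
  pD : 1 ≤ D
  pT : 1 ≤ T
  dt : D * T ≤ c1 * E.card

/-- The line lies in the closure of flags of large finite order. -/
def Heavy (F : R K) (b : ℕ) (l : Ln K) : Prop :=
  ∃ q : Ideal (R K), q.IsPrime ∧ q ≤ Ll l ∧ (∀ j ≤ b, Dj j F ∈ q) ∧ ∃ j, Dj j F ∉ q

/-- The line lies on a surface of lines that the first cut does not meet properly. -/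
def Exc (V1 : Finset (S K)) (F : R K) (l : Ln K) : Prop :=
  ∃ P : Ideal (S K), P.IsPrime ∧ P ≤ mx l ∧ F ∈ tilde P ∧ (∀ φ ∈ V1, φ ∈ P) ∧ DimGE P 2

/-- Few counted incidences come from exceptional lines. -/
def HExc (c2 : ℕ) (E : Finset (K × K)) (V1 : Finset (S K)) (P : Finset (Fin 4 → K))
    (cnt : (Fin 4 → K) → Ln K → Prop) : Prop :=
  ∀ (a b : ℕ) (F : R K), 1 ≤ b → F ∈ Fil K G4 a b → IsRelPrime F (Der K F) → ∀ g ∈ P,
    ∀ Z : Finset (Ln K), (∀ l ∈ Z, l ∈ E ×ˢ E ∧ cnt g l ∧ Exc V1 F l) → Z.card ≤ c2 * b ^ 2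

/-- An orthant family of monomials independent modulo `I`. -/
def Orth (I : Ideal (S K)) (U : Finset (Fin 4)) (O : Finset (Fin 4 →₀ ℕ)) : Prop :=
  (∀ u ∈ O, ∀ i ∈ U, u i = 0) ∧ LinearIndependent K
    fun q : O × {v : Fin 4 →₀ ℕ // v.support ⊆ U} =>
      Ideal.Quotient.mk I (monomial (q.1.1 + q.2.1) (1 : K))

/-- Growth of order `r` with leading constant `m`. -/
def Grow (I : Ideal (S K)) (r m : ℕ) : Prop :=
  ∃ c : ℕ, ∀ T : ℕ, (T + 1) * HF Finset.univ I T 0 ≤ m * (T + 1) ^ (r + 1) + c * (T + 1) ^ r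

/-- The point `z` lies on the line with slope `l.1` and intercept `l.2`. -/
def OnL (l z : K × K) : Prop := z.2 = l.1 * z.1 + l.2

end model

end

end Pool.Agent.Lib.MP_a460e0_co.GK
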