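import Pool.Agent.Lib.MP_a460e0_co.GK.St

/-! Independence of monomial families on products of two plane curves. -/

namespace Pool.Agent.Lib.MP_a460e0_co.GK.Exc

open MvPolynomial

noncomputable section

variable {K : Type} [Field K]

theorem ev2_mul (x : K × K) (f g : P2 K) : ev2 x (f * g) = ev2 x f * ev2 x g := by
  simp [ev2]

theorem eval_inX (l : Ln K) (f : P2 K) : eval (pt l) (inX f) = ev2 l.1 f := by
  unfold inX ev2
  rw [eval_rename]
  congr 2
  funext i
  fin_cases i <;> rfl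

theorem eval_inY (l : Ln K) (f : P2 K) : eval (pt l) (inY f) = ev2 l.2 f := by
  unfold inY ev2
  rw [eval_rename]
  congr 2
  funext i
  fin_cases i <;> rfl

theorem mem_mx (l : Ln K) (ψ : S K) : ψ ∈ mx l ↔ eval (pt l) ψ = 0 := by
  unfold mx ptI
  exact RingHom.mem_ker

/-- A polynomial vanishing on an irreducible curve is a multiple of it. -/
theorem dvd_of_vanish [IsAlgClosed K] {c h : P2 K} (hc : Irreducible c)
    (hh : ∀ x : K × K, ev2 x c = 0 → ev2 x h = 0) : c ∣ h := by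
  have hp : Prime c := hc.prime
  have hI : (Ideal.span {c}).IsPrime := (Ideal.span_singleton_prime hp.ne_zero).2 hp
  have h1 : h ∈ vanishingIdeal K (zeroLocus K (Ideal.span {c})) := by
    intro z hz
    have hz' : aeval z c = 0 := hz c (Ideal.subset_span rfl)
    have e : (![z 0, z 1] : Fin 2 → K) = z := by
      funext i
      fin_cases i <;> rfl
    have := hh (z 0, z 1) (by
      unfold ev2
      rw [e]
      exact hz')
    unfold ev2 at this
    rw [e] at this
    exact this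
  rw [vanishingIdeal_zeroLocus_eq_radical, hI.radical] at h1
  exact Ideal.mem_span_singleton.1 h1

/-- The exponent with entry `i` at `t` and entry `j` at the other variable. -/
def ex (t : Fin 2) (i j : ℕ) : Fin 2 →₀ ℕ := Finsupp.single t i + Finsupp.single t.rev j

theorem ex_self (t : Fin 2) (i j : ℕ) : ex t i j t = i := by
  fin_cases t <;> simp [ex, Fin.rev]

theorem ex_rev (t : Fin 2) (i j : ℕ) : ex t i j t.rev = j := by
  fin_cases t <;> simp [ex, Fin.rev]

/-- The monomial with exponent `ex t i j`. -/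
def mo (t : Fin 2) (i j : ℕ) : P2 K := monomial (ex t i j) 1

theorem one_curve [IsAlgClosed K] {c h : P2 K} (hc : Irreducible c) (hh : ¬c ∣ h) (t : Fin 2)
    (M : ℕ) (w : Fin (c.degreeOf t) × Fin M → K)
    (hw : ∀ x : K × K, ev2 x c = 0 → ev2 x h ≠ 0 → ∑ a, w a * ev2 x (mo t a.1 a.2) = 0) :
    ∀ a, w a = 0 := by
  classical
  intro a0
  set φ : P2 K := ∑ a : Fin (c.degreeOf t) × Fin M, C (w a) * mo t a.1 a.2 with hφ
  have hev : ∀ x : K × K, ev2 x φ = ∑ a, w a * ev2 x (mo t a.1 a.2) := by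
    intro x
    simp [hφ, ev2, map_sum]
  have hd : c ∣ φ * h := by
    refine dvd_of_vanish hc fun x hx => ?_
    rw [ev2_mul]
    by_cases h0 : ev2 x h = 0
    · rw [h0, mul_zero]
    · rw [hev, hw x hx h0, zero_mul]
  have hd' : c ∣ φ := (hc.prime.dvd_or_dvd hd).resolve_right hh
  have hco : ∀ u, coeff u φ = ∑ a : Fin (c.degreeOf t) × Fin M,
      if ex t a.1 a.2 = u then w a else 0 := by
    intro u
    rw [hφ, coeff_sum]
    refine Finset.sum_congr rfl fun a _ => ?_
    rw [mo, C_mul_monomial, mul_one, coeff_monomial]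
  have hz : φ = 0 := by
    by_contra hne
    obtain ⟨ψ, hψ⟩ := hd'
    have hψ0 : ψ ≠ 0 := by
      rintro rfl
      exact hne (by rw [hψ, mul_zero])
    have h1 : c.degreeOf t ≤ φ.degreeOf t := by
      rw [hψ, degreeOf_mul_eq hc.ne_zero hψ0]
      omega
    have hpos : 0 < c.degreeOf t := lt_of_le_of_lt (Nat.zero_le _) a0.1.2
    have h2 : φ.degreeOf t < c.degreeOf t := by
      rw [degreeOf_lt_iff hpos]
      intro u hu
      rw [mem_support_iff, hco] at hu
      obtain ⟨a, -, ha⟩ := Finset.exists_ne_zero_of_sum_ne_zero hu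
      have : ex t a.1 a.2 = u := by
        by_contra hn
        exact ha (if_neg hn)
      rw [← this, ex_self]
      exact a.1.2
    omega
  have := hco (ex t a0.1 a0.2)
  rw [hz, coeff_zero, Finset.sum_eq_single a0, if_pos rfl] at this
  · exact this.symm
  · intro a _ hne
    refine if_neg fun he => hne ?_
    have e1 : (a.1 : ℕ) = a0.1 := by
      have := congrArg (fun u => u t) he
      simpa only [ex_self] using this
    have e2 : (a.2 : ℕ) = a0.2 := by
      have := congrArg (fun u => u t.rev) he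
      simpa only [ex_rev] using this
    exact Prod.ext (Fin.ext e1) (Fin.ext e2)
  · intro hn
    exact absurd (Finset.mem_univ _) hn

theorem two_curves [IsAlgClosed K] {c h c' h' : P2 K} (hc : Irreducible c) (hh : ¬c ∣ h)
    (hc' : Irreducible c') (hh' : ¬c' ∣ h') (t t' : Fin 2) (M : ℕ)
    (w : (Fin (c.degreeOf t) × Fin M) × (Fin (c'.degreeOf t') × Fin M) → K)
    (hw : ∀ x y : K × K, ev2 x c = 0 → ev2 x h ≠ 0 → ev2 y c' = 0 → ev2 y h' ≠ 0 →
      ∑ a, w a * (ev2 x (mo t a.1.1 a.1.2) * ev2 y (mo t' a.2.1 a.2.2)) = 0) :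
    ∀ a, w a = 0 := by
  rintro ⟨a1, a2⟩
  refine one_curve hc hh t M (fun a => w (a, a2)) (fun x hx hx' => ?_) a1
  refine one_curve hc' hh' t' M (fun b => ∑ a, w (a, b) * ev2 x (mo t a.1 a.2))
    (fun y hy hy' => ?_) a2
  have := hw x y hx hx' hy hy'
  rw [Fintype.sum_prod_type, Finset.sum_comm] at this
  rw [← this]
  refine Finset.sum_congr rfl fun b _ => ?_
  rw [Finset.sum_mul]
  refine Finset.sum_congr rfl fun a _ => ?_
  ring

/-- The product of the other curves. -/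
def cof (CC : Finset (P2 K)) (c : P2 K) : P2 K := by
  classical exact ∏ c' ∈ CC.erase c, c'

theorem ev2_cof {CC : Finset (P2 K)} {c c1 : P2 K} (hc : c ∈ CC) (hne : c ≠ c1) {x : K × K}
    (hx : ev2 x c = 0) : ev2 x (cof CC c1) = 0 := by
  classical
  have : c ∣ cof CC c1 := by
    unfold cof
    convert Finset.dvd_prod_of_mem (fun c' : P2 K => c') (Finset.mem_erase.2 ⟨hne, hc⟩)
  obtain ⟨ψ, hψ⟩ := this
  rw [hψ, ev2_mul, hx, zero_mul]

theorem not_dvd_cof {CC : Finset (P2 K)} (hCC : Curves CC) {c : P2 K} (hc : c ∈ CC)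
    {x : K × K} (hx : ev2 x c = 0) (hoff : x.1 ≠ x.2) : ¬c ∣ (X 0 - X 1) * cof CC c := by
  classical
  intro hd
  have hp : Prime c := (hCC.1 c hc).prime
  rcases hp.dvd_or_dvd hd with h | h
  · obtain ⟨ψ, hψ⟩ := h
    have : ev2 x (X 0 - X 1 : P2 K) = 0 := by rw [hψ, ev2_mul, hx, zero_mul]
    apply hoff
    simpa [ev2, sub_eq_zero] using this
  · have h' : c ∣ ∏ c' ∈ CC.erase c, c' := by
      unfold cof at h
      convert h
    obtain ⟨c1, h1, h2⟩ := (hp.dvd_finsetProd_iff _).1 h'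
    rw [Finset.mem_erase] at h1
    exact h1.1 (hCC.2 c hc c1 h1.2 h2).symm

/-- The ideal of the points off both diagonals on the listed products of curves. -/
def vanI (B : Finset (P2 K × P2 K)) : Ideal (S K) :=
  ⨅ l : {l : Ln K // Off l ∧ ∃ p ∈ B, ev2 l.1 p.1 = 0 ∧ ev2 l.2 p.2 = 0}, mx l.1

theorem mem_vanI {B : Finset (P2 K × P2 K)} {ψ : S K} : ψ ∈ vanI B ↔
    ∀ l : Ln K, Off l → ∀ p ∈ B, ev2 l.1 p.1 = 0 → ev2 l.2 p.2 = 0 → eval (pt l) ψ = 0 := by
  unfold vanI
  rw [Ideal.mem_iInf]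
  constructor
  · intro h l hl p hp h1 h2
    exact (mem_mx l ψ).1 (h ⟨l, hl, p, hp, h1, h2⟩)
  · rintro h ⟨l, hl, p, hp, h1, h2⟩
    exact (mem_mx l ψ).2 (h l hl p hp h1 h2)

theorem vanI_kap (B : Finset (P2 K × P2 K)) (ψ : S K) (h : kap K * ψ ∈ vanI B) : ψ ∈ vanI B := by
  rw [mem_vanI] at h ⊢
  intro l hl p hp h1 h2
  have := h l hl p hp h1 h2
  rw [map_mul] at this
  refine (mul_eq_zero.1 this).resolve_left ?_
  have e : eval (pt l) (kap K) = (l.1.1 - l.1.2) * (l.2.1 - l.2.2) := by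
    simp [kap, pt]
  rw [e]
  exact mul_ne_zero (sub_ne_zero.2 hl.1) (sub_ne_zero.2 hl.2)

/-- The index set of the family. -/
abbrev Ix (B : Finset (P2 K × P2 K)) (t : Fin 2) (M : ℕ) : Type :=
  Σ p : B, (Fin (p.1.1.degreeOf t) × Fin M) × (Fin (p.1.2.degreeOf t.rev) × Fin M)

/-- The family itself. -/
def chi (CC : Finset (P2 K)) (B : Finset (P2 K × P2 K)) (t : Fin 2) (M : ℕ) (k : Ix B t M) :
    S K :=
  inX (cof CC k.1.1.1) * inY (cof CC k.1.1.2) *
    (inX (mo t k.2.1.1 k.2.1.2) * inY (mo t.rev k.2.2.1 k.2.2.2))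

theorem card_Ix (B : Finset (P2 K × P2 K)) (t : Fin 2) (M : ℕ) :
    Fintype.card (Ix B t M) = M ^ 2 * ∑ p ∈ B, p.1.degreeOf t * p.2.degreeOf t.rev := by
  rw [Fintype.card_sigma, Finset.mul_sum,
    ← Finset.sum_coe_sort B fun p => M ^ 2 * (p.1.degreeOf t * p.2.degreeOf t.rev)]
  refine Finset.sum_congr rfl fun p _ => ?_
  simp only [Fintype.card_prod, Fintype.card_fin]
  ring

theorem chi_indep [IsAlgClosed K] {CC : Finset (P2 K)} (hCC : Curves CC)
    {B : Finset (P2 K × P2 K)}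
    (hB : ∀ p ∈ B, p.1 ∈ CC ∧ p.2 ∈ CC ∧ ∃ l : Ln K, Off l ∧ ev2 l.1 p.1 = 0 ∧ ev2 l.2 p.2 = 0)
    (t : Fin 2) (M : ℕ) :
    LinearIndependent K fun k : Ix B t M => Ideal.Quotient.mk (vanI B) (chi CC B t M k) := by
  classical
  rw [Fintype.linearIndependent_iff]
  intro w hw
  have hmem : (∑ k, w k • chi CC B t M k) ∈ vanI B := by
    rw [← Ideal.Quotient.eq_zero_iff_mem, map_sum, ← hw]
    refine Finset.sum_congr rfl fun k _ => ?_
    exact (Ideal.Quotient.mkₐ K (vanI B)).toLinearMap.map_smul (w k) _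
  rintro ⟨p, a⟩
  obtain ⟨h1, h2, l0, hl0, e1, e2⟩ := hB p.1 p.2
  refine two_curves (hCC.1 _ h1) (not_dvd_cof hCC h1 e1 hl0.1) (hCC.1 _ h2)
    (not_dvd_cof hCC h2 e2 hl0.2) t t.rev M (fun a => w ⟨p, a⟩) (fun x y hx hx' hy hy' => ?_) a
  rw [ev2_mul] at hx' hy'
  have ox : x.1 ≠ x.2 := by
    have := left_ne_zero_of_mul hx'
    simpa [ev2, sub_eq_zero] using this
  have oy : y.1 ≠ y.2 := by
    have := left_ne_zero_of_mul hy'
    simpa [ev2, sub_eq_zero] using this
  have h0 := mem_vanI.1 hmem (x, y) ⟨ox, oy⟩ p.1 p.2 hx hy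
  rw [map_sum, Fintype.sum_sigma, Finset.sum_eq_single p] at h0
  · have : ev2 x (cof CC p.1.1) * ev2 y (cof CC p.1.2) *
        ∑ a, w ⟨p, a⟩ * (ev2 x (mo t a.1.1 a.1.2) * ev2 y (mo t.rev a.2.1 a.2.2)) = 0 := by
      rw [← h0, Finset.mul_sum]
      refine Finset.sum_congr rfl fun a _ => ?_
      rw [smul_eval, chi, map_mul, map_mul, map_mul, eval_inX, eval_inY, eval_inX, eval_inY]
      ring
    exact (mul_eq_zero.1 this).resolve_left
      (mul_ne_zero (right_ne_zero_of_mul hx') (right_ne_zero_of_mul hy'))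
  · intro q _ hq
    refine Finset.sum_eq_zero fun a _ => ?_
    rw [smul_eval, chi, map_mul, map_mul, eval_inX, eval_inY]
    by_cases hq1 : p.1.1 = q.1.1
    · have hq2 : p.1.2 ≠ q.1.2 := fun h => hq (Subtype.ext (Prod.ext hq1 h)).symm
      rw [ev2_cof h2 hq2 hy]
      simp
    · rw [ev2_cof h1 hq1 hx]
      simp
  · intro hn
    exact absurd (Finset.mem_univ _) hn

end

end Pool.Agent.Lib.MP_a460e0_co.GK.Exc
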