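import Pool.Agent.Lib.MP_a460e0_co.GK.St
import Pool.Agent.Lib.MP_a460e0_co.SlD

/-! From the two-dimensional sphere to all odd dimensions, with the real logarithm. -/

namespace Pool.Agent.Lib.MP_a460e0_co.GK

namespace Final

theorem JJ_le {q : ℕ} (hq : 2 ≤ q) : (JJ q : ℝ) ≤ 5 * Real.log q := by
  have h2 : (0.69 : ℝ) < Real.log 2 := lt_trans (by norm_num) Real.log_two_gt_d9
  have hq2 : Real.log 2 ≤ Real.log q := Real.log_le_log (by norm_num) (by exact_mod_cast hq)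
  have h1 : (Nat.log 2 q : ℝ) * Real.log 2 ≤ Real.log q := by
    rw [← Real.log_pow]
    refine Real.log_le_log (by positivity) ?_
    exact_mod_cast Nat.pow_log_le_self 2 (by omega)
  have h0 : (0 : ℝ) ≤ Nat.log 2 q := Nat.cast_nonneg _
  simp only [JJ]
  push_cast
  nlinarith

theorem JJ_pow_le {q : ℕ} (hq : 2 ≤ q) : (JJ q : ℝ) ^ 4 ≤ 40 ^ 4 * √(q : ℝ) := by
  have q0 : (0 : ℝ) ≤ q := Nat.cast_nonneg _
  have h1 : Real.log q ≤ (q : ℝ) ^ ((1 : ℝ) / 8) / (1 / 8) := Real.log_le_rpow_div q0 (by norm_num)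
  have h2 : (JJ q : ℝ) ≤ 40 * (q : ℝ) ^ ((1 : ℝ) / 8) := by linarith [JJ_le hq]
  refine (pow_le_pow_left₀ (Nat.cast_nonneg _) h2 4).trans (le_of_eq ?_)
  rw [mul_pow, ← Real.rpow_natCast ((q : ℝ) ^ _), ← Real.rpow_mul q0, Real.sqrt_eq_rpow]
  norm_num

end Final

open Final in
/-- The theorem in every odd dimension follows from the theorem on the two-dimensional sphere. -/
theorem final_of (h : SphereSt) : ∃ C c : ℝ, 0 < C ∧ 0 < c ∧ ∀ d : ℕ, Odd d →
    ∀ (F : Type) [Field F] [Fintype F] [DecidableEq F], (Fintype.card F).Prime → ringChar F ≠ 2 →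
    ∀ j : F, j ≠ 0 → ∀ E : Finset (Fin d → F), (∀ x ∈ E, ∑ i, x i ^ 2 = j) →
      C * (Fintype.card F : ℝ) ^ (((d : ℝ) - 1) / 2) * Real.log (Fintype.card F) ^ 4 ≤
        (E.card : ℝ) →
      c * (Fintype.card F : ℝ) ≤
        (((E ×ˢ E).image (fun p => ∑ i, (p.1 i - p.2 i) ^ 2)).card : ℝ) := by
  obtain ⟨C, C1, h⟩ := h
  have C1' : (1 : ℝ) ≤ C := by exact_mod_cast C1
  refine ⟨6 * C * 5 ^ 4, (100 + (6 * C * 40 ^ 4) ^ 2)⁻¹, by positivity, by positivity,
    fun d hd F _ _ _ hp hF j hj E hE hN => ?_⟩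
  have q2 : 2 ≤ Fintype.card F := hp.two_le
  have q0 : (0 : ℝ) < Fintype.card F := by exact_mod_cast Fintype.card_pos
  have J2 : (2 : ℝ) ≤ JJ (Fintype.card F) := by exact_mod_cast Nat.le_add_left 2 _
  obtain ⟨k, rfl⟩ := hd
  have hN' : 6 * (Fintype.card F : ℝ) ^ k * (C * (JJ (Fintype.card F) : ℝ) ^ 4) ≤ E.card := by
    refine le_trans ?_ hN
    rw [show (((2 * k + 1 : ℕ) : ℝ) - 1) / 2 = k by push_cast; ring, Real.rpow_natCast]
    calc 6 * (Fintype.card F : ℝ) ^ k * (C * (JJ (Fintype.card F) : ℝ) ^ 4)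
        ≤ 6 * (Fintype.card F : ℝ) ^ k * (C * (5 * Real.log (Fintype.card F)) ^ 4) := by
          gcongr
          exact JJ_le q2
      _ = _ := by ring
  have J4 : (16 : ℝ) ≤ C * (JJ (Fintype.card F) : ℝ) ^ 4 := by
    have := pow_le_pow_left₀ (by norm_num) J2 4
    nlinarith
  by_cases hq : (Fintype.card F : ℝ) ≤ 100 + (6 * C * 40 ^ 4) ^ 2
  · have hx : E.Nonempty := Finset.card_pos.1
      (Nat.cast_pos.1 (lt_of_lt_of_le (by positivity) hN'))
    refine ((inv_mul_le_one₀ (by positivity)).2 hq).trans ?_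
    exact_mod_cast Finset.card_pos.2 ((hx.product hx).image _)
  rw [not_le] at hq
  rcases k with _ | k
  · have h1 := Sl.card_one E hE
    rw [pow_zero] at hN'
    linarith
  have hs : 6 * C * 40 ^ 4 ≤ √(Fintype.card F : ℝ) := Real.le_sqrt_of_sq_le (by linarith)
  obtain ⟨l, j', E', φ, l0, j0, hc, m1, m2, m3⟩ := Sl.extract_std hF
    (by exact_mod_cast (show (100 : ℝ) ≤ Fintype.card F by
      linarith [sq_nonneg (6 * (C : ℝ) * 40 ^ 4)]))
    (n := C * (JJ (Fintype.card F) : ℝ) ^ 4 * Fintype.card F) (by positivity) (by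
      have h1 : 6 * (C * (JJ (Fintype.card F) : ℝ) ^ 4) ≤ Fintype.card F := by
        calc 6 * (C * (JJ (Fintype.card F) : ℝ) ^ 4)
            ≤ 6 * (C * (40 ^ 4 * √(Fintype.card F : ℝ))) := by
              gcongr
              exact JJ_pow_le q2
          _ = 6 * C * 40 ^ 4 * √(Fintype.card F : ℝ) := by ring
          _ ≤ √(Fintype.card F : ℝ) * √(Fintype.card F : ℝ) := by gcongr
          _ = _ := Real.mul_self_sqrt q0.le
      rw [← mul_assoc, sq]
      exact mul_le_mul_of_nonneg_right h1 q0.le)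
    hj (k := k) E hE (le_of_eq_of_le (by ring) hN')
  have h3 := h F j' E' hp hF j0 m2 (by exact_mod_cast hc)
  have h4 : ((E' ×ˢ E').image fun q => ∑ i, (q.1 i - q.2 i) ^ 2).card ≤
      ((E ×ˢ E).image fun p => ∑ i, (p.1 i - p.2 i) ^ 2).card := by
    refine Finset.card_le_card_of_injOn (l * ·) (fun t ht => ?_)
      fun a _ b _ hab => mul_left_cancel₀ l0 hab
    obtain ⟨p, hp, rfl⟩ := Finset.mem_image.1 ht
    obtain ⟨hx, hy⟩ := Finset.mem_product.1 hp
    exact Finset.mem_image.2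
      ⟨(φ p.1, φ p.2), Finset.mem_product.2 ⟨m1 _ hx, m1 _ hy⟩, m3 _ hx _ hy⟩
  have h5 : (Fintype.card F : ℝ) ≤
      C * (((E ×ˢ E).image fun p => ∑ i, (p.1 i - p.2 i) ^ 2).card : ℝ) := by
    exact_mod_cast h3.trans (Nat.mul_le_mul_left C h4)
  rw [inv_mul_le_iff₀ (by positivity)]
  refine h5.trans (mul_le_mul_of_nonneg_right ?_ (Nat.cast_nonneg _))
  nlinarith

end Pool.Agent.Lib.MP_a460e0_co.GK
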