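import Pool.Agent.Lib.MP_a460e0_co.GK.HilA

/-! Hilbert functions of a hypersurface and of two coprime hypersurfaces. -/

namespace Pool.Agent.Lib.MP_a460e0_co.GK.Hil

open MvPolynomial

noncomputable section

/-- The truncated binomial coefficient. -/
def NZ (m : ℕ) (x : ℤ) : ℤ := if 0 ≤ x then ((x.toNat + m).choose m : ℤ) else 0

theorem NZ_nat (m d : ℕ) : NZ m d = ((d + m).choose m : ℤ) := by simp [NZ]

theorem NZ_neg (m : ℕ) {x : ℤ} (hx : x < 0) : NZ m x = 0 := by simp [NZ, not_le.2 hx]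

theorem NZ_nonneg (m : ℕ) (x : ℤ) : 0 ≤ NZ m x := by
  unfold NZ
  split_ifs <;> positivity

theorem NZ_mono (m : ℕ) {x y : ℤ} (h : x ≤ y) : NZ m x ≤ NZ m y := by
  by_cases hx : 0 ≤ x
  · unfold NZ
    rw [if_pos hx, if_pos (hx.trans h)]
    exact_mod_cast Nat.choose_le_choose m (by omega)
  · rw [NZ_neg m (not_le.1 hx)]
    exact NZ_nonneg m y

theorem NZ_succ (m : ℕ) (x : ℤ) : NZ (m + 1) x - NZ (m + 1) (x - 1) = NZ m x := by
  rcases lt_trichotomy x 0 with h | h | h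
  · rw [NZ_neg _ h, NZ_neg _ h, NZ_neg _ (by omega : x - 1 < 0), sub_zero]
  · subst h
    rw [NZ_neg _ (by omega : (0 : ℤ) - 1 < 0)]
    simp [NZ]
  · obtain ⟨d, rfl⟩ : ∃ d : ℕ, x = (d + 1 : ℕ) := ⟨(x - 1).toNat, by omega⟩
    rw [show ((d + 1 : ℕ) : ℤ) - 1 = (d : ℕ) by omega, NZ_nat, NZ_nat, NZ_nat,
      show d + 1 + (m + 1) = (d + 1 + m) + 1 by omega, Nat.choose_succ_succ,
      show d + (m + 1) = d + 1 + m by omega]
    push_cast
    ring

theorem NZ_d1 (m a : ℕ) (x : ℤ) : NZ (m + 1) x - NZ (m + 1) (x - a) ≤ a * NZ m x := by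
  induction a with
  | zero => simp
  | succ a ih =>
    have h1 := NZ_succ m (x - a)
    have h2 : NZ m (x - a) ≤ NZ m x := NZ_mono m (by omega)
    rw [show x - ((a + 1 : ℕ) : ℤ) = x - a - 1 by push_cast; ring]
    push_cast
    linarith

theorem NZ_d2 (m a b : ℕ) (x : ℤ) :
    NZ (m + 2) x - NZ (m + 2) (x - a) - NZ (m + 2) (x - b) + NZ (m + 2) (x - b - a) ≤
      a * b * NZ m x := by
  induction a with
  | zero => simp
  | succ a ih =>
    have h1 := NZ_succ (m + 1) (x - a)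
    have h2 := NZ_succ (m + 1) (x - b - a)
    have h3 := NZ_d1 m b (x - a)
    have h4 : NZ m (x - a) ≤ NZ m x := NZ_mono m (by omega)
    have h5 : (b : ℤ) * NZ m (x - a) ≤ b * NZ m x := mul_le_mul_of_nonneg_left h4 (by positivity)
    rw [show x - a - b = x - b - a by ring] at h3
    rw [show x - ((a + 1 : ℕ) : ℤ) = x - a - 1 by push_cast; ring,
      show x - b - ((a + 1 : ℕ) : ℤ) = x - b - a - 1 by push_cast; ring]
    push_cast
    linarith

theorem NZ_one {x : ℤ} (hx : 0 ≤ x) : NZ 1 x = x + 1 := by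
  unfold NZ
  rw [if_pos hx, Nat.choose_one_right]
  omega

theorem NZ_d2_one (a b : ℕ) {x : ℤ} (hx : (a : ℤ) + b ≤ x) :
    NZ 1 x - NZ 1 (x - a) - NZ 1 (x - b) + NZ 1 (x - b - a) = 0 := by
  rw [NZ_one (by omega), NZ_one (by omega), NZ_one (by omega), NZ_one (by omega)]
  ring

theorem NZ_le_pow (m d c : ℕ) (hc : m ≤ c) : NZ m d ≤ ((d : ℤ) + c) ^ m := by
  rw [NZ_nat]
  have h1 := Nat.choose_le_pow (d + m) m
  have h2 : (d + m) ^ m ≤ (d + c) ^ m := Nat.pow_le_pow_left (by omega) m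
  exact_mod_cast h1.trans h2

variable {K : Type} [Field K] {σ : Type} [Fintype σ] [DecidableEq σ]

/-- `(a0, b0)` is the exact bidegree of `f`. -/
def Exact (G : Finset σ) (f : MvPolynomial σ K) (a0 b0 : ℕ) : Prop :=
  f ∈ Fil K G a0 b0 ∧ ∀ (ψ : MvPolynomial σ K) (d e : ℕ), ψ ≠ 0 → f * ψ ∈ Fil K G d e →
    a0 ≤ d ∧ b0 ≤ e ∧ ψ ∈ Fil K G (d - a0) (e - b0)

theorem Exact.le {G : Finset σ} {f : MvPolynomial σ K} {a0 b0 a b : ℕ} (h : Exact G f a0 b0)
    (hf : f ∈ Fil K G a b) : a0 ≤ a ∧ b0 ≤ b := by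
  have := h.2 1 a b one_ne_zero (by simpa using hf)
  exact ⟨this.1, this.2.1⟩

theorem HF_span_one {G : Finset σ} {f : MvPolynomial σ K} {a0 b0 : ℕ} (hf : f ≠ 0)
    (h : Exact G f a0 b0) (d e : ℕ) :
    (HF G (Ideal.span {f}) d e : ℤ) =
      NZ G.card d * NZ Gᶜ.card e - NZ G.card (d - a0) * NZ Gᶜ.card (e - b0) := by
  have h1 := HF_add_finrank G (Ideal.span {f}) d e
  have h2 : (Module.finrank K ↥(Fil K G d e ⊓ (Ideal.span {f}).restrictScalars K) : ℤ) =
      NZ G.card (d - a0) * NZ Gᶜ.card (e - b0) := by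
    by_cases hc : a0 ≤ d ∧ b0 ≤ e
    · have h3 : Fil K G d e ⊓ (Ideal.span {f}).restrictScalars K =
          (Fil K G (d - a0) (e - b0)).map (LinearMap.mulLeft K f) := by
        ext x
        constructor
        · rintro ⟨hx1, hx2⟩
          obtain ⟨ψ, rfl⟩ := Ideal.mem_span_singleton.1 hx2
          by_cases hψ : ψ = 0
          · subst hψ
            simp
          · exact ⟨ψ, (h.2 ψ d e hψ hx1).2.2, rfl⟩
        · rintro ⟨ψ, hψ, rfl⟩
          refine ⟨Fil_mono (by omega) (by omega) (mul_mem_Fil h.1 hψ), ?_⟩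
          exact Ideal.mem_span_singleton.2 ⟨ψ, rfl⟩
      have h4 := (Submodule.equivMapOfInjective (LinearMap.mulLeft K f)
        (fun x y hxy => mul_left_cancel₀ hf hxy) (Fil K G (d - a0) (e - b0))).finrank_eq
      rw [h3, ← h4, finrank_Fil, ← Nat.cast_sub hc.1, ← Nat.cast_sub hc.2, NZ_nat, NZ_nat]
      push_cast
      ring
    · have h3 : Fil K G d e ⊓ (Ideal.span {f}).restrictScalars K = ⊥ := by
        rw [eq_bot_iff]
        rintro x ⟨hx1, hx2⟩
        obtain ⟨ψ, rfl⟩ := Ideal.mem_span_singleton.1 hx2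
        by_cases hψ : ψ = 0
        · subst hψ
          simp
        · have := h.2 ψ d e hψ hx1
          exact absurd ⟨this.1, this.2.1⟩ hc
      rw [h3, finrank_bot]
      rcases not_and_or.1 hc with h4 | h4
      · rw [NZ_neg _ (by omega : (d : ℤ) - a0 < 0)]
        simp
      · rw [NZ_neg _ (by omega : (e : ℤ) - b0 < 0)]
        simp
  rw [NZ_nat, NZ_nat, ← h2]
  have h5 := congrArg (Nat.cast : ℕ → ℤ) h1
  push_cast at h5
  linarith

theorem HF_span_two {G : Finset σ} {f0 f1 : MvPolynomial σ K} {a0 b0 a1 b1 : ℕ} (hf : f0 ≠ 0)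
    (h0 : Exact G f0 a0 b0) (h1 : f1 ∈ Fil K G a1 b1) (hc : IsRelPrime f0 f1) (d e : ℕ) :
    (HF G (Ideal.span {f0, f1}) d e : ℤ) ≤
      NZ G.card d * NZ Gᶜ.card e - NZ G.card (d - a0) * NZ Gᶜ.card (e - b0) -
        NZ G.card (d - a1) * NZ Gᶜ.card (e - b1) +
        NZ G.card (d - a1 - a0) * NZ Gᶜ.card (e - b1 - b0) := by
  have hle : Ideal.span {f0} ≤ Ideal.span {f0, f1} := Ideal.span_mono (by simp)
  have e1 := HF_span_one hf h0 d e
  by_cases hd : a1 ≤ d ∧ b1 ≤ e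
  · have t := HF_tele G (Ideal.span {f0}) (Ideal.span {f0, f1}) (Ideal.span {f0}) hle
      (φ := f1) (Ideal.subset_span (by simp)) h1
      (fun ψ hψ => Ideal.mem_span_singleton.2
        (hc.dvd_of_dvd_mul_left (Ideal.mem_span_singleton.1 hψ))) (d - a1) (e - b1)
    rw [Nat.sub_add_cancel hd.1, Nat.sub_add_cancel hd.2] at t
    have e2 := HF_span_one hf h0 (d - a1) (e - b1)
    rw [Nat.cast_sub hd.1, Nat.cast_sub hd.2] at e2
    have t' : (HF G (Ideal.span {f0, f1}) d e : ℤ) + HF G (Ideal.span {f0}) (d - a1) (e - b1) ≤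
        HF G (Ideal.span {f0}) d e := by exact_mod_cast t
    linarith
  · have t : (HF G (Ideal.span {f0, f1}) d e : ℤ) ≤ HF G (Ideal.span {f0}) d e := by
      exact_mod_cast HF_anti G hle d e
    rcases not_and_or.1 hd with h4 | h4
    · rw [NZ_neg _ (by omega : (d : ℤ) - a1 < 0), NZ_neg _ (by omega : (d : ℤ) - a1 - a0 < 0)]
      linarith
    · rw [NZ_neg _ (by omega : (e : ℤ) - b1 < 0), NZ_neg _ (by omega : (e : ℤ) - b1 - b0 < 0)]
      linarith

theorem HF_top (G : Finset σ) (d e : ℕ) : HF G (⊤ : Ideal (MvPolynomial σ K)) d e = 0 := by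
  have h := HF_add_finrank G (⊤ : Ideal (MvPolynomial σ K)) d e
  rw [Submodule.restrictScalars_top, inf_top_eq, finrank_Fil] at h
  omega

theorem HF_span_zero_left (G : Finset σ) {f : MvPolynomial σ K} (hc : IsRelPrime 0 f) (d e : ℕ) :
    HF G (Ideal.span {0, f}) d e = 0 := by
  have hu : IsUnit f := isRelPrime_zero_left.1 hc
  have : Ideal.span {0, f} = ⊤ :=
    Ideal.eq_top_of_isUnit_mem _ (Ideal.subset_span (by simp)) hu
  rw [this, HF_top]

/-- First difference in product form. -/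
theorem first_diff (m n a b : ℕ) (d e : ℤ) :
    NZ (m + 1) d * NZ (n + 1) e - NZ (m + 1) (d - a) * NZ (n + 1) (e - b) ≤
      a * NZ m d * NZ (n + 1) e + b * NZ (m + 1) d * NZ n e := by
  have h1 := mul_le_mul_of_nonneg_right (NZ_d1 m a d) (NZ_nonneg (n + 1) e)
  have h2 := mul_le_mul_of_nonneg_left (NZ_d1 n b e) (NZ_nonneg (m + 1) (d - a))
  have h3 : NZ (m + 1) (d - a) * (b * NZ n e) ≤ NZ (m + 1) d * (b * NZ n e) :=
    mul_le_mul_of_nonneg_right (NZ_mono _ (by omega))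
      (mul_nonneg (by positivity) (NZ_nonneg n e))
  nlinarith

/-- Second difference in product form; `s` and `t` bound the pure second differences. -/
theorem second_diff (m n a0 b0 a1 b1 : ℕ) (d e s t : ℤ) (ht0 : 0 ≤ t)
    (hs : NZ (m + 1) d - NZ (m + 1) (d - a0) - NZ (m + 1) (d - a1) +
      NZ (m + 1) (d - a1 - a0) ≤ s)
    (ht : NZ (n + 1) e - NZ (n + 1) (e - b0) - NZ (n + 1) (e - b1) +
      NZ (n + 1) (e - b1 - b0) ≤ t) :
    NZ (m + 1) d * NZ (n + 1) e - NZ (m + 1) (d - a0) * NZ (n + 1) (e - b0) -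
        NZ (m + 1) (d - a1) * NZ (n + 1) (e - b1) +
        NZ (m + 1) (d - a1 - a0) * NZ (n + 1) (e - b1 - b0) ≤
      s * NZ (n + 1) e + (a0 * b1 + a1 * b0) * (NZ m d * NZ n e) + NZ (m + 1) d * t := by
  have h1 := mul_le_mul_of_nonneg_right hs (NZ_nonneg (n + 1) e)
  have h4 : NZ (m + 1) (d - a1 - a0) * (NZ (n + 1) e - NZ (n + 1) (e - b0) -
      NZ (n + 1) (e - b1) + NZ (n + 1) (e - b1 - b0)) ≤ NZ (m + 1) d * t :=
    (mul_le_mul_of_nonneg_left ht (NZ_nonneg _ _)).trans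
      (mul_le_mul_of_nonneg_right (NZ_mono _ (by omega)) ht0)
  have p1 : NZ (m + 1) (d - a0) - NZ (m + 1) (d - a1 - a0) ≤ a1 * NZ m d := by
    have := NZ_d1 m a1 (d - a0)
    rw [show d - a0 - a1 = d - a1 - a0 by ring] at this
    exact this.trans (mul_le_mul_of_nonneg_left (NZ_mono _ (by omega)) (by positivity))
  have p2 : NZ (m + 1) (d - a1) - NZ (m + 1) (d - a1 - a0) ≤ a0 * NZ m d :=
    (NZ_d1 m a0 (d - a1)).trans
      (mul_le_mul_of_nonneg_left (NZ_mono _ (by omega)) (by positivity))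
  have q1 : 0 ≤ NZ (n + 1) e - NZ (n + 1) (e - b0) := sub_nonneg.2 (NZ_mono _ (by omega))
  have q2 : 0 ≤ NZ (n + 1) e - NZ (n + 1) (e - b1) := sub_nonneg.2 (NZ_mono _ (by omega))
  have h2 := mul_le_mul p1 (NZ_d1 n b0 e) q1 (mul_nonneg (by positivity) (NZ_nonneg m d))
  have h3 := mul_le_mul p2 (NZ_d1 n b1 e) q2 (mul_nonneg (by positivity) (NZ_nonneg m d))
  nlinarith

end

end Pool.Agent.Lib.MP_a460e0_co.GK.Hil
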