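import Pool.Agent.Lib.MP_a460e0_co.GK.ModelA
import Pool.Agent.Lib.MP_a460e0_co.GkRot
import Pool.Agent.Lib.MP_a460e0_co.Geom

/-! The plane model of a set on the sphere. -/

namespace Pool.Agent.Lib.MP_a460e0_co.GK

open MvPolynomial Finset Gk.Rot

theorem card_circ {F : Type} [Field F] [Fintype F] [DecidableEq F] {j : F}
    (Z : Finset (Fin 3 → F)) (τ : F) (hZ : ∀ x ∈ Z, ∑ i, x i ^ 2 = j ∧ x 2 = τ) :
    Z.card ≤ 2 * Fintype.card F := by
  refine card_le_mul_card_image_of_maps_to (f := fun x => x 0) (t := univ)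
    (fun _ _ => mem_univ _) 2 fun a _ => ?_
  refine (card_le_card_of_injOn (fun x => x 1) (fun x hx => ?_) fun x hx y hy h => ?_).trans
    (card_sq_le (j - τ ^ 2 - a ^ 2))
  · obtain ⟨h1, h2⟩ := mem_filter.1 (mem_coe.1 hx)
    obtain ⟨h3, h4⟩ := hZ x h1
    rw [Fin.sum_univ_three, h4, h2] at h3
    simp only [coe_filter, mem_univ, true_and, Set.mem_ofPred_eq]
    linear_combination h3
  · obtain ⟨h1, h2⟩ := mem_filter.1 (mem_coe.1 hx)
    obtain ⟨h3, h4⟩ := mem_filter.1 (mem_coe.1 hy)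
    exact vext (h2.trans h4.symm) h ((hZ x h1).2.trans (hZ y h3).2.symm)

theorem pt_inj {K : Type} [Field K] {i r p q : K} {x y : Fin 3 → K} (h2 : (2 : K) ≠ 0)
    (hi : i ^ 2 = -1) (hr : r ≠ 0) (h : Pt i r x p q) (k : Pt i r y p q) : x = y := by
  have i0 : i ≠ 0 := by rintro rfl; simp at hi
  have a : x 0 + i * x 1 = y 0 + i * y 1 :=
    mul_left_cancel₀ (sub_ne_zero.2 (h.ne h2 hr))
      (by linear_combination h.al - h.be - k.al + k.be)
  have c : x 2 = y 2 := by linear_combination k.al - h.al + p * a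
  have b : x 0 - i * x 1 = y 0 - i * y 1 := by
    linear_combination h.al' hi - k.al' hi - p * c
  exact vext (mul_left_cancel₀ h2 (by linear_combination a + b))
    (mul_left_cancel₀ (mul_ne_zero h2 i0) (by linear_combination a - b)) c

theorem modelSt : ModelSt := by
  intro F _ _ _ K _ _ _ j E hF hj hE
  classical
  obtain ⟨i, hi⟩ := IsAlgClosed.exists_pow_nat_eq (-1 : K) two_pos
  obtain ⟨r, hr⟩ := IsAlgClosed.exists_pow_nat_eq (algebraMap F K j) two_pos
  have h2 : (2 : K) ≠ 0 := two_ne hF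
  have inj := (algebraMap F K).injective
  have r0 : r ≠ 0 := by
    rintro rfl
    exact (map_ne_zero (algebraMap F K)).2 hj (by rw [← hr]; simp)
  obtain ⟨GG, g1, g2, g3, g4⟩ := exists_GG (F := F) hF hi hj hr
  let pl : (Fin 3 → F) → K × K := fun x => (al i r x, be i r x)
  let E1 := E.filter fun x => algebraMap F K (x 0) + i * algebraMap F K (x 1) ≠ 0
  have hP : ∀ x ∈ E1, Pt i r (fun k => algebraMap F K (x k)) (pl x).1 (pl x).2 := fun x hx =>
    pt_al_be hr (hE x (mem_filter.1 hx).1) (mem_filter.1 hx).2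
  have pinj : Set.InjOn pl E1 := fun x hx y hy h => by
    have k := hP y hy
    rw [← h] at k
    exact funext fun m => inj (congrFun (pt_inj h2 hi r0 (hP x hx) k) m)
  obtain ⟨E0, s0, na, c0⟩ := exists_half (E1.image pl) fun z hz => by
    obtain ⟨x, hx, rfl⟩ := mem_image.1 hz
    exact (hP x hx).ne h2 r0
  rw [card_image_of_injOn pinj] at c0
  let ψ : K × K → Fin 3 → F := Function.invFunOn pl E1
  have hψ : ∀ z ∈ E0, ψ z ∈ E1 ∧ pl (ψ z) = z := fun z hz => by
    obtain ⟨x, hx, e⟩ := mem_image.1 (s0 hz)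
    exact Function.invFunOn_pos (f := pl) (s := (E1 : Set (Fin 3 → F))) ⟨x, hx, e⟩
  have hQ : ∀ z ∈ E0, Pt i r (fun k => algebraMap F K (ψ z k)) z.1 z.2 := fun z hz => by
    have k := hP _ (hψ z hz).1
    rwa [(hψ z hz).2] at k
  have hL : ∀ z ∈ E0, (algebraMap F K (ψ z 2) - r) * z.1 = (algebraMap F K (ψ z 2) + r) * z.2 :=
    fun z hz => mul_right_cancel₀ (hQ z hz).den (by
      linear_combination (algebraMap F K (ψ z 2) - r) * (hQ z hz).al -
        (algebraMap F K (ψ z 2) + r) * (hQ z hz).be)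
  have uv : ∀ τ : F, algebraMap F K τ + r ≠ algebraMap F K τ - r := fun τ e =>
    mul_ne_zero h2 r0 (by linear_combination e)
  have c1 : (E.filter fun x => ¬algebraMap F K (x 0) + i * algebraMap F K (x 1) ≠ 0).card ≤
      2 * Fintype.card F := by
    refine card_le_mul_card_image_of_maps_to (f := fun x => x 1) (t := univ)
      (fun _ _ => mem_univ _) 2 fun a _ => ?_
    refine (card_le_card_of_injOn (fun x => x 2) (fun x hx => ?_) fun x hx y hy h => ?_).trans
      (card_sq_le j)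
    · obtain ⟨h1, -⟩ := mem_filter.1 (mem_coe.1 hx)
      obtain ⟨h3, h4⟩ := mem_filter.1 h1
      have h5 := congrArg (algebraMap F K) (hE x h3)
      rw [not_not] at h4
      simp only [coe_filter, mem_univ, true_and, Set.mem_ofPred_eq]
      refine inj ?_
      simp only [Fin.sum_univ_three, map_add, map_pow] at h5 ⊢
      linear_combination h5 - (algebraMap F K (x 0) - i * algebraMap F K (x 1)) * h4 -
        algebraMap F K (x 1) ^ 2 * hi
    · obtain ⟨h1, e1⟩ := mem_filter.1 (mem_coe.1 hx)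
      obtain ⟨h3, e3⟩ := mem_filter.1 (mem_coe.1 hy)
      have h4 := not_not.1 (mem_filter.1 h1).2
      have h5 := not_not.1 (mem_filter.1 h3).2
      have e : x 1 = y 1 := e1.trans e3.symm
      rw [e] at h4
      exact vext (inj (by linear_combination h4 - h5)) e h
  refine ⟨E0, GG, ψ, ?_, fun z hz => ⟨(hQ z hz).ne h2 r0, (mem_filter.1 (hψ z hz).1).1⟩, na,
    ⟨g1, fun g hg h hh c e => g2 h hh g hg c e⟩, g3, fun f hf Z hZ hz => ?_,
    fun x hx x' hx' y hy y' hy' n1 _ hd => ?_⟩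
  · have := card_filter_add_card_filter_not (s := E)
      fun x => algebraMap F K (x 0) + i * algebraMap F K (x 1) ≠ 0
    have e : E1.card = (E.filter
      fun x => algebraMap F K (x 0) + i * algebraMap F K (x 1) ≠ 0).card := rfl
    omega
  · by_cases hb : ∃ τ : F, ∀ t, ev2 (t * (algebraMap F K τ + r), t * (algebraMap F K τ - r)) f = 0
    · obtain ⟨τ, hτ⟩ := hb
      have k : Z.card ≤ (Z.image ψ).card := by
        rw [card_image_of_injOn fun x hx y hy h => by
          rw [← (hψ x (hZ hx)).2, ← (hψ y (hZ hy)).2, h]]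
      refine (k.trans (card_circ (j := j) _ τ fun x hx => ?_)).trans
        (Nat.le_mul_of_pos_right _ (one_le_deg hf))
      obtain ⟨z, hz', rfl⟩ := mem_image.1 hx
      refine ⟨hE _ (mem_filter.1 (hψ z (hZ hz')).1).1, inj ?_⟩
      have a := line_of_vanish hf (uv τ) hτ (hz z hz')
      exact mul_right_cancel₀ (sub_ne_zero.2 ((hQ z (hZ hz')).ne h2 r0))
        (by linear_combination hL z (hZ hz') - a)
    · push Not at hb
      refine (card_le_mul_card_image_of_maps_to (f := fun z => ψ z 2) (t := univ)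
        (fun _ _ => mem_univ _) f.totalDegree fun τ _ => ?_).trans ?_
      · refine card_line_le (uv τ) (hb τ) _ fun z hz' => ?_
        obtain ⟨a, b⟩ := mem_filter.1 hz'
        exact ⟨b ▸ hL z (hZ a), hz z a⟩
      · rw [card_univ]
        nlinarith [Nat.zero_le (f.totalDegree * Fintype.card F)]
  · have e : ∀ z ∈ E0, al i r (ψ z) = z.1 ∧ be i r (ψ z) = z.2 := fun z hz =>
      ⟨congrArg Prod.fst (hψ z hz).2, congrArg Prod.snd (hψ z hz).2⟩
    have m : ∀ z ∈ E0, ∑ k, ψ z k ^ 2 = j ∧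
        algebraMap F K (ψ z 0) + i * algebraMap F K (ψ z 1) ≠ 0 := fun z hz =>
      ⟨hE _ (mem_filter.1 (hψ z hz).1).1, (mem_filter.1 (hψ z hz).1).2⟩
    have k := g4 (ψ x) (ψ x') (ψ y) (ψ y') (by
      simp only [List.mem_cons, List.not_mem_nil, or_false]
      rintro v (rfl | rfl | rfl | rfl)
      exacts [m x hx, m x' hx', m y hy, m y' hy'])
    rw [(e x hx).1, (e x hx).2, (e x' hx').1, (e x' hx').2, (e y hy).1, (e y hy).2,
      (e y' hy').1, (e y' hy').2] at k
    obtain ⟨g, hg, k1, k2, k3, k4⟩ := k n1.1 n1.2.2.1 n1.2.2.2 n1.2.1 hd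
    exact ⟨g, hg, ⟨k1, k2⟩, k3, k4⟩

end Pool.Agent.Lib.MP_a460e0_co.GK
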