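import Pool.Agent.Lib.MP_a460e0_co.GK.St

/-! Plane curves and lines through the origin; halving. -/

namespace Pool.Agent.Lib.MP_a460e0_co.GK

open MvPolynomial Finset

variable {K : Type} [Field K]

theorem line_of_vanish [Infinite K] {f : P2 K} (hf : Irreducible f) {u v : K} (huv : u ≠ v)
    (h : ∀ t, ev2 (t * u, t * v) f = 0) {x : K × K} (hx : ev2 x f = 0) : v * x.1 = u * x.2 := by
  have hw : u - v ≠ 0 := sub_ne_zero.2 huv
  let L : P2 K := C v * X 0 - C u * X 1
  let T : P2 K := C (u - v)⁻¹ * (X 0 - X 1)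
  let π : P2 K →ₐ[K] P2 K := aeval ![T * C u, T * C v]
  have hc : (C (u - v)⁻¹ : P2 K) * (C u - C v) = 1 := by
    rw [← C_sub, ← C_mul, inv_mul_cancel₀ hw, C_1]
  have h0 : ∀ i, L ∣ X i - π (X i) := by
    intro i
    refine ⟨-C (u - v)⁻¹, ?_⟩
    fin_cases i
    · simp only [π, aeval_X, L, T]
      simp only [Fin.zero_eta, Matrix.cons_val_zero]
      linear_combination (-(X 0 : P2 K)) * hc
    · simp only [π, aeval_X, L, T]
      simp only [Fin.mk_one, Matrix.cons_val_one, Matrix.cons_val_zero]
      linear_combination (-(X 1 : P2 K)) * hc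
  have h1 : ∀ g : P2 K, L ∣ g - π g := by
    intro g
    induction g using MvPolynomial.induction_on with
    | C a => simp [π]
    | add p q hp hq =>
      have e : p + q - π (p + q) = (p - π p) + (q - π q) := by rw [map_add]; ring
      exact e ▸ dvd_add hp hq
    | mul_X p i hp =>
      have e : p * X i - π (p * X i) = (p - π p) * X i + π p * (X i - π (X i)) := by
        rw [map_mul]; ring
      exact e ▸ dvd_add (hp.mul_right _) ((h0 i).mul_left _)
  have h2 : π f = 0 := by
    refine MvPolynomial.funext fun z => ?_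
    have e : (eval z).comp π.toRingHom =
        eval ![(u - v)⁻¹ * (z 0 - z 1) * u, (u - v)⁻¹ * (z 0 - z 1) * v] := by
      refine MvPolynomial.ringHom_ext (fun a => by simp [π]) fun i => ?_
      fin_cases i <;> simp [π, T]
    have := RingHom.congr_fun e f
    rw [map_zero]
    exact this.trans (h _)
  obtain ⟨g, hg⟩ := h1 f
  rw [h2, sub_zero] at hg
  rcases hf.isUnit_or_isUnit hg with hu | hu
  · have := (hu.map (eval (fun _ => (0 : K)))).ne_zero
    simp [L] at this
  · have h3 := (hu.map (eval ![x.1, x.2])).ne_zero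
    rw [ev2, hg, map_mul, mul_eq_zero, or_iff_left h3] at hx
    simpa [L, sub_eq_zero] using hx

theorem card_line_le {f : P2 K} {u v : K} (huv : u ≠ v) (h : ∃ t, ev2 (t * u, t * v) f ≠ 0)
    (Z : Finset (K × K)) (hZ : ∀ x ∈ Z, v * x.1 = u * x.2 ∧ ev2 x f = 0) :
    Z.card ≤ f.totalDegree := by
  classical
  have hw : u - v ≠ 0 := sub_ne_zero.2 huv
  let g : Polynomial K := aeval ![Polynomial.C u * Polynomial.X, Polynomial.C v * Polynomial.X] f
  have e : ∀ t, g.eval t = ev2 (t * u, t * v) f := fun t => by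
    have e : (Polynomial.evalRingHom t).comp (aeval (R := K)
        ![Polynomial.C u * Polynomial.X, Polynomial.C v * Polynomial.X]).toRingHom =
        eval ![t * u, t * v] := by
      refine MvPolynomial.ringHom_ext (fun a => by simp) fun i => ?_
      fin_cases i <;> simp <;> ring
    exact RingHom.congr_fun e f
  have g0 : g ≠ 0 := by
    obtain ⟨t, ht⟩ := h
    intro h0
    rw [← e, h0] at ht
    simp at ht
  have gd : g.natDegree ≤ f.totalDegree := by
    have := MvPolynomial.aeval_natDegree_le (n := 1) f le_rfl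
      ![Polynomial.C u * Polynomial.X, Polynomial.C v * Polynomial.X] (fun i => by
        fin_cases i <;> exact (Polynomial.natDegree_C_mul_le _ _).trans Polynomial.natDegree_X_le)
    simpa using this
  have k : ∀ x ∈ Z, x = ((x.1 - x.2) / (u - v) * u, (x.1 - x.2) / (u - v) * v) := fun x hx => by
    have := (hZ x hx).1
    ext <;> field_simp <;> linear_combination -this
  refine (card_le_card_of_injOn (t := g.roots.toFinset) (fun x => (x.1 - x.2) / (u - v))
    (fun x hx => ?_) fun x hx y hy hxy => ?_).trans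
    ((Multiset.toFinset_card_le _).trans ((Polynomial.card_roots' g).trans gd))
  · simp only [mem_coe, Multiset.mem_toFinset,
      Polynomial.mem_roots g0, Polynomial.IsRoot.def, e]
    rw [← k x hx]
    exact (hZ x hx).2
  · rw [k x hx, k y hy]
    simp only at hxy
    rw [hxy]

theorem one_le_deg {f : P2 K} (hf : Irreducible f) : 1 ≤ f.totalDegree := by
  by_contra h
  have h0 : f.totalDegree = 0 := by omega
  rw [totalDegree_eq_zero_iff_eq_C] at h0
  have h1 : coeff 0 f ≠ 0 := fun h1 => hf.ne_zero (by rw [h0, h1, C_0])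
  exact hf.not_isUnit (h0 ▸ (isUnit_iff_ne_zero.2 h1).map C)

omit [Field K] in
theorem exists_half (A : Finset (K × K)) (hA : ∀ x ∈ A, x.1 ≠ x.2) :
    ∃ B ⊆ A, NoAnti B ∧ A.card ≤ 2 * B.card := by
  classical
  let _ : LinearOrder K := linearOrderOfSTO WellOrderingRel
  have h := card_filter_add_card_filter_not (s := A) fun x => x.1 < x.2
  rcases le_total (A.filter fun x => x.1 < x.2).card (A.filter fun x => ¬x.1 < x.2).card
    with k | k
  · refine ⟨_, filter_subset (fun x => ¬x.1 < x.2) A, fun x hx hs => ?_, by omega⟩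
    have a := mem_filter.1 hx
    have b := (mem_filter.1 hs).2
    exact hA x a.1 (le_antisymm (not_lt.1 b) (not_lt.1 a.2))
  · refine ⟨_, filter_subset (fun x => x.1 < x.2) A, fun x hx hs => ?_, by omega⟩
    exact lt_asymm (mem_filter.1 hx).2 (mem_filter.1 hs).2

theorem Poor.mono {E E' : Finset (K × K)} {ρ : ℕ} (h : Poor E ρ) (hs : E' ⊆ E) : Poor E' ρ :=
  fun f hf Z hZ => h f hf Z (hZ.trans hs)

omit [Field K] in
theorem NoAnti.mono {E E' : Finset (K × K)} (h : NoAnti E) (hs : E' ⊆ E) : NoAnti E' :=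
  fun x hx hx' => h x (hs hx) (hs hx')

theorem Poor.rul {E : Finset (K × K)} {ρ : ℕ} (h : Poor E ρ) : Rul E ρ := by
  have k : ∀ (i : Fin 2) (c : K), (X i - C c : P2 K).totalDegree = 1 := fun i c => by
    rw [sub_eq_add_neg, ← C_neg, totalDegree_add_eq_left_of_totalDegree_lt] <;> simp
  have ir : ∀ (i : Fin 2) (c : K), Irreducible (X i - C c : P2 K) := fun i c =>
    irreducible_of_totalDegree_eq_one (k i c) fun x hx => by
      have := hx (Finsupp.single i 1)
      rw [coeff_sub, coeff_X, coeff_C, if_neg (Finsupp.single_ne_zero.2 one_ne_zero).symm,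
        sub_zero, if_pos rfl] at this
      exact isUnit_of_dvd_one this
  intro c Z hZ hc
  rcases hc with hc | hc
  · simpa [k] using h _ (ir 0 c) Z hZ fun x hx => by simp [ev2, hc x hx]
  · simpa [k] using h _ (ir 1 c) Z hZ fun x hx => by simp [ev2, hc x hx]

end Pool.Agent.Lib.MP_a460e0_co.GK
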