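import Pool.Agent.Lib.MP_a460e0_co.GK.St

/-! Dimension of primes as transcendence degree; one equation cuts it by at most one (T4). -/

set_option autoImplicit false

namespace Pool.Agent.Lib.MP_a460e0_co.GK

namespace Pit

open MvPolynomial

/-- There are `r` elements that are algebraically independent modulo `P`. -/
def DimA (K : Type) [Field K] {A : Type} [CommRing A] [Algebra K A] (P : Ideal A) (r : ℕ) :
    Prop :=
  ∃ f : Fin r → A, AlgebraicIndependent K (fun i => Ideal.Quotient.mk P (f i))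

variable {K : Type} [Field K] {A : Type} [CommRing A] [Algebra K A]

theorem dimGE_iff_aeval {P : Ideal A} {r : ℕ} :
    DimA K P r ↔ ∃ f : Fin r → A, ∀ h : MvPolynomial (Fin r) K, aeval f h ∈ P → h = 0 := by
  refine exists_congr fun f => ?_
  rw [algebraicIndependent_iff]
  refine forall_congr' fun h => ?_
  have : aeval (fun i => Ideal.Quotient.mk P (f i)) h = Ideal.Quotient.mk P (aeval f h) := by
    have := (comp_aeval_apply (f := f) (Ideal.Quotient.mkₐ K P) h)
    simpa using this.symm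
  rw [this, Ideal.Quotient.eq_zero_iff_mem]

theorem DimA.anti {P Q : Ideal A} {r : ℕ} (h : DimA K Q r) (hPQ : P ≤ Q) : DimA K P r := by
  obtain ⟨f, hf⟩ := dimGE_iff_aeval.1 h
  exact dimGE_iff_aeval.2 ⟨f, fun g hg => hf g (hPQ hg)⟩

theorem DimA.mono {P : Ideal A} {r s : ℕ} (h : DimA K P s) (hrs : r ≤ s) : DimA K P r := by
  obtain ⟨f, hf⟩ := h
  exact ⟨fun i => f (Fin.castLE hrs i), hf.comp (Fin.castLE hrs) (Fin.castLE_injective hrs)⟩

theorem DimA.ne_top {P : Ideal A} {r : ℕ} (h : DimA K P r) : P ≠ ⊤ := by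
  rintro rfl
  obtain ⟨f, hf⟩ := dimGE_iff_aeval.1 h
  exact one_ne_zero (hf 1 Submodule.mem_top)

theorem dimGE_zero {P : Ideal A} (hP : P ≠ ⊤) : DimA K P 0 := by
  refine dimGE_iff_aeval.2 ⟨Fin.elim0, fun h hh => ?_⟩
  rw [h.eq_C_of_isEmpty] at hh ⊢
  by_contra h0
  have h1 : h.coeff 0 ≠ 0 := fun e => h0 (by rw [e, map_zero])
  rw [aeval_C] at hh
  exact hP (Ideal.eq_top_of_isUnit_mem _ hh ((IsUnit.mk0 _ h1).map _))

theorem DimA.le_trdeg {P : Ideal A} {r : ℕ} (h : DimA K P r) :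
    (r : Cardinal) ≤ Algebra.trdeg K (A ⧸ P) := by
  obtain ⟨f, hf⟩ := h
  simpa using hf.cardinalMk_le_trdeg

theorem dimGE_of_le_trdeg {P : Ideal A} {r : ℕ}
    (h : (r : Cardinal) ≤ Algebra.trdeg K (A ⧸ P)) [P.IsPrime] : DimA K P r := by
  obtain ⟨t, ht⟩ := exists_isTranscendenceBasis K (A ⧸ P)
  rw [← ht.cardinalMk_eq_trdeg, ← Cardinal.mk_fin r] at h
  obtain ⟨e⟩ := (Cardinal.le_def _ _).1 h
  choose f hf using fun i : Fin r => Ideal.Quotient.mk_surjective (e i : A ⧸ P)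
  refine ⟨f, ?_⟩
  rw [funext hf]
  exact ht.1.comp e e.injective

theorem dimGE_iff_trdeg {P : Ideal A} [P.IsPrime] {r : ℕ} :
    DimA K P r ↔ (r : Cardinal) ≤ Algebra.trdeg K (A ⧸ P) :=
  ⟨DimA.le_trdeg, fun h => dimGE_of_le_trdeg h⟩

/-- pull back along an algebra map -/
theorem DimA.of_comap {B : Type} [CommRing B] [Algebra K B] (g : A →ₐ[K] B) {Q : Ideal B}
    {r : ℕ} (h : DimA K (Q.comap g) r) : DimA K Q r := by
  obtain ⟨f, hf⟩ := dimGE_iff_aeval.1 h
  refine dimGE_iff_aeval.2 ⟨fun i => g (f i), fun u hu => hf u ?_⟩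
  rw [Ideal.mem_comap, comp_aeval_apply]
  exact hu

theorem aeval_X_eq_rename {σ τ : Type} (e : σ → τ) (h : MvPolynomial σ K) :
    aeval (fun j => (X (e j) : MvPolynomial τ K)) h = rename e h := by
  have : (aeval (fun j => (X (e j) : MvPolynomial τ K)) : MvPolynomial σ K →ₐ[K] _) = rename e :=
    algHom_ext fun i => by simp
  rw [this]

theorem dimGE_bot_mv (σ : Type) [Fintype σ] :
    DimA K (⊥ : Ideal (MvPolynomial σ K)) (Fintype.card σ) := by
  refine dimGE_iff_aeval.2 ⟨fun i => X ((Fintype.equivFin σ).symm i), fun h hh => ?_⟩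
  rw [Ideal.mem_bot, aeval_X_eq_rename] at hh
  exact rename_injective _ (Fintype.equivFin σ).symm.injective (by rw [map_zero]; exact hh)

/-- a principal proper ideal of a polynomial ring in `s + 1` variables -/
theorem dimGE_span_mv {s : ℕ} (f : MvPolynomial (Fin (s + 1)) K) (hf : ¬ IsUnit f) :
    DimA K (Ideal.span {f}) s := by
  by_cases h0 : f = 0
  · subst h0
    rw [Ideal.span_singleton_zero]
    exact (dimGE_bot_mv (Fin (s + 1))).mono (by simp)
  obtain ⟨i, hi⟩ : f.vars.Nonempty := by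
    rw [Finset.nonempty_iff_ne_empty]
    intro e
    rw [vars_eq_empty_iff_eq_C] at e
    have h1 : f.coeff 0 ≠ 0 := fun e' => h0 (by rw [e, e', map_zero])
    exact hf (e ▸ (IsUnit.mk0 _ h1).map C)
  refine dimGE_iff_aeval.2 ⟨fun j => X (i.succAbove j), fun h hh => ?_⟩
  by_contra hne
  obtain ⟨u, hu⟩ := Ideal.mem_span_singleton.1 hh
  rw [aeval_X_eq_rename] at hu
  have h2 : rename i.succAbove h ≠ 0 := fun e => hne
    (rename_injective _ Fin.succAbove_right_injective (by rw [e, map_zero]))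
  have hu0 : u ≠ 0 := fun e => h2 (by rw [hu, e, mul_zero])
  have h3 : i ∈ (rename i.succAbove h).vars := by
    rw [mem_vars_iff_degreeOf_ne_zero] at hi ⊢
    rw [hu, degreeOf_mul_eq h0 hu0]
    omega
  obtain ⟨j, -, hj⟩ := mem_vars_rename _ _ h3
  exact Fin.succAbove_ne i j hj

theorem dimGE_of_height_mv {s : ℕ} (p : Ideal (MvPolynomial (Fin (s + 1)) K)) [hp : p.IsPrime]
    (h : p.height ≤ 1) : DimA K p s := by
  rcases Order.le_one_iff.1 h with h0 | h1
  · rw [Ideal.height_eq_zero_iff_eq_bot.1 h0]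
    exact (dimGE_bot_mv (Fin (s + 1))).mono (by simp)
  · obtain ⟨f, hf⟩ := UniqueFactorizationMonoid.isPrincipal_of_height_eq_one h1
    have e : p = Ideal.span {f} := hf
    rw [e]
    refine dimGE_span_mv f fun hu => hp.ne_top ?_
    rw [e]
    exact Ideal.span_singleton_eq_top.2 hu

theorem dimGE_of_height {B : Type} [CommRing B] [IsDomain B] [Algebra K B]
    [Algebra.FiniteType K B] {r : ℕ} (hB : ((r + 1 : ℕ) : Cardinal) ≤ Algebra.trdeg K B)
    (Q : Ideal B) [Q.IsPrime] (hQ : Q.height ≤ 1) : DimA K Q r := by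
  obtain ⟨s, g, hg, hf⟩ := exists_finite_inj_algHom_of_fg K B
  let P := MvPolynomial (Fin s) K
  let _ : Algebra P B := g.toRingHom.toAlgebra
  have : IsScalarTower K P B := .of_algebraMap_eq fun c => (g.commutes c).symm
  have : Module.Finite P B := hf
  have : FaithfulSMul P B := (faithfulSMul_iff_algebraMap_injective P B).mpr hg
  have : IsNoetherianRing B := Algebra.FiniteType.isNoetherianRing K B
  have hs : r + 1 ≤ s := by
    have h1 := trdeg_add_eq K P (A := B)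
    rw [trdeg_eq_zero (R := P) (A := B), add_zero, MvPolynomial.trdeg_of_isDomain] at h1
    rw [← h1] at hB
    simpa using hB
  obtain ⟨s, rfl⟩ : ∃ t, s = t + 1 := ⟨s - 1, by omega⟩
  have h2 := Ideal.height_eq_height_add_of_liesOver_of_hasGoingDown (Q.under P) Q
  have h3 : (Q.under P).height ≤ 1 := le_trans (by rw [h2]; exact le_self_add) hQ
  exact DimA.of_comap g ((dimGE_of_height_mv (Q.under P) h3).mono (by omega))

/-- T4: one equation cuts the dimension by at most one. -/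
theorem dim_cut [Algebra.FiniteType K A] {W S : Ideal A} [hW : W.IsPrime] {φ : A} {r : ℕ}
    (hS : S ∈ (W ⊔ Ideal.span {φ}).minimalPrimes) (h : DimA K W (r + 1)) : DimA K S r := by
  have hWS : W ≤ S := le_sup_left.trans hS.le
  have : S.IsPrime := hS.isPrime
  have hk : RingHom.ker (Ideal.Quotient.mk W) ≤ S := W.mk_ker.trans_le hWS
  have : (S.map (Ideal.Quotient.mk W)).IsPrime :=
    Ideal.map_isPrime_of_surjective Ideal.Quotient.mk_surjective hk
  have : IsNoetherianRing A := Algebra.FiniteType.isNoetherianRing K A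
  have h1 := dimGE_of_height (K := K) h.le_trdeg (S.map (Ideal.Quotient.mk W))
    (Ideal.map_height_le_one_of_mem_minimalPrimes hS)
  obtain ⟨f, hf⟩ := dimGE_iff_aeval.1 h1
  choose f' hf' using fun i => Ideal.Quotient.mk_surjective (f i)
  refine dimGE_iff_aeval.2 ⟨f', fun u hu => hf u ?_⟩
  have e : aeval f u = Ideal.Quotient.mk W (aeval f' u) := by
    rw [← funext hf']
    simpa using (comp_aeval_apply (f := f') (Ideal.Quotient.mkₐ K W) u).symm
  rw [e]
  exact Ideal.mem_map_of_mem _ hu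

/-- T4 in the form it is used: inside a given prime `N`. -/
theorem exists_cut [Algebra.FiniteType K A] {W N : Ideal A} [W.IsPrime] [N.IsPrime] {φ : A}
    (hWN : W ≤ N) (hφ : φ ∈ N) :
    ∃ S : Ideal A, S.IsPrime ∧ W ≤ S ∧ φ ∈ S ∧ S ≤ N ∧
      ∀ r, DimA K W (r + 1) → DimA K S r := by
  obtain ⟨S, hS, hSN⟩ := Ideal.exists_minimalPrimes_le
    (show W ⊔ Ideal.span {φ} ≤ N from sup_le hWN ((Ideal.span_singleton_le_iff_mem _).2 hφ))
  exact ⟨S, hS.isPrime, le_sup_left.trans hS.le,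
    (Ideal.span_singleton_le_iff_mem _).1 (le_sup_right.trans hS.le), hSN,
    fun r h => dim_cut hS h⟩

end Pit

section api

open MvPolynomial

variable {K : Type} [Field K] {σ : Type}

theorem dimGE_iff_dimA {P : Ideal (MvPolynomial σ K)} {r : ℕ} : DimGE P r ↔ Pit.DimA K P r :=
  Iff.rfl

theorem dimGE_iff_aeval {P : Ideal (MvPolynomial σ K)} {r : ℕ} :
    DimGE P r ↔ ∃ f : Fin r → MvPolynomial σ K,
      ∀ h : MvPolynomial (Fin r) K, aeval f h ∈ P → h = 0 :=
  Pit.dimGE_iff_aeval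

theorem DimGE.anti {P Q : Ideal (MvPolynomial σ K)} {r : ℕ} (h : DimGE Q r) (hPQ : P ≤ Q) :
    DimGE P r :=
  Pit.DimA.anti (K := K) h hPQ

theorem DimGE.mono {P : Ideal (MvPolynomial σ K)} {r s : ℕ} (h : DimGE P s) (hrs : r ≤ s) :
    DimGE P r :=
  Pit.DimA.mono (K := K) h hrs

theorem DimGE.ne_top {P : Ideal (MvPolynomial σ K)} {r : ℕ} (h : DimGE P r) : P ≠ ⊤ :=
  Pit.DimA.ne_top (K := K) h

theorem dimGE_zero {P : Ideal (MvPolynomial σ K)} (hP : P ≠ ⊤) : DimGE P 0 :=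
  Pit.dimGE_zero hP

theorem dimGE_iff_trdeg {P : Ideal (MvPolynomial σ K)} [P.IsPrime] {r : ℕ} :
    DimGE P r ↔ (r : Cardinal) ≤ Algebra.trdeg K (MvPolynomial σ K ⧸ P) :=
  Pit.dimGE_iff_trdeg

theorem dimGE_bot [Fintype σ] : DimGE (⊥ : Ideal (MvPolynomial σ K)) (Fintype.card σ) :=
  Pit.dimGE_bot_mv σ

theorem dimGE_span {s : ℕ} (f : MvPolynomial (Fin (s + 1)) K) (hf : ¬ IsUnit f) :
    DimGE (Ideal.span {f}) s :=
  Pit.dimGE_span_mv f hf

/-- A cut inside a given prime. -/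
theorem exists_cut [Finite σ] {W N : Ideal (MvPolynomial σ K)} (hW : W.IsPrime) (hN : N.IsPrime)
    {φ : MvPolynomial σ K} (hWN : W ≤ N) (hφ : φ ∈ N) :
    ∃ Q : Ideal (MvPolynomial σ K), Q.IsPrime ∧ W ≤ Q ∧ φ ∈ Q ∧ Q ≤ N ∧
      ∀ r, DimGE W (r + 1) → DimGE Q r :=
  Pit.exists_cut (K := K) hWN hφ

end api

theorem pitSt : PitSt := fun K _ _ _ _ _ _ hW hQ h => Pit.dim_cut (K := K) (hW := hW) hQ h

end Pool.Agent.Lib.MP_a460e0_co.GK
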