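import Pool.Agent.Lib.MP_a460e0_co.GK.St

/-! Regime I: sets with few points on every curve. -/

namespace Pool.Agent.Lib.MP_a460e0_co.GK

open MvPolynomial Finset

namespace RA

variable {K : Type} [Field K]

theorem ev2_mul (x : K × K) (f g : P2 K) : ev2 x (f * g) = ev2 x f * ev2 x g := map_mul _ _ _

theorem ev2_of_dvd {x : K × K} {f g : P2 K} (h : f ∣ g) (hf : ev2 x f = 0) : ev2 x g = 0 := by
  obtain ⟨c, rfl⟩ := h
  rw [ev2_mul, hf, zero_mul]

theorem deg_unit {f : P2 K} (h : IsUnit f) : f.totalDegree = 0 := by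
  obtain ⟨g, hg⟩ := h.exists_right_inv
  have h0 : f * g ≠ 0 := hg ▸ one_ne_zero
  have := totalDegree_mul_of_isDomain (left_ne_zero_of_mul h0) (right_ne_zero_of_mul h0)
  rw [hg, totalDegree_one] at this
  omega

theorem deg_line (i : Fin 2) (c : K) : (X i - C c : P2 K).totalDegree = 1 := by
  refine le_antisymm ((totalDegree_sub _ _).trans (by simp)) ?_
  have : Finsupp.single i 1 ∈ (X i - C c : P2 K).support := by
    have h : ¬(0 : Fin 2 →₀ ℕ) = Finsupp.single i 1 :=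
      fun h => one_ne_zero (Finsupp.single_eq_zero.1 h.symm)
    simp [mem_support_iff, coeff_X, coeff_C, h]
  simpa using le_totalDegree this

theorem irr_line (i : Fin 2) (c : K) : Irreducible (X i - C c : P2 K) := by
  have h1 := deg_line i c
  refine ⟨fun h => by rw [deg_unit h] at h1; omega, fun a b hab => ?_⟩
  have h0 : a * b ≠ 0 := fun h => by rw [hab, h, totalDegree_zero] at h1; omega
  have ha := left_ne_zero_of_mul h0
  have hb := right_ne_zero_of_mul h0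
  have u : ∀ f : P2 K, f ≠ 0 → f.totalDegree = 0 → IsUnit f := fun f f0 h => by
    rw [totalDegree_eq_zero_iff_eq_C] at h
    rw [h] at f0 ⊢
    exact (Ne.isUnit fun e => f0 (by rw [e, C_0])).map C
  rw [hab, totalDegree_mul_of_isDomain ha hb] at h1
  by_cases h : a.totalDegree = 0
  · exact Or.inl (u a ha h)
  · exact Or.inr (u b hb (by omega))

theorem rul_of_poor {E : Finset (K × K)} {ρ : ℕ} (h : Poor E ρ) : Rul E ρ := by
  rintro c Z hZ (hc | hc)
  · simpa [deg_line] using h _ (irr_line 0 c) Z hZ fun x hx => by simp [ev2, hc x hx]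
  · simpa [deg_line] using h _ (irr_line 1 c) Z hZ fun x hx => by simp [ev2, hc x hx]

/-- The distinct irreducible factors. -/
theorem exists_curves (Γ : P2 K) : Γ ≠ 0 → ∃ CC : Finset (P2 K), Curves CC ∧
    ∑ c ∈ CC, c.totalDegree ≤ Γ.totalDegree ∧ ∀ x, ev2 x Γ = 0 → ∃ c ∈ CC, ev2 x c = 0 := by
  classical
  induction Γ using UniqueFactorizationMonoid.induction_on_prime with
  | h₁ => exact fun h => absurd rfl h
  | h₂ u hu =>
    exact fun _ => ⟨∅, ⟨by simp, by simp⟩, by simp, fun x hx =>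
      absurd hx (hu.map (eval ![x.1, x.2])).ne_zero⟩
  | h₃ a q ha hq ih =>
    intro _
    obtain ⟨CC, ⟨c1, c2⟩, hd, hz⟩ := ih ha
    rw [totalDegree_mul_of_isDomain hq.ne_zero ha]
    by_cases h : ∃ c ∈ CC, q ∣ c
    · obtain ⟨c, hc, hqc⟩ := h
      refine ⟨CC, ⟨c1, c2⟩, by omega, fun x hx => ?_⟩
      rw [ev2_mul, mul_eq_zero] at hx
      exact hx.elim (fun h => ⟨c, hc, ev2_of_dvd hqc h⟩) (hz x)
    push Not at h
    have hn : q ∉ CC := fun e => h q e dvd_rfl
    refine ⟨insert q CC, ⟨fun c hc => ?_, fun c hc c' hc' hcc => ?_⟩, ?_, fun x hx => ?_⟩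
    · rcases mem_insert.1 hc with rfl | hc
      exacts [hq.irreducible, c1 c hc]
    · rcases mem_insert.1 hc with e | k <;> rcases mem_insert.1 hc' with e' | k'
      · rw [e, e']
      · exact absurd (e ▸ hcc) (h _ k')
      · exact absurd ((c1 c k).dvd_symm hq.irreducible (e' ▸ hcc)) (h _ k)
      · exact c2 c k c' k' hcc
    · rw [sum_insert hn]
      omega
    · rw [ev2_mul, mul_eq_zero] at hx
      rcases hx with hx | hx
      · exact ⟨q, mem_insert_self _ _, hx⟩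
      · obtain ⟨c, hc, h0⟩ := hz x hx
        exact ⟨c, mem_insert_of_mem hc, h0⟩

/-- A curve of small degree through a finite set. -/
theorem exists_curve (hDim : DimSt) (E : Finset (K × K)) (d : ℕ) (hd : 2 * E.card < (d + 1) ^ 2) :
    ∃ Γ : P2 K, Γ ≠ 0 ∧ Γ.totalDegree ≤ d ∧ ∀ x ∈ E, ev2 x Γ = 0 := by
  have h1 : Module.finrank K (Fil K (univ : Finset (Fin 2)) d 0) = (d + 2).choose 2 := by
    simpa using hDim K (Fin 2) univ d 0
  have h2 : E.card < (d + 2).choose 2 := by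
    rw [Nat.choose_two_right, show d + 2 - 1 = d + 1 by omega, Nat.lt_iff_add_one_le,
      Nat.le_div_iff_mul_le (by norm_num)]
    nlinarith
  have : Module.Finite K (Fil K (univ : Finset (Fin 2)) d 0) :=
    Module.finite_of_finrank_pos (by omega)
  let L : Fil K (univ : Finset (Fin 2)) d 0 →ₗ[K] (E → K) :=
    LinearMap.pi fun x => (aeval ![x.1.1, x.1.2]).toLinearMap ∘ₗ Submodule.subtype _
  obtain ⟨f, hf, f0⟩ := (Submodule.ne_bot_iff _).1
    (LinearMap.ker_ne_bot_of_finrank_lt (f := L) (by simpa [h1] using h2))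
  refine ⟨f.1, fun h => f0 (Subtype.ext h), Finset.sup_le fun u hu => ?_, fun x hx => ?_⟩
  · rw [Finsupp.sum_fintype _ _ (fun _ => rfl)]
    exact (f.2 hu).1
  · exact congrFun (LinearMap.mem_ker.1 hf) ⟨x, hx⟩

theorem inX_mem {l : Ln K} {f : P2 K} (h : ev2 l.1 f = 0) : inX f ∈ mx l := by
  show eval (pt l) (rename ![0, 1] f) = 0
  rw [eval_rename, ← h, ev2]
  congr 2
  funext i
  fin_cases i <;> rfl

theorem inY_mem {l : Ln K} {f : P2 K} (h : ev2 l.2 f = 0) : inY f ∈ mx l := by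
  show eval (pt l) (rename ![2, 3] f) = 0
  rw [eval_rename, ← h, ev2]
  congr 2
  funext i
  fin_cases i <;> rfl

theorem dim_mono {σ : Type} {P : Ideal (MvPolynomial σ K)} {r s : ℕ} (h : DimGE P r)
    (hs : s ≤ r) : DimGE P s := by
  obtain ⟨z, hz⟩ := h
  exact ⟨fun i => z (Fin.castLE hs i), hz.comp _ (Fin.castLE_injective hs)⟩

theorem img_eq {g : Fin 4 → K} (hg : g 0 * g 3 - g 1 * g 2 ≠ 0) {a b c : K}
    (h1 : g 0 * a + g 1 = b * (g 2 * a + g 3)) (h2 : g 0 * a + g 1 = c * (g 2 * a + g 3)) :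
    b = c := by
  refine mul_right_cancel₀ (fun h : g 2 * a + g 3 = 0 => hg ?_) (h1.symm.trans h2)
  rw [h, mul_zero] at h1
  linear_combination g 0 * h - g 2 * h1

theorem rr_inc_le {g : Fin 4 → K} (hg : g 0 * g 3 - g 1 * g 2 ≠ 0) (E : Finset (K × K)) :
    rr Inc (E ×ˢ E) g ≤ E.card := by
  classical
  refine card_le_card_of_injOn Prod.fst (fun l hl => ?_) fun l hl m hm h => ?_
  · exact (mem_product.1 (mem_filter.1 (mem_coe.1 hl)).1).1
  · obtain ⟨a1, a2⟩ := (mem_filter.1 (mem_coe.1 hl)).2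
    obtain ⟨b1, b2⟩ := (mem_filter.1 (mem_coe.1 hm)).2
    have h : l.1 = m.1 := h
    rw [← h] at b1 b2
    exact Prod.ext h (Prod.ext (img_eq hg a1 b1) (img_eq hg a2 b2))

theorem En_le (GG : Finset (Fin 4 → K)) (E : Finset (K × K)) :
    En GG E ≤ ∑ g ∈ GG, rr Inc (E ×ˢ E) g ^ 2 := by
  classical
  refine sum_le_sum fun g _ => ?_
  rw [sq, rr, ← card_product]
  refine card_le_card fun q hq => ?_
  obtain ⟨h1, h2, h3, -⟩ := mem_filter.1 hq
  obtain ⟨h4, h5⟩ := mem_product.1 h1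
  exact mem_product.2 ⟨mem_filter.2 ⟨h4, h2⟩, mem_filter.2 ⟨h5, h3⟩⟩

end RA

open RA in
theorem regASt (hRich : RichSt) (hSec : SecSt) (hBase : BaseSt) (hDim : DimSt) : RegASt := by
  intro c
  obtain ⟨C, hC⟩ := hRich (2 * c + 12) 0
  refine ⟨C + 1, fun K _ _ p _ E GG ρ hp hoff hna hG hGG hn hn2 hpoor hρ => ?_⟩
  classical
  have n1 : 1 ≤ E.card := le_trans (Nat.mul_pos (Nat.mul_pos (by omega)
    (pow_pos (by unfold JJ; omega) 3)) hp) hn
  set d := Nat.sqrt (2 * E.card) with hd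
  have d1 : d ^ 2 ≤ 2 * E.card := Nat.sqrt_le' _
  obtain ⟨Γ, Γ0, dΓ, zΓ⟩ := exists_curve hDim E d (Nat.lt_succ_sqrt' _)
  obtain ⟨CC, hCC, dCC, zCC⟩ := exists_curves Γ Γ0
  obtain ⟨φ, cop, dφ, zφ⟩ := hSec K E CC ρ hCC (fun x hx => zCC x (zΓ x hx)) fun f hf =>
    hpoor f (hCC.1 f hf) _ (filter_subset _ _) fun x hx => (mem_filter.1 hx).2
  have dP : (∏ c ∈ CC, c).totalDegree ≤ d :=
    (totalDegree_finsetProd _ _).trans (dCC.trans dΓ)
  have zP : ∀ x ∈ E, ev2 x (∏ c ∈ CC, c) = 0 := fun x hx => by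
    obtain ⟨f, hf, h0⟩ := zCC x (zΓ x hx)
    exact ev2_of_dvd (dvd_prod_of_mem _ hf) h0
  set V : Finset (S K) := {inX (∏ c ∈ CC, c), inX φ, inY (∏ c ∈ CC, c), inY φ} with hV
  have T2 : (ρ + d + 1) ^ 2 ≤ (2 * c + 12) * E.card := by
    nlinarith [sq_nonneg ((ρ : ℤ) - d - 1), sq_nonneg ((d : ℤ) - 1)]
  have hd2 : ∀ ψ ∈ V, ψ.totalDegree ≤ ρ + d + 1 ∧ ∀ l ∈ E ×ˢ E, ψ ∈ mx l := fun ψ hψ => by
    simp only [hV, mem_insert, mem_singleton] at hψ
    rcases hψ with rfl | rfl | rfl | rfl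
    · exact ⟨(totalDegree_rename_le _ _).trans (by omega), fun l hl =>
        inX_mem (zP _ (mem_product.1 hl).1)⟩
    · exact ⟨(totalDegree_rename_le _ _).trans (by omega), fun l hl =>
        inX_mem (zφ _ (mem_product.1 hl).1)⟩
    · exact ⟨(totalDegree_rename_le _ _).trans (by omega), fun l hl =>
        inY_mem (zP _ (mem_product.1 hl).2)⟩
    · exact ⟨(totalDegree_rename_le _ _).trans (by omega), fun l hl =>
        inY_mem (zφ _ (mem_product.1 hl).2)⟩
  have h1 : ∀ Q : Ideal (S K), Q.IsPrime → (∀ ψ ∈ V, ψ ∈ Q) → ¬DimGE Q 1 := fun Q hQ h =>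
    (hBase K Q hQ).1 _ _ cop (h _ (by simp [hV])) (h _ (by simp [hV])) (h _ (by simp [hV]))
      (h _ (by simp [hV]))
  have np : E.card ≤ p ^ 2 := by
    refine (Nat.pow_le_pow_iff_left two_ne_zero).1 (hn2.trans ?_)
    rw [← pow_mul]
    exact Nat.pow_le_pow_right hp (by norm_num)
  refine (Nat.mul_le_mul_left _ (En_le GG E)).trans ((hC K p E V V (ρ + d + 1) (ρ + d + 1) ρ
    E.card GG Inc hp ⟨hoff, hd2, hd2, fun Q hQ h h3 => h1 Q hQ h (dim_mono h3 (by norm_num)), h1,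
      by omega, by omega, by rw [← sq]; exact T2⟩ (fun a b F _ _ _ g _ Z hZ => ?_)
    (fun _ _ h => h) hG hna (rul_of_poor hpoor) (by nlinarith) (le_trans (by gcongr; omega) hn)
    hn2 ?_ hGG (fun g hg => rr_inc_le (hG.1 g hg) E) (by nlinarith)).trans (by gcongr; omega))
  · rw [card_eq_zero.2 (eq_empty_of_forall_notMem fun l hl => ?_)]
    · exact Nat.zero_le _
    · obtain ⟨-, -, P, hP, -, -, h, h2⟩ := hZ l hl
      exact h1 P hP h (dim_mono h2 (by norm_num))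
  · refine (Nat.pow_le_pow_iff_left two_ne_zero).1 (T2.trans ?_)
    rw [mul_pow]
    exact Nat.mul_le_mul (by nlinarith) np

end Pool.Agent.Lib.MP_a460e0_co.GK
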