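import Pool.Agent.Lib.MP_a460e0_co.GK.St

/-! Plane curve lemmas for the second regime. -/

namespace Pool.Agent.Lib.MP_a460e0_co.GK.RB

open MvPolynomial

variable {K : Type} [Field K]

theorem pderiv_lt (c : P2 K) (i : Fin 2) (h : pderiv i c ≠ 0) :
    (pderiv i c).degreeOf i < c.degreeOf i := by
  obtain ⟨m, hm⟩ : ∃ m, m ∈ (pderiv i c).support ∧ m i = (pderiv i c).degreeOf i := by
    have hne : (pderiv i c).support.Nonempty := support_nonempty.mpr h
    obtain ⟨m, hm, he⟩ := Finset.exists_mem_eq_sup _ hne fun m : Fin 2 →₀ ℕ => m i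
    exact ⟨m, hm, by rw [degreeOf_eq_sup, he]⟩
  have h1 := mem_support_iff.mp hm.1
  rw [coeff_pderiv] at h1
  have h2 : m + Finsupp.single i 1 ∈ c.support := mem_support_iff.mpr (left_ne_zero_of_mul h1)
  have h3 := monomial_le_degreeOf i h2
  simp only [Finsupp.add_apply, Finsupp.single_eq_same] at h3
  omega

theorem pderiv_deg (c : P2 K) (i : Fin 2) : (pderiv i c).totalDegree ≤ c.totalDegree := by
  refine Finset.sup_le fun m hm => ?_
  have h1 := mem_support_iff.mp hm
  rw [coeff_pderiv] at h1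
  have h2 : m + Finsupp.single i 1 ∈ c.support := mem_support_iff.mpr (left_ne_zero_of_mul h1)
  have h3 := le_totalDegree h2
  rw [Finsupp.sum_add_index' (fun _ => rfl) (fun _ _ _ => rfl)] at h3
  omega

theorem pderiv_ne (p : ℕ) [CharP K p] (c : P2 K) (i : Fin 2) (h1 : 1 ≤ c.degreeOf i)
    (h2 : c.totalDegree < p) : pderiv i c ≠ 0 := by
  have hc : c ≠ 0 := ne_zero_of_degreeOf_ne_zero (i := i) (by omega)
  obtain ⟨m, hm, he⟩ := Finset.exists_mem_eq_sup _ (support_nonempty.mpr hc)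
    fun m : Fin 2 →₀ ℕ => m i
  rw [← degreeOf_eq_sup] at he
  have hle := degreeOf_le_totalDegree c i
  intro h0
  have h3 := coeff_pderiv (i := i) c (m - Finsupp.single i 1)
  have h4 : m - Finsupp.single i 1 + Finsupp.single i 1 = m := by
    refine tsub_add_cancel_of_le ?_
    rw [Finsupp.single_le_iff]
    omega
  rw [h0, coeff_zero, h4] at h3
  have h5 : (((m - Finsupp.single i 1 : Fin 2 →₀ ℕ) i : ℕ) : K) + 1 = ((m i : ℕ) : K) := by
    have : (m - Finsupp.single i 1 : Fin 2 →₀ ℕ) i + 1 = m i := by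
      simp only [Finsupp.coe_tsub, Pi.sub_apply, Finsupp.single_eq_same]
      omega
    rw [← this]
    push_cast
    rfl
  rw [h5] at h3
  rcases mul_eq_zero.mp h3.symm with h6 | h6
  · exact mem_support_iff.mp hm h6
  · have := Nat.le_of_dvd (by omega) ((CharP.cast_eq_zero_iff K p _).mp h6)
    omega

theorem degreeOf_dvd {c f : P2 K} (i : Fin 2) (h : c ∣ f) (hf : f ≠ 0) :
    c.degreeOf i ≤ f.degreeOf i := by
  obtain ⟨r, rfl⟩ := h
  rw [degreeOf_mul_eq (left_ne_zero_of_mul hf) (right_ne_zero_of_mul hf)]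
  omega

theorem rel_pderiv (p : ℕ) [CharP K p] (c : P2 K) (hc : Irreducible c) (i : Fin 2)
    (h1 : 1 ≤ c.degreeOf i) (h2 : c.totalDegree < p) : IsRelPrime c (pderiv i c) := by
  have hne := pderiv_ne p c i h1 h2
  refine hc.isRelPrime_iff_not_dvd.mpr fun hd => ?_
  have := degreeOf_dvd i hd hne
  have := pderiv_lt c i hne
  omega

theorem lin_deg (a b : K) (i : Fin 2) : (C a * X i + C b : P2 K).totalDegree ≤ 1 := by
  refine (totalDegree_add _ _).trans (max_le ?_ ?_)
  · refine (totalDegree_mul _ _).trans ?_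
    rw [totalDegree_C, totalDegree_X]
  · rw [totalDegree_C]
    omega

theorem lin_pow_deg (a b : K) (i : Fin 2) (k : ℕ) :
    ((C a * X i + C b : P2 K) ^ k).totalDegree ≤ k :=
  (totalDegree_pow _ _).trans (by
    have := lin_deg a b i
    nlinarith)

theorem pull_deg (g : Fin 4 → K) (c : P2 K) : (pull g c).totalDegree ≤ 2 * c.totalDegree := by
  refine totalDegree_finsetSum_le fun u hu => ?_
  have h0 := monomial_le_degreeOf 0 hu
  have h1 := monomial_le_degreeOf 1 hu
  have h2 := degreeOf_le_totalDegree c 0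
  have h3 := degreeOf_le_totalDegree c 1
  have a1 := lin_pow_deg (g 0) (g 1) 0 (u 0)
  have a2 := lin_pow_deg (g 2) (g 3) 0 (c.degreeOf 0 - u 0)
  have a3 := lin_pow_deg (g 0) (g 1) 1 (u 1)
  have a4 := lin_pow_deg (g 2) (g 3) 1 (c.degreeOf 1 - u 1)
  refine (totalDegree_mul _ _).trans ?_
  rw [totalDegree_C, zero_add]
  refine (totalDegree_mul _ _).trans ?_
  refine (Nat.add_le_add (totalDegree_mul _ _) (totalDegree_mul _ _)).trans ?_
  omega

theorem pull_zero (g : Fin 4 → K) (c : P2 K) (l : Ln K) (h : Inc g l) (hy : ev2 l.2 c = 0) :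
    ev2 l.1 (pull g c) = 0 := by
  have key : ev2 l.1 (pull g c) = (g 2 * l.1.1 + g 3) ^ c.degreeOf 0 *
      (g 2 * l.1.2 + g 3) ^ c.degreeOf 1 * ev2 l.2 c := by
    unfold ev2 pull
    rw [map_sum, eval_eq' _ c, Finset.mul_sum]
    refine Finset.sum_congr rfl fun u hu => ?_
    have h0 := monomial_le_degreeOf 0 hu
    have h1 := monomial_le_degreeOf 1 hu
    obtain ⟨k0, hk0⟩ := Nat.exists_eq_add_of_le h0
    obtain ⟨k1, hk1⟩ := Nat.exists_eq_add_of_le h1
    rw [hk0, hk1, Nat.add_sub_cancel_left, Nat.add_sub_cancel_left]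
    simp only [map_mul, map_pow, map_add, eval_C, eval_X, Matrix.cons_val_zero,
      Matrix.cons_val_one, Fin.prod_univ_two]
    rw [h.1, h.2, mul_pow, mul_pow]
    ring
  rw [key, hy, mul_zero]

theorem inc_inj (g : Fin 4 → K) (hg : g 0 * g 3 - g 1 * g 2 ≠ 0) (l l' : Ln K) (h : Inc g l)
    (h' : Inc g l') (e : l.1 = l'.1) : l = l' := by
  have aux : ∀ a y y' : K, g 0 * a + g 1 = y * (g 2 * a + g 3) →
      g 0 * a + g 1 = y' * (g 2 * a + g 3) → y = y' := by
    intro a y y' h1 h2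
    by_cases hz : g 2 * a + g 3 = 0
    · exfalso
      apply hg
      rw [hz, mul_zero] at h1
      linear_combination g 0 * hz - g 2 * h1
    · exact mul_right_cancel₀ hz (h1.symm.trans h2)
  obtain ⟨a1, a2⟩ := h
  obtain ⟨b1, b2⟩ := h'
  rw [← e] at b1 b2
  exact Prod.ext e (Prod.ext (aux _ _ _ a1 b1) (aux _ _ _ a2 b2))

theorem ev2_mul (x : K × K) (f h : P2 K) : ev2 x (f * h) = ev2 x f * ev2 x h := map_mul _ _ _

theorem ev2_prod (x : K × K) (CC : Finset (P2 K)) :
    ev2 x (∏ c ∈ CC, c) = ∏ c ∈ CC, ev2 x c := map_prod _ _ _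

theorem inX_mem (f : P2 K) (l : Ln K) (h : ev2 l.1 f = 0) : inX f ∈ mx l := by
  have : eval (pt l) (inX f) = ev2 l.1 f := by
    unfold inX ev2
    rw [eval_rename]
    congr 2
    funext i
    fin_cases i <;> rfl
  exact RingHom.mem_ker.mpr (this.trans h)

theorem inY_mem (f : P2 K) (l : Ln K) (h : ev2 l.2 f = 0) : inY f ∈ mx l := by
  have : eval (pt l) (inY f) = ev2 l.2 f := by
    unfold inY ev2
    rw [eval_rename]
    congr 2
    funext i
    fin_cases i <;> rfl
  exact RingHom.mem_ker.mpr (this.trans h)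

theorem inX_deg (f : P2 K) : (inX f).totalDegree ≤ f.totalDegree := totalDegree_rename_le _ _

theorem inY_deg (f : P2 K) : (inY f).totalDegree ≤ f.totalDegree := totalDegree_rename_le _ _

theorem rel_line (c : P2 K) (hc : Irreducible c) (i j : Fin 2) (hij : j ≠ i)
    (h : 1 ≤ c.degreeOf j) (a : K) : IsRelPrime c (C 1 * X i + C (-a) : P2 K) := by
  refine hc.isRelPrime_iff_not_dvd.mpr fun hd => ?_
  have hne : (C 1 * X i + C (-a) : P2 K) ≠ 0 := by
    intro h0
    have h1 := congrArg (eval fun _ => a + 1) h0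
    simp at h1
  have h1 := degreeOf_dvd j hd hne
  have h2 : (C 1 * X i + C (-a) : P2 K).degreeOf j = 0 := by
    refine Nat.eq_zero_of_le_zero ((degreeOf_add_le _ _ _).trans (max_le ?_ ?_))
    · rw [C_1, one_mul, degreeOf_X, if_neg hij]
    · rw [degreeOf_C]
  omega

theorem rul_of (hB : BezSt) (E : Finset (K × K)) (CC : Finset (P2 K))
    (hI : ∀ c ∈ CC, Irreducible c) (hd : ∀ c ∈ CC, 1 ≤ c.degreeOf 0 ∧ 1 ≤ c.degreeOf 1)
    (hE : ∀ x ∈ E, ev2 x (∏ c ∈ CC, c) = 0) : Rul E (2 * ∑ c ∈ CC, c.totalDegree) := by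
  intro a Z hZ h
  have hG := totalDegree_finsetProd CC fun c => c
  have main : ∀ i j : Fin 2, j ≠ i → (∀ x ∈ Z, ev2 x (C 1 * X i + C (-a) : P2 K) = 0) →
      Z.card ≤ 2 * ∑ c ∈ CC, c.totalDegree := by
    intro i j hij hx
    have hr : IsRelPrime (∏ c ∈ CC, c) (C 1 * X i + C (-a) : P2 K) :=
      IsRelPrime.prod_left fun c hc => rel_line c (hI c hc) i j hij
        (by fin_cases j; exacts [(hd c hc).1, (hd c hc).2]) a
    have h1 := (hB K _ _ hr Z fun x hxZ => ⟨hE x (hZ hxZ), hx x hxZ⟩).2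
    have h2 := lin_deg (1 : K) (-a) i
    calc Z.card ≤ _ := h1
      _ ≤ 2 * (∑ c ∈ CC, c.totalDegree) * 1 := by gcongr
      _ = _ := mul_one _
  rcases h with h | h
  · refine main 0 1 (by decide) fun x hx => ?_
    simp [ev2, h x hx]
  · refine main 1 0 (by decide) fun x hx => ?_
    simp [ev2, h x hx]

end Pool.Agent.Lib.MP_a460e0_co.GK.RB
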