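import Pool.Agent.Lib.MP_a460e0_co.GK.RegBa

/-! Counting lemmas for the second regime. -/

namespace Pool.Agent.Lib.MP_a460e0_co.GK.RB

open MvPolynomial

variable {K : Type} [Field K]

theorem rr_spec {α β : Type} (cnt : α → β → Prop) (L : Finset β) (g : α) :
    ∃ Z : Finset β, rr cnt L g = Z.card ∧ ∀ l, l ∈ Z ↔ l ∈ L ∧ cnt g l := by
  classical
  exact ⟨L.filter fun l => cnt g l, rfl, fun l => Finset.mem_filter⟩

open Classical in
/-- The product of the other curves and the two derivatives. -/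
noncomputable def aux (CC : Finset (P2 K)) (c : P2 K) : P2 K :=
  (∏ c' ∈ CC.erase c, c') * (pderiv 0 c * pderiv 1 c)

theorem deg_le_sum (CC : Finset (P2 K)) (c : P2 K) (hc : c ∈ CC) :
    c.totalDegree ≤ ∑ c ∈ CC, c.totalDegree :=
  Finset.single_le_sum (f := fun c : P2 K => c.totalDegree) (fun _ _ => Nat.zero_le _) hc

theorem aux_deg (CC : Finset (P2 K)) (c : P2 K) (hc : c ∈ CC) :
    (aux CC c).totalDegree ≤ 2 * ∑ c ∈ CC, c.totalDegree := by
  classical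
  unfold aux
  have h1 := totalDegree_finsetProd (CC.erase c) fun c => c
  have h2 := Finset.add_sum_erase CC (fun c : P2 K => c.totalDegree) hc
  have h3 := pderiv_deg c 0
  have h4 := pderiv_deg c 1
  have h5 := deg_le_sum CC c hc
  have h6 := totalDegree_mul (pderiv 0 c) (pderiv 1 c)
  refine (totalDegree_mul _ _).trans ?_
  omega

theorem aux_rel (p : ℕ) [CharP K p] (CC : Finset (P2 K)) (hC : Curves CC) (c : P2 K)
    (hc : c ∈ CC) (h0 : 1 ≤ c.degreeOf 0) (h1 : 1 ≤ c.degreeOf 1) (h2 : c.totalDegree < p) :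
    IsRelPrime c (aux CC c) := by
  classical
  unfold aux
  refine IsRelPrime.mul_right (IsRelPrime.prod_right fun c' hc' => ?_)
    (IsRelPrime.mul_right (rel_pderiv p c (hC.1 c hc) 0 h0 h2) (rel_pderiv p c (hC.1 c hc) 1 h1 h2))
  refine (hC.1 c hc).isRelPrime_iff_not_dvd.mpr fun hd => ?_
  exact (Finset.mem_erase.mp hc').1 (hC.2 c hc c' (Finset.mem_erase.mp hc').2 hd).symm

theorem aux_ne (CC : Finset (P2 K)) (c : P2 K) (x : K × K) (h : ev2 x (aux CC c) ≠ 0) :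
    (∀ c' ∈ CC, ev2 x c' = 0 → c' = c) ∧ ∀ i, ev2 x (pderiv i c) ≠ 0 := by
  classical
  unfold aux at h
  rw [ev2_mul, ev2_mul, ev2_prod] at h
  refine ⟨fun c' hc' h0 => ?_, fun i => ?_⟩
  · by_contra hne
    exact left_ne_zero_of_mul h (Finset.prod_eq_zero (Finset.mem_erase.mpr ⟨hne, hc'⟩) h0)
  · fin_cases i
    · exact left_ne_zero_of_mul (right_ne_zero_of_mul h)
    · exact right_ne_zero_of_mul (right_ne_zero_of_mul h)

/-- Few points are dropped. -/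
theorem bad_card (hB : BezSt) (p : ℕ) [CharP K p] (CC : Finset (P2 K)) (hC : Curves CC)
    (cf : K × K → P2 K) (hd : ∀ c ∈ CC, 1 ≤ c.degreeOf 0 ∧ 1 ≤ c.degreeOf 1)
    (hp : ∑ c ∈ CC, c.totalDegree < p) (Z : Finset (K × K))
    (hZ : ∀ x ∈ Z, cf x ∈ CC ∧ ev2 x (cf x) = 0 ∧ ev2 x (aux CC (cf x)) = 0) :
    Z.card ≤ 4 * (∑ c ∈ CC, c.totalDegree) ^ 2 := by
  classical
  rw [Finset.card_eq_sum_card_fiberwise (f := cf) (t := CC) fun x hx => (hZ x hx).1]
  have h1 : ∀ c ∈ CC, (Z.filter fun x => cf x = c).card ≤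
      4 * (∑ c ∈ CC, c.totalDegree) * c.totalDegree := by
    intro c hc
    have hr := aux_rel p CC hC c hc (hd c hc).1 (hd c hc).2 ((deg_le_sum CC c hc).trans_lt hp)
    have h2 := (hB K _ _ hr (Z.filter fun x => cf x = c) fun x hx => by
      obtain ⟨hx1, hx2⟩ := Finset.mem_filter.mp hx
      have := hZ x hx1
      rw [hx2] at this
      exact this.2).2
    have h3 := aux_deg CC c hc
    calc _ ≤ _ := h2
      _ ≤ 2 * c.totalDegree * (2 * ∑ c ∈ CC, c.totalDegree) := by gcongr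
      _ = _ := by ring
  refine (Finset.sum_le_sum h1).trans (le_of_eq ?_)
  rw [← Finset.mul_sum]
  ring

/-- Incidences of one matrix that are not of component type. -/
theorem cnt_card (hB : BezSt) (CC : Finset (P2 K)) (hI : ∀ c ∈ CC, Irreducible c)
    (cf : K × K → P2 K) (E : Finset (K × K)) (hE : ∀ x ∈ E, cf x ∈ CC ∧ ev2 x (cf x) = 0)
    (g : Fin 4 → K) (hg : g 0 * g 3 - g 1 * g 2 ≠ 0) :
    rr (fun g l => Inc g l ∧ ¬cf l.1 ∣ pull g (cf l.2)) (E ×ˢ E) g ≤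
      4 * (∑ c ∈ CC, c.totalDegree) ^ 2 := by
  classical
  obtain ⟨Z, hZ, hZ'⟩ :=
    rr_spec (fun g (l : Ln K) => Inc g l ∧ ¬cf l.1 ∣ pull g (cf l.2)) (E ×ˢ E) g
  rw [hZ]
  have hm : ∀ l ∈ Z, l.1 ∈ E ∧ l.2 ∈ E ∧ Inc g l ∧ ¬cf l.1 ∣ pull g (cf l.2) := by
    intro l hl
    rw [hZ', Finset.mem_product] at hl
    exact ⟨hl.1.1, hl.1.2, hl.2⟩
  rw [Finset.card_eq_sum_card_fiberwise (f := fun l : Ln K => (cf l.1, cf l.2)) (t := CC ×ˢ CC)
    fun l hl => Finset.mem_coe.mpr (Finset.mem_product.mpr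
      ⟨(hE _ (hm l hl).1).1, (hE _ (hm l hl).2.1).1⟩)]
  have h1 : ∀ q ∈ CC ×ˢ CC, (Z.filter fun l => (cf l.1, cf l.2) = q).card ≤
      4 * (q.1.totalDegree * q.2.totalDegree) := by
    intro q hq
    generalize hW : (Z.filter fun l => (cf l.1, cf l.2) = q) = W
    have hw : ∀ l ∈ W, l ∈ Z ∧ cf l.1 = q.1 ∧ cf l.2 = q.2 := by
      intro l hl
      rw [← hW, Finset.mem_filter] at hl
      exact ⟨hl.1, congrArg Prod.fst hl.2, congrArg Prod.snd hl.2⟩
    rcases W.eq_empty_or_nonempty with rfl | ⟨l0, hl0⟩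
    · simp
    have hr : IsRelPrime q.1 (pull g q.2) := by
      refine (hI _ (Finset.mem_product.mp hq).1).isRelPrime_iff_not_dvd.mpr ?_
      have := (hm l0 (hw l0 hl0).1).2.2.2
      rwa [(hw l0 hl0).2.1, (hw l0 hl0).2.2] at this
    have h2 := (hB K _ _ hr (W.image Prod.fst) fun x hx => by
      obtain ⟨l, hl, rfl⟩ := Finset.mem_image.mp hx
      obtain ⟨a1, a2, a3⟩ := hw l hl
      obtain ⟨b1, b2, b3, -⟩ := hm l a1
      exact ⟨a2 ▸ (hE _ b1).2, pull_zero g q.2 l b3 (a3 ▸ (hE _ b2).2)⟩).2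
    rw [Finset.card_image_of_injOn fun l hl l' hl' e =>
      inc_inj g hg l l' (hm l (hw l hl).1).2.2.1 (hm l' (hw l' hl').1).2.2.1 e] at h2
    have h3 := pull_deg g q.2
    calc _ ≤ _ := h2
      _ ≤ 2 * q.1.totalDegree * (2 * q.2.totalDegree) := by gcongr
      _ = _ := by ring
  refine (Finset.sum_le_sum h1).trans (le_of_eq ?_)
  rw [← Finset.mul_sum, Finset.sum_product, sq, Finset.sum_mul_sum]

theorem rr_le (cnt : (Fin 4 → K) → Ln K → Prop) (hc : ∀ g l, cnt g l → Inc g l)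
    (E : Finset (K × K)) (g : Fin 4 → K) (hg : g 0 * g 3 - g 1 * g 2 ≠ 0) :
    rr cnt (E ×ˢ E) g ≤ E.card := by
  classical
  unfold rr
  refine Finset.card_le_card_of_injOn Prod.fst (fun l hl => ?_) fun l hl l' hl' e => ?_
  · exact (Finset.mem_product.mp (Finset.mem_filter.mp hl).1).1
  · exact inc_inj g hg l l' (hc _ _ (Finset.mem_filter.mp hl).2)
      (hc _ _ (Finset.mem_filter.mp hl').2) e

theorem sum_rr_swap {α β : Type} (cnt : α → β → Prop) (P : Finset α) (L : Finset β) :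
    ∑ g ∈ P, rr cnt L g = ∑ l ∈ L, rr (fun l g => cnt g l) P l := by
  classical
  unfold rr
  simp only [Finset.card_filter]
  exact Finset.sum_comm

/-- Incidences of component type. -/
theorem comp_sum (hC : CompSt) (cf : K × K → P2 K) (E : Finset (K × K))
    (hE : ∀ x ∈ E, x.1 ≠ x.2 ∧ ev2 x (cf x) = 0 ∧ ∀ i, ev2 x (pderiv i (cf x)) ≠ 0)
    (GG : Finset (Fin 4 → K)) (hG : Proj GG) :
    ∑ g ∈ GG, rr (fun g l => Inc g l ∧ cf l.1 ∣ pull g (cf l.2)) (E ×ˢ E) g ^ 2 ≤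
      2 * E.card ^ 3 := by
  classical
  have h1 : ∑ g ∈ GG, rr (fun g l => Inc g l ∧ cf l.1 ∣ pull g (cf l.2)) (E ×ˢ E) g ≤
      2 * E.card ^ 2 := by
    rw [sum_rr_swap]
    refine (Finset.sum_le_card_nsmul _ _ 2 fun l hl => ?_).trans (le_of_eq ?_)
    · obtain ⟨a, b⟩ := Finset.mem_product.mp hl
      obtain ⟨Z, hZ, hZ'⟩ :=
        rr_spec (fun (l : Ln K) g => Inc g l ∧ cf l.1 ∣ pull g (cf l.2)) GG l
      rw [hZ]
      exact hC K (cf l.1) (cf l.2) l.1 l.2 Z ⟨(hE _ a).1, (hE _ b).1⟩ (hE _ a).2.1 (hE _ b).2.1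
        (hE _ a).2.2 (hE _ b).2.2 ⟨fun g hg => hG.1 g ((hZ' g).mp hg).1,
          fun g hg h hh => hG.2 g ((hZ' g).mp hg).1 h ((hZ' h).mp hh).1⟩
        fun g hg => ((hZ' g).mp hg).2
    · rw [Finset.card_product, smul_eq_mul]
      ring
  calc _ ≤ ∑ g ∈ GG, E.card *
        rr (fun g l => Inc g l ∧ cf l.1 ∣ pull g (cf l.2)) (E ×ˢ E) g := by
        refine Finset.sum_le_sum fun g hg => ?_
        rw [sq]
        exact Nat.mul_le_mul_right _ (rr_le _ (fun _ _ h => h.1) E g (hG.1 g hg))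
    _ ≤ E.card * (2 * E.card ^ 2) := by
        rw [← Finset.mul_sum]
        exact Nat.mul_le_mul_left _ h1
    _ = _ := by ring

theorem en_le (GG : Finset (Fin 4 → K)) (E : Finset (K × K))
    (A : (Fin 4 → K) → Ln K → Prop) :
    En GG E ≤ 2 * ∑ g ∈ GG, rr (fun g l => Inc g l ∧ ¬A g l) (E ×ˢ E) g ^ 2 +
      2 * ∑ g ∈ GG, rr (fun g l => Inc g l ∧ A g l) (E ×ˢ E) g ^ 2 := by
  classical
  rw [Finset.mul_sum, Finset.mul_sum, ← Finset.sum_add_distrib]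
  unfold En
  refine Finset.sum_le_sum fun g _ => ?_
  have h1 : rr Inc (E ×ˢ E) g ≤ rr (fun g l => Inc g l ∧ ¬A g l) (E ×ˢ E) g +
      rr (fun g l => Inc g l ∧ A g l) (E ×ˢ E) g := by
    obtain ⟨Z, hZ, hZ'⟩ := rr_spec Inc (E ×ˢ E) g
    obtain ⟨Z1, hZ1, hZ1'⟩ := rr_spec (fun g l => Inc g l ∧ ¬A g l) (E ×ˢ E) g
    obtain ⟨Z2, hZ2, hZ2'⟩ := rr_spec (fun g l => Inc g l ∧ A g l) (E ×ˢ E) g
    rw [hZ, hZ1, hZ2]
    refine le_trans (Finset.card_le_card fun l hl => ?_) (Finset.card_union_le _ _)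
    rw [Finset.mem_union, hZ1', hZ2']
    obtain ⟨a, b⟩ := (hZ' l).mp hl
    by_cases h : A g l
    · exact Or.inr ⟨a, b, h⟩
    · exact Or.inl ⟨a, b, h⟩
  refine le_trans (b := rr Inc (E ×ˢ E) g ^ 2) ?_ ?_
  · unfold rr
    rw [sq, ← Finset.card_product]
    refine Finset.card_le_card fun q hq => ?_
    obtain ⟨a, b, c, -⟩ := Finset.mem_filter.mp hq
    obtain ⟨a1, a2⟩ := Finset.mem_product.mp a
    exact Finset.mem_product.mpr ⟨Finset.mem_filter.mpr ⟨a1, b⟩, Finset.mem_filter.mpr ⟨a2, c⟩⟩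
  · refine (Nat.pow_le_pow_left h1 2).trans ?_
    generalize rr (fun g l => Inc g l ∧ ¬A g l) (E ×ˢ E) g = u
    generalize rr (fun g l => Inc g l ∧ A g l) (E ×ˢ E) g = v
    zify
    nlinarith [sq_nonneg ((u : ℤ) - v)]

end Pool.Agent.Lib.MP_a460e0_co.GK.RB
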