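import Pool.Agent.Lib.MP_a460e0_co.GK.Defs

/-! The statements of the steps. -/

namespace Pool.Agent.Lib.MP_a460e0_co.GK

open MvPolynomial

/-- T2: dimension of the filtration. -/
def DimSt : Prop :=
  ∀ (K : Type) [Field K] (σ : Type) [Fintype σ] [DecidableEq σ] (G : Finset σ) (d e : ℕ),
    Module.finrank K (Fil K G d e) =
      (d + G.card).choose G.card * (e + Gᶜ.card).choose Gᶜ.card

/-- T2: both degrees are additive; factors of homogeneous polynomials are homogeneous. -/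
def DegSt : Prop :=
  ∀ (K : Type) [Field K] (σ : Type) [Fintype σ] [DecidableEq σ] (G : Finset σ),
    (∀ f : MvPolynomial σ K, f ≠ 0 → ∃ a0 b0 : ℕ, f ∈ Fil K G a0 b0 ∧
      ∀ (ψ : MvPolynomial σ K) (d e : ℕ), ψ ≠ 0 → f * ψ ∈ Fil K G d e →
        a0 ≤ d ∧ b0 ≤ e ∧ ψ ∈ Fil K G (d - a0) (e - b0)) ∧
    ∀ (f F : MvPolynomial σ K) (a : ℕ), F ≠ 0 → f ∣ F → IsHom G F a → ∃ a' ≤ a, IsHom G f a'

/-- T3 for four and two variables. -/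
def H42St : Prop :=
  ∀ (K : Type) [Field K],
    (∀ (F : R K) (a b d e : ℕ), F ≠ 0 → F ∈ Fil K G4 a b →
      HF G4 (Ideal.span {F}) d e ≤ a * (d + 4) ^ 3 * (e + 2) ^ 2 + b * (d + 4) ^ 4 * (e + 2)) ∧
    ∀ (f0 f1 : R K) (a b d e : ℕ), IsRelPrime f0 f1 → f0 ∈ Fil K G4 a b → f1 ∈ Fil K G4 a b →
      HF G4 (Ideal.span {f0, f1}) d e ≤ a ^ 2 * (d + 4) ^ 2 * (e + 2) ^ 2 +
        2 * a * b * (d + 4) ^ 3 * (e + 2) + b ^ 2 * (d + 4) ^ 4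

/-- T3 for two and one variables. -/
def H21St : Prop :=
  ∀ (K : Type) [Field K] (f0 f1 : MvPolynomial (Fin 3) K) (a b d e : ℕ), IsRelPrime f0 f1 →
    f0 ∈ Fil K {0, 1} a b → f1 ∈ Fil K {0, 1} a b → 2 * b ≤ e →
    HF {0, 1} (Ideal.span {f0, f1}) d e ≤ a ^ 2 * (e + 1) + 2 * a * b * (d + 1)

/-- T3 for one and one variables. -/
def H11St : Prop :=
  ∀ (K : Type) [Field K] (f0 f1 : P2 K) (a0 b0 a1 b1 d e : ℕ), IsRelPrime f0 f1 →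
    f0 ∈ Fil K {0} a0 b0 → f1 ∈ Fil K {0} a1 b1 →
    HF {0} (Ideal.span {f0, f1}) d e ≤ a0 * b1 + a1 * b0

/-- Bezout inequality in the plane. -/
def BezSt : Prop :=
  ∀ (K : Type) [Field K] (f0 f1 : P2 K), IsRelPrime f0 f1 → ∀ Z : Finset (K × K),
    (∀ x ∈ Z, ev2 x f0 = 0 ∧ ev2 x f1 = 0) →
    Z.card ≤ f0.degreeOf 0 * f1.degreeOf 1 + f1.degreeOf 0 * f0.degreeOf 1 ∧
    Z.card ≤ 2 * f0.totalDegree * f1.totalDegree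

/-- T4: a hypersurface section lowers the dimension by at most one. -/
def PitSt : Prop :=
  ∀ (K : Type) [Field K] (n r : ℕ) (W Q : Ideal (MvPolynomial (Fin n) K))
    (φ : MvPolynomial (Fin n) K), W.IsPrime → Q ∈ (W ⊔ Ideal.span {φ}).minimalPrimes →
    DimGE W (r + 1) → DimGE Q r

/-- T5: one cut. -/
def CutSt : Prop :=
  ∀ (K : Type) [Field K] [Infinite K] (n : ℕ) (G : Finset (Fin n)) (ι : Type) (Z : Finset ι)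
    (P N : ι → Ideal (MvPolynomial (Fin n) K)) (V : Finset (MvPolynomial (Fin n) K))
    (w1 w2 r : ℕ),
    (∀ z ∈ Z, (P z).IsPrime ∧ (N z).IsPrime ∧ P z ≤ N z ∧ DimGE (P z) (r + 1) ∧
      (∀ φ ∈ V, φ ∈ N z) ∧ ∃ φ ∈ V, φ ∉ P z) → (∀ φ ∈ V, φ ∈ Fil K G w1 w2) →
    ∃ P' : ι → Ideal (MvPolynomial (Fin n) K),
      (∀ z ∈ Z, (P' z).IsPrime ∧ P z ≤ P' z ∧ P' z ≤ N z ∧ DimGE (P' z) r) ∧
      ∀ d e M : ℕ, M * HF G (Z.inf P') d e ≤ HF G (Z.inf P) (d + M * w1) (e + M * w2)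

/-- T6: the footprint bound. -/
def FootSt : Prop :=
  ∀ (K : Type) [Field K] (I : Ideal (S K)) (r m : ℕ),
    (∀ U O, U.card = r → Orth I U O → O.card ≤ m) →
    (∀ U O, U.card = r + 1 → Orth I U O → O = ∅) → Grow I r (6 * m)

/-- T7: a prime containing all derivatives gives a prime of the line space. -/
def InvSt : Prop :=
  ∀ (K : Type) [Field K] (p : ℕ) [CharP K p] (F : R K) (a r : ℕ) (q : Ideal (R K)) (l : Ln K),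
    IsHom G4 F a → a < p → q.IsPrime → Off l → q ≤ Ll l → (∀ j, Dj j F ∈ q) → DimGE q (r + 2) →
    ∃ P : Ideal (S K), P.IsPrime ∧ P ≤ mx l ∧ F ∈ tilde P ∧ DimGE P r

/-- T8: the boundary lower bound, both sides. -/
def BdySt : Prop :=
  ∀ (K : Type) [Field K] (I : Ideal (S K)) (ι : Type) [Fintype ι] (χ : ι → S K)
    (r1 m0 r q : ℕ), (∀ ψ, kap K * ψ ∈ I → ψ ∈ I) →
    (LinearIndependent K fun k => Ideal.Quotient.mk I (χ k)) →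
    ((∀ k, (χ k).degreeOf 0 ≤ r1 ∧ (χ k).degreeOf 1 ≤ m0 ∧ (χ k).degreeOf 2 ≤ m0 ∧
        (χ k).degreeOf 3 ≤ r) ∨
      ∀ k, (χ k).degreeOf 0 ≤ m0 ∧ (χ k).degreeOf 1 ≤ r1 ∧ (χ k).degreeOf 2 ≤ r ∧
        (χ k).degreeOf 3 ≤ m0) →
    (q + 1) ^ 2 * Fintype.card ι ≤ HF G4 (tilde I) (2 * m0 + r + 3 * q) (r + r1)

/-- T9, first half: growth in the line space from growth upstairs. -/
def GrowSt : Prop :=
  ∀ c : ℕ, ∃ C : ℕ, ∀ (K : Type) [Field K] (I : Ideal (S K)) (a b r : ℕ), 1 ≤ b → b ≤ a → r ≤ 3 →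
    (∀ ψ, kap K * ψ ∈ I → ψ ∈ I) →
    (∀ M, 1 ≤ M → HF G4 (tilde I) (a * M) (b * M) ≤ c * a ^ 4 * b ^ 2 * M ^ (r + 2)) →
    Grow I r (C * a ^ (2 - (r + 1) / 2) * b ^ (2 - r / 2))

/-- T9, second half: `r` proper cuts. -/
def CountSt : Prop :=
  ∀ (K : Type) [Field K] [Infinite K] (r m : ℕ) (Z : Finset (Ln K)) (P : Ln K → Ideal (S K))
    (V : ℕ → Finset (S K)) (v : ℕ → ℕ), r ≤ 3 →
    (∀ l ∈ Z, (P l).IsPrime ∧ P l ≤ mx l ∧ DimGE (P l) r) → Grow (Z.inf P) r m →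
    (∀ i < r, 1 ≤ v i ∧ (∀ φ ∈ V i, φ.totalDegree ≤ v i ∧ ∀ l ∈ Z, φ ∈ mx l) ∧
      ∀ l ∈ Z, ∀ Q : Ideal (S K), Q.IsPrime → P l ≤ Q → Q ≤ mx l → DimGE Q (r - i) →
        ∃ φ ∈ V i, φ ∉ Q) →
    Z.card ≤ 27 * m * ∏ i ∈ Finset.range r, v i

/-- T10: heavy lines lie in a hypersurface of half the degree. -/
def HeavySt : Prop :=
  ∃ b0 : ℕ, 1 ≤ b0 ∧ ∀ (K : Type) [Field K] (F : R K) (a b b' : ℕ) (Z : Finset (Ln K)),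
    1 ≤ a → b0 ≤ b' → b' ≤ b → b ≤ 3 * b' → F ∈ Fil K G4 a b → IsRelPrime F (Der K F) →
    (∀ l ∈ Z, Heavy F b l) →
    ∃ (F' : R K) (a' : ℕ), F' ≠ 0 ∧ IsHom G4 F' a' ∧ F' ∈ Fil K G4 (a / 2) b' ∧
      ∀ l ∈ Z, F' ∈ Ll l

/-- One step of Lemma B. -/
def StepSt : Prop :=
  ∃ C : ℕ, ∀ (K : Type) [Field K] [IsAlgClosed K] (p : ℕ) [CharP K p] (c1 : ℕ)
    (E : Finset (K × K)) (V1 V2 : Finset (S K)) (D T : ℕ), IsData c1 E V1 V2 D T →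
    ∀ (F : R K) (a0 a b : ℕ), F ≠ 0 → IsHom G4 F a0 → a0 < p → F ∈ Fil K G4 a b → 1 ≤ b → b ≤ a →
    ∃ (F1 : R K) (Y : Finset (Ln K)), F1 ∣ F ∧ IsRelPrime F1 (Der K F1) ∧ Y ⊆ E ×ˢ E ∧
      Y.card ≤ C * (b * D * T ^ 2 + a * b * D * T + a * b ^ 2 * T + a ^ 2 * b ^ 2) ∧
      ∀ l ∈ E ×ˢ E, F ∈ Ll l → l ∈ Y ∨ Heavy F1 b l ∨ Exc V1 F1 l

/-- Lemma B. -/
def LemBSt : Prop :=
  ∀ c1 : ℕ, ∃ b0 C : ℕ, 1 ≤ b0 ∧ ∀ (K : Type) [Field K] [IsAlgClosed K] (p : ℕ) [CharP K p]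
    (c2 : ℕ) (E : Finset (K × K)) (V1 V2 : Finset (S K)) (D T : ℕ) (P : Finset (Fin 4 → K))
    (cnt : (Fin 4 → K) → Ln K → Prop), IsData c1 E V1 V2 D T → HExc c2 E V1 P cnt →
    ∀ (F : R K) (a0 a b : ℕ), F ≠ 0 → IsHom G4 F a0 → F ∈ Fil K G4 a b → a < p → b0 ≤ b →
    ∃ Y ⊆ E ×ˢ E, Y.card ≤ C * ((a + b) * b * E.card + (a + b) * b ^ 2 * T + (a + b) ^ 2 * b ^ 2 +
        (b + JJ p) * E.card * T) ∧
      ∀ g ∈ P, ∀ Z : Finset (Ln K), (∀ l ∈ Z, l ∈ E ×ˢ E ∧ l ∉ Y ∧ cnt g l ∧ F ∈ Ll l) →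
        Z.card ≤ C * c2 * (b ^ 2 + JJ p)

/-- T12: a polynomial of order `μ` at the points. -/
def OrdSt : Prop :=
  ∀ (K : Type) [Field K] (p : ℕ) [CharP K p] (P : Finset (Fin 4 → K)) (a μ : ℕ), Proj P →
    1 ≤ μ → 216 * P.card * μ ≤ a ^ 3 → a < p →
    ∃ (F : R K) (a0 : ℕ), F ≠ 0 ∧ IsHom G4 F a0 ∧ F ∈ Fil K G4 a μ ∧
      ∀ l : Ln K, Off l → F ∉ Ll l → μ * rr (fun l g => Inc g l) P l ≤ a

/-- T13: the classical weak incidence bound. -/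
def FlatSt : Prop :=
  ∀ (K : Type) [Field K] (p : ℕ) [CharP K p] (a B lam : ℕ), 2 < p → a < p → 1 ≤ lam →
    ∀ (a0 : ℕ) (F : S K) (P : Finset (Fin 4 → K)) (L : Finset (Submodule K (Fin 4 → K))),
    a0 ≤ a → F ≠ 0 → F.IsHomogeneous a0 → (∀ g ∈ P, g ≠ 0 ∧ eval g F = 0) →
    (∀ g ∈ P, ∀ h ∈ P, ∀ c : K, h = c • g → h = g) → (∀ l ∈ L, Module.finrank K l = 2) →
    (∀ ν : (Fin 4 → K) →ₗ[K] K, ν ≠ 0 → ∀ Z ⊆ L, (∀ l ∈ Z, l ≤ LinearMap.ker ν) → Z.card ≤ B) →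
    lam * inc (fun g (l : Submodule K (Fin 4 → K)) => g ∈ l) P L ≤
      (4 * a * lam + B) * L.card + lam * (3 + lam) * P.card

/-- T13 for the lines of the model. -/
def EndSt : Prop :=
  ∀ (K : Type) [Field K] (p : ℕ) [CharP K p] (E : Finset (K × K)) (ρ a lam : ℕ)
    (P : Finset (Fin 4 → K)) (L : Finset (Ln K)), 2 < p → a < p → 1 ≤ lam →
    (∀ x ∈ E, x.1 ≠ x.2) → NoAnti E → Rul E ρ → Proj P → L ⊆ E ×ˢ E → 6 * P.card ≤ a ^ 3 →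
    lam * inc Inc P L ≤ (4 * a * lam + (E.card + 2 * ρ ^ 2)) * L.card + lam * (3 + lam) * P.card

/-- T14: the main incidence bound. -/
def MainSt : Prop :=
  ∀ c1 c2 : ℕ, ∃ C : ℕ, ∀ (K : Type) [Field K] [IsAlgClosed K] (p : ℕ) [CharP K p]
    (E : Finset (K × K)) (V1 V2 : Finset (S K)) (D T ρ a1 a2 : ℕ) (P : Finset (Fin 4 → K))
    (cnt : (Fin 4 → K) → Ln K → Prop), 1 ≤ p → IsData c1 E V1 V2 D T → HExc c2 E V1 P cnt →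
    (∀ g l, cnt g l → Inc g l) → Proj P → NoAnti E → Rul E ρ → ρ ^ 2 ≤ c1 * E.card →
    C * p ≤ E.card → E.card ≤ p ^ 2 → C * P.card * E.card ≤ p ^ 4 →
    P.card * E.card ≤ a1 ^ 4 → P.card ≤ a2 ^ 3 →
    inc cnt P (E ×ˢ E) ≤ C * (a1 ^ 2 * E.card + a1 * E.card * T + JJ p * a2 * E.card * T +
      JJ p ^ 2 * P.card)

/-- T15: the second moment. -/
def RichSt : Prop :=
  ∀ c1 c2 : ℕ, ∃ C : ℕ, ∀ (K : Type) [Field K] [IsAlgClosed K] (p : ℕ) [CharP K p]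
    (E : Finset (K × K)) (V1 V2 : Finset (S K)) (D T ρ km : ℕ) (GG : Finset (Fin 4 → K))
    (cnt : (Fin 4 → K) → Ln K → Prop), 1 ≤ p → IsData c1 E V1 V2 D T → HExc c2 E V1 GG cnt →
    (∀ g l, cnt g l → Inc g l) → Proj GG → NoAnti E → Rul E ρ → ρ ^ 2 ≤ c1 * E.card →
    C * JJ p ^ 3 * p ≤ E.card → E.card ^ 2 ≤ p ^ 3 → T ≤ c1 * p → GG.card ≤ 4 * p ^ 3 →
    (∀ g ∈ GG, rr cnt (E ×ˢ E) g ≤ km) → km * T ^ 2 ≤ c1 * E.card ^ 2 →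
    p * ∑ g ∈ GG, rr cnt (E ×ˢ E) g ^ 2 ≤ C * E.card ^ 4

/-- T16: a second curve through the points. -/
def SecSt : Prop :=
  ∀ (K : Type) [Field K] (E : Finset (K × K)) (CC : Finset (P2 K)) (ρ : ℕ), Curves CC →
    (∀ x ∈ E, ∃ c ∈ CC, ev2 x c = 0) →
    (∀ c ∈ CC, rr (fun c x => ev2 x c = 0) E c ≤ ρ * c.totalDegree) →
    ∃ φ : P2 K, IsRelPrime (∏ c ∈ CC, c) φ ∧ φ.totalDegree ≤ ρ + ∑ c ∈ CC, c.totalDegree ∧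
      ∀ x ∈ E, ev2 x φ = 0

/-- T16: dimensions of the two base loci. -/
def BaseSt : Prop :=
  ∀ (K : Type) [Field K] (Q : Ideal (S K)), Q.IsPrime →
    (∀ f0 f1 : P2 K, IsRelPrime f0 f1 → inX f0 ∈ Q → inX f1 ∈ Q → inY f0 ∈ Q → inY f1 ∈ Q →
      ¬DimGE Q 1) ∧
    ∀ f : P2 K, f ≠ 0 → inX f ∈ Q → inY f ∈ Q → ¬DimGE Q 3

/-- T17, first half: a surface inside a product of two curves is the product. -/
def ProdSt : Prop :=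
  ∀ (K : Type) [Field K] [IsAlgClosed K] (c c' : P2 K) (Q : Ideal (S K)), Irreducible c →
    Irreducible c' → Q.IsPrime → inX c ∈ Q → inY c' ∈ Q → DimGE Q 2 →
    ∀ x y : K × K, ev2 x c = 0 → ev2 y c' = 0 → Q ≤ mx (x, y)

/-- T17: exceptional incidences. -/
def ExcSt : Prop :=
  ∃ c2 : ℕ, ∀ (K : Type) [Field K] [IsAlgClosed K] (E : Finset (K × K)) (CC : Finset (P2 K))
    (cf : K × K → P2 K) (P : Finset (Fin 4 → K)) [DecidableEq (S K)], Curves CC →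
    (∀ x ∈ E, x.1 ≠ x.2 ∧ cf x ∈ CC ∧ ∀ c ∈ CC, ev2 x c = 0 ↔ c = cf x) → Proj P →
    HExc c2 E {inX (∏ c ∈ CC, c), inY (∏ c ∈ CC, c)} P
      fun g l => Inc g l ∧ ¬cf l.1 ∣ pull g (cf l.2)

/-- At most two matrices map a smooth branch to a given smooth branch. -/
def CompSt : Prop :=
  ∀ (K : Type) [Field K] (c c' : P2 K) (x y : K × K) (Z : Finset (Fin 4 → K)), Off (x, y) →
    ev2 x c = 0 → ev2 y c' = 0 → (∀ i, ev2 x (pderiv i c) ≠ 0) → (∀ i, ev2 y (pderiv i c') ≠ 0) →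
    Proj Z → (∀ g ∈ Z, Inc g (x, y) ∧ c ∣ pull g c') → Z.card ≤ 2

/-- T18: the decomposition. -/
def DecSt : Prop :=
  ∀ (K : Type) [Field K] (p ρ : ℕ) (E : Finset (K × K)), 1 ≤ ρ → Poor E (2 * p) →
    (∃ E' ⊆ E, E.card ≤ 2 * E'.card ∧ Poor E' ρ) ∨
    ∃ E' ⊆ E, ∃ (CC : Finset (P2 K)) (cf : K × K → P2 K) (ρ' : ℕ), E.card ≤ 6 * JJ p * E'.card ∧
      ρ ≤ ρ' ∧ ρ' ≤ 2 * p ∧ Fam E' CC cf ρ' ∧
      ((∀ c ∈ CC, 1 ≤ c.degreeOf 0 ∧ 1 ≤ c.degreeOf 1) ∨ (∀ c ∈ CC, c.degreeOf 1 = 0) ∨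
        ∀ c ∈ CC, c.degreeOf 0 = 0)

/-- Regime I. -/
def RegASt : Prop :=
  ∀ c : ℕ, ∃ C : ℕ, ∀ (K : Type) [Field K] [IsAlgClosed K] (p : ℕ) [CharP K p]
    (E : Finset (K × K)) (GG : Finset (Fin 4 → K)) (ρ : ℕ), 1 ≤ p → (∀ x ∈ E, x.1 ≠ x.2) →
    NoAnti E → Proj GG → GG.card ≤ 4 * p ^ 3 → C * JJ p ^ 3 * p ≤ E.card → E.card ^ 2 ≤ p ^ 3 →
    Poor E ρ → ρ ^ 2 ≤ c * E.card → p * En GG E ≤ C * E.card ^ 4

/-- Regime II. -/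
def RegBSt : Prop :=
  ∃ C : ℕ, ∀ (K : Type) [Field K] [IsAlgClosed K] (p : ℕ) [CharP K p]
    (E : Finset (K × K)) (GG : Finset (Fin 4 → K)) (CC : Finset (P2 K)) (cf : K × K → P2 K)
    (ρ : ℕ), 1 ≤ p → (∀ x ∈ E, x.1 ≠ x.2) → NoAnti E → Proj GG → GG.card ≤ 4 * p ^ 3 →
    C * JJ p ^ 3 * p ≤ E.card → E.card ^ 2 ≤ p ^ 3 → Fam E CC cf ρ → ρ ≤ 2 * p →
    12 * E.card ≤ ρ ^ 2 → (∀ c ∈ CC, 1 ≤ c.degreeOf 0 ∧ 1 ≤ c.degreeOf 1) →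
    ∃ E' ⊆ E, E.card ≤ 2 * E'.card ∧ p * En GG E' ≤ C * E'.card ^ 4

/-- T20, first half: lines in a plane hypersurface. -/
def StepSTSt : Prop :=
  ∃ C : ℕ, ∀ (K : Type) [Field K] [IsAlgClosed K] (p : ℕ) [CharP K p] (P L : Finset (K × K))
    (a μ : ℕ), 1 ≤ μ → C * P.card * μ ≤ a ^ 2 → a < p →
    ∃ L' ⊆ L, L'.card ≤ C * a * μ ∧ μ * inc (fun z l => OnL l z) P L ≤
      a * L.card + μ * (μ * P.card + L.card + a ^ 2 + inc (fun z l => OnL l z) P L')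

/-- T20: the Szemeredi-Trotter bound in characteristic `p`. -/
def STSt : Prop :=
  ∃ C : ℕ, ∀ (K : Type) [Field K] [IsAlgClosed K] (p : ℕ) [CharP K p] (P L : Finset (K × K))
    (X : ℕ), 1 ≤ p → P.card ≤ 16 * p ^ 2 → (P.card * L.card) ^ 2 ≤ X ^ 3 →
    p * inc (fun z l => OnL l z) P L ≤ C * (p * (X + P.card + L.card) + P.card * L.card)

/-- T21: the weighted count in one plane. -/
def PlaneSt : Prop :=
  ∃ C : ℕ, ∀ (K : Type) [Field K] [IsAlgClosed K] (p : ℕ) [CharP K p]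
    (P1 P2 L : Finset (K × K)) (D ρ : ℕ), 1 ≤ p → 1 ≤ D → D ≤ ρ → ρ ≤ 2 * p →
    P1.card ≤ 4 * ρ ^ 2 → P2.card ≤ D ^ 2 → (∀ l ∈ L, rr OnL P1 l ≤ 2 * ρ) →
    p * ∑ l ∈ L, rr OnL P1 l *
        rr (fun l (q : (K × K) × (K × K)) => OnL l q.1 ∧ OnL l q.2 ∧ q.1 ≠ q.2) (P1 ×ˢ P2) l ≤
      C * (D ^ 2 * ρ ^ 4 + p * JJ p * D * ρ ^ 3)

/-- Regime III. -/
def RegCSt : Prop :=
  ∃ C : ℕ, ∀ (K : Type) [Field K] [IsAlgClosed K] (p : ℕ) [CharP K p]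
    (E : Finset (K × K)) (GG : Finset (Fin 4 → K)) (A : Finset K) (ρ : ℕ), 1 ≤ p →
    (∀ x ∈ E, x.1 ≠ x.2 ∧ x.1 ∈ A) → Proj GG → JJ p * p ≤ E.card → A.card ≤ ρ → ρ ≤ 2 * p →
    (∀ α ∈ A, ρ ≤ rr (fun α (x : K × K) => x.1 = α) E α ∧
      rr (fun α (x : K × K) => x.1 = α) E α ≤ 2 * ρ) →
    p * En GG E ≤ C * E.card ^ 4

/-- The energy theorem. -/
def EnergySt : Prop :=
  ∃ C : ℕ, ∀ (K : Type) [Field K] [IsAlgClosed K] (p : ℕ) [CharP K p]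
    (E : Finset (K × K)) (GG : Finset (Fin 4 → K)), 1 ≤ p → (∀ x ∈ E, x.1 ≠ x.2) → NoAnti E →
    Proj GG → GG.card ≤ 4 * p ^ 3 → Poor E (2 * p) → C * JJ p ^ 4 * p ≤ E.card →
    E.card ^ 2 ≤ p ^ 3 → ∃ E' ⊆ E, 16 * p ≤ E'.card ∧ p * En GG E' ≤ C * E'.card ^ 4

/-- The plane model of a set on the sphere (M1, M2, M3). -/
def ModelSt : Prop :=
  ∀ (F : Type) [Field F] [Fintype F] [DecidableEq F] (K : Type) [Field K] [IsAlgClosed K]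
    [Algebra F K] (j : F) (E : Finset (Fin 3 → F)), ringChar F ≠ 2 → j ≠ 0 →
    (∀ x ∈ E, ∑ i, x i ^ 2 = j) →
    ∃ (E0 : Finset (K × K)) (GG : Finset (Fin 4 → K)) (ψ : K × K → Fin 3 → F),
      E.card ≤ 2 * E0.card + 2 * Fintype.card F ∧ (∀ x ∈ E0, x.1 ≠ x.2 ∧ ψ x ∈ E) ∧ NoAnti E0 ∧
      Proj GG ∧ GG.card ≤ 4 * Fintype.card F ^ 3 ∧ Poor E0 (2 * Fintype.card F) ∧
      ∀ x ∈ E0, ∀ x' ∈ E0, ∀ y ∈ E0, ∀ y' ∈ E0, ND x x' → ND y y' →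
        ∑ i, (ψ x i - ψ x' i) ^ 2 = ∑ i, (ψ y i - ψ y' i) ^ 2 →
        ∃ g ∈ GG, Inc g (x, y) ∧ Inc g (x', y')

/-- The theorem on the two-dimensional sphere. -/
def SphereSt : Prop :=
  ∃ C : ℕ, 1 ≤ C ∧ ∀ (F : Type) [Field F] [Fintype F] [DecidableEq F] (j : F)
    (E : Finset (Fin 3 → F)), (Fintype.card F).Prime → ringChar F ≠ 2 → j ≠ 0 →
    (∀ x ∈ E, ∑ i, x i ^ 2 = j) → C * JJ (Fintype.card F) ^ 4 * Fintype.card F ≤ E.card →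
    Fintype.card F ≤ C * ((E ×ˢ E).image fun q => ∑ i, (q.1 i - q.2 i) ^ 2).card

end Pool.Agent.Lib.MP_a460e0_co.GK
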