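import Pool.Agent.Lib.MP_a460e0_co.GK.Pit

/-! The step of Lemma B: the reduced part of a polynomial, numerical bounds, counting. -/

namespace Pool.Agent.Lib.MP_a460e0_co.GK.Step

open MvPolynomial

theorem exists_reduced {K A : Type} [Field K] [CommRing A] [IsDomain A] [Algebra K A]
    [UniqueFactorizationMonoid A] (D : Derivation K A A) (F : A) (hF : F ≠ 0) :
    ∃ F1 : A, F1 ∣ F ∧ IsRelPrime F1 (D F1) ∧ ∀ q : Ideal A, q.IsPrime → F ∈ q →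
      F1 ∈ q ∨ ∃ f : A, Prime f ∧ f ∣ F ∧ f ∣ D f ∧ f ∈ q := by
  induction F using UniqueFactorizationMonoid.induction_on_prime with
  | h₁ => exact absurd rfl hF
  | h₂ x hx =>
    exact ⟨1, one_dvd _, isRelPrime_one_left, fun q hq h =>
      absurd (q.eq_top_of_isUnit_mem h hx) hq.ne_top⟩
  | h₃ G π hG hπ ih =>
    obtain ⟨G1, d1, c1, h1⟩ := ih hG
    have step : ∀ q : Ideal A, (∃ f : A, Prime f ∧ f ∣ G ∧ f ∣ D f ∧ f ∈ q) →
        ∃ f : A, Prime f ∧ f ∣ π * G ∧ f ∣ D f ∧ f ∈ q := fun q ⟨f, a, b, c⟩ =>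
      ⟨f, a, b.mul_left π, c⟩
    by_cases e1 : π ∣ D π
    · refine ⟨G1, d1.mul_left π, c1, fun q hq h => ?_⟩
      rcases hq.mem_or_mem h with h | h
      · exact Or.inr ⟨π, hπ, dvd_mul_right _ _, e1, h⟩
      · exact (h1 q hq h).imp_right (step q)
    by_cases e2 : π ∣ G1
    · refine ⟨G1, d1.mul_left π, c1, fun q hq h => ?_⟩
      rcases hq.mem_or_mem h with h | h
      · exact Or.inl (q.mem_of_dvd e2 h)
      · exact (h1 q hq h).imp_right (step q)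
    have G0 : G1 ≠ 0 := fun e => hG (zero_dvd_iff.1 (e ▸ d1))
    refine ⟨π * G1, mul_dvd_mul_left π d1, ?_, fun q hq h => ?_⟩
    · rw [UniqueFactorizationMonoid.isRelPrime_iff_no_prime_factors (mul_ne_zero hπ.ne_zero G0)]
      intro ρ h1' h2' hρ
      rw [Derivation.leibniz, smul_eq_mul, smul_eq_mul] at h2'
      rcases hρ.dvd_or_dvd h1' with h | h
      · have as := (hρ.irreducible.associated_of_dvd hπ.irreducible h)
        have h3 : ρ ∣ G1 * D π := (dvd_add_right (h.mul_right _)).1 h2'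
        rcases hρ.dvd_or_dvd h3 with h4 | h4
        · exact e2 (as.symm.dvd.trans h4)
        · exact e1 (as.symm.dvd.trans h4)
      · have h3 : ρ ∣ π * D G1 := (dvd_add_left (h.mul_right _)).1 h2'
        rcases hρ.dvd_or_dvd h3 with h4 | h4
        · exact e2 ((hρ.irreducible.associated_of_dvd hπ.irreducible h4).symm.dvd.trans h)
        · exact hρ.not_isUnit (c1 h h4)
    · rcases hq.mem_or_mem h with h | h
      · exact Or.inl (q.mul_mem_right _ h)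
      · exact (h1 q hq h).imp (q.mul_mem_left π) (step q)

theorem num1 (a b M : ℕ) (ha : 1 ≤ a) (hb : 1 ≤ b) (hM : 1 ≤ M) :
    a * (a * M + 4) ^ 3 * (b * M + 2) ^ 2 + b * (a * M + 4) ^ 4 * (b * M + 2) ≤
      44100 * a ^ 4 * b ^ 2 * M ^ (3 + 2) := by
  have h1 : a * M + 4 ≤ 5 * (a * M) := by have := Nat.mul_le_mul ha hM; omega
  have h2 : b * M + 2 ≤ 3 * (b * M) := by have := Nat.mul_le_mul hb hM; omega
  calc _ ≤ a * (5 * (a * M)) ^ 3 * (3 * (b * M)) ^ 2 + b * (5 * (a * M)) ^ 4 * (3 * (b * M)) := by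
        gcongr
    _ = 3000 * (a ^ 4 * b ^ 2 * M ^ 5) := by ring
    _ ≤ 44100 * (a ^ 4 * b ^ 2 * M ^ 5) := by gcongr; norm_num
    _ = _ := by ring

theorem num2 (a b M d e : ℕ) (ha : 1 ≤ a) (hb : 1 ≤ b) (hM : 1 ≤ M) (hd : d ≤ 3 * (a * M))
    (he : e ≤ 7 * (b * M)) :
    a ^ 2 * (d + 4) ^ 2 * (e + 2) ^ 2 + 2 * a * (3 * b) * (d + 4) ^ 3 * (e + 2) +
      (3 * b) ^ 2 * (d + 4) ^ 4 ≤ 44100 * a ^ 4 * b ^ 2 * M ^ 4 := by
  have h1 : d + 4 ≤ 7 * (a * M) := by have := Nat.mul_le_mul ha hM; omega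
  have h2 : e + 2 ≤ 9 * (b * M) := by have := Nat.mul_le_mul hb hM; omega
  calc _ ≤ a ^ 2 * (7 * (a * M)) ^ 2 * (9 * (b * M)) ^ 2 +
        2 * a * (3 * b) * (7 * (a * M)) ^ 3 * (9 * (b * M)) + (3 * b) ^ 2 * (7 * (a * M)) ^ 4 := by
        gcongr
    _ = _ := by ring

variable {K : Type} [Field K]

theorem kap_notMem {l : Ln K} (h : Off l) : kap K ∉ mx l := by
  intro e
  have : eval (pt l) (kap K) = 0 := e
  simp only [kap, pt, map_mul, map_sub, eval_X, mul_eq_zero, sub_eq_zero] at this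
  rcases this with c | c
  · exact h.1 c
  · exact h.2 c

theorem mx_prime (l : Ln K) : (mx l).IsPrime := RingHom.ker_isPrime _

theorem count_of [Infinite K] (hc : CountSt) (C : ℕ)
    (hg : ∀ (I : Ideal (S K)) (a b r : ℕ), 1 ≤ b → b ≤ a → r ≤ 3 →
      (∀ ψ, kap K * ψ ∈ I → ψ ∈ I) →
      (∀ M, 1 ≤ M → HF G4 (tilde I) (a * M) (b * M) ≤ 44100 * a ^ 4 * b ^ 2 * M ^ (r + 2)) →
      Grow I r (C * a ^ (2 - (r + 1) / 2) * b ^ (2 - r / 2)))
    (a b r : ℕ) (hb : 1 ≤ b) (hab : b ≤ a) (hr : r ≤ 3) (Z : Finset (Ln K))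
    (P : Ln K → Ideal (S K)) (V : ℕ → Finset (S K)) (v : ℕ → ℕ) (hoff : ∀ l ∈ Z, Off l)
    (hP : ∀ l ∈ Z, (P l).IsPrime ∧ P l ≤ mx l ∧ DimGE (P l) r)
    (hH : ∀ M, 1 ≤ M →
      HF G4 (tilde (Z.inf P)) (a * M) (b * M) ≤ 44100 * a ^ 4 * b ^ 2 * M ^ (r + 2))
    (hV : ∀ i < r, 1 ≤ v i ∧ (∀ φ ∈ V i, φ.totalDegree ≤ v i ∧ ∀ l ∈ Z, φ ∈ mx l) ∧
      ∀ l ∈ Z, ∀ Q : Ideal (S K), Q.IsPrime → P l ≤ Q → Q ≤ mx l → DimGE Q (r - i) →
        ∃ φ ∈ V i, φ ∉ Q) :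
    Z.card ≤ 27 * (C * a ^ (2 - (r + 1) / 2) * b ^ (2 - r / 2)) * ∏ i ∈ Finset.range r, v i := by
  refine hc K r _ Z P V v hr hP (hg _ a b r hb hab hr ?_ hH) hV
  intro ψ h
  rw [Submodule.mem_finsetInf] at h ⊢
  intro l hl
  exact ((hP l hl).1.mem_or_mem (h l hl)).resolve_left fun e =>
    kap_notMem (hoff l hl) ((hP l hl).2.1 e)

theorem exists_W {N : Ideal (R K)} (hN : N.IsPrime) {f0 f1 : R K} (h0 : f0 ∈ N) (h1 : f1 ∈ N) :
    ∃ W : Ideal (R K), W.IsPrime ∧ Ideal.span {f0, f1} ≤ W ∧ W ≤ N ∧ DimGE W 4 := by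
  obtain ⟨W1, p1, -, m1, l1, d1⟩ := exists_cut Ideal.isPrime_bot hN bot_le h0
  obtain ⟨W2, p2, k2, m2, l2, d2⟩ := exists_cut p1 hN l1 h1
  refine ⟨W2, p2, ?_, l2, d2 4 (d1 5 (by simpa using dimGE_bot (K := K) (σ := Fin 6)))⟩
  rw [Ideal.span_le, Set.insert_subset_iff, Set.singleton_subset_iff]
  exact ⟨k2 m1, m2⟩

theorem dvd_Dj {f : R K} (h : f ∣ Der K f) (j : ℕ) : f ∣ Dj j f := by
  induction j with
  | zero => exact dvd_rfl
  | succ j ih =>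
    obtain ⟨g, hg⟩ := ih
    have : Dj (j + 1) f = Der K (Dj j f) := Function.iterate_succ_apply' _ _ _
    rw [this, hg, Derivation.leibniz, smul_eq_mul, smul_eq_mul]
    exact dvd_add (dvd_mul_right _ _) (h.mul_left _)

end Pool.Agent.Lib.MP_a460e0_co.GK.Step
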