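import Pool.Agent.Lib.MP_a460e0_co.GK.StepA

/-! The step of Lemma B: the four classes of lines. -/

namespace Pool.Agent.Lib.MP_a460e0_co.GK.Step

open MvPolynomial

/-- The ring facts used in the step. -/
structure Bas (K : Type) [Field K] : Prop where
  fil : ∀ (f : R K) (a b a' b' : ℕ), a ≤ a' → b ≤ b' → f ∈ Fil K G4 a b → f ∈ Fil K G4 a' b'
  anti : ∀ (I I' : Ideal (R K)) (d e : ℕ), I ≤ I' → HF G4 I' d e ≤ HF G4 I d e
  prime : ∀ I : Ideal (S K), I.IsPrime → (tilde I).IsPrime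
  inf : ∀ (Z : Finset (Ln K)) (P : Ln K → Ideal (S K)) (f : R K), (∀ l ∈ Z, f ∈ tilde (P l)) →
    f ∈ tilde (Z.inf P)
  dj : ∀ (I : Ideal (S K)) (f : R K) (j : ℕ), f ∈ tilde I → Dj j f ∈ tilde I
  djfil : ∀ (f : R K) (a b j : ℕ), f ∈ Fil K G4 a b → Dj j f ∈ Fil K G4 a (b + 2 * j)

variable {K : Type} [Field K]

theorem tilde_le {I I' : Ideal (S K)} (h : I ≤ I') : tilde I ≤ tilde I' :=
  Ideal.comap_mono (Ideal.map_mono h)

/-- The line lies on an `r`-dimensional family of lines of the hypersurface. -/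
def Cl (F : R K) (r : ℕ) (l : Ln K) : Prop :=
  ∃ P : Ideal (S K), P.IsPrime ∧ P ≤ mx l ∧ F ∈ tilde P ∧ DimGE P r

theorem inf_le_tilde (B : Bas K) (Z : Finset (Ln K)) (P : Ln K → Ideal (S K))
    (W : Ln K → Ideal (R K)) (h : ∀ l ∈ Z, W l ≤ tilde (P l)) : Z.inf W ≤ tilde (Z.inf P) :=
  fun f hf => B.inf Z P f fun l hl => h l hl (Submodule.mem_finsetInf.1 hf l hl)

theorem HF_aa (B : Bas K) (h42 : H42St) {F : R K} {a b : ℕ} (ha : 1 ≤ a) (hb : 1 ≤ b)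
    (hF : F ∈ Fil K G4 a b) (hc : IsRelPrime F (Der K F)) (I : Ideal (R K))
    (hI : Ideal.span {F, Der K F} ≤ I) (M d e : ℕ) (hM : 1 ≤ M) (hd : d ≤ 3 * (a * M))
    (he : e ≤ 7 * (b * M)) : HF G4 I d e ≤ 44100 * a ^ 4 * b ^ 2 * M ^ 4 :=
  (B.anti _ _ d e hI).trans (((h42 K).2 F (Der K F) a (3 * b) d e hc
    (B.fil _ _ _ _ _ le_rfl (by omega) hF)
    (B.fil _ _ _ _ _ le_rfl (by omega) (B.djfil F a b 1 hF))).trans (num2 a b M d e ha hb hM hd he))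

open Classical in
/-- One cut by the first derivatives. -/
theorem cutD [Infinite K] (B : Bas K) (hcut : CutSt) (hinv : InvSt) (p : ℕ) [CharP K p]
    {F : R K} {a0 a b r : ℕ} (hh : IsHom G4 F a0) (hp : a0 < p) (hF : F ∈ Fil K G4 a b)
    (Z : Finset (Ln K)) (W N : Ln K → Ideal (R K))
    (h : ∀ l ∈ Z, Off l ∧ ¬Heavy F b l ∧ ¬Cl F r l ∧ (W l).IsPrime ∧ (N l).IsPrime ∧ W l ≤ N l ∧
      N l ≤ Ll l ∧ DimGE (W l) (r + 2) ∧ ∀ j, Dj j F ∈ N l) :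
    ∃ W' : Ln K → Ideal (R K),
      (∀ l ∈ Z, (W' l).IsPrime ∧ W l ≤ W' l ∧ W' l ≤ N l ∧ DimGE (W' l) (r + 1)) ∧
      ∀ d e M : ℕ, M * HF G4 (Z.inf W') d e ≤ HF G4 (Z.inf W) (d + M * a) (e + M * (3 * b)) := by
  refine hcut K 6 G4 (Ln K) Z W N ((Finset.range (b + 1)).image fun j => Dj j F) a (3 * b) (r + 1)
    (fun l hl => ?_) fun φ hφ => ?_
  · obtain ⟨o, nh, nc, p1, p2, l1, l2, dm, dj⟩ := h l hl
    refine ⟨p1, p2, l1, dm, fun φ hφ => ?_, ?_⟩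
    · obtain ⟨j, -, rfl⟩ := Finset.mem_image.1 hφ
      exact dj j
    · by_contra c
      have c1 : ∀ j ≤ b, Dj j F ∈ W l := fun j hj => by
        by_contra c2
        exact c ⟨_, Finset.mem_image_of_mem _ (Finset.mem_range.2 (Nat.lt_succ_of_le hj)), c2⟩
      have c2 : ∀ j, Dj j F ∈ W l := fun j => by
        by_contra c3
        exact nh ⟨W l, p1, l1.trans l2, c1, j, c3⟩
      exact nc (hinv K p F a0 r (W l) l hh hp p1 o (l1.trans l2) c2 dm)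
  · obtain ⟨j, hj, rfl⟩ := Finset.mem_image.1 hφ
    have := Finset.mem_range.1 hj
    exact B.fil _ _ _ _ _ le_rfl (by omega) (B.djfil F a b j hF)

theorem span_le_tilde (B : Bas K) {F : R K} {I : Ideal (S K)} (h : F ∈ tilde I) :
    Ideal.span {F, Der K F} ≤ tilde I := by
  rw [Ideal.span_le, Set.insert_subset_iff, Set.singleton_subset_iff]
  exact ⟨h, B.dj I F 1 h⟩

/-- Hilbert function bound in class one. -/
theorem HF_one [Infinite K] (B : Bas K) (h42 : H42St) (hcut : CutSt) (hinv : InvSt) (p : ℕ)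
    [CharP K p] {F : R K} {a0 a b : ℕ} (ha : 1 ≤ a) (hb : 1 ≤ b) (hh : IsHom G4 F a0)
    (hp : a0 < p) (hF : F ∈ Fil K G4 a b) (hc : IsRelPrime F (Der K F)) (Z : Finset (Ln K))
    (P : Ln K → Ideal (S K))
    (h : ∀ l ∈ Z, Off l ∧ ¬Heavy F b l ∧ ¬Cl F 2 l ∧ (P l).IsPrime ∧ P l ≤ mx l ∧ F ∈ tilde (P l))
    (M : ℕ) (hM : 1 ≤ M) :
    HF G4 (tilde (Z.inf P)) (a * M) (b * M) ≤ 44100 * a ^ 4 * b ^ 2 * M ^ (1 + 2) := by
  have hW : ∀ l, l ∈ Z → ∃ W : Ideal (R K), W.IsPrime ∧ Ideal.span {F, Der K F} ≤ W ∧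
      W ≤ tilde (P l) ∧ DimGE W 4 := fun l hl =>
    exists_W (B.prime _ (h l hl).2.2.2.1) (h l hl).2.2.2.2.2 (B.dj _ F 1 (h l hl).2.2.2.2.2)
  choose! W hW using hW
  obtain ⟨W', h1, h2⟩ := cutD (r := 2) B hcut hinv p hh hp hF Z W (fun l => tilde (P l))
    fun l hl => ⟨(h l hl).1, (h l hl).2.1, (h l hl).2.2.1, (hW l hl).1,
      B.prime _ (h l hl).2.2.2.1, (hW l hl).2.2.1, tilde_le (h l hl).2.2.2.2.1, (hW l hl).2.2.2,
      fun j => B.dj _ F j (h l hl).2.2.2.2.2⟩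
  have k1 := B.anti _ _ (a * M) (b * M) (inf_le_tilde B Z P W' fun l hl => (h1 l hl).2.2.1)
  have k2 := (h2 (a * M) (b * M) M).trans (HF_aa B h42 ha hb hF hc (Z.inf W)
    (Finset.le_inf fun l hl => (hW l hl).2.1) M _ _ hM (by nlinarith) (by nlinarith))
  refine k1.trans (Nat.le_of_mul_le_mul_left (k2.trans (le_of_eq (by ring))) hM)

/-- Hilbert function bound in class zero. -/
theorem HF_zero [Infinite K] (B : Bas K) (h42 : H42St) (hcut : CutSt) (hinv : InvSt) (p : ℕ)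
    [CharP K p] {F : R K} {a0 a b : ℕ} (ha : 1 ≤ a) (hb : 1 ≤ b) (hh : IsHom G4 F a0)
    (hp : a0 < p) (hF : F ∈ Fil K G4 a b) (hc : IsRelPrime F (Der K F)) (Z : Finset (Ln K))
    (h : ∀ l ∈ Z, Off l ∧ ¬Heavy F b l ∧ ¬Cl F 1 l ∧ F ∈ Ll l) (M : ℕ) (hM : 1 ≤ M) :
    HF G4 (tilde (Z.inf mx)) (a * M) (b * M) ≤ 44100 * a ^ 4 * b ^ 2 * M ^ (0 + 2) := by
  have hW : ∀ l, l ∈ Z → ∃ W : Ideal (R K), W.IsPrime ∧ Ideal.span {F, Der K F} ≤ W ∧
      W ≤ Ll l ∧ DimGE W 4 := fun l hl =>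
    exists_W (B.prime _ (mx_prime l)) (h l hl).2.2.2 (B.dj _ F 1 (h l hl).2.2.2)
  choose! W hW using hW
  have n2 : ∀ l ∈ Z, ¬Cl F 2 l := fun l hl ⟨P, c1, c2, c3, c4⟩ =>
    (h l hl).2.2.1 ⟨P, c1, c2, c3, c4.mono one_le_two⟩
  obtain ⟨W', h1, h2⟩ := cutD (r := 2) B hcut hinv p hh hp hF Z W Ll
    fun l hl => ⟨(h l hl).1, (h l hl).2.1, n2 l hl, (hW l hl).1, B.prime _ (mx_prime l),
      (hW l hl).2.2.1, le_rfl, (hW l hl).2.2.2, fun j => B.dj _ F j (h l hl).2.2.2⟩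
  obtain ⟨W'', h3, h4⟩ := cutD (r := 1) B hcut hinv p hh hp hF Z W' Ll
    fun l hl => ⟨(h l hl).1, (h l hl).2.1, (h l hl).2.2.1, (h1 l hl).1, B.prime _ (mx_prime l),
      (h1 l hl).2.2.1, le_rfl, (h1 l hl).2.2.2, fun j => B.dj _ F j (h l hl).2.2.2⟩
  have k1 := B.anti _ _ (a * M) (b * M) (inf_le_tilde B Z mx W'' fun l hl => (h3 l hl).2.2.1)
  have k2 := (Nat.mul_le_mul_left M (h4 (a * M) (b * M) M)).trans ((h2 _ _ M).trans
    (HF_aa B h42 ha hb hF hc (Z.inf W) (Finset.le_inf fun l hl => (hW l hl).2.1) M _ _ hM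
      (by nlinarith) (by nlinarith)))
  refine k1.trans (Nat.le_of_mul_le_mul_left (Nat.le_of_mul_le_mul_left
    (k2.trans (le_of_eq (by ring))) hM) hM)

open Classical in
theorem step_of (hB : ∀ (K : Type) [Field K], Bas K) (hdeg : DegSt) (h42 : H42St) (hcut : CutSt)
    (hinv : InvSt) (hgrow : GrowSt) (hcount : CountSt) : StepSt := by
  obtain ⟨C, hg⟩ := hgrow 44100
  refine ⟨27 * C, fun K _ _ p _ c1 E V1 V2 D T hd F a0 a b hF0 hh hp hF hb hab => ?_⟩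
  have B := hB K
  have ha : 1 ≤ a := hb.trans hab
  obtain ⟨F1, dv, cop, red⟩ := exists_reduced (Der K) F hF0
  obtain ⟨a1, ha1, hh1⟩ := (hdeg K (Fin 6) G4).2 F1 F a0 hF0 dv hh
  have hp1 : a1 < p := ha1.trans_lt hp
  have hF1 : F1 ∈ Fil K G4 a b := by
    obtain ⟨ψ, rfl⟩ := dv
    obtain ⟨x, y, -, k⟩ := (hdeg K (Fin 6) G4).1 ψ (right_ne_zero_of_mul hF0)
    exact B.fil _ _ _ _ _ (Nat.sub_le _ _) (Nat.sub_le _ _)
      (k F1 a b (left_ne_zero_of_mul hF0) (mul_comm F1 ψ ▸ hF)).2.2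
  have off : ∀ l ∈ E ×ˢ E, Off l := fun l hl =>
    ⟨hd.off _ (Finset.mem_product.1 hl).1, hd.off _ (Finset.mem_product.1 hl).2⟩
  have cnt := count_of hcount C (hg K) a b
  have v1 : ∀ Z ⊆ E ×ˢ E, ∀ φ ∈ V1, φ.totalDegree ≤ D ∧ ∀ l ∈ Z, φ ∈ mx l := fun Z hZ φ hφ =>
    ⟨(hd.d1 φ hφ).1, fun l hl => (hd.d1 φ hφ).2 l (hZ hl)⟩
  have v2 : ∀ Z ⊆ E ×ˢ E, ∀ φ ∈ V2, φ.totalDegree ≤ T ∧ ∀ l ∈ Z, φ ∈ mx l := fun Z hZ φ hφ =>
    ⟨(hd.d2 φ hφ).1, fun l hl => (hd.d2 φ hφ).2 l (hZ hl)⟩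
  have w2 : ∀ Q : Ideal (S K), Q.IsPrime → ∀ s, 1 ≤ s → DimGE Q s → ∃ φ ∈ V2, φ ∉ Q := by
    intro Q hQ s hs h
    by_contra c
    exact hd.n1 Q hQ (fun φ hφ => by_contra fun c' => c ⟨φ, hφ, c'⟩) (h.mono hs)
  set Z3 := (E ×ˢ E).filter fun l => Cl F 3 l with hZ3
  set Z2 := (E ×ˢ E).filter fun l => Cl F1 2 l ∧ ¬Exc V1 F1 l with hZ2
  set Z1 := (E ×ˢ E).filter fun l => ¬Heavy F1 b l ∧ ¬Cl F1 2 l ∧ Cl F1 1 l with hZ1
  set Z0 := (E ×ˢ E).filter fun l => ¬Heavy F1 b l ∧ ¬Cl F1 1 l ∧ F1 ∈ Ll l with hZ0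
  have s3 : Z3 ⊆ E ×ˢ E := Finset.filter_subset _ _
  have s2 : Z2 ⊆ E ×ˢ E := Finset.filter_subset _ _
  have s1 : Z1 ⊆ E ×ˢ E := Finset.filter_subset _ _
  have s0 : Z0 ⊆ E ×ˢ E := Finset.filter_subset _ _
  have c3 : Z3.card ≤ 27 * C * (b * D * T ^ 2) := by
    have hP : ∀ l, l ∈ Z3 → Cl F 3 l := fun l hl => (Finset.mem_filter.1 hl).2
    choose! P hP using hP
    refine (cnt 3 hb hab le_rfl Z3 P (fun i => if i = 0 then V1 else V2)
      (fun i => if i = 0 then D else T) (fun l hl => off l (s3 hl))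
      (fun l hl => ⟨(hP l hl).1, (hP l hl).2.1, (hP l hl).2.2.2⟩) (fun M hM => ?_)
      fun i hi => ?_).trans (le_of_eq ?_)
    · refine (B.anti (Ideal.span {F}) _ _ _ ?_).trans
        (((h42 K).1 F a b _ _ hF0 hF).trans (num1 a b M ha hb hM))
      rw [Ideal.span_singleton_le_iff_mem]
      exact B.inf _ _ _ fun l hl => (hP l hl).2.2.1
    · by_cases c : i = 0
      · simp only [c, if_true]
        refine ⟨hd.pD, v1 _ s3, fun l _ Q hQ _ _ h => ?_⟩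
        by_contra c'
        exact hd.n3 Q hQ (fun φ hφ => by_contra fun c'' => c' ⟨φ, hφ, c''⟩) h
      · simp only [c, if_false]
        exact ⟨hd.pT, v2 _ s3, fun l _ Q hQ _ _ h => w2 Q hQ _ (by omega) h⟩
    · simp [Finset.prod_range_succ]; ring
  have c2 : Z2.card ≤ 27 * C * (a * b * D * T) := by
    have hP : ∀ l, l ∈ Z2 → Cl F1 2 l := fun l hl => (Finset.mem_filter.1 hl).2.1
    choose! P hP using hP
    refine (cnt 2 hb hab (by norm_num) Z2 P (fun i => if i = 0 then V1 else V2)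
      (fun i => if i = 0 then D else T) (fun l hl => off l (s2 hl))
      (fun l hl => ⟨(hP l hl).1, (hP l hl).2.1, (hP l hl).2.2.2⟩) (fun M hM => ?_)
      fun i hi => ?_).trans (le_of_eq ?_)
    · exact HF_aa B h42 ha hb hF1 cop _
        (span_le_tilde B (B.inf _ _ _ fun l hl => (hP l hl).2.2.1)) M _ _ hM (by omega) (by omega)
    · by_cases c : i = 0
      · simp only [c, if_true]
        refine ⟨hd.pD, v1 _ s2, fun l hl Q hQ q1 q2 h => ?_⟩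
        by_contra c'
        exact (Finset.mem_filter.1 hl).2.2 ⟨Q, hQ, q2, tilde_le q1 (hP l hl).2.2.1,
          fun φ hφ => by_contra fun c'' => c' ⟨φ, hφ, c''⟩, h⟩
      · simp only [c, if_false]
        exact ⟨hd.pT, v2 _ s2, fun l _ Q hQ _ _ h => w2 Q hQ _ (by omega) h⟩
    · simp [Finset.prod_range_succ]; ring
  have c1' : Z1.card ≤ 27 * C * (a * b ^ 2 * T) := by
    have hP : ∀ l, l ∈ Z1 → Cl F1 1 l := fun l hl => (Finset.mem_filter.1 hl).2.2.2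
    choose! P hP using hP
    refine (cnt 1 hb hab (by norm_num) Z1 P (fun _ => V2) (fun _ => T) (fun l hl => off l (s1 hl))
      (fun l hl => ⟨(hP l hl).1, (hP l hl).2.1, (hP l hl).2.2.2⟩)
      (HF_one B h42 hcut hinv p ha hb hh1 hp1 hF1 cop Z1 P fun l hl => ⟨off l (s1 hl),
        (Finset.mem_filter.1 hl).2.1, (Finset.mem_filter.1 hl).2.2.1, (hP l hl).1, (hP l hl).2.1,
        (hP l hl).2.2.1⟩)
      fun i hi => ⟨hd.pT, v2 _ s1, fun l _ Q hQ _ _ h => w2 Q hQ _ (by omega) h⟩).trans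
      (le_of_eq ?_)
    simp; ring
  have c0 : Z0.card ≤ 27 * C * (a ^ 2 * b ^ 2) := by
    refine (cnt 0 hb hab (by norm_num) Z0 mx (fun _ => V2) (fun _ => T) (fun l hl => off l (s0 hl))
      (fun l _ => ⟨mx_prime l, le_rfl, dimGE_zero (mx_prime l).ne_top⟩)
      (HF_zero B h42 hcut hinv p ha hb hh1 hp1 hF1 cop Z0 fun l hl => ⟨off l (s0 hl),
        (Finset.mem_filter.1 hl).2.1, (Finset.mem_filter.1 hl).2.2.1,
        (Finset.mem_filter.1 hl).2.2.2⟩)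
      fun i hi => absurd hi (Nat.not_lt_zero _)).trans (le_of_eq ?_)
    simp; ring
  refine ⟨F1, Z3 ∪ Z2 ∪ Z1 ∪ Z0, dv, cop, Finset.union_subset (Finset.union_subset
    (Finset.union_subset s3 s2) s1) s0, ?_, fun l hl hFl => ?_⟩
  · have u1 := Finset.card_union_le (Z3 ∪ Z2 ∪ Z1) Z0
    have u2 := Finset.card_union_le (Z3 ∪ Z2) Z1
    have u3 := Finset.card_union_le Z3 Z2
    rw [mul_add, mul_add, mul_add]
    omega
  · by_cases e1 : Heavy F1 b l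
    · exact Or.inr (Or.inl e1)
    by_cases e2 : Exc V1 F1 l
    · exact Or.inr (Or.inr e2)
    refine Or.inl ?_
    simp only [Finset.mem_union, hZ3, hZ2, hZ1, hZ0, Finset.mem_filter]
    rcases red (Ll l) (B.prime _ (mx_prime l)) hFl with k | ⟨f, pf, d1, d2, k⟩
    · by_cases e3 : Cl F1 2 l
      · exact Or.inl (Or.inl (Or.inr ⟨hl, e3, e2⟩))
      by_cases e4 : Cl F1 1 l
      · exact Or.inl (Or.inr ⟨hl, e1, e3, e4⟩)
      · exact Or.inr ⟨hl, e1, e4, k⟩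
    · obtain ⟨a2, ha2, hh2⟩ := (hdeg K (Fin 6) G4).2 f F a0 hF0 d1 hh
      obtain ⟨P, q1, q2, q3, q4⟩ := hinv K p f a2 3 (Ideal.span {f}) l hh2 (ha2.trans_lt hp)
        ((Ideal.span_singleton_prime pf.ne_zero).2 pf) (off l hl)
        ((Ideal.span_singleton_le_iff_mem _).2 k)
        (fun j => Ideal.mem_span_singleton.2 (dvd_Dj d2 j)) (dimGE_span f pf.not_isUnit)
      exact Or.inl (Or.inl (Or.inl ⟨hl, P, q1, q2, (tilde P).mem_of_dvd d1 q3, q4⟩))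

end Pool.Agent.Lib.MP_a460e0_co.GK.Step
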